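import Mathlib
import Pool.Agent.H71.DN.Defs

/-!
Definitions for the Havet-Yu theorem for sparse expanders (project EX): nearly regular graphs that
are edge expanders and far from bipartite, with `N ^ 20 Δ ≤ n ≤ exp N`.

Plan.  A proper vertex labelling `c` with `m0 ≤ Δ - 4 Δ / N ^ 8` labels and windows
`W t = {v : |c v - t| < p}` of even complement is found first (rows Np .. Col). For every label
`t < T = m0 + p - 1` a perfect matching of the unused edges on the complement of `W t` is extracted by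
Edmonds' perfect matching theorem (rows Ea .. Ed) from a fractional one: constant on the main graph,
and corrected on a random reserve `R` by a linear system (rows La, Lb); a `cosh` potential keeps the
degrees close to their reference values (rows Ch .. Pi). The last labels use Vizing's theorem.
-/

set_option autoImplicit false

namespace Pool.Agent.H71.EX

open Finset Classical
open Pool.Agent.H71.DN

/-- The number of neighbours of `v` in `A`. -/
noncomputable def dn {V : Type} [Fintype V] (G : SimpleGraph V) (v : V) (A : Finset V) : ℕ :=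
  (A.filter fun u => G.Adj v u).card

/-- `G` is nearly `Δ`-regular, an edge expander and far from bipartite (with quality `N`). -/
structure Xp {V : Type} [Fintype V] (G : SimpleGraph V) (Δ N : ℕ) : Prop where
  hN : 1000 ≤ N
  hΔ : N ^ 60 ≤ Δ
  n1 : N ^ 20 * Δ ≤ Fintype.card V
  n2 : (Fintype.card V : ℝ) ≤ Real.exp N
  up : ∀ v, dg G v ≤ Δ
  lo : ∀ v, (Δ : ℝ) - Δ / (N : ℝ) ^ 20 ≤ dg G v
  ex : ∀ S : Finset V, 2 * S.card ≤ Fintype.card V →
    (Δ : ℝ) / N * S.card ≤ ee G S (univ \ S)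
  nb : ∀ A B : Finset V, Disjoint A B →
    (Δ : ℝ) / N * (A.card + B.card) + 2 * ee G A B ≤ Δ * (A.card + B.card)

/-- The solvability condition of the linear system on a reserve graph `F`. -/
def Lc {V : Type} [Fintype V] (F : SimpleGraph V) (g : ℝ) : Prop :=
  ∀ P Q : Finset V, Disjoint P Q →
    g * (P.card + Q.card) + 2 * ee F P Q ≤ ∑ v ∈ P ∪ Q, (dg F v : ℝ)

/-- Fractional perfect matchings that satisfy the odd set conditions. -/
structure FP {V : Type} [Fintype V] (x : V → V → ℝ) : Prop where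
  symm : ∀ u v, x u v = x v u
  nn : ∀ u v, 0 ≤ x u v
  diag : ∀ v, x v v = 0
  sum : ∀ v, ∑ u, x v u = 1
  odd : ∀ S : Finset V, Odd S.card → 1 ≤ ∑ v ∈ S, ∑ u ∈ univ \ S, x v u

/-- For every cost there is a perfect matching inside the support of `x` which is at most as
expensive as `x` (the conclusion of Edmonds' theorem). -/
def Ed {V : Type} [Fintype V] (x : V → V → ℝ) : Prop :=
  ∀ f : V → V → ℝ, ∃ π : V → V, (∀ v, π (π v) = v) ∧ (∀ v, 0 < x v (π v)) ∧
    ∑ v, f v (π v) ≤ ∑ v, ∑ u, x v u * f v u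

/-- The data of the process: the graph `G`, the reserve `R`, the number of steps `T` and the sets `W t`
of vertices that are left uncovered in step `t`. -/
structure Pc {V : Type} [Fintype V] (G R : SimpleGraph V) (Δ N T w0 : ℕ) (W : ℕ → Finset V) :
    Prop where
  xp : Xp G Δ N
  le : R ≤ G
  rd : ∀ v, |(dg R v : ℝ) - dg G v / (N : ℝ) ^ 8| ≤ Δ / (N : ℝ) ^ 20
  rb : ∀ A B : Finset V, Disjoint A B →
    (ee R A B : ℝ) ≤ ee G A B / (N : ℝ) ^ 8 + Δ / (N : ℝ) ^ 20 * (A.card + B.card)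
  rc : ∀ S : Finset V,
    (ee G S (univ \ S) : ℝ) / (N : ℝ) ^ 8 - Δ / (N : ℝ) ^ 20 * S.card ≤ ee R S (univ \ S)
  hT : (T : ℝ) ≤ Δ - 3 * (Δ / (N : ℝ) ^ 8)
  hw : (w0 : ℝ) ≤ Δ / (N : ℝ) ^ 29
  wc : ∀ v, ((range T).filter fun t => v ∈ W t).card ≤ w0
  wd : ∀ t < T, ∀ v, (dn G v (W t) : ℝ) ≤ Δ / (N : ℝ) ^ 20
  ev : ∀ t < T, Even (univ \ W t).card

/-- The reference degree (in the main graph) at time `t`. -/
noncomputable def Db (Δ N t : ℕ) : ℝ :=
  (1 - 1 / (N : ℝ) ^ 8) * Δ - (1 - 1 / (N : ℝ) ^ 10) * t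

/-- The deviation of `v` at time `t`, where `U` is the graph of the unused edges. -/
noncomputable def dl {V : Type} [Fintype V] (R : SimpleGraph V) (Δ N t : ℕ) (U : SimpleGraph V)
    (v : V) : ℝ :=
  Db Δ N t - dg (U \ R) v

/-- The compensation of `v` at time `t` for the sets `W s`, `s < t`. -/
noncomputable def aa {V : Type} [Fintype V] (G : SimpleGraph V) (W : ℕ → Finset V) (Δ N t : ℕ)
    (v : V) : ℝ :=
  ∑ s ∈ range t, ((if v ∈ W s then (1 : ℝ) else 0) + (dn G v (W s) : ℝ) / Db Δ N s)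

/-- The state of the process at time `t`: `U` is the graph of the unused edges. -/
structure Sg {V : Type} [Fintype V] (G R : SimpleGraph V) (Δ N t : ℕ) (W : ℕ → Finset V)
    (U : SimpleGraph V) : Prop where
  le : U ≤ G
  deg : ∀ v, dg U v + t = dg G v + ((range t).filter fun s => v ∈ W s).card
  pot : ∑ v, Real.cosh (dl R Δ N t U v / (N : ℝ) ^ 11) *
      Real.exp (- (aa G W Δ N t v / (N : ℝ) ^ 11)) ≤
    Fintype.card V * Real.exp (2 * Δ / (N : ℝ) ^ 31 + 2 * t / (N : ℝ) ^ 32)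

/-- `v` has two different neighbours in `X` without neighbours in `X`. -/
def Ev {V : Type} (G : SimpleGraph V) (X : Finset V) (v : V) : Prop :=
  ∃ a ∈ X, ∃ b ∈ X, a ≠ b ∧ G.Adj v a ∧ G.Adj v b ∧ (∀ u ∈ X, ¬ G.Adj a u) ∧
    ∀ u ∈ X, ¬ G.Adj b u

/-- The ordered pairs of different non-adjacent neighbours of `v` in `C`. -/
noncomputable def np2 {V : Type} [Fintype V] (G : SimpleGraph V) (C : Finset V) (v : V) :
    Finset (V × V) :=
  (C ×ˢ C).filter fun x => G.Adj v x.1 ∧ G.Adj v x.2 ∧ x.1 ≠ x.2 ∧ ¬ G.Adj x.1 x.2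

/-- The sparse random classes. -/
structure Sx {V : Type} [Fintype V] (G : SimpleGraph V) (Δ N m0 : ℕ) (X : ℕ → Finset V) :
    Prop where
  dis : ∀ i < m0, ∀ j < m0, i ≠ j → Disjoint (X i) (X j)
  sz : ∀ j < m0, 16 * Δ * (X j).card ≤ Fintype.card V
  fr : ∀ j < m0, ∀ v, dn G v (X j) ≤ 3 * N
  ev : ∀ v, (Δ : ℝ) / (100 * (N : ℝ) ^ 7) ≤ ((range m0).filter fun j => Ev G (X j) v).card

/-- The switchers `s j`, `j < m0 - 1`. -/
structure Sw {V : Type} [Fintype V] (G : SimpleGraph V) (Δ N m0 : ℕ) (X : ℕ → Finset V)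
    (s : ℕ → V) : Prop where
  inj : ∀ i < m0 - 1, ∀ j < m0 - 1, s i = s j → i = j
  nX : ∀ j < m0 - 1, ∀ i < m0, s j ∉ X i
  nj : ∀ j < m0 - 1, ∀ u, u ∈ X j ∨ u ∈ X (j + 1) → ¬ G.Adj (s j) u
  ns : ∀ j, j + 1 < m0 - 1 → ¬ G.Adj (s j) (s (j + 1))
  fw : ∀ v, (dn G v ((range (m0 - 1)).image s) : ℝ) ≤ Δ / (N : ℝ) ^ 19

/-- A colouring that stays proper when the colour `j` of some switchers `s j` is changed to
`j + 1`. -/
structure Bc {V : Type} [Fintype V] (G : SimpleGraph V) (m0 fr : ℕ) (s : ℕ → V) (c : V → ℕ) :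
    Prop where
  lt : ∀ v, c v < m0
  inj : ∀ i < m0 - 1, ∀ j < m0 - 1, s i = s j → i = j
  cs : ∀ j < m0 - 1, c (s j) = j
  p1 : ∀ u v, G.Adj u v → (∀ j < m0 - 1, u ≠ s j) → (∀ j < m0 - 1, v ≠ s j) → c u ≠ c v
  p2 : ∀ j < m0 - 1, ∀ v, (∀ i < m0 - 1, v ≠ s i) → G.Adj (s j) v → c v ≠ j ∧ c v ≠ j + 1
  p3 : ∀ i < m0 - 1, ∀ j < m0 - 1, G.Adj (s i) (s j) → i + 1 < j ∨ j + 1 < i
  fr : ∀ v j, (univ.filter fun u => G.Adj v u ∧ c u = j).card ≤ fr

end Pool.Agent.H71.EX
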