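import Mathlib
import Pool.Agent.H71.EX.Defs

/-!
NP: every neighbourhood contains many non-adjacent pairs.

Proof.  Let `B = N(v)` (`univ.filter (G.Adj v)`, `#B = dg G v =: d`), `S = insert v B`, `#S = d + 1 ≤ Δ + 1`, so
`2 #S ≤ #V` by `n1` (`Δ ≥ 1`, `N ^ 20 ≥ 4`). `ex`: `(Δ / N) (d + 1) ≤ ee G S (univ \ S) = ∑ a ∈ S, #(N(a) \ S)`, and the
term of `a = v` is `0`. For `a ∈ B`: the number of `b ∈ B` with `b ≠ a`, `¬ G.Adj a b` is
`d - 1 - #(N(a) ∩ B)`, and `dg G a = #(N(a) ∩ B) + 1 + #(N(a) \ S)` (`v ∈ N(a)`, `v ∉ B`), so it is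
`d - dg G a + #(N(a) \ S) ≥ #(N(a) \ S) - Δ / N ^ 20` (`lo` for `v`, `up` for `a`). Sum over `a ∈ B`:
`#(np2 G univ v) ≥ (Δ / N) (d + 1) - (Δ / N ^ 20) d ≥ (Δ / N - Δ / N ^ 20) d ≥
(Δ / N - Δ / N ^ 20) (Δ - Δ / N ^ 20) ≥ Δ ^ 2 / (2 N)`.
-/

set_option autoImplicit false

namespace Pool.Agent.H71.EX

open Finset Classical
open Pool.Agent.H71.DN

lemma np_count {V : Type} [Fintype V] (G : SimpleGraph V) (v a : V) (ha : G.Adj v a) :
    ((univ.filter fun u => G.Adj v u).filter fun b => a ≠ b ∧ ¬ G.Adj a b).card + dg G a =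
      dg G v + ((univ \ insert v (univ.filter fun u => G.Adj v u)).filter
        fun u => G.Adj a u).card := by
  set B := univ.filter fun u => G.Adj v u with hB
  have hvB : v ∉ B := by simp [hB]
  have haB : a ∈ B := by simp [hB, ha]
  -- split of the neighbourhood of `a`
  have h1 : (univ.filter fun u => G.Adj a u) =
      insert v ((B.filter fun u => G.Adj a u) ∪
        ((univ \ insert v B).filter fun u => G.Adj a u)) := by
    ext u
    simp only [mem_filter, mem_univ, true_and, mem_insert, mem_union, mem_sdiff]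
    constructor
    · intro h
      by_cases h1 : u = v
      · exact Or.inl h1
      · by_cases h2 : u ∈ B
        · exact Or.inr (Or.inl ⟨h2, h⟩)
        · exact Or.inr (Or.inr ⟨by tauto, h⟩)
    · rintro (h | h | h)
      · rw [h]; exact ha.symm
      · exact h.2
      · exact h.2
  have h2 : dg G a = (B.filter fun u => G.Adj a u).card +
      ((univ \ insert v B).filter fun u => G.Adj a u).card + 1 := by
    unfold dg
    rw [h1, card_insert_of_notMem, card_union_of_disjoint]
    · rw [Finset.disjoint_left]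
      intro u hu hu'
      simp only [mem_filter, mem_sdiff, mem_univ, true_and, mem_insert] at hu hu'
      exact hu'.1 (Or.inr hu.1)
    · simp only [mem_union, mem_filter, mem_sdiff, mem_univ, true_and, mem_insert]
      rintro (h | h)
      · exact hvB h.1
      · exact h.1 (by simp)
  -- split of `B`
  have h3 : B = insert a ((B.filter fun b => a ≠ b ∧ ¬ G.Adj a b) ∪
      (B.filter fun u => G.Adj a u)) := by
    ext u
    simp only [mem_insert, mem_union, mem_filter]
    constructor
    · intro h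
      by_cases h1 : u = a
      · exact Or.inl h1
      · by_cases h2 : G.Adj a u
        · exact Or.inr (Or.inr ⟨h, h2⟩)
        · exact Or.inr (Or.inl ⟨h, Ne.symm h1, h2⟩)
    · rintro (h | h | h)
      · rw [h]; exact haB
      · exact h.1
      · exact h.1
  have h4 : B.card = (B.filter fun b => a ≠ b ∧ ¬ G.Adj a b).card +
      (B.filter fun u => G.Adj a u).card + 1 := by
    conv_lhs => rw [h3]
    rw [card_insert_of_notMem, card_union_of_disjoint]
    · rw [Finset.disjoint_left]
      intro u hu hu'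
      simp only [mem_filter] at hu hu'
      exact hu.2.2 hu'.2
    · simp only [mem_union, mem_filter]
      rintro (h | h)
      · exact h.2.1 rfl
      · exact G.loopless.irrefl a h.2
  have h5 : dg G v = B.card := rfl
  rw [h2, h5, h4]
  ring

lemma np_ee {V : Type} [Fintype V] (G : SimpleGraph V) (A C : Finset V) :
    ee G A C = ∑ a ∈ A, (C.filter fun u => G.Adj a u).card := by
  unfold ee
  rw [Finset.card_filter, Finset.sum_product]
  apply Finset.sum_congr rfl
  intro a _
  rw [Finset.card_filter]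

lemma np_sum {V : Type} [Fintype V] (G : SimpleGraph V) (v : V) :
    (np2 G univ v).card = ∑ a ∈ univ.filter (fun u => G.Adj v u),
      ((univ.filter fun u => G.Adj v u).filter fun b => a ≠ b ∧ ¬ G.Adj a b).card := by
  unfold np2
  rw [Finset.card_filter, Finset.sum_product, Finset.sum_filter]
  apply Finset.sum_congr rfl
  intro a _
  rw [Finset.card_filter, Finset.sum_filter]
  by_cases ha : G.Adj v a
  · rw [if_pos ha]
    apply Finset.sum_congr rfl
    intro b _
    by_cases hb : G.Adj v b <;> by_cases h1 : a = b <;> by_cases h2 : G.Adj a b <;>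
      simp [ha, hb, h1, h2]
  · rw [if_neg ha]
    apply Finset.sum_eq_zero
    intro b _
    simp [ha]

theorem np {V : Type} [Fintype V] (G : SimpleGraph V) (Δ N : ℕ) (h : Xp G Δ N) (v : V) :
    (Δ : ℝ) ^ 2 / (2 * N) ≤ (np2 G univ v).card := by
  have hN := h.hN
  have hN0 : (1000 : ℝ) ≤ N := by exact_mod_cast hN
  have hNpos : (0 : ℝ) < N := by linarith
  have hΔ1 : 1 ≤ Δ := le_trans (Nat.one_le_pow _ _ (by omega)) h.hΔ
  set B := univ.filter fun u => G.Adj v u with hB
  set S := insert v B with hS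
  have hvB : v ∉ B := by simp [hB]
  have hBd : B.card = dg G v := rfl
  have hScard : S.card = dg G v + 1 := by rw [hS, card_insert_of_notMem hvB, hBd]
  have hup : dg G v ≤ Δ := h.up v
  have hlo := h.lo v
  -- expansion
  have h20 : 4 ≤ N ^ 20 := by
    calc 4 ≤ N := by omega
      _ = N ^ 1 := (pow_one _).symm
      _ ≤ N ^ 20 := Nat.pow_le_pow_right (by omega) (by norm_num)
  have hhalf : 2 * S.card ≤ Fintype.card V := by
    rw [hScard]
    calc 2 * (dg G v + 1) ≤ 4 * Δ := by omega
      _ ≤ N ^ 20 * Δ := Nat.mul_le_mul_right _ h20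
      _ ≤ _ := h.n1
  have hex := h.ex S hhalf
  have hee : ee G S (univ \ S) = ∑ a ∈ B, ((univ \ S).filter fun u => G.Adj a u).card := by
    rw [np_ee, hS, Finset.sum_insert hvB]
    have : ((univ \ insert v B).filter fun u => G.Adj v u) = ∅ := by
      rw [Finset.filter_eq_empty_iff]
      intro u hu hvu
      simp only [mem_sdiff, mem_univ, true_and, mem_insert, not_or] at hu
      exact hu.2 (by simp [hB, hvu])
    rw [this, card_empty, zero_add]
  -- count
  have hsum : ((np2 G univ v).card : ℝ) + B.card * Δ ≥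
      B.card * dg G v + ee G S (univ \ S) := by
    rw [np_sum, hee]
    push_cast
    rw [← nsmul_eq_mul, ← nsmul_eq_mul, ← Finset.sum_const, ← Finset.sum_const,
      ← Finset.sum_add_distrib, ← Finset.sum_add_distrib]
    apply Finset.sum_le_sum
    intro a ha
    have hva : G.Adj v a := by simpa [hB] using ha
    have h1 := np_count G v a hva
    have h2 : dg G a ≤ Δ := h.up a
    have h1' : ((B.filter fun b => a ≠ b ∧ ¬ G.Adj a b).card : ℝ) + dg G a =
        dg G v + ((univ \ S).filter fun u => G.Adj a u).card := by exact_mod_cast h1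
    have h2' : (dg G a : ℝ) ≤ Δ := by exact_mod_cast h2
    linarith
  -- numbers
  set d : ℝ := (dg G v : ℝ) with hd
  set D : ℝ := (Δ : ℝ) with hD
  have hD0 : 0 < D := by rw [hD]; exact_mod_cast hΔ1
  have hd0 : 0 ≤ d := by rw [hd]; positivity
  have hdD : d ≤ D := by rw [hd, hD]; exact_mod_cast hup
  have hSc : (S.card : ℝ) = d + 1 := by rw [hScard]; push_cast; rfl
  rw [hSc] at hex
  have hBc : (B.card : ℝ) = d := by rw [hBd]
  rw [hBc] at hsum
  set M : ℝ := (N : ℝ) ^ 20 with hM
  have hM0 : 4 * (N : ℝ) ≤ M := by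
    have h1 : (N : ℝ) ^ 20 = N ^ 19 * N := by ring
    have h2 : (4 : ℝ) ≤ (N : ℝ) ^ 19 := by
      calc (4 : ℝ) ≤ N := by linarith
        _ = (N : ℝ) ^ 1 := (pow_one _).symm
        _ ≤ (N : ℝ) ^ 19 := pow_le_pow_right₀ (by linarith) (by norm_num)
    rw [hM, h1]
    exact mul_le_mul_of_nonneg_right h2 hNpos.le
  have hMpos : 0 < M := by linarith
  have e1 : D / M ≤ D / (4 * N) := by
    apply div_le_div_of_nonneg_left hD0.le (by positivity) hM0
  have e2 : D / (4 * N) = D / N / 4 := by field_simp
  have e3 : D / M ≤ D / 4 := by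
    apply div_le_div_of_nonneg_left hD0.le (by norm_num)
    linarith
  have e4 : 0 ≤ D / N := by positivity
  have e5 : 3 / 4 * D ≤ d := by linarith
  -- `np ≥ d (d - D) + (D / N) (d + 1)`
  have e6 : D / N * (d + 1) + d * (d - D) ≤ (np2 G univ v).card := by nlinarith
  have e7 : -(D / M) ≤ d - D := by linarith
  have e8 : d * (-(D / M)) ≤ d * (d - D) := mul_le_mul_of_nonneg_left e7 hd0
  have e9 : d * (D / M) ≤ d * (D / N / 4) := mul_le_mul_of_nonneg_left (by linarith) hd0
  have e10 : D / N * (3 / 4 * D) ≤ D / N * d := mul_le_mul_of_nonneg_left e5 e4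
  have e11 : D ^ 2 / (2 * N) = D / N * (1 / 2 * D) := by field_simp
  have e12 : D / N * (1 / 2 * D) ≤ D / N * (9 / 16 * D) :=
    mul_le_mul_of_nonneg_left (by linarith) e4
  rw [e11]
  nlinarith

end Pool.Agent.H71.EX
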