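import Mathlib
import Pool.Agent.H71.EX.Defs

/-!
GR: greedy colouring with a potential.

Proof.  `n = #V`. Colour the vertices `u ∉ D0` one after another; `D ⊇ D0` is the set of the coloured vertices, `c` the
current colouring (equal to `c1` on `D0`). For `v : V`, `j < m0` let `f v j = #{w ∈ D : G.Adj v w, c w = j}`,
`k v = #{w ∈ D \ D0 : G.Adj v w}`, and `Ψ = ∑ v, ∑ j ∈ range m0, exp (f v j - (2 / φ) k v)`. Let `u ∉ D`, and let
`F` be the set of the `j < m0` with `j ∉ Fb u` and `c w ≠ j` for all `w ∈ D` with `G.Adj u w`; `φ ≤ #F` by `hfree`.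
If `u` gets the colour `j0 ∈ F`, only the `v` with `G.Adj v u` are affected: `k v` increases by `1`, `f v j0` by `1`.
Sum of the new potentials over `j0 ∈ F`: for `v` with `G.Adj v u`
`exp (- 2 / φ) (#F Ψ_v + (exp 1 - 1) ∑ j0 ∈ F, exp (f v j0 - (2/φ) k v)) ≤ exp (- 2 / φ) (#F + 2) Ψ_v ≤ #F Ψ_v`
(`Ψ_v` the part of `v`; `1 + 2 / #F ≤ 1 + 2 / φ ≤ exp (2 / φ)`). So some `j0 ∈ F` does not increase `Ψ`; take it
(`F` is nonempty, `φ > 0`). At the start `Ψ ≤ n m0 exp B` (`hB`). At the end, for `v`, `j < m0`: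
`exp (f v j - (2 / φ) Δ) ≤ Ψ ≤ n m0 exp B` (`k v ≤ dg G v ≤ Δ`), so
`f v j ≤ B + 2 Δ / φ + log (n m0)` (`n m0 ≥ 1` as `v` and `j` exist).
The new vertex `u` has `c u ∈ F`, so it is properly coloured with respect to the vertices of `D`; later vertices
see `u ∈ D`.
-/

set_option autoImplicit false

namespace Pool.Agent.H71.EX

open Finset Classical
open Pool.Agent.H71.DN

noncomputable def Gr_f {V : Type} [Fintype V] (G : SimpleGraph V) (D : Finset V) (c : V → ℕ)
    (v : V) (j : ℕ) : ℕ := (D.filter fun w => G.Adj v w ∧ c w = j).card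

noncomputable def Gr_k {V : Type} [Fintype V] (G : SimpleGraph V) (D0 D : Finset V)
    (v : V) : ℕ := ((D \ D0).filter fun w => G.Adj v w).card

noncomputable def Gr_P {V : Type} [Fintype V] (G : SimpleGraph V) (m0 : ℕ) (φ : ℝ)
    (D0 D : Finset V) (c : V → ℕ) : ℝ :=
  ∑ v, ∑ j ∈ range m0, Real.exp ((Gr_f G D c v j : ℝ) - 2 / φ * (Gr_k G D0 D v : ℝ))

theorem Gr_f_insert {V : Type} [Fintype V] (G : SimpleGraph V) (D : Finset V) (c : V → ℕ)
    (u : V) (hu : u ∉ D) (j0 : ℕ) (v : V) (j : ℕ) :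
    Gr_f G (insert u D) (Function.update c u j0) v j =
      Gr_f G D c v j + (if G.Adj v u ∧ j0 = j then 1 else 0) := by
  unfold Gr_f
  rw [Finset.filter_insert]
  have h1 : (D.filter fun w => G.Adj v w ∧ Function.update c u j0 w = j) =
      (D.filter fun w => G.Adj v w ∧ c w = j) := by
    apply Finset.filter_congr
    intro w hw
    have h2 : w ≠ u := fun h => hu (h ▸ hw)
    rw [Function.update_of_ne h2]
  rw [h1, Function.update_self]
  by_cases h : G.Adj v u ∧ j0 = j
  · rw [if_pos h, if_pos h, Finset.card_insert_of_notMem]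
    intro h3
    exact hu (Finset.mem_filter.mp h3).1
  · rw [if_neg h, if_neg h, add_zero]

theorem Gr_k_insert {V : Type} [Fintype V] (G : SimpleGraph V) (D0 D : Finset V)
    (u : V) (hu : u ∉ D) (h0 : D0 ⊆ D) (v : V) :
    Gr_k G D0 (insert u D) v = Gr_k G D0 D v + (if G.Adj v u then 1 else 0) := by
  unfold Gr_k
  have hu0 : u ∉ D0 := fun h => hu (h0 h)
  rw [Finset.insert_sdiff_of_notMem _ hu0, Finset.filter_insert]
  by_cases h : G.Adj v u
  · rw [if_pos h, if_pos h, Finset.card_insert_of_notMem]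
    intro h3
    exact hu (Finset.mem_sdiff.mp (Finset.mem_filter.mp h3).1).1
  · rw [if_neg h, if_neg h, add_zero]

theorem Gr_one (m0 : ℕ) (F : Finset ℕ) (hF : F ⊆ range m0) (φ : ℝ) (hφ : 0 < φ)
    (h : φ ≤ F.card) (E : ℕ → ℝ) (hE : ∀ j, 0 ≤ E j) :
    ∑ j0 ∈ F, ∑ j ∈ range m0, E j * Real.exp ((if j0 = j then (1 : ℝ) else 0) - 2 / φ) ≤
      F.card * ∑ j ∈ range m0, E j := by
  obtain ⟨S, hS⟩ : ∃ S, S = ∑ j ∈ range m0, E j := ⟨_, rfl⟩
  have hS0 : 0 ≤ S := by rw [hS]; exact Finset.sum_nonneg fun j _ => hE j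
  have h1 : ∀ j0 ∈ F, ∑ j ∈ range m0, E j * Real.exp ((if j0 = j then (1 : ℝ) else 0) - 2 / φ) =
      Real.exp (-(2 / φ)) * (S + (Real.exp 1 - 1) * E j0) := by
    intro j0 hj0
    have h2 : ∀ j ∈ range m0, E j * Real.exp ((if j0 = j then (1 : ℝ) else 0) - 2 / φ) =
        Real.exp (-(2 / φ)) * (E j + (if j0 = j then (Real.exp 1 - 1) * E j0 else 0)) := by
      intro j _
      by_cases hj : j0 = j
      · subst hj
        rw [if_pos rfl, if_pos rfl, sub_eq_add_neg, Real.exp_add]
        ring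
      · rw [if_neg hj, if_neg hj, zero_sub]
        ring
    rw [Finset.sum_congr rfl h2, ← Finset.mul_sum, Finset.sum_add_distrib, ← hS,
      Finset.sum_ite_eq, if_pos (hF hj0)]
  rw [Finset.sum_congr rfl h1, ← Finset.mul_sum, Finset.sum_add_distrib, ← Finset.mul_sum,
    Finset.sum_const, nsmul_eq_mul, ← hS]
  have h3 : ∑ j ∈ F, E j ≤ S := by
    rw [hS]; exact Finset.sum_le_sum_of_subset_of_nonneg hF fun j _ _ => hE j
  have h3' : 0 ≤ ∑ j ∈ F, E j := Finset.sum_nonneg fun j _ => hE j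
  have he : Real.exp 1 - 1 ≤ 2 := by
    have := Real.exp_one_lt_d9; linarith
  have he0 : 0 ≤ Real.exp 1 - 1 := by
    have := Real.add_one_le_exp (1 : ℝ); linarith
  have h4 : (Real.exp 1 - 1) * ∑ j ∈ F, E j ≤ 2 * S :=
    mul_le_mul he h3 h3' (by norm_num)
  have h5 : Real.exp (-(2 / φ)) * ((F.card : ℝ) * S + (Real.exp 1 - 1) * ∑ j ∈ F, E j) ≤
      Real.exp (-(2 / φ)) * (((F.card : ℝ) + 2) * S) := by
    apply mul_le_mul_of_nonneg_left _ (Real.exp_pos _).le
    linarith
  have h6 : Real.exp (-(2 / φ)) * ((F.card : ℝ) + 2) ≤ F.card := by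
    have h7 : (F.card : ℝ) + 2 ≤ F.card * Real.exp (2 / φ) := by
      have h8 := Real.add_one_le_exp (2 / φ)
      have h9 : (F.card : ℝ) * (2 / φ + 1) ≤ F.card * Real.exp (2 / φ) :=
        mul_le_mul_of_nonneg_left h8 (Nat.cast_nonneg _)
      have h10 : (2 : ℝ) ≤ F.card * (2 / φ) := by
        have h11 : φ * (2 / φ) ≤ F.card * (2 / φ) :=
          mul_le_mul_of_nonneg_right h (by positivity)
        have h12 : φ * (2 / φ) = 2 := by field_simp
        linarith
      linarith
    calc Real.exp (-(2 / φ)) * ((F.card : ℝ) + 2)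
        ≤ Real.exp (-(2 / φ)) * (F.card * Real.exp (2 / φ)) :=
          mul_le_mul_of_nonneg_left h7 (Real.exp_pos _).le
      _ = F.card * (Real.exp (-(2 / φ)) * Real.exp (2 / φ)) := by ring
      _ = F.card := by rw [← Real.exp_add, neg_add_cancel, Real.exp_zero, mul_one]
  calc Real.exp (-(2 / φ)) * ((F.card : ℝ) * S + (Real.exp 1 - 1) * ∑ j ∈ F, E j)
      ≤ Real.exp (-(2 / φ)) * (((F.card : ℝ) + 2) * S) := h5
    _ = (Real.exp (-(2 / φ)) * ((F.card : ℝ) + 2)) * S := by ring
    _ ≤ F.card * S := mul_le_mul_of_nonneg_right h6 hS0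

theorem Gr_step {V : Type} [Fintype V] (G : SimpleGraph V) (m0 : ℕ) (φ : ℝ) (hφ : 0 < φ)
    (D0 D : Finset V) (c : V → ℕ) (u : V) (hu : u ∉ D) (h0 : D0 ⊆ D) (F : Finset ℕ)
    (hF : F ⊆ range m0) (h : φ ≤ F.card) :
    ∃ j0 ∈ F, Gr_P G m0 φ D0 (insert u D) (Function.update c u j0) ≤ Gr_P G m0 φ D0 D c := by
  have hne : F.Nonempty := by
    rw [← Finset.card_pos]
    have : (0 : ℝ) < F.card := lt_of_lt_of_le hφ h
    exact_mod_cast this
  apply Finset.exists_le_of_sum_le hne
  rw [Finset.sum_const, nsmul_eq_mul]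
  unfold Gr_P
  rw [Finset.sum_comm, Finset.mul_sum]
  apply Finset.sum_le_sum
  intro v _
  by_cases hv : G.Adj v u
  · have h1 : ∀ j0 ∈ F, ∑ j ∈ range m0, Real.exp
        ((Gr_f G (insert u D) (Function.update c u j0) v j : ℝ) -
          2 / φ * (Gr_k G D0 (insert u D) v : ℝ)) =
        ∑ j ∈ range m0, Real.exp ((Gr_f G D c v j : ℝ) - 2 / φ * (Gr_k G D0 D v : ℝ)) *
          Real.exp ((if j0 = j then (1 : ℝ) else 0) - 2 / φ) := by
      intro j0 _
      apply Finset.sum_congr rfl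
      intro j _
      rw [Gr_f_insert G D c u hu, Gr_k_insert G D0 D u hu h0, ← Real.exp_add, if_pos hv]
      congr 1
      by_cases hj : j0 = j
      · rw [if_pos ⟨hv, hj⟩, if_pos hj]
        push_cast
        ring
      · rw [if_neg (fun h => hj h.2), if_neg hj]
        push_cast
        ring
    rw [Finset.sum_congr rfl h1]
    exact Gr_one m0 F hF φ hφ h _ fun j => (Real.exp_pos _).le
  · have h1 : ∀ j0 ∈ F, ∑ j ∈ range m0, Real.exp
        ((Gr_f G (insert u D) (Function.update c u j0) v j : ℝ) -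
          2 / φ * (Gr_k G D0 (insert u D) v : ℝ)) =
        ∑ j ∈ range m0, Real.exp ((Gr_f G D c v j : ℝ) - 2 / φ * (Gr_k G D0 D v : ℝ)) := by
      intro j0 _
      apply Finset.sum_congr rfl
      intro j _
      rw [Gr_f_insert G D c u hu, Gr_k_insert G D0 D u hu h0, if_neg hv,
        if_neg (fun h => hv h.1), add_zero, add_zero]
    rw [Finset.sum_congr rfl h1, Finset.sum_const, nsmul_eq_mul]

theorem gr {V : Type} [Fintype V] (G : SimpleGraph V) (m0 : ℕ) (Δ φ B : ℝ) (hφ : 0 < φ)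
    (up : ∀ v, (dg G v : ℝ) ≤ Δ) (D0 : Finset V) (c1 : V → ℕ) (Fb : V → Finset ℕ)
    (hfree : ∀ u ∉ D0, ∀ c : V → ℕ, (∀ v ∈ D0, c v = c1 v) →
      ∀ D : Finset V, D0 ⊆ D → u ∉ D →
        φ ≤ ((range m0).filter fun j => j ∉ Fb u ∧ ∀ w ∈ D, G.Adj u w → c w ≠ j).card)
    (hB : ∀ v, ∀ j < m0, ((D0.filter fun u => G.Adj v u ∧ c1 u = j).card : ℝ) ≤ B) :
    ∃ c : V → ℕ, (∀ v ∈ D0, c v = c1 v) ∧
      (∀ u ∉ D0, c u < m0 ∧ c u ∉ Fb u ∧ ∀ w, G.Adj u w → c w ≠ c u) ∧
      ∀ v, ∀ j < m0, ((univ.filter fun u => G.Adj v u ∧ c u = j).card : ℝ) ≤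
        B + 2 * Δ / φ + Real.log (Fintype.card V * m0) := by
  have key : ∀ E : Finset V, E ⊆ univ \ D0 → ∃ c : V → ℕ, (∀ v ∈ D0, c v = c1 v) ∧
      (∀ u ∈ E, c u < m0 ∧ c u ∉ Fb u ∧ ∀ w ∈ D0 ∪ E, G.Adj u w → c w ≠ c u) ∧
      Gr_P G m0 φ D0 (D0 ∪ E) c ≤ Gr_P G m0 φ D0 D0 c1 := by
    intro E
    induction E using Finset.induction_on with
    | empty =>
      intro _
      refine ⟨c1, fun v _ => rfl, ?_, ?_⟩
      · intro u hu
        exact absurd hu (Finset.notMem_empty u)
      · rw [Finset.union_empty]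
    | insert u E hu ih =>
      intro hE
      obtain ⟨c, hc0, hc1, hc2⟩ := ih (fun x hx => hE (Finset.mem_insert_of_mem hx))
      have hu0 : u ∉ D0 := (Finset.mem_sdiff.mp (hE (Finset.mem_insert_self u E))).2
      have huD : u ∉ D0 ∪ E := by
        rw [Finset.mem_union]
        rintro (h | h)
        · exact hu0 h
        · exact hu h
      have hfr := hfree u hu0 c hc0 (D0 ∪ E) Finset.subset_union_left huD
      obtain ⟨j0, hj0, hj1⟩ := Gr_step G m0 φ hφ D0 (D0 ∪ E) c u huD Finset.subset_union_left _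
        (Finset.filter_subset _ _) hfr
      have hj2 := Finset.mem_filter.mp hj0
      have hun : D0 ∪ insert u E = insert u (D0 ∪ E) := by
        rw [Finset.union_insert]
      refine ⟨Function.update c u j0, ?_, ?_, ?_⟩
      · intro v hv
        have : v ≠ u := fun h => hu0 (h ▸ hv)
        rw [Function.update_of_ne this]
        exact hc0 v hv
      · intro v hv
        rw [hun]
        rcases Finset.mem_insert.mp hv with h | h
        · rw [h, Function.update_self]
          refine ⟨Finset.mem_range.mp hj2.1, hj2.2.1, ?_⟩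
          intro w hw hadj
          have hwu : w ≠ u := fun h' => by
            rw [h'] at hadj; exact G.loopless.irrefl u hadj
          rw [Function.update_of_ne hwu]
          rcases Finset.mem_insert.mp hw with h' | h'
          · exact absurd h' hwu
          · exact hj2.2.2 w h' hadj
        · have hvu : v ≠ u := fun h' => hu (h' ▸ h)
          rw [Function.update_of_ne hvu]
          obtain ⟨a1, a2, a3⟩ := hc1 v h
          refine ⟨a1, a2, ?_⟩
          intro w hw hadj
          by_cases hwu : w = u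
          · rw [hwu, Function.update_self]
            rw [hwu] at hadj
            have := hj2.2.2 v (Finset.mem_union_right _ h) hadj.symm
            exact fun h' => this h'.symm
          · rw [Function.update_of_ne hwu]
            rcases Finset.mem_insert.mp hw with h' | h'
            · exact absurd h' hwu
            · exact a3 w h' hadj
      · rw [hun]
        exact hj1.trans hc2
  obtain ⟨c, hc0, hc1, hc2⟩ := key (univ \ D0) (Finset.Subset.refl _)
  have hun : D0 ∪ (univ \ D0) = univ := by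
    ext x
    simp only [Finset.mem_union, Finset.mem_sdiff, Finset.mem_univ, true_and, iff_true]
    exact Classical.em _
  rw [hun] at hc1 hc2
  refine ⟨c, hc0, ?_, ?_⟩
  · intro u hu
    obtain ⟨a1, a2, a3⟩ := hc1 u (Finset.mem_sdiff.mpr ⟨Finset.mem_univ u, hu⟩)
    exact ⟨a1, a2, fun w hw => a3 w (Finset.mem_univ w) hw⟩
  · intro v j hj
    have hstart : Gr_P G m0 φ D0 D0 c1 ≤ (Fintype.card V * m0) * Real.exp B := by
      unfold Gr_P
      have h1 : ∀ v ∈ (univ : Finset V), ∑ j ∈ range m0,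
          Real.exp ((Gr_f G D0 c1 v j : ℝ) - 2 / φ * (Gr_k G D0 D0 v : ℝ)) ≤
          m0 * Real.exp B := by
        intro v _
        have h2 : ∀ j ∈ range m0,
            Real.exp ((Gr_f G D0 c1 v j : ℝ) - 2 / φ * (Gr_k G D0 D0 v : ℝ)) ≤ Real.exp B := by
          intro j hj
          apply Real.exp_le_exp.mpr
          have h3 : Gr_k G D0 D0 v = 0 := by
            unfold Gr_k
            rw [Finset.sdiff_self, Finset.filter_empty, Finset.card_empty]
          rw [h3, Nat.cast_zero, mul_zero, sub_zero]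
          exact hB v j (Finset.mem_range.mp hj)
        refine (Finset.sum_le_sum h2).trans ?_
        rw [Finset.sum_const, Finset.card_range, nsmul_eq_mul]
      refine (Finset.sum_le_sum h1).trans ?_
      rw [Finset.sum_const, Finset.card_univ, nsmul_eq_mul]
      exact le_of_eq (by ring)
    have hend : Real.exp ((Gr_f G univ c v j : ℝ) - 2 / φ * (Gr_k G D0 univ v : ℝ)) ≤
        Gr_P G m0 φ D0 univ c := by
      unfold Gr_P
      have h1 : ∑ j ∈ range m0, Real.exp ((Gr_f G univ c v j : ℝ) -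
          2 / φ * (Gr_k G D0 univ v : ℝ)) ≤ ∑ v, ∑ j ∈ range m0,
          Real.exp ((Gr_f G univ c v j : ℝ) - 2 / φ * (Gr_k G D0 univ v : ℝ)) :=
        Finset.single_le_sum (f := fun v => ∑ j ∈ range m0,
          Real.exp ((Gr_f G univ c v j : ℝ) - 2 / φ * (Gr_k G D0 univ v : ℝ)))
          (fun v _ => Finset.sum_nonneg fun j _ => (Real.exp_pos _).le) (Finset.mem_univ v)
      have h2 : Real.exp ((Gr_f G univ c v j : ℝ) - 2 / φ * (Gr_k G D0 univ v : ℝ)) ≤
          ∑ j ∈ range m0, Real.exp ((Gr_f G univ c v j : ℝ) -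
          2 / φ * (Gr_k G D0 univ v : ℝ)) :=
        Finset.single_le_sum (f := fun j =>
          Real.exp ((Gr_f G univ c v j : ℝ) - 2 / φ * (Gr_k G D0 univ v : ℝ)))
          (fun j _ => (Real.exp_pos _).le) (Finset.mem_range.mpr hj)
      exact h2.trans h1
    have hk : (Gr_k G D0 univ v : ℝ) ≤ Δ := by
      refine le_trans ?_ (up v)
      unfold Gr_k dg
      exact_mod_cast Finset.card_le_card (Finset.filter_subset_filter _ (Finset.sdiff_subset))
    have h1 : Real.exp ((Gr_f G univ c v j : ℝ) - 2 / φ * Δ) ≤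
        (Fintype.card V * m0) * Real.exp B := by
      refine le_trans ?_ (hend.trans (hc2.trans hstart))
      apply Real.exp_le_exp.mpr
      have h2 : 2 / φ * (Gr_k G D0 univ v : ℝ) ≤ 2 / φ * Δ :=
        mul_le_mul_of_nonneg_left hk (by positivity)
      linarith
    have hpos : (0 : ℝ) < Fintype.card V * m0 := by
      have a1 : 0 < Fintype.card V := Fintype.card_pos_iff.mpr ⟨v⟩
      have a2 : 0 < m0 := by omega
      have a3 : (0 : ℝ) < Fintype.card V := by exact_mod_cast a1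
      have a4 : (0 : ℝ) < m0 := by exact_mod_cast a2
      exact mul_pos a3 a4
    have h3 := Real.log_le_log (Real.exp_pos _) h1
    rw [Real.log_exp, Real.log_mul hpos.ne' (Real.exp_pos _).ne', Real.log_exp] at h3
    have h4 : (Gr_f G univ c v j : ℝ) =
        ((univ.filter fun u => G.Adj v u ∧ c u = j).card : ℝ) := rfl
    rw [h4] at h3
    have h5 : 2 * Δ / φ = 2 / φ * Δ := by ring
    rw [h5]
    linarith

end Pool.Agent.H71.EX
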