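import Mathlib

/-!
RM: a random subset is good for all members of a family of sets (first moment method).

Proof.  For `f : E → Fin k` let `R f = {e : (f e : ℕ) = 0}` and `X S f = #(R f ∩ S)`. For `|μ| ≤ 1`
`∑ f, exp (μ * X S f) = ∑ f, ∏ e, (if e ∈ S ∧ (f e : ℕ) = 0 then exp μ else 1) =
∏ e, (if e ∈ S then k - 1 + exp μ else k)` (`Finset.prod_univ_sum` / `Fintype.piFinset_univ`)
`= k ^ #E * (1 + (exp μ - 1) / k) ^ #S ≤ k ^ #E * exp ((μ + μ ^ 2) * #S / k)`, because
`exp μ - 1 ≤ μ + μ ^ 2` for `|μ| ≤ 1` (`Real.abs_exp_sub_one_sub_id_le`) and `1 + y ≤ exp y`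
(`0 ≤ 1 + (exp μ - 1) / k`). Hence for `μ = l` and `μ = - l`
`∑ f, exp (μ * (X S f - #S / k)) ≤ k ^ #E * exp (l ^ 2 * #S / k)`.
Suppose that for every `f` there is an `i` with `ε * s i < |X (S i) f - #(S i) / k|`. Then for this `i`
`1 ≤ exp (l * (X - #S/k) - l ε s i) + exp (- l * (X - #S/k) - l ε s i)`. Sum over all `f` and `i`:
`k ^ #E ≤ ∑ i, 2 * k ^ #E * exp (l ^ 2 * #(S i) / k - l * ε * s i) ≤
k ^ #E * ∑ i, 2 * exp (- (l * ε - l ^ 2 * D / k) * s i)` by `hS`, contradicting `hsum`. So some `f` works,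
`R = R f`.
-/

set_option autoImplicit false

namespace Pool.Agent.H71.EX

open Finset Classical

private theorem RM_inner (k : ℕ) (hk : 1 ≤ k) (p : Prop) [Decidable p] (μ : ℝ) :
    ∑ j : Fin k, (if p ∧ (j : ℕ) = 0 then Real.exp μ else 1) =
      (k : ℝ) * (if p then (1 + (Real.exp μ - 1) / k) else 1) := by
  obtain ⟨m, rfl⟩ : ∃ m, k = m + 1 := ⟨k - 1, by omega⟩
  have hm : ((m + 1 : ℕ) : ℝ) ≠ 0 := by positivity
  by_cases hp : p
  · rw [Fin.sum_univ_succ]
    simp only [hp, true_and, Fin.val_zero, Fin.val_succ, if_true]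
    have : ∀ i : Fin m, (if (i : ℕ) + 1 = 0 then Real.exp μ else 1) = 1 := by
      intro i; rw [if_neg (by omega)]
    simp only [this]
    simp only [Finset.sum_const, Finset.card_univ, Fintype.card_fin, nsmul_eq_mul, mul_one]
    field_simp
    push_cast
    ring
  · simp [hp]

private theorem RM_mgf {E : Type} [Fintype E] (S : Finset E) (k : ℕ) (hk : 1 ≤ k) (μ : ℝ) :
    ∑ f : E → Fin k,
        Real.exp (μ * ((Finset.univ.filter (fun e => (f e : ℕ) = 0) ∩ S).card : ℝ)) =
      (k : ℝ) ^ (Fintype.card E) * (1 + (Real.exp μ - 1) / k) ^ S.card := by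
  have h1 : ∀ f : E → Fin k,
      Real.exp (μ * ((Finset.univ.filter (fun e => (f e : ℕ) = 0) ∩ S).card : ℝ)) =
        ∏ e : E, (if e ∈ S ∧ (f e : ℕ) = 0 then Real.exp μ else 1) := by
    intro f
    rw [Finset.prod_ite, Finset.prod_const, Finset.prod_const_one, mul_one,
      mul_comm, Real.exp_nat_mul]
    have : (Finset.univ.filter (fun e => (f e : ℕ) = 0) ∩ S) =
        Finset.univ.filter (fun e => e ∈ S ∧ (f e : ℕ) = 0) := by
      ext e
      simp only [Finset.mem_inter, Finset.mem_filter, Finset.mem_univ, true_and]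
      tauto
    rw [this]
  rw [Finset.sum_congr rfl (fun f _ => h1 f)]
  have h2 := (Finset.prod_univ_sum (fun _ : E => (Finset.univ : Finset (Fin k)))
    (fun e j => (if e ∈ S ∧ (j : ℕ) = 0 then Real.exp μ else 1)))
  rw [Fintype.piFinset_univ] at h2
  rw [← h2]
  rw [Finset.prod_congr rfl (fun e _ => RM_inner k hk (e ∈ S) μ)]
  rw [Finset.prod_mul_distrib, Finset.prod_const, Finset.card_univ, Finset.prod_ite_mem,
    Finset.univ_inter, Finset.prod_const]

private theorem RM_bd {E : Type} [Fintype E] (S : Finset E) (k : ℕ) (hk : 1 ≤ k) (μ : ℝ)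
    (hμ : |μ| ≤ 1) :
    ∑ f : E → Fin k,
        Real.exp (μ * (((Finset.univ.filter (fun e => (f e : ℕ) = 0) ∩ S).card : ℝ)
          - (S.card : ℝ) / k)) ≤
      (k : ℝ) ^ (Fintype.card E) * Real.exp (μ ^ 2 * (S.card : ℝ) / k) := by
  have hk0 : (0 : ℝ) < k := by exact_mod_cast hk
  have hk1 : (1 : ℝ) ≤ k := by exact_mod_cast hk
  have h1 : ∀ f : E → Fin k,
      Real.exp (μ * (((Finset.univ.filter (fun e => (f e : ℕ) = 0) ∩ S).card : ℝ)
          - (S.card : ℝ) / k)) =
      Real.exp (μ * ((Finset.univ.filter (fun e => (f e : ℕ) = 0) ∩ S).card : ℝ)) *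
        Real.exp (- (μ * ((S.card : ℝ) / k))) := by
    intro f
    rw [← Real.exp_add]
    congr 1
    ring
  rw [Finset.sum_congr rfl (fun f _ => h1 f), ← Finset.sum_mul, RM_mgf S k hk μ, mul_assoc]
  apply mul_le_mul_of_nonneg_left _ (by positivity)
  have he : Real.exp μ - 1 ≤ μ + μ ^ 2 := by
    have := Real.abs_exp_sub_one_sub_id_le hμ
    have := (abs_le.1 this).2
    linarith
  have hpos : 0 ≤ 1 + (Real.exp μ - 1) / k := by
    have h3 : (-1 : ℝ) / k ≤ (Real.exp μ - 1) / k := by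
      apply div_le_div_of_nonneg_right _ hk0.le
      have := Real.exp_pos μ
      linarith
    have h4 : (-1 : ℝ) ≤ (-1 : ℝ) / k := by
      rw [le_div_iff₀ hk0]
      linarith
    linarith
  have hle : 1 + (Real.exp μ - 1) / k ≤ Real.exp ((μ + μ ^ 2) / k) := by
    have h3 : (Real.exp μ - 1) / k ≤ (μ + μ ^ 2) / k := div_le_div_of_nonneg_right he hk0.le
    have h4 := Real.add_one_le_exp ((μ + μ ^ 2) / k)
    linarith
  calc (1 + (Real.exp μ - 1) / k) ^ S.card * Real.exp (- (μ * ((S.card : ℝ) / k)))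
      ≤ (Real.exp ((μ + μ ^ 2) / k)) ^ S.card * Real.exp (- (μ * ((S.card : ℝ) / k))) := by
        apply mul_le_mul_of_nonneg_right _ (Real.exp_pos _).le
        exact pow_le_pow_left₀ hpos hle _
    _ = Real.exp (μ ^ 2 * (S.card : ℝ) / k) := by
        rw [← Real.exp_nat_mul, ← Real.exp_add]
        congr 1
        ring

theorem rm {E I : Type} [Fintype E] [Fintype I] (S : I → Finset E) (s : I → ℝ) (k : ℕ)
    (hk : 1 ≤ k) (D ε l : ℝ) (hl0 : 0 < l) (hl1 : l ≤ 1)
    (hS : ∀ i, ((S i).card : ℝ) ≤ D * s i)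
    (hsum : ∑ i, 2 * Real.exp (- (l * ε - l ^ 2 * D / k) * s i) < 1) :
    ∃ R : Finset E, ∀ i, |((R ∩ S i).card : ℝ) - (S i).card / k| ≤ ε * s i := by
  have hk0 : (0 : ℝ) < k := by exact_mod_cast hk
  by_contra hcon
  push Not at hcon
  have hN : (0 : ℝ) < (k : ℝ) ^ (Fintype.card E) := by positivity
  have hlabs : |l| ≤ 1 := by rw [abs_of_pos hl0]; exact hl1
  have hlabs' : |(-l)| ≤ 1 := by rw [abs_neg]; exact hlabs
  have key : ∀ f : E → Fin k, (1 : ℝ) ≤ ∑ i : I,
      (Real.exp (l * (((Finset.univ.filter (fun e => (f e : ℕ) = 0) ∩ S i).card : ℝ)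
          - ((S i).card : ℝ) / k)) +
       Real.exp ((-l) * (((Finset.univ.filter (fun e => (f e : ℕ) = 0) ∩ S i).card : ℝ)
          - ((S i).card : ℝ) / k))) * Real.exp (- (l * ε * s i)) := by
    intro f
    obtain ⟨i, hi⟩ := hcon (Finset.univ.filter (fun e => (f e : ℕ) = 0))
    set Y : ℝ := ((Finset.univ.filter (fun e => (f e : ℕ) = 0) ∩ S i).card : ℝ)
          - ((S i).card : ℝ) / k with hY
    have hterm : (1 : ℝ) ≤ (Real.exp (l * Y) + Real.exp ((-l) * Y)) *
        Real.exp (- (l * ε * s i)) := by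
      rcases lt_abs.1 hi with h | h
      · have h1 : (1 : ℝ) ≤ Real.exp (l * Y) * Real.exp (- (l * ε * s i)) := by
          rw [← Real.exp_add]
          apply Real.one_le_exp
          have := mul_le_mul_of_nonneg_left h.le hl0.le
          linarith
        have h2 : 0 ≤ Real.exp ((-l) * Y) * Real.exp (- (l * ε * s i)) := by positivity
        rw [add_mul]
        linarith
      · have h1 : (1 : ℝ) ≤ Real.exp ((-l) * Y) * Real.exp (- (l * ε * s i)) := by
          rw [← Real.exp_add]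
          apply Real.one_le_exp
          have := mul_le_mul_of_nonneg_left h.le hl0.le
          linarith
        have h2 : 0 ≤ Real.exp (l * Y) * Real.exp (- (l * ε * s i)) := by positivity
        rw [add_mul]
        linarith
    refine le_trans hterm ?_
    exact Finset.single_le_sum (f := fun i : I =>
      (Real.exp (l * (((Finset.univ.filter (fun e => (f e : ℕ) = 0) ∩ S i).card : ℝ)
          - ((S i).card : ℝ) / k)) +
       Real.exp ((-l) * (((Finset.univ.filter (fun e => (f e : ℕ) = 0) ∩ S i).card : ℝ)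
          - ((S i).card : ℝ) / k))) * Real.exp (- (l * ε * s i)))
      (fun j _ => by positivity) (Finset.mem_univ i)
  have hsum1 : (k : ℝ) ^ (Fintype.card E) ≤ ∑ f : E → Fin k, ∑ i : I,
      (Real.exp (l * (((Finset.univ.filter (fun e => (f e : ℕ) = 0) ∩ S i).card : ℝ)
          - ((S i).card : ℝ) / k)) +
       Real.exp ((-l) * (((Finset.univ.filter (fun e => (f e : ℕ) = 0) ∩ S i).card : ℝ)
          - ((S i).card : ℝ) / k))) * Real.exp (- (l * ε * s i)) := by
    calc (k : ℝ) ^ (Fintype.card E) = ∑ f : E → Fin k, (1 : ℝ) := by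
          simp
      _ ≤ _ := Finset.sum_le_sum (fun f _ => key f)
  rw [Finset.sum_comm] at hsum1
  have hsum2 : ∑ i : I, ∑ f : E → Fin k,
      (Real.exp (l * (((Finset.univ.filter (fun e => (f e : ℕ) = 0) ∩ S i).card : ℝ)
          - ((S i).card : ℝ) / k)) +
       Real.exp ((-l) * (((Finset.univ.filter (fun e => (f e : ℕ) = 0) ∩ S i).card : ℝ)
          - ((S i).card : ℝ) / k))) * Real.exp (- (l * ε * s i)) ≤
      (k : ℝ) ^ (Fintype.card E) *
        ∑ i, 2 * Real.exp (- (l * ε - l ^ 2 * D / k) * s i) := by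
    rw [Finset.mul_sum]
    apply Finset.sum_le_sum
    intro i _
    rw [← Finset.sum_mul, Finset.sum_add_distrib]
    have b1 := RM_bd (S i) k hk l hlabs
    have b2 := RM_bd (S i) k hk (-l) hlabs'
    rw [neg_sq] at b2
    have b3 := mul_le_mul_of_nonneg_right (add_le_add b1 b2)
      (Real.exp_pos (- (l * ε * s i))).le
    refine le_trans b3 ?_
    have h5 : Real.exp (l ^ 2 * ((S i).card : ℝ) / k) * Real.exp (- (l * ε * s i)) ≤
        Real.exp (- (l * ε - l ^ 2 * D / k) * s i) := by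
      rw [← Real.exp_add]
      apply Real.exp_le_exp.2
      have h6 : l ^ 2 * ((S i).card : ℝ) / k ≤ l ^ 2 * (D * s i) / k := by
        apply div_le_div_of_nonneg_right _ hk0.le
        exact mul_le_mul_of_nonneg_left (hS i) (by positivity)
      have h7 : - (l * ε - l ^ 2 * D / k) * s i = l ^ 2 * (D * s i) / k + - (l * ε * s i) := by
        ring
      rw [h7]
      linarith
    calc ((k : ℝ) ^ (Fintype.card E) * Real.exp (l ^ 2 * ((S i).card : ℝ) / k) +
          (k : ℝ) ^ (Fintype.card E) * Real.exp (l ^ 2 * ((S i).card : ℝ) / k)) *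
          Real.exp (- (l * ε * s i))
        = (k : ℝ) ^ (Fintype.card E) * (2 * (Real.exp (l ^ 2 * ((S i).card : ℝ) / k) *
          Real.exp (- (l * ε * s i)))) := by ring
      _ ≤ (k : ℝ) ^ (Fintype.card E) * (2 * Real.exp (- (l * ε - l ^ 2 * D / k) * s i)) := by
          apply mul_le_mul_of_nonneg_left _ hN.le
          linarith
  have hfin := lt_of_le_of_lt (le_trans hsum1 hsum2) (mul_lt_mul_of_pos_left hsum hN)
  rw [mul_one] at hfin
  exact lt_irrefl _ hfin

end Pool.Agent.H71.EX
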