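import Mathlib
import Pool.Agent.H71.EX.Defs
import Pool.Agent.H71.EX.Rm

/-!
RG: the reserve graph (a random subgraph of density `1 / N ^ 8`).

Proof.  Apply `rm` with `E = Sym2 V` and three kinds of indices:
(v) a vertex `v`: `S` = the set of the edges `s(v, u)`, `G.Adj v u` (`#S = dg G v`), `s = 1`;
(b) disjoint `A`, `B`, not both empty: `S` = the edges `s(a, b)`, `a ∈ A`, `b ∈ B`, `G.Adj a b`
(`#S = ee G A B`, the map `(a, b) ↦ s(a, b)` is injective on `A × B` as `A`, `B` are disjoint), `s = #A + #B`;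
(c) a nonempty set `A`: `S` = the edges between `A` and `univ \ A` (`#S = ee G A (univ \ A)`), `s = #A`.
(For instance `I = V ⊕ {x : Finset V × Finset V // Disjoint x.1 x.2 ∧ (x.1 ∪ x.2).Nonempty} ⊕
{A : Finset V // A.Nonempty}`.) `k = N ^ 8`, `D = Δ`, `ε = Δ / N ^ 20`, `l = 1 / N ^ 13`. `#S ≤ Δ * s` in all cases
(`ee G A B ≤ Δ * #A`). `κ := l ε - l ^ 2 D / k = Δ / N ^ 33 - Δ / N ^ 34 ≥ Δ / (2 N ^ 33) ≥ 4 N`
(`Δ ≥ N ^ 60`, `N ≥ 1000`). With `y = exp (- κ)` and `n = #V ≤ exp N`: `n * y ≤ exp (-3 N)`, and the sum in `hsum`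
is at most `2 n y + 2 ((1 + y) ^ (2 n) - 1) + 2 ((1 + y) ^ n - 1)`, because
`∑ A : Finset V, y ^ #A = (1 + y) ^ n` (`Finset.sum_pow_mul_eq_add_pow` or
`Finset.prod_one_add`). Since `(1 + y) ^ m ≤ exp (m y)` and `exp t ≤ 1 + 2 t` for `0 ≤ t ≤ 1`, the sum is at
most `2 n y + 8 n y + 4 n y < 1`.
Let `R.Adj a b := G.Adj a b ∧ s(a, b) ∈ R0` with the set `R0` given by `rm`. Then `dg R v = #(R0 ∩ S)` for (v),
`ee R A B = #(R0 ∩ S)` for (b) and (c) (the same injections), which gives the claims; if `A = B = ∅` in (b) or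
`A = ∅` in (c) both sides are `0`.
-/

set_option autoImplicit false

namespace Pool.Agent.H71.EX

open Finset Classical
open Pool.Agent.H71.DN

private lemma Rg_ee {V : Type} [Fintype V] (G : SimpleGraph V) (A B : Finset V) :
    ee G A B = ∑ a ∈ A, ∑ b ∈ B, if G.Adj a b then 1 else 0 := by
  unfold ee
  rw [Finset.card_filter, Finset.sum_product]

private lemma Rg_le {V : Type} [Fintype V] (G : SimpleGraph V) {Δ : ℕ} (h : ∀ v, dg G v ≤ Δ)
    (A B : Finset V) : (ee G A B : ℝ) ≤ Δ * A.card := by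
  have h1 : ee G A B ≤ Δ * A.card := by
    rw [Rg_ee, mul_comm, ← smul_eq_mul]
    refine Finset.sum_le_card_nsmul _ _ _ fun a _ => (?_ : _ ≤ dg G a).trans (h a)
    unfold dg
    rw [Finset.card_filter]
    exact Finset.sum_le_sum_of_subset (Finset.subset_univ B)
  exact_mod_cast h1

private lemma Rg_dg {V : Type} [Fintype V] (G : SimpleGraph V) (v : V) :
    ee G {v} (univ \ {v}) = dg G v := by
  rw [Rg_ee, Finset.sum_singleton, ← Finset.card_filter]
  unfold dg
  congr 1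
  ext b
  simp only [mem_filter, mem_sdiff, mem_univ, mem_singleton, true_and]
  constructor
  · exact fun h => h.2
  · exact fun h => ⟨fun h' => G.loopless.irrefl v (h' ▸ h), h⟩

/-- the set of the edges between `A` and `B` -/
private noncomputable def Rg_S {V : Type} [Fintype V] (G : SimpleGraph V) (A B : Finset V) :
    Finset (Sym2 V) :=
  ((A ×ˢ B).filter fun x => G.Adj x.1 x.2).image fun x => s(x.1, x.2)

private lemma Rg_inj {V : Type} {A B : Finset V} (h : Disjoint A B)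
    {x y : V × V} (hx : x ∈ A ×ˢ B) (hy : y ∈ A ×ˢ B) (he : s(x.1, x.2) = s(y.1, y.2)) : x = y := by
  rw [Finset.mem_product] at hx hy
  rw [Sym2.eq_iff] at he
  rcases he with he | he
  · exact Prod.ext he.1 he.2
  · exfalso
    exact (Finset.disjoint_left.1 h) hx.1 (he.1 ▸ hy.2)

private lemma Rg_cardS {V : Type} [Fintype V] (G : SimpleGraph V) {A B : Finset V}
    (h : Disjoint A B) : (Rg_S G A B).card = ee G A B := by
  unfold Rg_S ee
  refine Finset.card_image_of_injOn fun x hx y hy he => ?_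
  rw [Finset.mem_coe, Finset.mem_filter] at hx hy
  exact Rg_inj h hx.1 hy.1 he

/-- the graph of the edges of `G` in `R0` -/
private def Rg_R {V : Type} (G : SimpleGraph V) (R0 : Finset (Sym2 V)) : SimpleGraph V where
  Adj a b := G.Adj a b ∧ s(a, b) ∈ R0
  symm := ⟨fun a b h => ⟨h.1.symm, by rw [Sym2.eq_swap]; exact h.2⟩⟩
  loopless := ⟨fun a h => G.loopless.irrefl a h.1⟩

private lemma Rg_cardR {V : Type} [Fintype V] (G : SimpleGraph V) (R0 : Finset (Sym2 V))
    (dec : DecidableEq (Sym2 V)) {A B : Finset V} (h : Disjoint A B) :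
    (@Inter.inter _ (@Finset.instInter _ dec) R0 (Rg_S G A B)).card = ee (Rg_R G R0) A B := by
  rw [← Rg_cardS (Rg_R G R0) h]
  congr 1
  ext e
  simp only [Rg_S, Finset.mem_inter, Finset.mem_image, Finset.mem_filter]
  constructor
  · rintro ⟨h1, x, ⟨h2, h3⟩, rfl⟩
    exact ⟨x, ⟨h2, h3, h1⟩, rfl⟩
  · rintro ⟨x, ⟨h2, h3, h1⟩, rfl⟩
    exact ⟨h1, x, ⟨h2, h3⟩, rfl⟩

private lemma Rg_pow {V : Type} [Fintype V] (y : ℝ) :
    ∑ A : Finset V, y ^ A.card = (1 + y) ^ Fintype.card V := by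
  have h1 := Finset.sum_pow_mul_eq_add_pow y 1 (univ : Finset V)
  rw [Finset.powerset_univ, Finset.card_univ] at h1
  simp only [one_pow, mul_one] at h1
  rw [h1, add_comm]

private lemma Rg_exp {y : ℝ} (hy : 0 ≤ y) (m : ℕ) (h : (m : ℝ) * y ≤ 1) :
    (1 + y) ^ m - 1 ≤ 2 * (m * y) := by
  have h1 : (1 + y) ^ m ≤ Real.exp (m * y) := by
    rw [Real.exp_nat_mul]
    refine pow_le_pow_left₀ (by linarith) ?_ m
    linarith [Real.add_one_le_exp y]
  have h0 : 0 ≤ (m : ℝ) * y := by positivity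
  have h2 := Real.abs_exp_sub_one_sub_id_le (x := (m : ℝ) * y) (by rw [abs_of_nonneg h0]; exact h)
  have h3 := (abs_le.1 h2).2
  nlinarith

private lemma Rg_sum {V : Type} [Fintype V] (c : ℝ)
    (h : 12 * (Fintype.card V * Real.exp (-c)) < 1) :
    ∑ i : {x : Finset V × Finset V // Disjoint x.1 x.2 ∧ (x.1 ∪ x.2).Nonempty} ⊕
      {A : Finset V // A.Nonempty}, 2 * Real.exp (- c * Sum.elim
        (fun x : {x : Finset V × Finset V // Disjoint x.1 x.2 ∧ (x.1 ∪ x.2).Nonempty} =>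
          ((x.1.1.card : ℝ) + x.1.2.card))
        (fun A : {A : Finset V // A.Nonempty} => (A.1.card : ℝ)) i) < 1 := by
  obtain ⟨y, hy⟩ : ∃ y, y = Real.exp (-c) := ⟨_, rfl⟩
  have hy0 : 0 < y := hy ▸ Real.exp_pos _
  rw [← hy] at h
  have hpow : ∀ m : ℕ, Real.exp (-c * m) = y ^ m := by
    intro m
    rw [hy, ← Real.exp_nat_mul, mul_comm]
  rw [Fintype.sum_sum_type]
  simp only [Sum.elim_inl, Sum.elim_inr]
  have h1 : ∑ x : {x : Finset V × Finset V // Disjoint x.1 x.2 ∧ (x.1 ∪ x.2).Nonempty},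
      2 * Real.exp (-c * ((x.1.1.card : ℝ) + x.1.2.card)) ≤
      2 * ((1 + y) ^ (2 * Fintype.card V) - 1) := by
    have e1 : ∀ x : {x : Finset V × Finset V // Disjoint x.1 x.2 ∧ (x.1 ∪ x.2).Nonempty},
        2 * Real.exp (-c * ((x.1.1.card : ℝ) + x.1.2.card)) =
        (fun x : Finset V × Finset V => 2 * (y ^ x.1.card * y ^ x.2.card)) x.1 := by
      intro x
      dsimp only
      rw [← pow_add, ← hpow]
      push_cast
      rfl
    rw [Finset.sum_congr rfl fun x _ => e1 x,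
      ← Finset.sum_subtype (univ.filter fun x : Finset V × Finset V =>
        Disjoint x.1 x.2 ∧ (x.1 ∪ x.2).Nonempty) (by simp)
        (fun x : Finset V × Finset V => 2 * (y ^ x.1.card * y ^ x.2.card))]
    have e2 : ∑ x ∈ univ.filter (fun x : Finset V × Finset V =>
        Disjoint x.1 x.2 ∧ (x.1 ∪ x.2).Nonempty), 2 * (y ^ x.1.card * y ^ x.2.card) ≤
        ∑ x ∈ univ.erase ((∅, ∅) : Finset V × Finset V), 2 * (y ^ x.1.card * y ^ x.2.card) := by
      refine Finset.sum_le_sum_of_subset_of_nonneg (fun x hx => ?_) fun x _ _ => by positivity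
      rw [Finset.mem_filter] at hx
      rw [Finset.mem_erase]
      refine ⟨fun h' => ?_, Finset.mem_univ x⟩
      subst h'
      simpa using hx.2.2
    refine e2.trans (le_of_eq ?_)
    have e3 := Finset.add_sum_erase univ
      (fun x : Finset V × Finset V => 2 * (y ^ x.1.card * y ^ x.2.card))
      (Finset.mem_univ ((∅, ∅) : Finset V × Finset V))
    have e4 : ∑ x : Finset V × Finset V, 2 * (y ^ x.1.card * y ^ x.2.card) =
        2 * (1 + y) ^ (2 * Fintype.card V) := by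
      rw [← Finset.mul_sum, Fintype.sum_prod_type, two_mul (Fintype.card V), pow_add, ← Rg_pow,
        Finset.sum_mul_sum]
    rw [e4] at e3
    simp only [Finset.card_empty, pow_zero, mul_one] at e3
    linarith
  have h2 : ∑ A : {A : Finset V // A.Nonempty}, 2 * Real.exp (-c * (A.1.card : ℝ)) ≤
      2 * ((1 + y) ^ (Fintype.card V) - 1) := by
    have e1 : ∀ A : {A : Finset V // A.Nonempty}, 2 * Real.exp (-c * (A.1.card : ℝ)) =
        (fun A : Finset V => 2 * y ^ A.card) A.1 := by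
      intro A
      dsimp only
      rw [← hpow]
    rw [Finset.sum_congr rfl fun x _ => e1 x,
      ← Finset.sum_subtype (univ.filter fun A : Finset V => A.Nonempty) (by simp)
        (fun A : Finset V => 2 * y ^ A.card)]
    have e2 : ∑ A ∈ univ.filter (fun A : Finset V => A.Nonempty), 2 * y ^ A.card ≤
        ∑ A ∈ univ.erase (∅ : Finset V), 2 * y ^ A.card := by
      refine Finset.sum_le_sum_of_subset_of_nonneg (fun x hx => ?_) fun x _ _ => by positivity
      rw [Finset.mem_filter] at hx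
      rw [Finset.mem_erase]
      exact ⟨hx.2.ne_empty, Finset.mem_univ x⟩
    refine e2.trans (le_of_eq ?_)
    have e3 := Finset.add_sum_erase univ (fun A : Finset V => 2 * y ^ A.card)
      (Finset.mem_univ (∅ : Finset V))
    have e4 : ∑ A : Finset V, 2 * y ^ A.card = 2 * (1 + y) ^ Fintype.card V := by
      rw [← Finset.mul_sum, Rg_pow]
    rw [e4] at e3
    simp only [Finset.card_empty, pow_zero, mul_one] at e3
    linarith
  have hn0 : (0 : ℝ) ≤ Fintype.card V := Nat.cast_nonneg _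
  have h3 := Rg_exp hy0.le (2 * Fintype.card V) (by push_cast; nlinarith)
  have h4 := Rg_exp hy0.le (Fintype.card V) (by nlinarith)
  push_cast at h3
  nlinarith

theorem rg {V : Type} [Fintype V] (G : SimpleGraph V) (Δ N : ℕ) (h : Xp G Δ N) :
    ∃ R : SimpleGraph V, R ≤ G ∧
      (∀ v, |(dg R v : ℝ) - dg G v / (N : ℝ) ^ 8| ≤ Δ / (N : ℝ) ^ 20) ∧
      (∀ A B : Finset V, Disjoint A B →
        (ee R A B : ℝ) ≤ ee G A B / (N : ℝ) ^ 8 + Δ / (N : ℝ) ^ 20 * (A.card + B.card)) ∧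
      ∀ S : Finset V, (ee G S (univ \ S) : ℝ) / (N : ℝ) ^ 8 - Δ / (N : ℝ) ^ 20 * S.card ≤
        ee R S (univ \ S) := by
  have hN : (1000 : ℝ) ≤ N := by exact_mod_cast h.hN
  have hN0 : (0 : ℝ) < N := by linarith
  have hΔ : (N : ℝ) ^ 60 ≤ Δ := by exact_mod_cast h.hΔ
  -- the exponent
  obtain ⟨c, hc⟩ : ∃ c : ℝ, c = 1 / (N : ℝ) ^ 13 * (Δ / (N : ℝ) ^ 20) -
      (1 / (N : ℝ) ^ 13) ^ 2 * Δ / ((N ^ 8 : ℕ) : ℝ) := ⟨_, rfl⟩
  have hc4 : 4 * (N : ℝ) ≤ c := by
    have e1 : c = Δ / (N : ℝ) ^ 34 * (N - 1) := by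
      rw [hc]
      push_cast
      field_simp
    rw [e1]
    have e2 : (N : ℝ) ^ 26 ≤ Δ / (N : ℝ) ^ 34 := by
      rw [le_div_iff₀ (by positivity), ← pow_add]
      exact hΔ
    have e3 : (N : ℝ) ≤ (N : ℝ) ^ 26 := by
      calc (N : ℝ) = (N : ℝ) ^ 1 := (pow_one _).symm
        _ ≤ (N : ℝ) ^ 26 := pow_le_pow_right₀ (by linarith) (by norm_num)
    have e4 : (N : ℝ) ≤ Δ / (N : ℝ) ^ 34 := e3.trans e2
    nlinarith
  have hsmall : 12 * (Fintype.card V * Real.exp (-c)) < 1 := by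
    have e1 : (Fintype.card V : ℝ) * Real.exp (-c) ≤ Real.exp N * Real.exp (-(4 * N)) :=
      mul_le_mul h.n2 (Real.exp_le_exp.2 (by linarith)) (Real.exp_pos _).le (Real.exp_pos _).le
    have e2 : Real.exp N * Real.exp (-(4 * N)) = Real.exp (-(3 * N)) := by
      rw [← Real.exp_add]
      congr 1
      ring
    have e3 : Real.exp (-(3 * N)) ≤ Real.exp (-100) := Real.exp_le_exp.2 (by linarith)
    have e4 : Real.exp (-100) * (101 : ℝ) ≤ 1 := by
      rw [Real.exp_neg, inv_mul_le_iff₀ (Real.exp_pos _), mul_one]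
      linarith [Real.add_one_le_exp (100 : ℝ)]
    linarith [e1, Real.exp_pos (-100)]
  obtain ⟨R0, hR0⟩ := rm
    (E := Sym2 V) (I := {x : Finset V × Finset V // Disjoint x.1 x.2 ∧ (x.1 ∪ x.2).Nonempty} ⊕
      {A : Finset V // A.Nonempty})
    (Sum.elim
      (fun x : {x : Finset V × Finset V // Disjoint x.1 x.2 ∧ (x.1 ∪ x.2).Nonempty} =>
        Rg_S G x.1.1 x.1.2)
      (fun A : {A : Finset V // A.Nonempty} => Rg_S G A.1 (univ \ A.1)))
    (Sum.elim
      (fun x : {x : Finset V × Finset V // Disjoint x.1 x.2 ∧ (x.1 ∪ x.2).Nonempty} =>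
          ((x.1.1.card : ℝ) + x.1.2.card))
        (fun A : {A : Finset V // A.Nonempty} => (A.1.card : ℝ)))
    (N ^ 8) (Nat.one_le_pow _ _ (by have := h.hN; omega)) Δ (Δ / (N : ℝ) ^ 20) (1 / (N : ℝ) ^ 13)
    (by positivity) (by
      rw [div_le_one (by positivity)]
      exact one_le_pow₀ (by linarith))
    (by
      rintro (x | A)
      · simp only [Sum.elim_inl]
        rw [Rg_cardS G x.2.1]
        refine (Rg_le G h.up _ _).trans ?_
        rw [mul_add]
        have : (0 : ℝ) ≤ Δ * (x.1.2.card : ℝ) := by positivity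
        linarith
      · simp only [Sum.elim_inr]
        rw [Rg_cardS G Finset.disjoint_sdiff]
        exact Rg_le G h.up _ _)
    (by
      rw [← hc]
      exact Rg_sum c hsmall)
  have hA : ∀ A : Finset V, A.Nonempty →
      |(ee (Rg_R G R0) A (univ \ A) : ℝ) - ee G A (univ \ A) / (N : ℝ) ^ 8| ≤
        Δ / (N : ℝ) ^ 20 * A.card := by
    intro A hA
    have h1 := hR0 (Sum.inr ⟨A, hA⟩)
    simp only [Sum.elim_inr] at h1
    rw [Rg_cardR G R0 _ Finset.disjoint_sdiff, Rg_cardS G Finset.disjoint_sdiff] at h1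
    push_cast at h1
    exact h1
  refine ⟨Rg_R G R0, fun a b h => h.1, fun v => ?_, fun A B hAB => ?_, fun S => ?_⟩
  · have h1 := hA {v} (Finset.singleton_nonempty v)
    rw [Rg_dg, Rg_dg, Finset.card_singleton] at h1
    simpa using h1
  · by_cases hne : (A ∪ B).Nonempty
    · have h1 := hR0 (Sum.inl ⟨(A, B), hAB, hne⟩)
      simp only [Sum.elim_inl] at h1
      rw [Rg_cardR G R0 _ hAB, Rg_cardS G hAB] at h1
      push_cast at h1
      have h2 := (abs_le.1 h1).2
      linarith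
    · rw [Finset.not_nonempty_iff_eq_empty, Finset.union_eq_empty] at hne
      obtain ⟨rfl, rfl⟩ := hne
      simp [Rg_ee]
  · rcases S.eq_empty_or_nonempty with rfl | hS
    · simp [Rg_ee]
    · have h2 := (abs_le.1 (hA S hS)).1
      linarith

end Pool.Agent.H71.EX
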