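import Mathlib

/-!
MO: exponential moments of a random sparse set.

Proof.  `exp (#(S.filter ..)) = ∏ u, (if u ∈ S ∧ (f u : ℕ) = 0 then exp 1 else 1)`, so the sum over `f` is
`∏ u, ∑ j : Fin K, (..) = ∏ u, (if u ∈ S then K - 1 + exp 1 else K) = K ^ #V * (1 + (exp 1 - 1) / K) ^ #S`
(`Finset.prod_univ_sum`, `Fintype.piFinset_univ`), and `exp 1 - 1 ≤ 2`, `1 + y ≤ exp y`.
-/

set_option autoImplicit false

namespace Pool.Agent.H71.EX

open Finset Classical

theorem mo {V : Type} [Fintype V] (S : Finset V) (K : ℕ) (hK : 1 ≤ K) :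
    ∑ f : V → Fin K, Real.exp ((S.filter fun u => (f u : ℕ) = 0).card : ℝ) ≤
      (K : ℝ) ^ (Fintype.card V) * Real.exp (2 * S.card / K) := by
  have hK0 : (0 : ℝ) < (K : ℝ) := by exact_mod_cast hK
  have h1 : ∀ f : V → Fin K, Real.exp ((S.filter fun u => (f u : ℕ) = 0).card : ℝ) =
      ∏ u, (if u ∈ S ∧ (f u : ℕ) = 0 then Real.exp 1 else 1) := by
    intro f
    rw [← Finset.prod_filter]
    have h2 : (univ.filter fun u => u ∈ S ∧ (f u : ℕ) = 0) = S.filter fun u => (f u : ℕ) = 0 := by
      ext u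
      simp
    rw [h2, Finset.prod_const, ← Real.exp_nat_mul, mul_one]
  have h2 : ∑ f : V → Fin K, Real.exp ((S.filter fun u => (f u : ℕ) = 0).card : ℝ) =
      ∏ u : V, ∑ j : Fin K, (if u ∈ S ∧ (j : ℕ) = 0 then Real.exp 1 else (1 : ℝ)) := by
    rw [Finset.prod_univ_sum, Fintype.piFinset_univ]
    exact Finset.sum_congr rfl fun f _ => h1 f
  rw [h2]
  have he : Real.exp 1 ≤ 3 := by
    have := Real.exp_one_lt_d9
    linarith
  have h3 : ∀ u : V, ∑ j : Fin K, (if u ∈ S ∧ (j : ℕ) = 0 then Real.exp 1 else (1 : ℝ)) ≤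
      (K : ℝ) * (if u ∈ S then Real.exp (2 / K) else 1) := by
    intro u
    by_cases hu : u ∈ S
    · rw [if_pos hu]
      have h4 : ∀ j : Fin K, (if u ∈ S ∧ (j : ℕ) = 0 then Real.exp 1 else (1 : ℝ)) =
          1 + (if j = (⟨0, hK⟩ : Fin K) then Real.exp 1 - 1 else 0) := by
        intro j
        by_cases hj : (j : ℕ) = 0
        · rw [if_pos ⟨hu, hj⟩, if_pos (Fin.ext hj)]
          ring
        · rw [if_neg (fun h => hj h.2), if_neg (fun h => hj (by rw [h]))]
          ring
      rw [Finset.sum_congr rfl fun j _ => h4 j, Finset.sum_add_distrib, Finset.sum_const,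
        Finset.card_univ, Fintype.card_fin, nsmul_eq_mul, mul_one, Finset.sum_ite_eq' univ,
        if_pos (Finset.mem_univ _)]
      have h5 : 2 / (K : ℝ) + 1 ≤ Real.exp (2 / K) := Real.add_one_le_exp _
      have h6 : (K : ℝ) * (2 / (K : ℝ) + 1) ≤ (K : ℝ) * Real.exp (2 / K) :=
        mul_le_mul_of_nonneg_left h5 hK0.le
      have h7 : (K : ℝ) * (2 / (K : ℝ) + 1) = K + 2 := by
        field_simp
        ring
      linarith
    · rw [if_neg hu]
      have h4 : ∀ j : Fin K, (if u ∈ S ∧ (j : ℕ) = 0 then Real.exp 1 else (1 : ℝ)) = 1 := by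
        intro j
        rw [if_neg (fun h => hu h.1)]
      rw [Finset.sum_congr rfl fun j _ => h4 j, Finset.sum_const, Finset.card_univ,
        Fintype.card_fin, nsmul_eq_mul]
  calc ∏ u : V, ∑ j : Fin K, (if u ∈ S ∧ (j : ℕ) = 0 then Real.exp 1 else (1 : ℝ)) ≤
      ∏ u : V, ((K : ℝ) * (if u ∈ S then Real.exp (2 / K) else 1)) := by
        apply Finset.prod_le_prod
        · intro u _
          apply Finset.sum_nonneg
          intro j _
          split_ifs
          · exact (Real.exp_pos _).le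
          · exact zero_le_one
        · intro u _
          exact h3 u
    _ = (K : ℝ) ^ (Fintype.card V) * Real.exp (2 * S.card / K) := by
        rw [Finset.prod_mul_distrib, Finset.prod_const, Finset.card_univ, Finset.prod_ite_mem,
          Finset.univ_inter, Finset.prod_const, ← Real.exp_nat_mul]
        congr 2
        ring

end Pool.Agent.H71.EX
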