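import Mathlib
import Pool.Agent.H71.EX.Defs

/-!
PA: the initial state of the process.

Proof.  `le`, `deg`: clear (`range 0 = ∅`). `pot`: `aa = 0` (empty sum). `dl R Δ N 0 G v =
(1 - 1 / N ^ 8) Δ - dg (G \ R) v` and `dg (G \ R) v = dg G v - dg R v` (as `R ≤ G`). So
`dl = (1 - 1 / N ^ 8) (Δ - dg G v) + (dg R v - dg G v / N ^ 8)`, where `0 ≤ Δ - dg G v ≤ Δ / N ^ 20` (`up`, `lo`) and
the last term is at most `Δ / N ^ 20` in absolute value (`rd`). So `|dl| ≤ 2 Δ / N ^ 20`, and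
`cosh (dl / N ^ 11) ≤ exp (|dl| / N ^ 11) ≤ exp (2 Δ / N ^ 31)` (`Real.cosh_abs`, `cosh y ≤ exp y` for `y ≥ 0`).
Sum over `v`.
-/

/-!
PA: the initial state of the process.

Proof.  `le`, `deg`: clear (`range 0 = ∅`). `pot`: `aa = 0` (empty sum). `dl R Δ N 0 G v =
(1 - 1 / N ^ 8) Δ - dg (G \ R) v` and `dg (G \ R) v = dg G v - dg R v` (as `R ≤ G`). So
`dl = (1 - 1 / N ^ 8) (Δ - dg G v) + (dg R v - dg G v / N ^ 8)`, where `0 ≤ Δ - dg G v ≤ Δ / N ^ 20` (`up`, `lo`) and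
the last term is at most `Δ / N ^ 20` in absolute value (`rd`). So `|dl| ≤ 2 Δ / N ^ 20`, and
`cosh (dl / N ^ 11) ≤ exp (|dl| / N ^ 11) ≤ exp (2 Δ / N ^ 31)` (`Real.cosh_abs`, `cosh y ≤ exp y` for `y ≥ 0`).
Sum over `v`.
-/

set_option autoImplicit false

namespace Pool.Agent.H71.EX

open Finset Classical
open Pool.Agent.H71.DN

theorem EXPa_cosh (y z : ℝ) (h : |y| ≤ z) : Real.cosh y ≤ Real.exp z := by
  have h0 : 0 ≤ |y| := abs_nonneg y
  rw [← Real.cosh_abs]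
  calc Real.cosh |y| ≤ Real.exp |y| := by
        rw [Real.cosh_eq]
        have := Real.exp_le_exp.2 (show -|y| ≤ |y| by linarith)
        linarith
    _ ≤ Real.exp z := Real.exp_le_exp.2 h

theorem EXPa_dg {V : Type} [Fintype V] (G R : SimpleGraph V) (h : R ≤ G) (v : V) :
    dg (G \ R) v + dg R v = dg G v := by
  unfold dg
  rw [← Finset.card_union_of_disjoint]
  · congr 1
    ext u
    simp only [mem_union, mem_filter, mem_univ, true_and, SimpleGraph.sdiff_adj]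
    constructor
    · rintro (h1 | h1)
      · exact h1.1
      · exact h h1
    · intro h1
      by_cases h2 : R.Adj v u
      · exact Or.inr h2
      · exact Or.inl ⟨h1, h2⟩
  · rw [Finset.disjoint_left]
    intro u hu hu'
    simp only [mem_filter, mem_univ, true_and, SimpleGraph.sdiff_adj] at hu hu'
    exact hu.2 hu'

theorem EXPa_num (Δ g r N8 N20 : ℝ) (h8 : 1 ≤ N8) (h1 : g ≤ Δ) (h2 : Δ - N20 ≤ g)
    (h3 : |r - g / N8| ≤ N20) : |(1 - 1 / N8) * Δ - (g - r)| ≤ 2 * N20 := by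
  have e : (1 - 1 / N8) * Δ - (g - r) = (1 - 1 / N8) * (Δ - g) + (r - g / N8) := by
    have : N8 ≠ 0 := by linarith
    field_simp
    ring
  rw [e]
  have h4 : 0 ≤ 1 - 1 / N8 := by
    have : 1 / N8 ≤ 1 := by
      rw [div_le_one (by linarith)]
      exact h8
    linarith
  have h5 : 1 - 1 / N8 ≤ 1 := by
    have : 0 ≤ 1 / N8 := by positivity
    linarith
  have h6 : |(1 - 1 / N8) * (Δ - g)| ≤ N20 := by
    rw [abs_of_nonneg (mul_nonneg h4 (by linarith))]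
    calc (1 - 1 / N8) * (Δ - g) ≤ 1 * (Δ - g) := mul_le_mul_of_nonneg_right h5 (by linarith)
      _ ≤ N20 := by linarith
  calc |(1 - 1 / N8) * (Δ - g) + (r - g / N8)| ≤ |(1 - 1 / N8) * (Δ - g)| + |r - g / N8| := abs_add_le _ _
    _ ≤ 2 * N20 := by linarith

theorem pa {V : Type} [Fintype V] (G R : SimpleGraph V) (Δ N T w0 : ℕ) (W : ℕ → Finset V)
    (h : Pc G R Δ N T w0 W) : Sg G R Δ N 0 W G := by
  have hN : (1000 : ℝ) ≤ N := by exact_mod_cast h.xp.hN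
  refine ⟨le_refl _, fun v => by simp, ?_⟩
  have hv : ∀ v ∈ (univ : Finset V), Real.cosh (dl R Δ N 0 G v / (N : ℝ) ^ 11) *
      Real.exp (- (aa G W Δ N 0 v / (N : ℝ) ^ 11)) ≤ Real.exp (2 * Δ / (N : ℝ) ^ 31 + 2 * (0 : ℕ) / (N : ℝ) ^ 32) := by
    intro v _
    have e1 : aa G W Δ N 0 v = 0 := by
      unfold aa
      simp
    rw [e1, zero_div, neg_zero, Real.exp_zero, mul_one]
    apply EXPa_cosh
    have h8 : (1 : ℝ) ≤ (N : ℝ) ^ 8 := one_le_pow₀ (by linarith)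
    have h1 : (dg G v : ℝ) ≤ Δ := by exact_mod_cast h.xp.up v
    have h4 : ((dg (G \ R) v : ℕ) : ℝ) = dg G v - dg R v := by
      have := EXPa_dg G R h.le v
      have h5 : ((dg (G \ R) v : ℕ) : ℝ) + dg R v = dg G v := by exact_mod_cast this
      linarith
    have h6 := EXPa_num Δ (dg G v) (dg R v) ((N : ℝ) ^ 8) (Δ / (N : ℝ) ^ 20) h8 h1
      (h.xp.lo v) (h.rd v)
    have h7 : dl R Δ N 0 G v = (1 - 1 / (N : ℝ) ^ 8) * Δ - ((dg G v : ℝ) - dg R v) := by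
      unfold dl Db
      rw [h4]
      simp
    rw [h7, abs_div, abs_of_pos (show (0 : ℝ) < (N : ℝ) ^ 11 by positivity)]
    have h8' : 2 * (Δ : ℝ) / (N : ℝ) ^ 31 + 2 * (0 : ℕ) / (N : ℝ) ^ 32 = (2 * (Δ / (N : ℝ) ^ 20)) / (N : ℝ) ^ 11 := by
      have : (N : ℝ) ≠ 0 := by positivity
      field_simp
      simp
    rw [h8']
    exact div_le_div_of_nonneg_right h6 (by positivity)
  have := Finset.sum_le_card_nsmul univ _ _ hv
  rw [nsmul_eq_mul, Finset.card_univ] at this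
  exact this

end Pool.Agent.H71.EX
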