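import Mathlib
import Pool.Agent.H71.EX.Defs

/-!
PB: what the potential says at time `t ≤ T`: all degrees of the main graph are close to `Db`.

`dbl`: `Db Δ N s ≥ 2 Δ / N ^ 8` for `s ≤ T`: `Db = (1 - 1/N^8) Δ - (1 - 1/N^10) s ≥ (1 - 1/N^8) Δ - T` and
`T ≤ Δ - 3 Δ / N ^ 8` (`hT`).

`aab`: `aa ≤ w0 * N ^ 8 ≤ Δ / N ^ 21`. The first part of the sum is `#{s < t : v ∈ W s} ≤ w0` (`wc`). The second
part is at most `(N ^ 8 / (2 Δ)) * ∑ s ∈ range t, dn G v (W s)`, and (exchange the sums)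
`∑ s ∈ range t, dn G v (W s) = ∑ u with G.Adj v u, #{s < t : u ∈ W s} ≤ Δ * w0` (`up`, `wc`). So
`aa ≤ w0 + w0 * N ^ 8 / 2 ≤ w0 * N ^ 8`, and `hw`.

`pb`: the term of `v` in `pot` is at most the whole sum (all terms are `≥ 0`), and `cosh y ≥ exp |y| / 2`. So
`exp (|dl| / N ^ 11 - aa / N ^ 11) ≤ 2 n exp (2 Δ / N ^ 31 + 2 t / N ^ 32)`, `2 n ≤ exp (N + 1)` (`n2`). Taking logarithms
and multiplying by `N ^ 11`: `|dl| ≤ (N + 1) N ^ 11 + 2 Δ / N ^ 20 + 2 t / N ^ 21 + aa ≤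
2 N ^ 12 + 2 Δ / N ^ 20 + 2 Δ / N ^ 21 + Δ / N ^ 21 ≤ 3 Δ / N ^ 20` (`t ≤ T ≤ Δ`, `N ≥ 1000`, `Δ ≥ N ^ 60`).
-/

set_option autoImplicit false

namespace Pool.Agent.H71.EX

open Finset Classical
open Pool.Agent.H71.DN

theorem Npos {V : Type} [Fintype V] {G R : SimpleGraph V} {Δ N T w0 : ℕ} {W : ℕ → Finset V}
    (h : Pc G R Δ N T w0 W) : (1000 : ℝ) ≤ N := by
  exact_mod_cast h.xp.hN

theorem dbl {V : Type} [Fintype V] (G R : SimpleGraph V) (Δ N T w0 : ℕ) (W : ℕ → Finset V)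
    (h : Pc G R Δ N T w0 W) (s : ℕ) (hs : s ≤ T) : 2 * (Δ / (N : ℝ) ^ 8) ≤ Db Δ N s := by
  have hN := Npos h
  have h1 : (1 : ℝ) ≤ (N : ℝ) ^ 10 := one_le_pow₀ (by linarith)
  have h2 : 0 ≤ 1 / (N : ℝ) ^ 10 := by positivity
  have h3 : (s : ℝ) ≤ T := by exact_mod_cast hs
  have h4 := h.hT
  have h5 : (0 : ℝ) ≤ s := Nat.cast_nonneg _
  unfold Db
  have h6 : 0 ≤ 1 / (N : ℝ) ^ 10 * s := mul_nonneg h2 h5
  have h7 : (1 - 1 / (N : ℝ) ^ 8) * Δ = Δ - Δ / (N : ℝ) ^ 8 := by ring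
  rw [h7]
  linarith

theorem dsum {V : Type} [Fintype V] (G R : SimpleGraph V) (Δ N T w0 : ℕ) (W : ℕ → Finset V)
    (h : Pc G R Δ N T w0 W) (t : ℕ) (ht : t ≤ T) (v : V) :
    ∑ s ∈ range t, (dn G v (W s) : ℝ) ≤ Δ * w0 := by
  have h1 : ∑ s ∈ range t, dn G v (W s) =
      ∑ u ∈ univ.filter (fun u => G.Adj v u), ((range t).filter fun s => u ∈ W s).card := by
    unfold dn
    simp only [Finset.card_filter]
    rw [Finset.sum_filter]
    have e : ∀ s ∈ range t, ∑ u ∈ W s, (if G.Adj v u then 1 else 0) =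
        ∑ u : V, if u ∈ W s then (if G.Adj v u then 1 else 0) else 0 := by
      intro s _
      rw [Finset.sum_ite_mem, Finset.univ_inter]
    rw [Finset.sum_congr rfl e, Finset.sum_comm]
    refine Finset.sum_congr rfl fun u _ => ?_
    by_cases hu : G.Adj v u
    · simp [hu]
    · simp [hu]
  have h2 : ∀ u, ((range t).filter fun s => u ∈ W s).card ≤ w0 := by
    intro u
    refine le_trans (Finset.card_le_card ?_) (h.wc u)
    intro s hs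
    rw [Finset.mem_filter, Finset.mem_range] at hs ⊢
    exact ⟨by omega, hs.2⟩
  have h3 : ∑ s ∈ range t, dn G v (W s) ≤ dg G v * w0 := by
    rw [h1]
    refine (Finset.sum_le_sum fun u _ => h2 u).trans ?_
    rw [Finset.sum_const, smul_eq_mul]
    exact le_of_eq rfl
  have h4 : ∑ s ∈ range t, dn G v (W s) ≤ Δ * w0 := h3.trans (Nat.mul_le_mul_right _ (h.xp.up v))
  exact_mod_cast h4

theorem aab {V : Type} [Fintype V] (G R : SimpleGraph V) (Δ N T w0 : ℕ) (W : ℕ → Finset V)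
    (h : Pc G R Δ N T w0 W) (t : ℕ) (ht : t ≤ T) (v : V) :
    aa G W Δ N t v ≤ Δ / (N : ℝ) ^ 21 := by
  have hN := Npos h
  have hN0 : (0 : ℝ) < N := by linarith
  have hΔ : (0 : ℝ) < Δ := by
    have h1 : 0 < N ^ 60 := pow_pos (by have := h.xp.hN; omega) 60
    exact_mod_cast h1.trans_le h.xp.hΔ
  have h1 : ∑ s ∈ range t, (if v ∈ W s then (1 : ℝ) else 0) ≤ w0 := by
    rw [← Finset.sum_filter, Finset.sum_const, nsmul_eq_mul, mul_one]
    have h2 : ((range t).filter fun s => v ∈ W s).card ≤ w0 := by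
      refine le_trans (Finset.card_le_card ?_) (h.wc v)
      intro s hs
      rw [Finset.mem_filter, Finset.mem_range] at hs ⊢
      exact ⟨by omega, hs.2⟩
    exact_mod_cast h2
  have h2 : ∑ s ∈ range t, (dn G v (W s) : ℝ) / Db Δ N s ≤ w0 * (N : ℝ) ^ 8 / 2 := by
    have h3 : ∀ s ∈ range t, (dn G v (W s) : ℝ) / Db Δ N s ≤
        (dn G v (W s) : ℝ) / (2 * (Δ / (N : ℝ) ^ 8)) := by
      intro s hs
      rw [Finset.mem_range] at hs
      exact div_le_div_of_nonneg_left (Nat.cast_nonneg _) (by positivity)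
        (dbl G R Δ N T w0 W h s (by omega))
    refine (Finset.sum_le_sum h3).trans ?_
    rw [← Finset.sum_div, div_le_iff₀ (by positivity)]
    have h4 := dsum G R Δ N T w0 W h t ht v
    have h5 : (w0 : ℝ) * (N : ℝ) ^ 8 / 2 * (2 * (Δ / (N : ℝ) ^ 8)) = Δ * w0 := by
      field_simp
    rw [h5]
    exact h4
  have h3 : (w0 : ℝ) ≤ w0 * (N : ℝ) ^ 8 / 2 := by
    have h4 : (2 : ℝ) ≤ (N : ℝ) ^ 8 := by
      have h5 : (N : ℝ) ^ 1 ≤ (N : ℝ) ^ 8 := pow_le_pow_right₀ (by linarith) (by norm_num)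
      rw [pow_one] at h5
      linarith
    have h5 : (0 : ℝ) ≤ w0 := Nat.cast_nonneg _
    nlinarith
  unfold aa
  rw [Finset.sum_add_distrib]
  have h4 : (w0 : ℝ) * (N : ℝ) ^ 8 ≤ Δ / (N : ℝ) ^ 21 := by
    have h5 := mul_le_mul_of_nonneg_right h.hw (show (0 : ℝ) ≤ (N : ℝ) ^ 8 by positivity)
    refine h5.trans (le_of_eq ?_)
    field_simp
  linarith

theorem pb {V : Type} [Fintype V] (G R : SimpleGraph V) (Δ N T w0 : ℕ) (W : ℕ → Finset V)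
    (h : Pc G R Δ N T w0 W) (t : ℕ) (ht : t ≤ T) (U : SimpleGraph V) (hU : Sg G R Δ N t W U)
    (v : V) : |dl R Δ N t U v| ≤ 3 * (Δ / (N : ℝ) ^ 20) := by
  have hN := Npos h
  have hN0 : (0 : ℝ) < N := by linarith
  have hΔ1 : (N : ℝ) ^ 60 ≤ Δ := by exact_mod_cast h.xp.hΔ
  have hΔ : (0 : ℝ) < Δ := lt_of_lt_of_le (by positivity) hΔ1
  have haa := aab G R Δ N T w0 W h t ht v
  obtain ⟨d, hd⟩ : ∃ d : ℝ, d = |dl R Δ N t U v| := ⟨_, rfl⟩
  obtain ⟨a, ha⟩ : ∃ a : ℝ, a = aa G W Δ N t v := ⟨_, rfl⟩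
  rw [← ha] at haa
  rw [← hd]
  have htΔ : (t : ℝ) ≤ Δ := by
    have h1 : (t : ℝ) ≤ T := by exact_mod_cast ht
    have h2 := h.hT
    have h3 : 0 ≤ 3 * (Δ / (N : ℝ) ^ 8) := by positivity
    linarith
  -- the term of v
  have h1 : Real.cosh (dl R Δ N t U v / (N : ℝ) ^ 11) *
      Real.exp (- (aa G W Δ N t v / (N : ℝ) ^ 11)) ≤
      Fintype.card V * Real.exp (2 * Δ / (N : ℝ) ^ 31 + 2 * t / (N : ℝ) ^ 32) := by
    refine le_trans ?_ hU.pot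
    exact Finset.single_le_sum (f := fun v => Real.cosh (dl R Δ N t U v / (N : ℝ) ^ 11) *
      Real.exp (- (aa G W Δ N t v / (N : ℝ) ^ 11)))
      (fun u _ => mul_nonneg (Real.cosh_pos _).le (Real.exp_pos _).le) (Finset.mem_univ v)
  have h2 : Real.exp (d / (N : ℝ) ^ 11) / 2 ≤ Real.cosh (dl R Δ N t U v / (N : ℝ) ^ 11) := by
    rw [← Real.cosh_abs, abs_div, abs_of_pos (show (0 : ℝ) < (N : ℝ) ^ 11 by positivity), ← hd,
      Real.cosh_eq]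
    have := (Real.exp_pos (-(d / (N : ℝ) ^ 11))).le
    linarith
  have h3 : Real.exp (d / (N : ℝ) ^ 11) / 2 * Real.exp (- (a / (N : ℝ) ^ 11)) ≤
      Real.exp N * Real.exp (2 * Δ / (N : ℝ) ^ 31 + 2 * t / (N : ℝ) ^ 32) := by
    refine (mul_le_mul_of_nonneg_right h2 (Real.exp_pos _).le).trans ?_
    rw [ha]
    exact h1.trans (mul_le_mul_of_nonneg_right h.xp.n2 (Real.exp_pos _).le)
  have h4 : (2 : ℝ) ≤ Real.exp 1 := by
    have := Real.add_one_le_exp (1 : ℝ)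
    linarith
  have h5 : Real.exp (d / (N : ℝ) ^ 11 + - (a / (N : ℝ) ^ 11)) ≤
      Real.exp (1 + (N + (2 * Δ / (N : ℝ) ^ 31 + 2 * t / (N : ℝ) ^ 32))) := by
    rw [Real.exp_add, Real.exp_add 1, Real.exp_add (N : ℝ)]
    have h6 : Real.exp (d / (N : ℝ) ^ 11) * Real.exp (- (a / (N : ℝ) ^ 11)) ≤
        2 * (Real.exp N * Real.exp (2 * Δ / (N : ℝ) ^ 31 + 2 * t / (N : ℝ) ^ 32)) := by linarith
    refine h6.trans (mul_le_mul_of_nonneg_right h4 ?_)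
    positivity
  have h6 := Real.exp_le_exp.1 h5
  have h7 : d ≤ a + (1 + N) * (N : ℝ) ^ 11 + 2 * (Δ / (N : ℝ) ^ 20) + 2 * (t / (N : ℝ) ^ 21) := by
    have h8 := mul_le_mul_of_nonneg_right h6 (show (0 : ℝ) ≤ (N : ℝ) ^ 11 by positivity)
    have e1 : (d / (N : ℝ) ^ 11 + - (a / (N : ℝ) ^ 11)) * (N : ℝ) ^ 11 = d - a := by
      field_simp
      ring
    have e2 : (1 + (N + (2 * Δ / (N : ℝ) ^ 31 + 2 * t / (N : ℝ) ^ 32))) * (N : ℝ) ^ 11 =
        (1 + N) * (N : ℝ) ^ 11 + 2 * (Δ / (N : ℝ) ^ 20) + 2 * (t / (N : ℝ) ^ 21) := by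
      field_simp
      ring
    rw [e1, e2] at h8
    linarith
  obtain ⟨y, hy⟩ : ∃ y : ℝ, y = Δ / (N : ℝ) ^ 21 := ⟨_, rfl⟩
  have hy0 : 0 < y := by rw [hy]; positivity
  have e3 : Δ / (N : ℝ) ^ 20 = N * y := by
    rw [hy]
    field_simp
  have h8 : t / (N : ℝ) ^ 21 ≤ y := by
    rw [hy]
    exact div_le_div_of_nonneg_right htΔ (by positivity)
  have h9 : (N : ℝ) ^ 12 ≤ y := by
    rw [hy, le_div_iff₀ (by positivity), ← pow_add]
    exact (pow_le_pow_right₀ (by linarith) (by norm_num)).trans hΔ1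
  have h10 : (1 + N) * (N : ℝ) ^ 11 ≤ 2 * (N : ℝ) ^ 12 := by
    have : (0 : ℝ) ≤ (N : ℝ) ^ 11 := by positivity
    have e : (2 : ℝ) * (N : ℝ) ^ 12 = (N + N) * (N : ℝ) ^ 11 := by ring
    rw [e]
    exact mul_le_mul_of_nonneg_right (by linarith) this
  rw [e3] at h7 ⊢
  rw [← hy] at haa
  nlinarith

end Pool.Agent.H71.EX
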