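import Mathlib
import Pool.Agent.H71.EX.Defs
import Pool.Agent.H71.EX.Pb
import Pool.Agent.H71.EX.Pr

/-!
PQ: the reserve restricted to the active vertices satisfies the hypotheses of `stp`.

`A = {v // v ∉ W t}`, `F = (U ⊓ R)` restricted to `A` (`SimpleGraph.comap Subtype.val`). Write `u = Δ / N ^ 20`,
so `Δ / N ^ 8 = N ^ 12 u`, `Δ / N ^ 9 = N ^ 11 u`, `Δ / N ^ 10 = N ^ 10 u`. For `a : A`:
`dg F a = dg (U ⊓ R) a - dn (U ⊓ R) a (W t)`, so by `pr`, `wd` (and `dn (U ⊓ R) ≤ dn G`):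
(1) `dg R a - 2 N ^ 10 u - u ≤ dg F a ≤ dg R a`.

`pq1`: `|dg R a - Δ / N ^ 8| ≤ u / N ^ 8 + u` (`rd`, `lo`, `up`), so `|dg F a - Δ / N ^ 8| ≤ 2 N ^ 10 u + 3 u ≤ 3 N ^ 10 u`;
divide by `N ^ 2 Δ`: `3 N ^ 10 u / (N ^ 2 Δ) = 3 / N ^ 12`, `(Δ / N ^ 8) / (N ^ 2 Δ) = 1 / N ^ 10`.

`pq2`: for disjoint `P, Q : Finset A` let `P', Q'` be the images in `V` (same cardinalities,
`ee F P Q ≤ ee R P' Q'`). By (1), `rd`, `lo`: `dg F a ≥ Δ / N ^ 8 - u / N ^ 8 - u - 2 N ^ 10 u - u`. By `rb` and `nb`: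
`2 ee R P' Q' ≤ 2 ee G P' Q' / N ^ 8 + 2 u (#P + #Q) ≤ (Δ - Δ / N) (#P + #Q) / N ^ 8 + 2 u (#P + #Q)`. So
`∑ dg F - 2 ee F P Q ≥ (#P + #Q) (Δ / N ^ 9 - 2 N ^ 10 u - 5 u) ≥ (#P + #Q) (Δ / N ^ 9) / 2`.

`pq3`: let `S : Finset A` with `2 #S ≤ #A ≤ #V` and `2 Δ / N ^ 8 < #S`, `S'` its image in `V`.
`ee F S (univ \ S)` counts the pairs of `S' × (univ \ S')` adjacent in `U ⊓ R` with second entry not in `W t`.
So `ee F S (univ \ S) ≥ ee R S' (univ \ S') - ∑ v ∈ S', (dg R v - dg (U ⊓ R) v) - ∑ v ∈ S', dn G v (W t) ≥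
ee R S' (univ \ S') - #S (2 N ^ 10 u + u)`. By `rc` and `ex`: `ee R S' (univ \ S') ≥ #S (Δ / N ^ 9 - u)`. So
`ee F S (univ \ S) ≥ #S (Δ / N ^ 9) / 2 ≥ (2 Δ / N ^ 8) (Δ / N ^ 9) / 2 = Δ ^ 2 / N ^ 17`, and
`Δ ^ 2 / N ^ 17 / (N ^ 2 Δ) = Δ / N ^ 19 ≥ 2`.
-/

set_option autoImplicit false

namespace Pool.Agent.H71.EX

open Finset Classical
open Pool.Agent.H71.DN

private theorem Pq_ee_sum {V : Type} [Fintype V] (G : SimpleGraph V) (P Q : Finset V) :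
    ee G P Q = ∑ a ∈ P, (Q.filter fun u => G.Adj a u).card := by
  unfold ee
  rw [Finset.card_filter, Finset.sum_product]
  refine Finset.sum_congr rfl fun a _ => ?_
  rw [Finset.card_filter]

private theorem Pq_dg_mono {V : Type} [Fintype V] (H R : SimpleGraph V) (h : H ≤ R) (v : V) :
    dg H v ≤ dg R v := by
  unfold dg
  refine Finset.card_le_card fun u hu => ?_
  rw [Finset.mem_filter] at hu ⊢
  exact ⟨hu.1, h hu.2⟩

private theorem Pq_dg_le {V A : Type} [Fintype V] [Fintype A] (H : SimpleGraph V) (f : A → V)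
    (hf : Function.Injective f) (a : A) : dg (H.comap f) a ≤ dg H (f a) := by
  unfold dg
  rw [← Finset.card_map ⟨f, hf⟩]
  refine Finset.card_le_card fun v hv => ?_
  rw [Finset.mem_map] at hv
  obtain ⟨b, hb, rfl⟩ := hv
  rw [Finset.mem_filter] at hb ⊢
  exact ⟨Finset.mem_univ _, hb.2⟩

private theorem Pq_le_dg {V A : Type} [Fintype V] [Fintype A] (G H : SimpleGraph V) (hHG : H ≤ G)
    (f : A → V) (X : Finset V) (hX : ∀ v, v ∉ X → ∃ a, f a = v) (a : A) :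
    dg H (f a) ≤ dg (H.comap f) a + dn G (f a) X := by
  unfold dg dn
  have h1 : (univ.filter fun u => H.Adj (f a) u) ⊆
      (univ.filter fun b => (H.comap f).Adj a b).image f ∪ (X.filter fun u => G.Adj (f a) u) := by
    intro v hv
    rw [Finset.mem_filter] at hv
    rw [Finset.mem_union, Finset.mem_image, Finset.mem_filter]
    by_cases hvX : v ∈ X
    · exact Or.inr ⟨hvX, hHG hv.2⟩
    · obtain ⟨b, rfl⟩ := hX v hvX
      refine Or.inl ⟨b, ?_, rfl⟩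
      rw [Finset.mem_filter]
      exact ⟨Finset.mem_univ _, hv.2⟩
  exact (Finset.card_le_card h1).trans ((Finset.card_union_le _ _).trans
    (Nat.add_le_add Finset.card_image_le le_rfl))

private theorem Pq_ee_le {V A : Type} [Fintype V] [Fintype A] (H R : SimpleGraph V) (hHR : H ≤ R)
    (f : A → V) (hf : Function.Injective f) (P Q : Finset A) :
    ee (H.comap f) P Q ≤ ee R (P.map ⟨f, hf⟩) (Q.map ⟨f, hf⟩) := by
  rw [Pq_ee_sum, Pq_ee_sum, Finset.sum_map]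
  refine Finset.sum_le_sum fun a _ => ?_
  rw [← Finset.card_map ⟨f, hf⟩]
  refine Finset.card_le_card fun v hv => ?_
  rw [Finset.mem_map] at hv
  obtain ⟨b, hb, rfl⟩ := hv
  rw [Finset.mem_filter] at hb
  rw [Finset.mem_filter]
  exact ⟨Finset.mem_map_of_mem _ hb.1, hHR hb.2⟩

private theorem Pq_sets {V A : Type} (f : A → V) (hf : Function.Injective f) (X Y : Finset V)
    (M Z : Finset A) (h1 : ∀ v ∈ X, v ∈ Y) (h2 : ∀ b ∈ M, f b ∈ Y)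
    (h3 : ∀ b ∈ M, f b ∈ X → b ∈ Z) : X.card + M.card ≤ Z.card + Y.card := by
  rw [← Finset.card_map ⟨f, hf⟩ (s := M), ← Finset.card_union_add_card_inter,
    ← Finset.card_map ⟨f, hf⟩ (s := Z), add_comm]
  refine Nat.add_le_add (Finset.card_le_card fun v hv => ?_) (Finset.card_le_card fun v hv => ?_)
  · rw [Finset.mem_inter, Finset.mem_map] at hv
    obtain ⟨h4, b, hb, rfl⟩ := hv
    exact Finset.mem_map_of_mem _ (h3 b hb h4)
  · rw [Finset.mem_union, Finset.mem_map] at hv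
    rcases hv with hv | ⟨b, hb, rfl⟩
    · exact h1 v hv
    · exact h2 b hb

private theorem Pq_cut {V A : Type} [Fintype V] [Fintype A] (H R : SimpleGraph V) (hHR : H ≤ R)
    (f : A → V) (hf : Function.Injective f) (S T : Finset A) (hT : ∀ b, b ∉ S → b ∈ T) :
    ee R (S.map ⟨f, hf⟩) (univ \ S.map ⟨f, hf⟩) + ∑ a ∈ S, dg (H.comap f) a ≤
      ee (H.comap f) S T + ∑ a ∈ S, dg R (f a) := by
  rw [Pq_ee_sum, Pq_ee_sum, Finset.sum_map, ← Finset.sum_add_distrib, ← Finset.sum_add_distrib]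
  refine Finset.sum_le_sum fun a _ => ?_
  unfold dg
  refine Pq_sets f hf _ _ _ _ (fun v hv => ?_) (fun b hb => ?_) (fun b hb hb2 => ?_)
  · rw [Finset.mem_filter] at hv ⊢
    exact ⟨Finset.mem_univ _, hv.2⟩
  · rw [Finset.mem_filter] at hb ⊢
    exact ⟨Finset.mem_univ _, hHR hb.2⟩
  · rw [Finset.mem_filter] at hb hb2 ⊢
    rw [Finset.mem_sdiff] at hb2
    exact ⟨hT b fun hbS => hb2.1.2 (Finset.mem_map_of_mem _ hbS), hb.2⟩

/-- the real parameters -/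
private theorem Pq_par {V : Type} [Fintype V] (G R : SimpleGraph V) (Δ N T w0 : ℕ)
    (W : ℕ → Finset V) (h : Pc G R Δ N T w0 W) :
    ∃ u : ℝ, 0 < u ∧ (1000 : ℝ) ≤ N ∧ (Δ : ℝ) = (N : ℝ) ^ 20 * u ∧ (N : ℝ) ^ 40 ≤ u ∧
      (Δ : ℝ) / (N : ℝ) ^ 20 = u ∧ (Δ : ℝ) / (N : ℝ) ^ 8 = (N : ℝ) ^ 12 * u ∧
      (Δ : ℝ) / (N : ℝ) ^ 9 = (N : ℝ) ^ 11 * u ∧ (Δ : ℝ) / (N : ℝ) ^ 10 = (N : ℝ) ^ 10 * u ∧
      (Δ : ℝ) / (N : ℝ) = (N : ℝ) ^ 19 * u := by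
  have hN : (1000 : ℝ) ≤ N := by exact_mod_cast h.xp.hN
  have hN0 : (0 : ℝ) < N := by linarith
  have hΔ : (N : ℝ) ^ 60 ≤ Δ := by exact_mod_cast h.xp.hΔ
  have hN20 : (0 : ℝ) < (N : ℝ) ^ 20 := by positivity
  have h1 : (N : ℝ) ^ 40 ≤ (Δ : ℝ) / (N : ℝ) ^ 20 := by
    rw [le_div_iff₀ hN20, ← pow_add]
    exact hΔ
  have h2 : (Δ : ℝ) = (N : ℝ) ^ 20 * ((Δ : ℝ) / (N : ℝ) ^ 20) := by
    field_simp
  refine ⟨(Δ : ℝ) / (N : ℝ) ^ 20, lt_of_lt_of_le (by positivity) h1, hN, h2, h1, rfl, ?_, ?_, ?_,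
    ?_⟩
  all_goals field_simp

/-- degree bounds -/
private theorem Pq_deg {V : Type} [Fintype V] (G R : SimpleGraph V) (Δ N T w0 : ℕ)
    (W : ℕ → Finset V) (h : Pc G R Δ N T w0 W) (t : ℕ) (ht : t < T) (U : SimpleGraph V)
    (hU : Sg G R Δ N t W U) (a : {v // v ∉ W t}) :
    dg ((U ⊓ R).comap (Subtype.val : {v // v ∉ W t} → V)) a ≤ dg R a.1 ∧
    (dg R a.1 : ℝ) ≤ dg ((U ⊓ R).comap (Subtype.val : {v // v ∉ W t} → V)) a +
      2 * (Δ / (N : ℝ) ^ 10) + Δ / (N : ℝ) ^ 20 := by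
  constructor
  · exact (Pq_dg_le (U ⊓ R) Subtype.val Subtype.val_injective a).trans
      (Pq_dg_mono _ _ inf_le_right _)
  · have h1 := pr G R Δ N T w0 W h t ht.le U hU a.1
    have h2 := Pq_le_dg G (U ⊓ R) (inf_le_right.trans h.le) (Subtype.val : {v // v ∉ W t} → V)
      (W t) (fun v hv => ⟨⟨v, hv⟩, rfl⟩) a
    have h3 : (dg (U ⊓ R) a.1 : ℝ) ≤
        dg ((U ⊓ R).comap (Subtype.val : {v // v ∉ W t} → V)) a + dn G a.1 (W t) := by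
      exact_mod_cast h2
    have h4 := h.wd t ht a.1
    linarith

private theorem Pq_lo {V : Type} [Fintype V] (G R : SimpleGraph V) (Δ N T w0 : ℕ)
    (W : ℕ → Finset V) (h : Pc G R Δ N T w0 W) (v : V) (u : ℝ) (hu : 0 < u)
    (hN : (1000 : ℝ) ≤ N) (hΔ : (Δ : ℝ) = (N : ℝ) ^ 20 * u) :
    (N : ℝ) ^ 12 * u - 2 * u ≤ dg R v ∧ (dg R v : ℝ) ≤ (N : ℝ) ^ 12 * u + u := by
  have hN0 : (0 : ℝ) < N := by linarith
  have hN8 : (0 : ℝ) < (N : ℝ) ^ 8 := by positivity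
  have e20 : (Δ : ℝ) / (N : ℝ) ^ 20 = u := by rw [hΔ]; field_simp
  have h1 := h.rd v
  rw [e20, abs_le] at h1
  have h2 : (dg G v : ℝ) / (N : ℝ) ^ 8 ≤ (N : ℝ) ^ 12 * u := by
    rw [div_le_iff₀ hN8]
    have h3 : (dg G v : ℝ) ≤ Δ := by exact_mod_cast h.xp.up v
    rw [hΔ] at h3
    have e : (N : ℝ) ^ 12 * u * (N : ℝ) ^ 8 = (N : ℝ) ^ 20 * u := by ring
    rw [e]
    exact h3
  have h3 : (N : ℝ) ^ 12 * u - u ≤ (dg G v : ℝ) / (N : ℝ) ^ 8 := by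
    rw [le_div_iff₀ hN8]
    have h4 := h.xp.lo v
    rw [e20, hΔ] at h4
    have h5 : u ≤ u * (N : ℝ) ^ 8 := by
      refine le_mul_of_one_le_right hu.le ?_
      exact one_le_pow₀ (by linarith)
    have e : ((N : ℝ) ^ 12 * u - u) * (N : ℝ) ^ 8 = (N : ℝ) ^ 20 * u - u * (N : ℝ) ^ 8 := by ring
    rw [e]
    linarith
  constructor <;> linarith [h1.1, h1.2]

theorem pq1 {V : Type} [Fintype V] (G R : SimpleGraph V) (Δ N T w0 : ℕ) (W : ℕ → Finset V)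
    (h : Pc G R Δ N T w0 W) (t : ℕ) (ht : t < T) (U : SimpleGraph V) (hU : Sg G R Δ N t W U)
    (a : {v // v ∉ W t}) :
    |1 / (N : ℝ) ^ 10 - 1 / ((N : ℝ) ^ 2 * Δ) *
      dg ((U ⊓ R).comap (Subtype.val : {v // v ∉ W t} → V)) a| ≤ 3 / (N : ℝ) ^ 12 := by
  obtain ⟨u, hu, hN, hΔ, -, e20, e8, e9, e10, -⟩ := Pq_par G R Δ N T w0 W h
  obtain ⟨d1, d2⟩ := Pq_deg G R Δ N T w0 W h t ht U hU a
  obtain ⟨l1, l2⟩ := Pq_lo G R Δ N T w0 W h a.1 u hu hN hΔ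
  rw [e10, e20] at d2
  have d1' : (dg ((U ⊓ R).comap (Subtype.val : {v // v ∉ W t} → V)) a : ℝ) ≤ dg R a.1 := by
    exact_mod_cast d1
  generalize (dg ((U ⊓ R).comap (Subtype.val : {v // v ∉ W t} → V)) a : ℝ) = d at *
  have hN0 : (0 : ℝ) < N := by linarith
  have hΔ0 : (0 : ℝ) < Δ := by rw [hΔ]; positivity
  have h10 : (3 : ℝ) ≤ (N : ℝ) ^ 10 := by
    calc (3 : ℝ) ≤ N := by linarith
      _ = (N : ℝ) ^ 1 := (pow_one _).symm
      _ ≤ (N : ℝ) ^ 10 := pow_le_pow_right₀ (by linarith) (by norm_num)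
  have h3 : 3 * u ≤ (N : ℝ) ^ 10 * u := mul_le_mul_of_nonneg_right h10 hu.le
  have key : |(N : ℝ) ^ 12 * u - d| ≤ 3 * ((N : ℝ) ^ 10 * u) := by
    rw [abs_le]
    constructor <;> linarith
  have e1 : 1 / (N : ℝ) ^ 10 - 1 / ((N : ℝ) ^ 2 * Δ) * d =
      ((N : ℝ) ^ 12 * u - d) / ((N : ℝ) ^ 2 * Δ) := by
    rw [hΔ]
    field_simp
  have e2 : 3 / (N : ℝ) ^ 12 = 3 * ((N : ℝ) ^ 10 * u) / ((N : ℝ) ^ 2 * Δ) := by
    rw [hΔ]
    field_simp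
  have hpos : (0 : ℝ) < (N : ℝ) ^ 2 * Δ := by positivity
  rw [e1, e2, abs_div, abs_of_pos hpos]
  exact div_le_div_of_nonneg_right key hpos.le

theorem pq2 {V : Type} [Fintype V] (G R : SimpleGraph V) (Δ N T w0 : ℕ) (W : ℕ → Finset V)
    (h : Pc G R Δ N T w0 W) (t : ℕ) (ht : t < T) (U : SimpleGraph V) (hU : Sg G R Δ N t W U) :
    Lc ((U ⊓ R).comap (Subtype.val : {v // v ∉ W t} → V)) (Δ / (N : ℝ) ^ 9 / 2) := by
  obtain ⟨u, hu, hN, hΔ, -, e20, e8, e9, e10, e1⟩ := Pq_par G R Δ N T w0 W h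
  have hN0 : (0 : ℝ) < N := by linarith
  have hN8 : (0 : ℝ) < (N : ℝ) ^ 8 := by positivity
  intro P Q hPQ
  rw [e9]
  have hd : ∀ a : {v // v ∉ W t}, (N : ℝ) ^ 12 * u - 2 * ((N : ℝ) ^ 10 * u) - 3 * u ≤
      dg ((U ⊓ R).comap (Subtype.val : {v // v ∉ W t} → V)) a := by
    intro a
    obtain ⟨-, d2⟩ := Pq_deg G R Δ N T w0 W h t ht U hU a
    obtain ⟨l1, l2⟩ := Pq_lo G R Δ N T w0 W h a.1 u hu hN hΔ
    rw [e10, e20] at d2
    linarith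
  refine le_trans ?_ (Finset.card_nsmul_le_sum _ _ _ (fun a _ => hd a))
  rw [@Finset.card_union_of_disjoint _ P Q (fun a b => Classical.propDecidable (a = b)) hPQ,
    nsmul_eq_mul, Nat.cast_add]
  have h1 := Pq_ee_le (U ⊓ R) R inf_le_right (Subtype.val : {v // v ∉ W t} → V)
    Subtype.val_injective P Q
  have hdis : Disjoint (P.map ⟨(Subtype.val : {v // v ∉ W t} → V), Subtype.val_injective⟩)
      (Q.map ⟨(Subtype.val : {v // v ∉ W t} → V), Subtype.val_injective⟩) :=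
    (Finset.disjoint_map _).2 hPQ
  have h2 := h.rb _ _ hdis
  have h3 := h.xp.nb _ _ hdis
  rw [Finset.card_map, Finset.card_map] at h2 h3
  rw [e20] at h2
  rw [e1] at h3
  have h1' : (ee ((U ⊓ R).comap (Subtype.val : {v // v ∉ W t} → V)) P Q : ℝ) ≤
      ee R (P.map ⟨(Subtype.val : {v // v ∉ W t} → V), Subtype.val_injective⟩)
      (Q.map ⟨(Subtype.val : {v // v ∉ W t} → V), Subtype.val_injective⟩) := by
    exact_mod_cast h1
  generalize (ee ((U ⊓ R).comap (Subtype.val : {v // v ∉ W t} → V)) P Q : ℝ) = x at *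
  generalize (ee R (P.map ⟨(Subtype.val : {v // v ∉ W t} → V), Subtype.val_injective⟩)
      (Q.map ⟨(Subtype.val : {v // v ∉ W t} → V), Subtype.val_injective⟩) : ℝ) = y at *
  generalize (ee G (P.map ⟨(Subtype.val : {v // v ∉ W t} → V), Subtype.val_injective⟩)
      (Q.map ⟨(Subtype.val : {v // v ∉ W t} → V), Subtype.val_injective⟩) : ℝ) = z at *
  have hc0 : (0 : ℝ) ≤ (P.card : ℝ) + Q.card :=
    add_nonneg (Nat.cast_nonneg _) (Nat.cast_nonneg _)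
  generalize (P.card : ℝ) + (Q.card : ℝ) = c at *
  have h4 : 2 * (z / (N : ℝ) ^ 8) ≤ ((N : ℝ) ^ 12 * u - (N : ℝ) ^ 11 * u) * c := by
    rw [← mul_div_assoc, div_le_iff₀ hN8]
    have e3 : ((N : ℝ) ^ 12 * u - (N : ℝ) ^ 11 * u) * c * (N : ℝ) ^ 8 =
        (N : ℝ) ^ 20 * u * c - (N : ℝ) ^ 19 * u * c := by ring
    rw [e3, ← hΔ]
    linarith
  have h10 : (1 : ℝ) ≤ (N : ℝ) ^ 10 := one_le_pow₀ (by linarith)
  have h5 : u ≤ (N : ℝ) ^ 10 * u := le_mul_of_one_le_left hu.le h10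
  have h6 : 1000 * ((N : ℝ) ^ 10 * u) ≤ (N : ℝ) ^ 11 * u := by
    have e3 : (N : ℝ) ^ 11 * u = N * ((N : ℝ) ^ 10 * u) := by ring
    rw [e3]
    exact mul_le_mul_of_nonneg_right hN (by positivity)
  have h7 : 0 ≤ c * ((N : ℝ) ^ 11 * u / 2 - 2 * ((N : ℝ) ^ 10 * u) - 5 * u) :=
    mul_nonneg hc0 (by linarith)
  linarith

theorem pq3 {V : Type} [Fintype V] (G R : SimpleGraph V) (Δ N T w0 : ℕ) (W : ℕ → Finset V)
    (h : Pc G R Δ N T w0 W) (t : ℕ) (ht : t < T) (U : SimpleGraph V) (hU : Sg G R Δ N t W U)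
    (S : Finset {v // v ∉ W t}) (hS : 2 * S.card ≤ Fintype.card {v // v ∉ W t})
    (hS2 : 2 * (Δ / (N : ℝ) ^ 8) < S.card) :
    2 ≤ 1 / ((N : ℝ) ^ 2 * Δ) *
      ee ((U ⊓ R).comap (Subtype.val : {v // v ∉ W t} → V)) S (univ \ S) := by
  obtain ⟨u, hu, hN, hΔ, hu40, e20, e8, e9, e10, e1⟩ := Pq_par G R Δ N T w0 W h
  have hN0 : (0 : ℝ) < N := by linarith
  have hN8 : (0 : ℝ) < (N : ℝ) ^ 8 := by positivity
  have h1 := Pq_cut (U ⊓ R) R inf_le_right (Subtype.val : {v // v ∉ W t} → V)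
    Subtype.val_injective S (univ \ S) (fun b hb => by
      rw [Finset.mem_sdiff]
      exact ⟨Finset.mem_univ _, hb⟩)
  have h2 : (∑ a ∈ S, (dg R a.1 : ℝ)) ≤
      ∑ a ∈ S, (dg ((U ⊓ R).comap (Subtype.val : {v // v ∉ W t} → V)) a : ℝ) +
        S.card * (2 * ((N : ℝ) ^ 10 * u) + u) := by
    rw [← nsmul_eq_mul, ← Finset.sum_const, ← Finset.sum_add_distrib]
    refine Finset.sum_le_sum fun a _ => ?_
    obtain ⟨-, d2⟩ := Pq_deg G R Δ N T w0 W h t ht U hU a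
    rw [e10, e20] at d2
    linarith
  have h1' : (ee R (S.map ⟨(Subtype.val : {v // v ∉ W t} → V), Subtype.val_injective⟩)
      (univ \ S.map ⟨(Subtype.val : {v // v ∉ W t} → V), Subtype.val_injective⟩) : ℝ) +
      ∑ a ∈ S, (dg ((U ⊓ R).comap (Subtype.val : {v // v ∉ W t} → V)) a : ℝ) ≤
      ee ((U ⊓ R).comap (Subtype.val : {v // v ∉ W t} → V)) S (univ \ S) +
        ∑ a ∈ S, (dg R a.1 : ℝ) := by
    exact_mod_cast h1
  have h3 := h.rc (S.map ⟨(Subtype.val : {v // v ∉ W t} → V), Subtype.val_injective⟩)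
  have hcard : Fintype.card {v // v ∉ W t} ≤ Fintype.card V :=
    Fintype.card_le_of_injective _ Subtype.val_injective
  have h4 := h.xp.ex (S.map ⟨(Subtype.val : {v // v ∉ W t} → V), Subtype.val_injective⟩)
    (by rw [Finset.card_map]; exact hS.trans hcard)
  rw [Finset.card_map] at h3 h4
  rw [e20] at h3
  rw [e1] at h4
  generalize (ee ((U ⊓ R).comap (Subtype.val : {v // v ∉ W t} → V)) S (univ \ S) : ℝ) = x at *
  generalize (ee R (S.map ⟨(Subtype.val : {v // v ∉ W t} → V), Subtype.val_injective⟩)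
      (univ \ S.map ⟨(Subtype.val : {v // v ∉ W t} → V), Subtype.val_injective⟩) : ℝ) = y at *
  generalize (ee G (S.map ⟨(Subtype.val : {v // v ∉ W t} → V), Subtype.val_injective⟩)
      (univ \ S.map ⟨(Subtype.val : {v // v ∉ W t} → V), Subtype.val_injective⟩) : ℝ) = z at *
  rw [e8] at hS2
  have hc0 : (0 : ℝ) ≤ S.card := Nat.cast_nonneg _
  generalize (S.card : ℝ) = c at *
  have h5 : (N : ℝ) ^ 11 * u * c ≤ z / (N : ℝ) ^ 8 := by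
    rw [le_div_iff₀ hN8]
    have e3 : (N : ℝ) ^ 11 * u * c * (N : ℝ) ^ 8 = (N : ℝ) ^ 19 * u * c := by ring
    rw [e3]
    exact h4
  have h10 : (1 : ℝ) ≤ (N : ℝ) ^ 10 := one_le_pow₀ (by linarith)
  have h6 : u ≤ (N : ℝ) ^ 10 * u := le_mul_of_one_le_left hu.le h10
  have h7 : 1000 * ((N : ℝ) ^ 10 * u) ≤ (N : ℝ) ^ 11 * u := by
    have e3 : (N : ℝ) ^ 11 * u = N * ((N : ℝ) ^ 10 * u) := by ring
    rw [e3]
    exact mul_le_mul_of_nonneg_right hN (by positivity)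
  have h8 : 0 ≤ c * ((N : ℝ) ^ 11 * u / 2 - 2 * ((N : ℝ) ^ 10 * u) - 2 * u) :=
    mul_nonneg hc0 (by linarith)
  have h9 : c * ((N : ℝ) ^ 11 * u / 2) ≤ x := by linarith
  have h11 : (N : ℝ) ^ 12 * u * ((N : ℝ) ^ 11 * u) ≤ x := by
    refine le_trans ?_ h9
    have h12 : 2 * ((N : ℝ) ^ 12 * u) * ((N : ℝ) ^ 11 * u / 2) ≤ c * ((N : ℝ) ^ 11 * u / 2) :=
      mul_le_mul_of_nonneg_right hS2.le (by positivity)
    linarith
  have hΔ0 : (0 : ℝ) < Δ := by rw [hΔ]; positivity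
  have hpos : (0 : ℝ) < (N : ℝ) ^ 2 * Δ := by positivity
  rw [one_div, inv_mul_eq_div, le_div_iff₀ hpos]
  refine le_trans ?_ h11
  rw [hΔ]
  have h13 : (2 : ℝ) ≤ N * u := by
    have h14 : (1 : ℝ) ≤ u := le_trans (one_le_pow₀ (by linarith)) hu40
    nlinarith
  have h15 : (N : ℝ) ^ 12 * u * ((N : ℝ) ^ 11 * u) = (N * u) * ((N : ℝ) ^ 2 * ((N : ℝ) ^ 20 * u)) := by
    ring
  rw [h15]
  exact mul_le_mul_of_nonneg_right h13 (by positivity)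

end Pool.Agent.H71.EX
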