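import Mathlib
import Pool.Agent.H71.EX.Defs
import Pool.Agent.H71.SX.Tut

/-!
EA: the support of a fractional perfect matching with the odd set conditions has a perfect matching.

Proof.  Let `F.Adj a b := 0 < x a b` (symmetric by `symm`, loopless by `diag`). Apply
`Pool.Agent.H71.SX.tut F ∅ univ`. In the first case `π` is an involution with `π v ≠ v`, hence
`F.Adj v (π v)`, for all `v`. In the second case there are `T` and a family `Q` of pairwise disjoint odd sets
`q`, disjoint from `T`, with `T.card < Q.card`, and every `w` with `0 < x z w`, `z ∈ q`, is in `q ∪ T`.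
So for `q ∈ Q`, by `odd` (and `x z w = 0` if `w ∉ q ∪ T`),
`1 ≤ ∑ z ∈ q, ∑ w ∈ univ \ q, x z w ≤ ∑ z ∈ q, ∑ w ∈ T, x z w`. Sum over `q ∈ Q`
(`Finset.sum_biUnion`, the `q` are disjoint):
`Q.card ≤ ∑ z, ∑ w ∈ T, x z w = ∑ w ∈ T, ∑ z, x w z = T.card` (by `symm`, `sum`, `nn`), a contradiction.
-/

set_option autoImplicit false

namespace Pool.Agent.H71.EX

open Finset Classical
open Pool.Agent.H71.DN

theorem ea {V : Type} [Fintype V] (x : V → V → ℝ) (h : FP x) :
    ∃ π : V → V, (∀ v, π (π v) = v) ∧ ∀ v, 0 < x v (π v) := by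
  let F : SimpleGraph V :=
    { Adj := fun a b => 0 < x a b
      symm := ⟨fun a b hab => by
        rw [h.symm b a]
        exact hab⟩
      loopless := ⟨fun a ha => by
        rw [h.diag a] at ha
        exact lt_irrefl 0 ha⟩ }
  have hF : ∀ a b, F.Adj a b ↔ 0 < x a b := fun a b => Iff.rfl
  rcases Pool.Agent.H71.SX.tut F ∅ univ (Finset.disjoint_empty_right _) with ⟨π, hinv, _, hadj, hne⟩ | ⟨T, Q, hcard, _, hQ, hdis⟩
  · exact ⟨π, hinv, fun v => (hF _ _).1 (hadj v (hne v (Finset.mem_univ v)))⟩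
  · exfalso
    obtain ⟨g, hg⟩ : ∃ g : V → ℝ, ∀ z, g z = ∑ w ∈ T, x z w := ⟨_, fun _ => rfl⟩
    have hg0 : ∀ z, 0 ≤ g z := fun z => by
      rw [hg]
      exact Finset.sum_nonneg fun w _ => h.nn z w
    have hq1 : ∀ q ∈ Q, (1 : ℝ) ≤ ∑ z ∈ q, g z := by
      intro q hq
      obtain ⟨hodd, _, _, hnb⟩ := hQ q hq
      refine (h.odd q hodd).trans (Finset.sum_le_sum fun z hz => ?_)
      rw [hg]
      have e1 : ∑ w ∈ univ \ q, x z w = ∑ w ∈ univ \ q, if w ∈ T then x z w else 0 := by
        apply Finset.sum_congr rfl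
        intro w hw
        by_cases hwT : w ∈ T
        · rw [if_pos hwT]
        · rw [if_neg hwT]
          by_contra hne
          have hpos : 0 < x z w := lt_of_le_of_ne (h.nn z w) (Ne.symm hne)
          rcases hnb z hz w ((hF z w).2 hpos) with h1 | h1 | h1
          · exact (Finset.mem_sdiff.1 hw).2 h1
          · exact hwT h1
          · exact absurd h1 (Finset.notMem_empty w)
      rw [e1]
      have e2 : ∑ w ∈ T, x z w = ∑ w ∈ univ, if w ∈ T then x z w else 0 := by
        rw [← Finset.sum_filter]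
        apply Finset.sum_congr _ (fun _ _ => rfl)
        ext w
        simp
      rw [e2]
      apply Finset.sum_le_sum_of_subset_of_nonneg (Finset.subset_univ _)
      intro w _ _
      by_cases hwT : w ∈ T
      · rw [if_pos hwT]
        exact h.nn z w
      · rw [if_neg hwT]
    have h1 : (Q.card : ℝ) ≤ ∑ q ∈ Q, ∑ z ∈ q, g z := by
      calc (Q.card : ℝ) = ∑ _q ∈ Q, (1 : ℝ) := by rw [Finset.sum_const, nsmul_eq_mul, mul_one]
        _ ≤ ∑ q ∈ Q, ∑ z ∈ q, g z := Finset.sum_le_sum hq1
    have h2 : ∑ q ∈ Q, ∑ z ∈ q, g z = ∑ z ∈ Q.biUnion id, g z := by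
      rw [Finset.sum_biUnion]
      · rfl
      · intro q hq q' hq' hne
        exact hdis q hq q' hq' hne
    have h3 : ∑ z ∈ Q.biUnion id, g z ≤ ∑ z, g z :=
      Finset.sum_le_sum_of_subset_of_nonneg (Finset.subset_univ _) fun z _ _ => hg0 z
    have h4 : ∑ z, g z = T.card := by
      rw [Finset.sum_congr rfl (fun z _ => hg z), Finset.sum_comm]
      have e3 : ∀ w ∈ T, ∑ z, x z w = 1 := by
        intro w _
        rw [Finset.sum_congr rfl (fun z _ => h.symm z w)]
        exact h.sum w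
      rw [Finset.sum_congr rfl e3, Finset.sum_const, nsmul_eq_mul, mul_one]
    have h5 : (T.card : ℝ) < Q.card := by exact_mod_cast hcard
    linarith

end Pool.Agent.H71.EX
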