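import Mathlib
import Pool.Agent.H71.EX.Defs
import Pool.Agent.H71.EX.Ea

/-!
EB: one step of the proof of Edmonds' theorem, when no odd set `S` with `#S, #Sᶜ > 1` is tight.

Proof.  Let `bd x S = ∑ v ∈ S, ∑ u ∈ univ \ S, x v u`. Given the cost `f`. Take `π` from `ea`
(`π v ≠ v` since `x v v = 0`). For a set `S` put `cr S = #{v ∈ S : π v ∉ S}`; if `#S` is odd then `cr S ≥ 1`
(otherwise `π` is a fixed point free involution of `S`; in fact only `1 ≤ cr S` is needed, and `cr S = 1` if
`#S = 1` or `#Sᶜ = 1`: for `#Sᶜ = 1` the only `v ∈ S` with `π v ∉ S` is `π u`, `Sᶜ = {u}`).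
If `f π := ∑ v, f v (π v) ≤ f x := ∑ v, ∑ u, x v u * f v u` we are done with `π`. Assume `f x < f π`.
Let `ε` be the minimum of the following finitely many positive numbers: `x v (π v)` (all `v`), and
`(bd x S - 1) / (cr S - 1)` for the odd `S` with `1 < #S`, `1 < #Sᶜ`, `1 < cr S` (positive by `hnt`).
(`V` is nonempty, otherwise both costs are `0`.)
If `ε ≥ 1` then `x v (π v) ≥ 1` for all `v`, so `x v (π v) = 1` and `x v u = 0` for `u ≠ π v` (row sums `1`,
nonnegative), so `f x = f π`, a contradiction. So `0 < ε < 1`. Put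
`x' v u = (x v u - ε * (if u = π v then 1 else 0)) / (1 - ε)`.
`FP x'`: symmetric (`u = π v ↔ v = π u`); nonnegative as `ε ≤ x v (π v)`; diagonal `0` (`π v ≠ v`); row sums
`(1 - ε) / (1 - ε) = 1`; for odd `S`: `bd x' S = (bd x S - ε cr S) / (1 - ε)`, and this is `≥ 1` iff
`ε (cr S - 1) ≤ bd x S - 1`, which holds: if `cr S = 1` by `h.odd`; if `cr S > 1` then `1 < #S` and `1 < #Sᶜ`
(see above; `#Sᶜ = 0` would give `cr S = 0`) and it is the choice of `ε`.
The support of `x'` is contained in that of `x` (`x' v u > 0` implies `x v u > 0`).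
If `ε = x v (π v)` for some `v` then `x' v (π v) = 0 < x v (π v)`: the support of `x'` is strictly smaller
(first alternative of `hind`). Otherwise `ε = (bd x S - 1) / (cr S - 1)` for some `S` and then
`bd x' S = 1` (second alternative). So `hind x'` gives `Ed x'`: a `π'` with `0 < x' v (π' v)`, hence
`0 < x v (π' v)`, and `f π' ≤ f x'`. Finally `f x = ε f π + (1 - ε) f x'` and `f x < f π` give `f x' < f x`
(`(1 - ε) f x' = f x - ε f π < f x - ε f x`).
-/

set_option autoImplicit false

namespace Pool.Agent.H71.EX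

open Finset Classical
open Pool.Agent.H71.DN

theorem eb_even {V : Type} (S : Finset V) (π : V → V) (hinv : ∀ v, π (π v) = v)
    (hne : ∀ v, π v ≠ v) (hS : ∀ v ∈ S, π v ∈ S) : Even S.card := by
  have h1 : ∑ _v ∈ S, (1 : ZMod 2) = 0 := by
    refine Finset.sum_involution (fun v _ => π v) ?_ ?_ ?_ ?_
    · intro v _
      decide
    · intro v _ _
      exact hne v
    · intro v hv
      exact hS v hv
    · intro v _
      exact hinv v
  rw [Finset.sum_const, nsmul_eq_mul, mul_one] at h1
  exact (ZMod.natCast_eq_zero_iff_even).1 h1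

theorem eb_cr {V : Type} [Fintype V] (π : V → V) (S : Finset V) :
    ∑ v ∈ S, ∑ u ∈ univ \ S, (if u = π v then (1 : ℝ) else 0) =
      ((S.filter fun v => π v ∉ S).card : ℝ) := by
  rw [Finset.card_filter, Nat.cast_sum]
  refine Finset.sum_congr rfl fun v _ => ?_
  rw [Finset.sum_ite_eq' (univ \ S) (π v) (fun _ => (1 : ℝ))]
  by_cases hv : π v ∈ S
  · rw [if_neg (fun h => (Finset.mem_sdiff.1 h).2 hv), if_neg (not_not.2 hv), Nat.cast_zero]
  · rw [if_pos (Finset.mem_sdiff.2 ⟨Finset.mem_univ _, hv⟩), if_pos hv, Nat.cast_one]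

theorem eb_bd {V : Type} [Fintype V] (x : V → V → ℝ) (π : V → V) (ε : ℝ) (S : Finset V) :
    ∑ v ∈ S, ∑ u ∈ univ \ S, (x v u - ε * (if u = π v then (1 : ℝ) else 0)) / (1 - ε) =
      (∑ v ∈ S, ∑ u ∈ univ \ S, x v u - ε * ((S.filter fun v => π v ∉ S).card : ℝ)) / (1 - ε) := by
  rw [← eb_cr π S, Finset.mul_sum, ← Finset.sum_sub_distrib, Finset.sum_div]
  refine Finset.sum_congr rfl fun v _ => ?_
  rw [Finset.mul_sum, ← Finset.sum_sub_distrib, Finset.sum_div]

theorem eb {V : Type} [Fintype V] (x : V → V → ℝ) (h : FP x)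
    (hnt : ∀ S : Finset V, Odd S.card → 1 < S.card → 1 < (univ \ S).card →
      1 < ∑ v ∈ S, ∑ u ∈ univ \ S, x v u)
    (hind : ∀ x' : V → V → ℝ, FP x' →
      ((univ.filter fun e : V × V => 0 < x' e.1 e.2).card <
          (univ.filter fun e : V × V => 0 < x e.1 e.2).card ∨
        ∃ S : Finset V, Odd S.card ∧ 1 < S.card ∧ 1 < (univ \ S).card ∧
          ∑ v ∈ S, ∑ u ∈ univ \ S, x' v u = 1) → Ed x') : Ed x := by
  intro f
  obtain ⟨π, hinv, hpos⟩ := ea x h
  have hne : ∀ v, π v ≠ v := by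
    intro v hv
    have := hpos v
    rw [hv, h.diag v] at this
    exact lt_irrefl 0 this
  by_cases hle : ∑ v, f v (π v) ≤ ∑ v, ∑ u, x v u * f v u
  · exact ⟨π, hinv, hpos, hle⟩
  push Not at hle
  obtain ⟨bd, hbd⟩ : ∃ bd : Finset V → ℝ, ∀ S, bd S = ∑ v ∈ S, ∑ u ∈ univ \ S, x v u :=
    ⟨_, fun _ => rfl⟩
  obtain ⟨cr, hcr⟩ : ∃ cr : Finset V → ℕ, ∀ S, cr S = (S.filter fun v => π v ∉ S).card :=
    ⟨_, fun _ => rfl⟩
  have hcr1 : ∀ S : Finset V, Odd S.card → 1 ≤ cr S := by
    intro S hS
    by_contra hc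
    have h0 : cr S = 0 := by omega
    rw [hcr, Finset.card_eq_zero, Finset.filter_eq_empty_iff] at h0
    exact (Nat.not_even_iff_odd.2 hS) (eb_even S π hinv hne fun v hv => not_not.1 (h0 hv))
  have hcrS : ∀ S : Finset V, cr S ≤ S.card := by
    intro S
    rw [hcr]
    exact Finset.card_filter_le _ _
  have hcrC : ∀ S : Finset V, cr S ≤ (univ \ S).card := by
    intro S
    rw [hcr]
    refine Finset.card_le_card_of_injOn π ?_ ?_
    · intro v hv
      exact Finset.mem_coe.2 (Finset.mem_sdiff.2 ⟨Finset.mem_univ _, (Finset.mem_filter.1 (Finset.mem_coe.1 hv)).2⟩)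
    · intro v _ w _ hvw
      have := congrArg π hvw
      rwa [hinv, hinv] at this
  have hbig : ∀ S : Finset V, Odd S.card → 1 < cr S → 1 < bd S := by
    intro S hS h1
    rw [hbd]
    exact hnt S hS (lt_of_lt_of_le h1 (hcrS S)) (lt_of_lt_of_le h1 (hcrC S))
  have hV : Nonempty V := by
    by_contra hc
    rw [not_nonempty_iff] at hc
    simp at hle
  -- the minimum
  set A : Finset ℝ := univ.image (fun v => x v (π v)) ∪
    (univ.filter (fun S : Finset V => Odd S.card ∧ 1 < cr S)).image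
      (fun S => (bd S - 1) / ((cr S : ℝ) - 1)) with hA
  have hAne : A.Nonempty := by
    obtain ⟨v⟩ := hV
    exact ⟨x v (π v), Finset.mem_union_left _ (Finset.mem_image_of_mem _ (Finset.mem_univ v))⟩
  obtain ⟨ε, hεmem, hεle⟩ : ∃ ε ∈ A, ∀ a ∈ A, ε ≤ a :=
    ⟨A.min' hAne, A.min'_mem hAne, fun a ha => A.min'_le a ha⟩
  have hεπ : ∀ v, ε ≤ x v (π v) := fun v =>
    hεle _ (Finset.mem_union_left _ (Finset.mem_image_of_mem _ (Finset.mem_univ v)))
  have hεS : ∀ S : Finset V, Odd S.card → 1 < cr S → ε * ((cr S : ℝ) - 1) ≤ bd S - 1 := by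
    intro S hS h1
    have h2 : (0 : ℝ) < (cr S : ℝ) - 1 := by
      have : (1 : ℝ) < (cr S : ℝ) := by exact_mod_cast h1
      linarith
    have h3 : ε ≤ (bd S - 1) / ((cr S : ℝ) - 1) :=
      hεle _ (Finset.mem_union_right _ (Finset.mem_image_of_mem _
        (Finset.mem_filter.2 ⟨Finset.mem_univ _, hS, h1⟩)))
    rwa [le_div_iff₀ h2] at h3
  have hε0 : 0 < ε := by
    rcases Finset.mem_union.1 hεmem with h1 | h1
    · obtain ⟨v, _, hv⟩ := Finset.mem_image.1 h1
      rw [← hv]
      exact hpos v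
    · obtain ⟨S, hS, hv⟩ := Finset.mem_image.1 h1
      obtain ⟨_, hSo, hS1⟩ := Finset.mem_filter.1 hS
      rw [← hv]
      have h2 : (0 : ℝ) < (cr S : ℝ) - 1 := by
        have : (1 : ℝ) < (cr S : ℝ) := by exact_mod_cast hS1
        linarith
      have h3 := hbig S hSo hS1
      exact div_pos (by linarith) h2
  have hε1 : ε < 1 := by
    by_contra hc
    push Not at hc
    have h1 : ∀ v, ∑ u, x v u * f v u = f v (π v) := by
      intro v
      have h2 : ∀ u, u ≠ π v → x v u = 0 := by
        intro u hu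
        have h3 := h.sum v
        rw [← Finset.add_sum_erase _ _ (Finset.mem_univ (π v))] at h3
        have h4 : ∑ w ∈ univ.erase (π v), x v w = 0 := by
          have h5 : 0 ≤ ∑ w ∈ univ.erase (π v), x v w := Finset.sum_nonneg fun w _ => h.nn v w
          have h6 := hεπ v
          linarith
        exact (Finset.sum_eq_zero_iff_of_nonneg (fun w _ => h.nn v w)).1 h4 u
          (Finset.mem_erase.2 ⟨hu, Finset.mem_univ _⟩)
      have h7 : x v (π v) = 1 := by
        rw [← h.sum v]
        refine (Finset.sum_eq_single (π v) (fun u _ hu => h2 u hu) ?_).symm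
        intro hn
        exact absurd (Finset.mem_univ _) hn
      rw [Finset.sum_eq_single (π v) (fun u _ hu => by rw [h2 u hu, zero_mul])
        (fun hn => absurd (Finset.mem_univ _) hn), h7, one_mul]
    rw [Finset.sum_congr rfl fun v _ => h1 v] at hle
    exact lt_irrefl _ hle
  have hδ : 0 < 1 - ε := by linarith
  obtain ⟨x', hx'⟩ : ∃ x' : V → V → ℝ, ∀ v u,
      x' v u = (x v u - ε * (if u = π v then (1 : ℝ) else 0)) / (1 - ε) := ⟨_, fun _ _ => rfl⟩
  have hbd' : ∀ S : Finset V, ∑ v ∈ S, ∑ u ∈ univ \ S, x' v u =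
      (bd S - ε * (cr S : ℝ)) / (1 - ε) := by
    intro S
    rw [hbd, hcr, ← eb_bd x π ε S]
    exact Finset.sum_congr rfl fun v _ => Finset.sum_congr rfl fun u _ => hx' v u
  have hxle : ∀ v u, 0 < x' v u → 0 < x v u := by
    intro v u hp
    rw [hx'] at hp
    have h1 : 0 < x v u - ε * (if u = π v then (1 : ℝ) else 0) := by
      have := mul_pos hp hδ
      rwa [div_mul_cancel₀ _ (ne_of_gt hδ)] at this
    have h2 : 0 ≤ ε * (if u = π v then (1 : ℝ) else 0) := by
      apply mul_nonneg (le_of_lt hε0)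
      split_ifs <;> norm_num
    linarith
  have hFP : FP x' := by
    refine ⟨?_, ?_, ?_, ?_, ?_⟩
    · intro u v
      rw [hx', hx', h.symm u v]
      have h1 : (if v = π u then (1 : ℝ) else 0) = (if u = π v then (1 : ℝ) else 0) := by
        by_cases h2 : v = π u
        · have h3 : u = π v := by rw [h2, hinv]
          rw [if_pos h2, if_pos h3]
        · have h3 : ¬ u = π v := fun h4 => h2 (by rw [h4, hinv])
          rw [if_neg h2, if_neg h3]
      rw [h1]
    · intro v u
      rw [hx']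
      apply div_nonneg _ (le_of_lt hδ)
      by_cases h2 : u = π v
      · rw [if_pos h2, h2]
        have := hεπ v
        linarith
      · rw [if_neg h2, mul_zero, sub_zero]
        exact h.nn v u
    · intro v
      rw [hx', h.diag, if_neg (fun h2 => hne v h2.symm), mul_zero, sub_zero, zero_div]
    · intro v
      rw [Finset.sum_congr rfl fun u _ => hx' v u, ← Finset.sum_div, Finset.sum_sub_distrib,
        h.sum v, ← Finset.mul_sum, Finset.sum_ite_eq' univ (π v) (fun _ => (1 : ℝ)),
        if_pos (Finset.mem_univ _), mul_one]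
      exact div_self (ne_of_gt hδ)
    · intro S hS
      rw [hbd', le_div_iff₀ hδ, one_mul]
      have h1 := hcr1 S hS
      rcases Nat.lt_or_ge 1 (cr S) with h2 | h2
      · have := hεS S hS h2
        linarith
      · have h3 : cr S = 1 := by omega
        rw [h3, Nat.cast_one, mul_one]
        have h4 := h.odd S hS
        rw [← hbd] at h4
        linarith
  have hsub : (univ.filter fun e : V × V => 0 < x' e.1 e.2) ⊆
      (univ.filter fun e : V × V => 0 < x e.1 e.2) := by
    intro e he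
    exact Finset.mem_filter.2 ⟨Finset.mem_univ _, hxle _ _ (Finset.mem_filter.1 he).2⟩
  have hEd : Ed x' := by
    apply hind x' hFP
    rcases Finset.mem_union.1 hεmem with h1 | h1
    · left
      obtain ⟨v, _, hv⟩ := Finset.mem_image.1 h1
      apply Finset.card_lt_card
      refine ⟨hsub, fun h2 => ?_⟩
      have h3 : (v, π v) ∈ univ.filter fun e : V × V => 0 < x e.1 e.2 :=
        Finset.mem_filter.2 ⟨Finset.mem_univ _, hpos v⟩
      have h4 := (Finset.mem_filter.1 (h2 h3)).2
      simp only [] at h4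
      rw [hx', if_pos rfl, mul_one, ← hv, sub_self, zero_div] at h4
      exact lt_irrefl 0 h4
    · right
      obtain ⟨S, hS, hv⟩ := Finset.mem_image.1 h1
      obtain ⟨_, hSo, hS1⟩ := Finset.mem_filter.1 hS
      refine ⟨S, hSo, lt_of_lt_of_le hS1 (hcrS S), lt_of_lt_of_le hS1 (hcrC S), ?_⟩
      have h2 : (0 : ℝ) < (cr S : ℝ) - 1 := by
        have : (1 : ℝ) < (cr S : ℝ) := by exact_mod_cast hS1
        linarith
      rw [hbd', div_eq_one_iff_eq (ne_of_gt hδ)]
      have h3 : ε * ((cr S : ℝ) - 1) = bd S - 1 := by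
        rw [← hv, div_mul_cancel₀ _ (ne_of_gt h2)]
      linarith
  obtain ⟨π', hinv', hpos', hle'⟩ := hEd f
  refine ⟨π', hinv', fun v => hxle _ _ (hpos' v), hle'.trans ?_⟩
  have hfx' : ∑ v, ∑ u, x' v u * f v u =
      (∑ v, ∑ u, x v u * f v u - ε * ∑ v, f v (π v)) / (1 - ε) := by
    rw [Finset.mul_sum, ← Finset.sum_sub_distrib, Finset.sum_div]
    refine Finset.sum_congr rfl fun v _ => ?_
    have h1 : f v (π v) = ∑ u, (if u = π v then (1 : ℝ) else 0) * f v u := by
      rw [Finset.sum_eq_single (π v)]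
      · rw [if_pos rfl, one_mul]
      · intro u _ hu
        rw [if_neg hu, zero_mul]
      · intro hn
        exact absurd (Finset.mem_univ _) hn
    rw [h1, Finset.mul_sum, ← Finset.sum_sub_distrib, Finset.sum_div]
    refine Finset.sum_congr rfl fun u _ => ?_
    rw [hx']
    ring
  rw [hfx', div_le_iff₀ hδ]
  have h9 := mul_lt_mul_of_pos_left hle hε0
  linarith

end Pool.Agent.H71.EX
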