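import Mathlib
import Pool.Agent.H71.EX.Defs

/-!
EC: one side of the contraction step in the proof of Edmonds' theorem.

Proof.  `#V` is even (`h.odd univ` would give `1 ≤ 0`), so `#(univ \ U)` is odd, hence `≥ 3`.
Contract `univ \ U`: let `W = Option {v // v ∈ U}` (`card = #U + 1 < #V`), and
`y (some a) (some b) = x a b`, `y (some a) none = y none (some a) = ∑ w ∈ univ \ U, x a w`, `y none none = 0`.
`FP y`: symmetric, nonnegative, zero diagonal; row sums: `∑ w, x a w = 1` for `some a`, and `ht` for `none`.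
Odd sets `S'` of `W`: if `none ∉ S'` let `S = {a ∈ U : some a ∈ S'}`, `#S = #S'`, and the boundary sum of `y` at
`S'` equals that of `x` at `S`; if `none ∈ S'` let `S = {a ∈ U : some a ∈ S'} ∪ (univ \ U)`:
`#S = #S' - 1 + #(univ \ U)` is odd and again the two boundary sums are equal. (It may be easier to treat
`none ∈ S'` by passing to the complement of `S'`, whose cardinality is odd too since `#W = #U + 1` is even, and
whose boundary sum is the same by symmetry.)
By `hind`: `Ed y`.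
Call `κ : W → W` good for `a ∈ U` if it is an involution with `0 < y w (κ w)` for all `w` and
`κ none = some a`; its inner cost is `ic κ = ∑ b ∈ U \ {a}, f b (value of κ (some b))`, where
`κ (some b) ≠ none` for `b ≠ a`, so `κ (some b) = some b'` with `b' ∈ U`, `b' ≠ a`.
If `0 < y none (some a)` there is a good `κ`: apply `Ed y` with the cost `-1` at `(none, some a)` and `0`
elsewhere: `- [κ none = some a] ≤ - y none (some a) < 0`. Let `g a` be the minimum of `ic κ` over the (finitely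
many) good `κ` for `a` if there is one, and `g a = 0` otherwise. This gives (i) (`π b` := the value of
`κ (some b)` for `b ∈ U`, `b ≠ a`, and `π b = b` otherwise; `0 < x b (π b)` since `y (some b) (some b') = x b b'`).
(ii): apply `Ed y` with the cost `f' (some b) (some b') = f b b'`, `f' none (some a) = - g a`, `0` otherwise.
The matching `κ` obtained has `κ none = some a` for some `a` (as `y none none = 0`), it is good for `a`, and its
cost is `ic κ - g a ≥ 0`. So `0 ≤ ∑ over b, b' of x b b' * f b b' - ∑ a, y none (some a) * g a`, which is (ii).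
-/

set_option autoImplicit false

namespace Pool.Agent.H71.EX

open Finset Classical
open Pool.Agent.H71.DN

private noncomputable def EXEc_p {V : Type} (U : Finset V) (v : V) : Option {v // v ∈ U} :=
  if hv : v ∈ U then some ⟨v, hv⟩ else none

private noncomputable def EXEc_y {V : Type} [Fintype V] (x : V → V → ℝ) (U : Finset V) :
    Option {v // v ∈ U} → Option {v // v ∈ U} → ℝ
  | some a, some b => x a.1 b.1
  | some a, none => ∑ w ∈ univ \ U, x a.1 w
  | none, some a => ∑ w ∈ univ \ U, x a.1 w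
  | none, none => 0

private theorem EXEc_fs {V : Type} [Fintype V] (U : Finset V) (a : {v // v ∈ U}) :
    (univ.filter fun v => EXEc_p U v = some a) = {a.1} := by
  ext v
  rw [mem_filter, mem_singleton]
  unfold EXEc_p
  constructor
  · rintro ⟨-, hv⟩
    split_ifs at hv with h1
    exact congrArg Subtype.val (Option.some.inj hv)
  · rintro rfl
    refine ⟨mem_univ _, ?_⟩
    rw [dif_pos a.2]

private theorem EXEc_fn {V : Type} [Fintype V] (U : Finset V) :
    (univ.filter fun v => EXEc_p U v = none) = univ \ U := by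
  ext v
  rw [mem_filter, mem_sdiff]
  unfold EXEc_p
  constructor
  · rintro ⟨h0, hv⟩
    refine ⟨h0, fun h1 => ?_⟩
    rw [dif_pos h1] at hv
    exact Option.some_ne_none _ hv
  · rintro ⟨h0, hv⟩
    exact ⟨h0, dif_neg hv⟩

private theorem EXEc_fib {V : Type} [Fintype V] (x : V → V → ℝ) (h : FP x) (U : Finset V)
    (w w' : Option {v // v ∈ U}) (hw : w ≠ w') :
    EXEc_y x U w w' = ∑ v ∈ univ.filter (fun v => EXEc_p U v = w),
      ∑ u ∈ univ.filter (fun u => EXEc_p U u = w'), x v u := by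
  rcases w with _ | a <;> rcases w' with _ | b
  · exact absurd rfl hw
  · rw [EXEc_fs, EXEc_fn]
    simp only [sum_singleton, EXEc_y]
    exact sum_congr rfl fun w _ => h.symm _ _
  · rw [EXEc_fs, EXEc_fn, sum_singleton]
    rfl
  · rw [EXEc_fs, EXEc_fs, sum_singleton, sum_singleton]
    rfl

private theorem EXEc_bd {V : Type} [Fintype V] (x : V → V → ℝ) (h : FP x) (U : Finset V)
    (S T : Finset (Option {v // v ∈ U})) (hST : ∀ w ∈ S, w ∉ T) :
    ∑ w ∈ S, ∑ w' ∈ T, EXEc_y x U w w' =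
      ∑ v ∈ univ.filter (fun v => EXEc_p U v ∈ S),
        ∑ u ∈ univ.filter (fun u => EXEc_p U u ∈ T), x v u := by
  calc ∑ w ∈ S, ∑ w' ∈ T, EXEc_y x U w w' 
      = ∑ w ∈ S, ∑ w' ∈ T, ∑ v ∈ univ.filter (fun v => EXEc_p U v = w),
          ∑ u ∈ univ.filter (fun u => EXEc_p U u = w'), x v u := by
        refine sum_congr rfl fun w hw => sum_congr rfl fun w' hw' => ?_
        refine EXEc_fib x h U w w' ?_
        rintro rfl
        exact hST w hw hw'
    _ = ∑ w ∈ S, ∑ v ∈ univ.filter (fun v => EXEc_p U v = w), ∑ w' ∈ T,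
          ∑ u ∈ univ.filter (fun u => EXEc_p U u = w'), x v u := 
        sum_congr rfl fun w hw => sum_comm
    _ = ∑ w ∈ S, ∑ v ∈ univ.filter (fun v => EXEc_p U v = w), 
          ∑ u ∈ univ.filter (fun u => EXEc_p U u ∈ T), x v u := 
        sum_congr rfl fun w hw => sum_congr rfl fun v hv => sum_fiberwise_eq_sum_filter _ _ _ _
    _ = _ := sum_fiberwise_eq_sum_filter _ _ _ _

private theorem EXEc_par {V : Type} [Fintype V] (x : V → V → ℝ) (h : FP x) (U : Finset V)
    (hU : Odd U.card) : Odd (univ \ U).card := by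
  have h1 : ¬ Odd (univ : Finset V).card := by
    intro h2
    have h3 := h.odd univ h2
    simp at h3
    linarith
  rw [Nat.not_odd_iff_even] at h1
  have h2 : (univ \ U).card + U.card = (univ : Finset V).card :=
    card_sdiff_add_card_eq_card (subset_univ U)
  rw [← h2] at h1
  rcases Nat.even_or_odd (univ \ U).card with h3 | h3
  · exact absurd (h3.add_odd hU) (by rw [Nat.not_odd_iff_even]; exact h1)
  · exact h3

private theorem EXEc_odd {V : Type} [Fintype V] (x : V → V → ℝ) (h : FP x) (U : Finset V)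
    (hU : Odd U.card) (S : Finset (Option {v // v ∈ U})) (hS : Odd S.card) :
    Odd (univ.filter (fun v => EXEc_p U v ∈ S)).card := by
  rw [← ZMod.natCast_eq_one_iff_odd] at hS ⊢
  have h1 : ∑ w ∈ S, ∑ v ∈ univ.filter (fun v => EXEc_p U v = w), (1 : ZMod 2) =
      ∑ v ∈ univ.filter (fun v => EXEc_p U v ∈ S), (1 : ZMod 2) :=
    sum_fiberwise_eq_sum_filter _ _ _ _
  rw [sum_const, nsmul_eq_mul, mul_one] at h1
  rw [← h1]
  have h2 : ∀ w ∈ S, ∑ v ∈ univ.filter (fun v => EXEc_p U v = w), (1 : ZMod 2) = 1 := by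
    intro w _
    rw [sum_const, nsmul_eq_mul, mul_one]
    rcases w with _ | a
    · rw [EXEc_fn, ZMod.natCast_eq_one_iff_odd]
      exact EXEc_par x h U hU
    · rw [EXEc_fs, card_singleton, Nat.cast_one]
  rw [sum_congr rfl h2, sum_const, nsmul_eq_mul, mul_one]
  exact hS

private theorem EXEc_nn {V : Type} [Fintype V] (x : V → V → ℝ) (h : FP x) (U : Finset V) (v : V) :
    0 ≤ ∑ w ∈ univ \ U, x v w := sum_nonneg fun w _ => h.nn v w

private theorem EXEc_FP {V : Type} [Fintype V] (x : V → V → ℝ) (h : FP x) (U : Finset V)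
    (hU : Odd U.card) (ht : ∑ v ∈ U, ∑ u ∈ univ \ U, x v u = 1) : FP (EXEc_y x U) := by
  refine ⟨?_, ?_, ?_, ?_, ?_⟩
  · intro w w'
    rcases w with _ | a <;> rcases w' with _ | b
    · rfl
    · rfl
    · rfl
    · exact h.symm _ _
  · intro w w'
    rcases w with _ | a <;> rcases w' with _ | b
    · exact le_refl _
    · exact EXEc_nn x h U _
    · exact EXEc_nn x h U _
    · exact h.nn _ _
  · intro w
    rcases w with _ | a
    · rfl
    · exact h.diag _
  · intro w
    rw [Fintype.sum_option]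
    rcases w with _ | a
    · have h1 : ∑ b : {v // v ∈ U}, EXEc_y x U none (some b) = ∑ v ∈ U, ∑ u ∈ univ \ U, x v u :=
        sum_coe_sort U (fun v => ∑ u ∈ univ \ U, x v u)
      rw [h1, ht]
      exact zero_add _
    · have h1 : ∑ b : {v // v ∈ U}, EXEc_y x U (some a) (some b) = ∑ v ∈ U, x a.1 v :=
        sum_coe_sort U (fun v => x a.1 v)
      rw [h1]
      have h2 := h.sum a.1
      rw [← sum_sdiff (subset_univ U)] at h2
      exact h2
  · intro S hS
    have key : ∀ T : Finset (Option {v // v ∈ U}), (∀ w, w ∈ T ↔ w ∉ S) →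
        1 ≤ ∑ w ∈ S, ∑ w' ∈ T, EXEc_y x U w w' := by
      intro T hT
      have h1 := h.odd _ (EXEc_odd x h U hU S hS)
      have h2 := EXEc_bd x h U S T (fun w hw hw' => (hT w).mp hw' hw)
      have h3 : (univ \ univ.filter (fun v => EXEc_p U v ∈ S)) =
          univ.filter (fun u => EXEc_p U u ∈ T) := by
        ext v
        simp only [mem_sdiff, mem_filter, mem_univ, true_and, hT]
      rw [h3] at h1
      rw [h2]
      exact h1
    exact key _ (by intro w; simp)

/-- the value of the partner -/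
private noncomputable def EXEc_pi {V : Type} (U : Finset V)
    (κ : Option {v // v ∈ U} → Option {v // v ∈ U}) (b : V) : V :=
  if hb : b ∈ U then (κ (some ⟨b, hb⟩)).elim b (fun c => c.1) else b

private def EXEc_good {V : Type} [Fintype V] (x : V → V → ℝ) (U : Finset V)
    (κ : Option {v // v ∈ U} → Option {v // v ∈ U}) (a : V) : Prop :=
  (∀ w, κ (κ w) = w) ∧ (∀ w, 0 < EXEc_y x U w (κ w)) ∧ ∃ ha : a ∈ U, κ none = some ⟨a, ha⟩

private theorem EXEc_val {V : Type} [Fintype V] (x : V → V → ℝ) (U : Finset V)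
    (κ : Option {v // v ∈ U} → Option {v // v ∈ U}) (a : V) (hg : EXEc_good x U κ a)
    (b : V) (hb : b ∈ U) (hba : b ≠ a) :
    ∃ hc : EXEc_pi U κ b ∈ U, κ (some ⟨b, hb⟩) = some ⟨EXEc_pi U κ b, hc⟩ := by
  obtain ⟨h1, h2, ha, h3⟩ := hg
  rcases hk : κ (some ⟨b, hb⟩) with _ | c
  · exfalso
    have h4 := h1 (some ⟨b, hb⟩)
    rw [hk, h3] at h4
    exact hba (congrArg Subtype.val (Option.some.inj h4)).symm
  · have h5 : EXEc_pi U κ b = c.1 := by
      unfold EXEc_pi
      rw [dif_pos hb, hk]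
      rfl
    refine ⟨by rw [h5]; exact c.2, ?_⟩
    congr 1
    exact Subtype.ext h5.symm

private theorem EXEc_props {V : Type} [Fintype V] (x : V → V → ℝ) (U : Finset V)
    (κ : Option {v // v ∈ U} → Option {v // v ∈ U}) (a : V) (hg : EXEc_good x U κ a)
    (b : V) (hb : b ∈ U) (hba : b ≠ a) :
    EXEc_pi U κ b ∈ U ∧ EXEc_pi U κ b ≠ a ∧ EXEc_pi U κ (EXEc_pi U κ b) = b ∧
      0 < x b (EXEc_pi U κ b) := by
  obtain ⟨hc, hk⟩ := EXEc_val x U κ a hg b hb hba
  obtain ⟨h1, h2, ha, h3⟩ := hg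
  have h6 : κ (some ⟨EXEc_pi U κ b, hc⟩) = some ⟨b, hb⟩ := by
    rw [← hk]
    exact h1 _
  refine ⟨hc, ?_, ?_, ?_⟩
  · intro h4
    have h5 : (some ⟨EXEc_pi U κ b, hc⟩ : Option {v // v ∈ U}) = κ none := by
      rw [h3]
      congr 1
      exact Subtype.ext h4
    rw [h5, h1] at h6
    exact Option.some_ne_none _ h6.symm
  · have h8 : EXEc_pi U κ (EXEc_pi U κ b) =
        (κ (some ⟨EXEc_pi U κ b, hc⟩)).elim (EXEc_pi U κ b) (fun c => c.1) := dif_pos hc
    rw [h8, h6]
    rfl
  · have h7 := h2 (some ⟨b, hb⟩)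
    rw [hk] at h7
    exact h7

private theorem EXEc_ex {V : Type} [Fintype V] (x : V → V → ℝ) (U : Finset V)
    (hEd : Ed (EXEc_y x U)) (a : V) (ha : a ∈ U) (hc : 0 < ∑ w ∈ univ \ U, x a w) :
    ∃ κ, EXEc_good x U κ a := by
  obtain ⟨κ, h1, h2, h3⟩ := hEd (fun w w' => if w = none ∧ w' = some ⟨a, ha⟩ then -1 else 0)
  refine ⟨κ, h1, h2, ha, ?_⟩
  by_contra hn
  have h4 : ∑ w, (if w = none ∧ κ w = some ⟨a, ha⟩ then (-1 : ℝ) else 0) = 0 := by
    refine sum_eq_zero fun w _ => ?_
    rw [if_neg]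
    rintro ⟨rfl, h5⟩
    exact hn h5
  rw [h4] at h3
  have h5 : ∑ w, ∑ w', EXEc_y x U w w' * (if w = none ∧ w' = some ⟨a, ha⟩ then (-1 : ℝ) else 0) =
      - ∑ w ∈ univ \ U, x a w := by
    rw [sum_eq_single none, sum_eq_single (some ⟨a, ha⟩)]
    · rw [if_pos ⟨rfl, rfl⟩]
      have : EXEc_y x U none (some ⟨a, ha⟩) = ∑ w ∈ univ \ U, x a w := rfl
      rw [this]
      ring
    · intro w' _ hw'
      rw [if_neg, mul_zero]
      rintro ⟨-, h6⟩
      exact hw' h6
    · intro h6
      exact absurd (mem_univ _) h6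
    · intro w _ hw
      refine sum_eq_zero fun w' _ => ?_
      rw [if_neg, mul_zero]
      rintro ⟨h6, -⟩
      exact hw h6
    · intro h6
      exact absurd (mem_univ _) h6
  rw [h5] at h3
  linarith

private theorem EXEc_g {V : Type} [Fintype V] (x : V → V → ℝ) (U : Finset V)
    (hEd : Ed (EXEc_y x U)) (f : V → V → ℝ) (a : V) :
    ∃ g : ℝ, (a ∈ U → 0 < ∑ w ∈ univ \ U, x a w →
        ∃ κ, EXEc_good x U κ a ∧ ∑ b ∈ U.erase a, f b (EXEc_pi U κ b) = g) ∧
      ∀ κ, EXEc_good x U κ a → g ≤ ∑ b ∈ U.erase a, f b (EXEc_pi U κ b) := by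
  by_cases hex : ∃ κ, EXEc_good x U κ a
  · obtain ⟨κ0, hκ0⟩ := hex
    have hne : (univ.filter fun κ : Option {v // v ∈ U} → Option {v // v ∈ U} =>
        EXEc_good x U κ a).Nonempty := ⟨κ0, by rw [mem_filter]; exact ⟨mem_univ _, hκ0⟩⟩
    obtain ⟨κ, hκ, hmin⟩ := exists_min_image _
      (fun κ => ∑ b ∈ U.erase a, f b (EXEc_pi U κ b)) hne
    rw [mem_filter] at hκ
    refine ⟨∑ b ∈ U.erase a, f b (EXEc_pi U κ b), fun _ _ => ⟨κ, hκ.2, rfl⟩, ?_⟩
    intro κ' hκ'
    exact hmin κ' (by rw [mem_filter]; exact ⟨mem_univ _, hκ'⟩)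
  · refine ⟨0, fun ha hc => absurd (EXEc_ex x U hEd a ha hc) hex, ?_⟩
    intro κ hκ
    exact absurd ⟨κ, hκ⟩ hex

private noncomputable def EXEc_f {V : Type} (U : Finset V) (f : V → V → ℝ) (g : V → ℝ) :
    Option {v // v ∈ U} → Option {v // v ∈ U} → ℝ
  | some a, some b => f a.1 b.1
  | some _, none => 0
  | none, some a => - g a.1
  | none, none => 0

private theorem EXEc_cost {V : Type} [Fintype V] (x : V → V → ℝ) (U : Finset V)
    (f : V → V → ℝ) (g : V → ℝ) (κ : Option {v // v ∈ U} → Option {v // v ∈ U}) (a : V)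
    (hg : EXEc_good x U κ a) :
    ∑ w, EXEc_f U f g w (κ w) = - g a + ∑ b ∈ U.erase a, f b (EXEc_pi U κ b) := by
  rw [Fintype.sum_option]
  obtain ⟨h1, h2, ha, h3⟩ := id hg
  have h4 : κ (some ⟨a, ha⟩) = none := by
    rw [← h3]
    exact h1 _
  have h5 : EXEc_f U f g none (κ none) = - g a := by
    rw [h3]
    rfl
  rw [h5]
  congr 1
  have h6 : ∀ b : {v // v ∈ U}, EXEc_f U f g (some b) (κ (some b)) =
      if b.1 = a then 0 else f b.1 (EXEc_pi U κ b.1) := by
    intro b
    split_ifs with hb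
    · have : b = ⟨a, ha⟩ := Subtype.ext hb
      rw [this, h4]
      rfl
    · obtain ⟨hc, hk⟩ := EXEc_val x U κ a hg b.1 b.2 hb
      have : κ (some b) = some ⟨EXEc_pi U κ b.1, hc⟩ := hk
      rw [this]
      rfl
  rw [sum_congr rfl fun b _ => h6 b]
  have h7 : ∑ b : {v // v ∈ U}, (if b.1 = a then 0 else f b.1 (EXEc_pi U κ b.1)) =
      ∑ b ∈ U, (if b = a then 0 else f b (EXEc_pi U κ b)) :=
    sum_coe_sort U (fun b => if b = a then 0 else f b (EXEc_pi U κ b))
  rw [h7, ← add_sum_erase U _ ha, if_pos rfl, zero_add]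
  refine sum_congr rfl fun b hb => ?_
  rw [if_neg (ne_of_mem_erase hb)]

theorem ec {V : Type} [Fintype V] (x : V → V → ℝ) (h : FP x) (U : Finset V) (hU : Odd U.card)
    (h2 : 1 < (univ \ U).card)
    (ht : ∑ v ∈ U, ∑ u ∈ univ \ U, x v u = 1)
    (hind : ∀ (W : Type) [Fintype W] (y : W → W → ℝ), Fintype.card W < Fintype.card V →
      FP y → Ed y) (f : V → V → ℝ) :
    ∃ g : V → ℝ,
      (∀ a ∈ U, 0 < ∑ w ∈ univ \ U, x a w → ∃ π : V → V,
        (∀ b ∈ U, b ≠ a → π b ∈ U ∧ π b ≠ a ∧ π (π b) = b ∧ 0 < x b (π b)) ∧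
        ∑ b ∈ U.erase a, f b (π b) = g a) ∧
      ∑ a ∈ U, (∑ w ∈ univ \ U, x a w) * g a ≤ ∑ a ∈ U, ∑ b ∈ U, x a b * f a b := by
  have hcard : Fintype.card (Option {v // v ∈ U}) < Fintype.card V := by
    have e1 : Fintype.card {v // v ∈ U} = U.card := Fintype.card_coe U
    have e2 : (univ \ U).card + U.card = (univ : Finset V).card :=
      card_sdiff_add_card_eq_card (subset_univ U)
    rw [Fintype.card_option, e1, ← card_univ]
    omega
  have hEd : Ed (EXEc_y x U) := hind _ (EXEc_y x U) hcard (EXEc_FP x h U hU ht)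
  choose g hg1 hg2 using EXEc_g x U hEd f
  refine ⟨g, ?_, ?_⟩
  · intro a ha hc
    obtain ⟨κ, hκ, hs⟩ := hg1 a ha hc
    exact ⟨EXEc_pi U κ, fun b hb hba => EXEc_props x U κ a hκ b hb hba, hs⟩
  · obtain ⟨κ, h1, h2, h3⟩ := hEd (EXEc_f U f g)
    have h4 : ∃ a, EXEc_good x U κ a := by
      rcases hk : κ none with _ | a
      · exfalso
        have h5 := h2 none
        rw [hk] at h5
        exact lt_irrefl _ h5
      · exact ⟨a.1, h1, h2, a.2, hk⟩
    obtain ⟨a, ha⟩ := h4
    rw [EXEc_cost x U f g κ a ha] at h3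
    have h5 := hg2 a κ ha
    have h6 : ∑ w, ∑ w', EXEc_y x U w w' * EXEc_f U f g w w' =
        ∑ a ∈ U, ∑ b ∈ U, x a b * f a b - ∑ a ∈ U, (∑ w ∈ univ \ U, x a w) * g a := by
      rw [Fintype.sum_option, Fintype.sum_option]
      have e1 : EXEc_y x U none none * EXEc_f U f g none none = 0 := zero_mul _
      have e2 : ∑ b : {v // v ∈ U}, EXEc_y x U none (some b) * EXEc_f U f g none (some b) =
          - ∑ a ∈ U, (∑ w ∈ univ \ U, x a w) * g a := by
        rw [← sum_neg_distrib]
        rw [← sum_coe_sort U (fun a => -((∑ w ∈ univ \ U, x a w) * g a))]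
        refine sum_congr rfl fun b _ => ?_
        exact mul_neg _ _
      have e3 : ∑ a : {v // v ∈ U}, ∑ w', EXEc_y x U (some a) w' * EXEc_f U f g (some a) w' =
          ∑ a ∈ U, ∑ b ∈ U, x a b * f a b := by
        rw [← sum_coe_sort U (fun a => ∑ b ∈ U, x a b * f a b)]
        refine sum_congr rfl fun a _ => ?_
        rw [Fintype.sum_option]
        have e4 : EXEc_y x U (some a) none * EXEc_f U f g (some a) none = 0 := mul_zero _
        rw [e4, zero_add, ← sum_coe_sort U (fun b => x a.1 b * f a.1 b)]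
        rfl
      rw [e1, e2, e3]
      ring
    rw [h6] at h3
    linarith

end Pool.Agent.H71.EX
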