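import Mathlib
import Pool.Agent.H71.EX.Defs
import Pool.Agent.H71.EX.Ea
import Pool.Agent.H71.EX.Eb
import Pool.Agent.H71.EX.Ec

/-!
ED: Edmonds' perfect matching theorem (cost form).

`ed1` (a tight odd set).  `#V` is even (`h.odd univ` would give `1 ≤ 0`), so `#(univ \ U)` is odd and
`univ \ (univ \ U) = U`; `∑ v ∈ univ \ U, ∑ u ∈ U, x v u = 1` by symmetry. Given the cost `f`, apply `ec` to `U`
and to `univ \ U`: functions `g1` (on `U`) and `g2` (on `univ \ U`). Then, with `a ∈ U`, `w ∉ U`: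
`∑ a, ∑ w, x a w * (g1 a + g2 w + f a w + f w a) ≤ (inner cost of U) + (inner cost of univ \ U) +
∑ a, ∑ w, x a w * (f a w + f w a) = ∑ v, ∑ u, x v u * f v u`, and `∑ a, ∑ w, x a w = 1`, `x ≥ 0`. So there are
`a ∈ U`, `w ∉ U` with `0 < x a w` and `g1 a + g2 w + f a w + f w a ≤ ∑ v, ∑ u, x v u * f v u` (otherwise the
weighted average would be larger). As `0 < x a w`, both row conditions of (i) hold and give `π1` on `U \ {a}`
and `π2` on `(univ \ U) \ {w}`. Let `π a = w`, `π w = a`, `π = π1` on `U \ {a}`, `π = π2` on the rest.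

`edm`: strong induction on `Fintype.card V` (for all types), and, for fixed `V`, strong induction on the size of
the support `#{e : V × V | 0 < x e.1 e.2}`. If there is a tight odd set `S` with `1 < #S`, `1 < #(univ \ S)`:
`ed1`. Otherwise `eb`; in `hind`, the case of a smaller support is the induction hypothesis, and the case of a
tight set of `x'` is `ed1` for `x'`.
-/

set_option autoImplicit false

namespace Pool.Agent.H71.EX

open Finset Classical
open Pool.Agent.H71.DN

private lemma ed_even {V : Type} [Fintype V] {x : V → V → ℝ} (h : FP x) {U : Finset V} (hU : Odd U.card) :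
    Odd (univ \ U).card := by
  have h1 : ¬ Odd (univ : Finset V).card := by
    intro ho
    have h2 := h.odd univ ho
    have h0 : ∑ v : V, ∑ u ∈ (univ \ univ : Finset V), x v u = 0 := by
      refine sum_eq_zero fun v _ => ?_
      rw [Finset.sdiff_self, sum_empty]
    linarith
  have h3 : (univ \ U).card + U.card = (univ : Finset V).card :=
    card_sdiff_add_card_eq_card (subset_univ U)
  rw [← h3] at h1
  by_contra hc
  exact h1 (Even.add_odd (Nat.not_odd_iff_even.1 hc) hU)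

theorem ed1 {V : Type} [Fintype V] (x : V → V → ℝ) (h : FP x) (U : Finset V) (hU : Odd U.card)
    (h1 : 1 < U.card) (h2 : 1 < (univ \ U).card)
    (ht : ∑ v ∈ U, ∑ u ∈ univ \ U, x v u = 1)
    (hind : ∀ (W : Type) [Fintype W] (y : W → W → ℝ), Fintype.card W < Fintype.card V →
      FP y → Ed y) : Ed x := by
  classical
  have hU' : Odd (univ \ U).card := ed_even h hU
  have hUU : univ \ (univ \ U) = U := by
    ext v
    simp
  have ht' : ∑ v ∈ univ \ U, ∑ u ∈ univ \ (univ \ U), x v u = 1 := by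
    rw [hUU, sum_comm, ← ht]
    exact sum_congr rfl fun v _ => sum_congr rfl fun u _ => h.symm u v
  intro f
  obtain ⟨g1, hg1, hg1'⟩ := ec x h U hU h2 ht hind f
  obtain ⟨g2, hg2, hg2'⟩ := ec x h (univ \ U) hU' (by rw [hUU]; exact h1) ht' hind f
  rw [hUU] at hg2 hg2'
  set C := ∑ v, ∑ u, x v u * f v u with hC
  -- splitting a double sum
  have split1 : ∀ F : V → ℝ, ∑ v, F v = ∑ v ∈ U, F v + ∑ v ∈ univ \ U, F v := by
    intro F
    rw [add_comm]
    exact (sum_sdiff (subset_univ U)).symm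
  have hCs : C = ∑ a ∈ U, ∑ b ∈ U, x a b * f a b +
      ∑ a ∈ univ \ U, ∑ b ∈ univ \ U, x a b * f a b +
      (∑ a ∈ U, ∑ w ∈ univ \ U, x a w * f a w + ∑ a ∈ U, ∑ w ∈ univ \ U, x a w * f w a) := by
    have e1 : C = ∑ v ∈ U, (∑ u ∈ U, x v u * f v u + ∑ u ∈ univ \ U, x v u * f v u) +
        ∑ v ∈ univ \ U, (∑ u ∈ U, x v u * f v u + ∑ u ∈ univ \ U, x v u * f v u) := by
      rw [hC, split1]
      congr 1 <;> exact sum_congr rfl fun v _ => split1 _
    have e2 : ∑ a ∈ U, ∑ w ∈ univ \ U, x a w * f w a = ∑ v ∈ univ \ U, ∑ u ∈ U, x v u * f v u := by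
      rw [sum_comm]
      exact sum_congr rfl fun v _ => sum_congr rfl fun u _ => by rw [h.symm]
    rw [e1, e2, sum_add_distrib, sum_add_distrib]
    ring
  have key : ∃ a ∈ U, ∃ w ∈ univ \ U, 0 < x a w ∧ g1 a + g2 w + f a w + f w a ≤ C := by
    by_contra hcon
    push Not at hcon
    have s1 : ∑ p ∈ U ×ˢ (univ \ U), x p.1 p.2 = 1 := by
      rw [sum_product, ht]
    have s2 : ∃ p ∈ U ×ˢ (univ \ U), 0 < x p.1 p.2 := by
      by_contra hc
      push Not at hc
      have := sum_nonpos hc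
      linarith
    have s3 : 0 < ∑ p ∈ U ×ˢ (univ \ U), x p.1 p.2 * (g1 p.1 + g2 p.2 + f p.1 p.2 + f p.2 p.1 - C) := by
      refine sum_pos' (fun p hp => ?_) ?_
      · obtain ⟨hp1, hp2⟩ := mem_product.1 hp
        rcases (h.nn p.1 p.2).eq_or_lt with h0 | h0
        · rw [← h0, zero_mul]
        · exact mul_nonneg h0.le (by linarith [hcon p.1 hp1 p.2 hp2 h0])
      · obtain ⟨p, hp, h0⟩ := s2
        obtain ⟨hp1, hp2⟩ := mem_product.1 hp
        exact ⟨p, hp, mul_pos h0 (by linarith [hcon p.1 hp1 p.2 hp2 h0])⟩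
    have s4 : ∑ p ∈ U ×ˢ (univ \ U), x p.1 p.2 * (g1 p.1 + g2 p.2 + f p.1 p.2 + f p.2 p.1 - C) =
        ∑ a ∈ U, (∑ w ∈ univ \ U, x a w) * g1 a + ∑ w ∈ univ \ U, (∑ a ∈ U, x w a) * g2 w +
        (∑ a ∈ U, ∑ w ∈ univ \ U, x a w * f a w + ∑ a ∈ U, ∑ w ∈ univ \ U, x a w * f w a) - C := by
      have t1 : ∑ a ∈ U, (∑ w ∈ univ \ U, x a w) * g1 a = ∑ p ∈ U ×ˢ (univ \ U), x p.1 p.2 * g1 p.1 := by
        rw [sum_product]
        exact sum_congr rfl fun a _ => by rw [sum_mul]
      have t2 : ∑ w ∈ univ \ U, (∑ a ∈ U, x w a) * g2 w = ∑ p ∈ U ×ˢ (univ \ U), x p.1 p.2 * g2 p.2 := by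
        rw [sum_product, sum_comm]
        exact sum_congr rfl fun w _ => by
          rw [sum_mul]
          exact sum_congr rfl fun a _ => by rw [h.symm]
      have t3 : ∑ a ∈ U, ∑ w ∈ univ \ U, x a w * f a w = ∑ p ∈ U ×ˢ (univ \ U), x p.1 p.2 * f p.1 p.2 := by
        rw [sum_product]
      have t4 : ∑ a ∈ U, ∑ w ∈ univ \ U, x a w * f w a = ∑ p ∈ U ×ˢ (univ \ U), x p.1 p.2 * f p.2 p.1 := by
        rw [sum_product]
      have t5 : C = ∑ p ∈ U ×ˢ (univ \ U), x p.1 p.2 * C := by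
        rw [← sum_mul, s1, one_mul]
      rw [t1, t2, t3, t4]
      conv_rhs => rw [t5]
      rw [← sum_add_distrib, ← sum_add_distrib, ← sum_add_distrib, ← sum_sub_distrib]
      exact sum_congr rfl fun p _ => by ring
    rw [s4] at s3
    linarith
  obtain ⟨a, ha, w, hw, hxaw, hle⟩ := key
  have hwU : w ∉ U := (mem_sdiff.1 hw).2
  have hwa : w ≠ a := fun hh => hwU (hh ▸ ha)
  have hpos1 : 0 < ∑ w ∈ univ \ U, x a w :=
    lt_of_lt_of_le hxaw (single_le_sum (f := fun w => x a w) (fun u _ => h.nn a u) hw)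
  have hpos2 : 0 < ∑ u ∈ U, x w u := by
    have h3 : 0 < x w a := by rw [h.symm]; exact hxaw
    exact lt_of_lt_of_le h3 (single_le_sum (f := fun u => x w u) (fun u _ => h.nn w u) ha)
  obtain ⟨π1, hπ1, hs1⟩ := hg1 a ha hpos1
  obtain ⟨π2, hπ2, hs2⟩ := hg2 w hw hpos2
  set π : V → V := fun v => if v = a then w else if v = w then a else if v ∈ U then π1 v else π2 v
    with hπ
  have pa : π a = w := by
    show (if a = a then w else if a = w then a else if a ∈ U then π1 a else π2 a) = w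
    rw [if_pos rfl]
  have pw : π w = a := by
    show (if w = a then w else if w = w then a else if w ∈ U then π1 w else π2 w) = a
    rw [if_neg hwa, if_pos rfl]
  have p1 : ∀ v ∈ U, v ≠ a → π v = π1 v := by
    intro v hv hva
    have hvw : v ≠ w := fun hh => hwU (hh ▸ hv)
    show (if v = a then w else if v = w then a else if v ∈ U then π1 v else π2 v) = π1 v
    rw [if_neg hva, if_neg hvw, if_pos hv]
  have p2 : ∀ v, v ∉ U → v ≠ w → π v = π2 v := by
    intro v hv hvw
    have hva : v ≠ a := fun hh => hv (hh ▸ ha)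
    show (if v = a then w else if v = w then a else if v ∈ U then π1 v else π2 v) = π2 v
    rw [if_neg hva, if_neg hvw, if_neg hv]
  refine ⟨π, fun v => ?_, fun v => ?_, ?_⟩
  · by_cases hva : v = a
    · rw [hva, pa, pw]
    by_cases hvw : v = w
    · rw [hvw, pw, pa]
    by_cases hv : v ∈ U
    · obtain ⟨q1, q2, q3, -⟩ := hπ1 v hv hva
      rw [p1 v hv hva, p1 _ q1 q2, q3]
    · obtain ⟨q1, q2, q3, -⟩ := hπ2 v (mem_sdiff.2 ⟨mem_univ v, hv⟩) hvw
      rw [p2 v hv hvw, p2 _ (mem_sdiff.1 q1).2 q2, q3]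
  · by_cases hva : v = a
    · rw [hva, pa]
      exact hxaw
    by_cases hvw : v = w
    · rw [hvw, pw, h.symm]
      exact hxaw
    by_cases hv : v ∈ U
    · rw [p1 v hv hva]
      exact (hπ1 v hv hva).2.2.2
    · rw [p2 v hv hvw]
      exact (hπ2 v (mem_sdiff.2 ⟨mem_univ v, hv⟩) hvw).2.2.2
  · rw [split1 (fun v => f v (π v)), ← add_sum_erase U _ ha, ← add_sum_erase (univ \ U) _ hw]
    have e1 : ∑ v ∈ U.erase a, f v (π v) = g1 a := by
      rw [← hs1]
      exact sum_congr rfl fun b hb => by rw [p1 b (mem_of_mem_erase hb) (ne_of_mem_erase hb)]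
    have e2 : ∑ v ∈ (univ \ U).erase w, f v (π v) = g2 w := by
      rw [← hs2]
      exact sum_congr rfl fun b hb => by
        rw [p2 b (mem_sdiff.1 (mem_of_mem_erase hb)).2 (ne_of_mem_erase hb)]
    rw [e1, e2, pa, pw]
    linarith

theorem edm {V : Type} [Fintype V] (x : V → V → ℝ) (h : FP x) : Ed x := by
  suffices H : ∀ n : ℕ, ∀ (V : Type) [Fintype V], Fintype.card V = n → ∀ x : V → V → ℝ, FP x → Ed x from
    H _ V rfl x h
  intro n
  induction n using Nat.strong_induction_on with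
  | _ n ih =>
    intro V _ hV
    have hind : ∀ (W : Type) [Fintype W] (y : W → W → ℝ), Fintype.card W < Fintype.card V →
        FP y → Ed y := by
      intro W _ y hW hy
      exact ih _ (by rw [← hV]; exact hW) W rfl y hy
    suffices H : ∀ m : ℕ, ∀ x : V → V → ℝ, FP x →
        (univ.filter fun e : V × V => 0 < x e.1 e.2).card = m → Ed x from
      fun x hx => H _ x hx rfl
    intro m
    induction m using Nat.strong_induction_on with
    | _ m ihm =>
      intro x hx hm
      by_cases ht : ∃ S : Finset V, Odd S.card ∧ 1 < S.card ∧ 1 < (univ \ S).card ∧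
          ∑ v ∈ S, ∑ u ∈ univ \ S, x v u = 1
      · obtain ⟨S, h1, h2, h3, h4⟩ := ht
        exact ed1 x hx S h1 h2 h3 h4 hind
      · push Not at ht
        refine eb x hx (fun S h1 h2 h3 => lt_of_le_of_ne (hx.odd S h1) (ht S h1 h2 h3).symm) ?_
        intro x' hx' hcase
        rcases hcase with hlt | ⟨S, h1, h2, h3, h4⟩
        · exact ihm _ (by rw [← hm]; exact hlt) x' hx' rfl
        · exact ed1 x' hx' S h1 h2 h3 h4 hind

end Pool.Agent.H71.EX
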