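import Mathlib
import Pool.Agent.H71.EX.Defs

/-!
LA: the layer cake inequality for `|r v + r u|` over the edges.

Proof.  Strong induction on `#{v : r v ≠ 0}`. If `r = 0` both sides are `0`. Otherwise let `s > 0` be the
minimum of `|r v|` over the `v` with `r v ≠ 0`, `σ v = 1, -1, 0` for `r v > 0, < 0, = 0` (`σ = SignType.sign` or an
if), `r' v = r v - s * σ v`. Then `|r' v| = |r v| - s * |σ v|`, the vertices with `r' ≠ 0` are a proper subset of
those with `r ≠ 0`, and `|r v + r u| = |r' v + r' u| + s * |σ v + σ u|` for all `u, v` (cases on the signs; for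
opposite signs both sides are `| |r v| - |r u| |`; if `r u = 0` it is `|r v| = |r' v| + s`).
With `P = {r > 0}`, `Q = {r < 0}` (disjoint), `Z = {r = 0}`:
`∑ v, ∑ u, [F.Adj v u] |σ v + σ u| = 2 (∑ v ∈ P ∪ Q, dg F v) - 4 ee F P Q`. Indeed for `v ∈ P` the inner sum is
`2 #(N(v) ∩ P) + #(N(v) ∩ Z) = dg v + #(N(v) ∩ P) - #(N(v) ∩ Q)`, symmetrically for `v ∈ Q`, and for `v ∈ Z` it
is `#(N(v) ∩ P) + #(N(v) ∩ Q)`; sum and use that `ee` is symmetric and `dg v = #(N(v) ∩ P) + #(N(v) ∩ Q) +
#(N(v) ∩ Z)`. (Alternatively: `|σ v + σ u| = |σ v| + |σ u| - 2 [σ v σ u = -1]` for all signs; the sum of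
`|σ v| + |σ u|` over the ordered edges is `2 ∑ v ∈ P ∪ Q, dg v`, and the sum of `[σ v σ u = -1]` is
`2 ee F P Q`.) By `hg` this is at least `2 g (#P + #Q) = 2 g ∑ v, |σ v|`. Add `s` times it to the induction
hypothesis for `r'`.
-/

set_option autoImplicit false

namespace Pool.Agent.H71.EX

open Finset Classical
open Pool.Agent.H71.DN

private noncomputable def EXLa_sg (a : ℝ) : ℝ := if 0 < a then 1 else if a < 0 then -1 else 0

private theorem EXLa_pos {a : ℝ} (h : 0 < a) : EXLa_sg a = 1 := by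
  unfold EXLa_sg; rw [if_pos h]

private theorem EXLa_neg {a : ℝ} (h : a < 0) : EXLa_sg a = -1 := by
  unfold EXLa_sg; rw [if_neg (not_lt.mpr h.le), if_pos h]

private theorem EXLa_zero {a : ℝ} (h : a = 0) : EXLa_sg a = 0 := by
  unfold EXLa_sg; rw [if_neg (by rw [h]; exact lt_irrefl _), if_neg (by rw [h]; exact lt_irrefl _)]

private theorem EXLa_abs {s a : ℝ} (ha : a = 0 ∨ s ≤ |a|) :
    |a - s * EXLa_sg a| = |a| - s * |EXLa_sg a| := by
  rcases lt_trichotomy a 0 with h | h | h
  · have h1 : s ≤ |a| := ha.resolve_left h.ne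
    rw [abs_of_neg h] at h1
    rw [EXLa_neg h, abs_of_neg h, abs_of_nonpos (by linarith : a - s * -1 ≤ 0), abs_neg, abs_one]
    ring
  · rw [EXLa_zero h, h]; simp
  · have h1 : s ≤ |a| := ha.resolve_left h.ne'
    rw [abs_of_pos h] at h1
    rw [EXLa_pos h, abs_of_pos h, abs_of_nonneg (by linarith : 0 ≤ a - s * 1), abs_one]

private theorem EXLa_add {s a b : ℝ} (hs : 0 < s) (ha : a = 0 ∨ s ≤ |a|)
    (hb : b = 0 ∨ s ≤ |b|) :
    |a + b| = |(a - s * EXLa_sg a) + (b - s * EXLa_sg b)| + s * |EXLa_sg a + EXLa_sg b| := by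
  rcases lt_trichotomy a 0 with h | h | h
  · have h1 : s ≤ |a| := ha.resolve_left h.ne
    rw [abs_of_neg h] at h1
    rcases lt_trichotomy b 0 with k | k | k
    · have k1 : s ≤ |b| := hb.resolve_left k.ne
      rw [abs_of_neg k] at k1
      rw [EXLa_neg h, EXLa_neg k, abs_of_nonpos (by linarith : a + b ≤ 0),
        abs_of_nonpos (by linarith : (a - s * -1) + (b - s * -1) ≤ 0),
        abs_of_nonpos (by norm_num : (-1 : ℝ) + -1 ≤ 0)]
      ring
    · rw [EXLa_neg h, EXLa_zero k, k, abs_of_nonpos (by linarith : a + 0 ≤ 0),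
        abs_of_nonpos (by linarith : (a - s * -1) + (0 - s * 0) ≤ 0),
        abs_of_nonpos (by norm_num : (-1 : ℝ) + 0 ≤ 0)]
      ring
    · rw [EXLa_neg h, EXLa_pos k, show (-1 : ℝ) + 1 = 0 by norm_num, abs_zero, mul_zero, add_zero]
      congr 1
      ring
  · rcases lt_trichotomy b 0 with k | k | k
    · have k1 : s ≤ |b| := hb.resolve_left k.ne
      rw [abs_of_neg k] at k1
      rw [EXLa_zero h, EXLa_neg k, h, abs_of_nonpos (by linarith : 0 + b ≤ 0),
        abs_of_nonpos (by linarith : (0 - s * 0) + (b - s * -1) ≤ 0),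
        abs_of_nonpos (by norm_num : (0 : ℝ) + -1 ≤ 0)]
      ring
    · rw [EXLa_zero h, EXLa_zero k, h, k]; simp
    · have k1 : s ≤ |b| := hb.resolve_left k.ne'
      rw [abs_of_pos k] at k1
      rw [EXLa_zero h, EXLa_pos k, h, abs_of_nonneg (by linarith : 0 ≤ 0 + b),
        abs_of_nonneg (by linarith : 0 ≤ (0 - s * 0) + (b - s * 1)),
        abs_of_nonneg (by norm_num : (0 : ℝ) ≤ 0 + 1)]
      ring
  · have h1 : s ≤ |a| := ha.resolve_left h.ne'
    rw [abs_of_pos h] at h1
    rcases lt_trichotomy b 0 with k | k | k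
    · rw [EXLa_pos h, EXLa_neg k, show (1 : ℝ) + -1 = 0 by norm_num, abs_zero, mul_zero, add_zero]
      congr 1
      ring
    · rw [EXLa_pos h, EXLa_zero k, k, abs_of_nonneg (by linarith : 0 ≤ a + 0),
        abs_of_nonneg (by linarith : 0 ≤ (a - s * 1) + (0 - s * 0)),
        abs_of_nonneg (by norm_num : (0 : ℝ) ≤ 1 + 0)]
      ring
    · have k1 : s ≤ |b| := hb.resolve_left k.ne'
      rw [abs_of_pos k] at k1
      rw [EXLa_pos h, EXLa_pos k, abs_of_nonneg (by linarith : 0 ≤ a + b),
        abs_of_nonneg (by linarith : 0 ≤ (a - s * 1) + (b - s * 1)),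
        abs_of_nonneg (by norm_num : (0 : ℝ) ≤ 1 + 1)]
      ring

/-- the pointwise formula for `|σ v + σ u|` -/
private theorem EXLa_pt (a b : ℝ) : |EXLa_sg a + EXLa_sg b| =
    |EXLa_sg a| + |EXLa_sg b| - 2 * (if 0 < a ∧ b < 0 then 1 else 0) -
      2 * (if a < 0 ∧ 0 < b then 1 else 0) := by
  rcases lt_trichotomy a 0 with h | h | h <;> rcases lt_trichotomy b 0 with k | k | k
  · rw [EXLa_neg h, EXLa_neg k, if_neg (fun H => absurd H.1 (not_lt.mpr h.le)),
      if_neg (fun H => absurd H.2 (not_lt.mpr k.le))]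
    norm_num
  · rw [EXLa_neg h, EXLa_zero k, if_neg (fun H => absurd H.1 (not_lt.mpr h.le)),
      if_neg (fun H => absurd H.2 (not_lt.mpr k.le))]
    norm_num
  · rw [EXLa_neg h, EXLa_pos k, if_neg (fun H => absurd H.1 (not_lt.mpr h.le)),
      if_pos ⟨h, k⟩]
    norm_num
  · rw [EXLa_zero h, EXLa_neg k, if_neg (fun H => absurd H.1 (not_lt.mpr h.le)),
      if_neg (fun H => absurd H.2 (not_lt.mpr k.le))]
    norm_num
  · rw [EXLa_zero h, EXLa_zero k, if_neg (fun H => absurd H.1 (not_lt.mpr h.le)),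
      if_neg (fun H => absurd H.2 (not_lt.mpr k.le))]
    norm_num
  · rw [EXLa_zero h, EXLa_pos k, if_neg (fun H => absurd H.1 (not_lt.mpr h.le)),
      if_neg (fun H => absurd H.1 (not_lt.mpr h.ge))]
    norm_num
  · rw [EXLa_pos h, EXLa_neg k, if_pos ⟨h, k⟩,
      if_neg (fun H => absurd H.2 (not_lt.mpr k.le))]
    norm_num
  · rw [EXLa_pos h, EXLa_zero k, if_neg (fun H => absurd H.2 (not_lt.mpr k.ge)),
      if_neg (fun H => absurd H.2 (not_lt.mpr k.le))]
    norm_num
  · rw [EXLa_pos h, EXLa_pos k, if_neg (fun H => absurd H.2 (not_lt.mpr k.le)),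
      if_neg (fun H => absurd H.1 (not_lt.mpr h.le))]
    norm_num

private theorem EXLa_dg {V : Type} [Fintype V] (F : SimpleGraph V) (v : V) (c : ℝ) :
    ∑ u, (if F.Adj v u then c else 0) = c * dg F v := by
  unfold dg
  rw [← Finset.sum_filter, Finset.sum_const, nsmul_eq_mul, mul_comm]

private theorem EXLa_ee {V : Type} [Fintype V] (F : SimpleGraph V) (p q : V → Prop) :
    ∑ v, ∑ u, (if F.Adj v u then (if p v ∧ q u then (1 : ℝ) else 0) else 0) =
      (ee F (univ.filter p) (univ.filter q) : ℝ) := by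
  unfold ee
  rw [← Finset.sum_product' (univ : Finset V) (univ : Finset V)
    (fun v u => if F.Adj v u then (if p v ∧ q u then (1 : ℝ) else 0) else 0)]
  have h1 : ∀ x : V × V, (if F.Adj x.1 x.2 then (if p x.1 ∧ q x.2 then (1 : ℝ) else 0) else 0) =
      if (F.Adj x.1 x.2 ∧ p x.1 ∧ q x.2) then 1 else 0 := by
    intro x
    by_cases h : F.Adj x.1 x.2
    · by_cases k : p x.1 ∧ q x.2
      · rw [if_pos h, if_pos k, if_pos ⟨h, k⟩]
      · rw [if_pos h, if_neg k, if_neg (fun H => k H.2)]
    · rw [if_neg h, if_neg (fun H => h H.1)]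
  rw [Finset.sum_congr rfl (fun x _ => h1 x), Finset.sum_boole]
  congr 2
  ext x
  simp only [Finset.mem_filter, Finset.mem_product, Finset.mem_univ, true_and]
  tauto

private theorem EXLa_eesymm {V : Type} [Fintype V] (F : SimpleGraph V) (A B : Finset V) :
    ee F A B = ee F B A := by
  unfold ee
  refine Finset.card_bij (fun x _ => (x.2, x.1)) ?_ ?_ ?_
  · intro x hx
    rw [Finset.mem_filter, Finset.mem_product] at hx ⊢
    exact ⟨⟨hx.1.2, hx.1.1⟩, hx.2.symm⟩
  · intro x _ y _ h
    have h1 := congrArg Prod.fst h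
    have h2 := congrArg Prod.snd h
    exact Prod.ext h2 h1
  · intro x hx
    rw [Finset.mem_filter, Finset.mem_product] at hx
    exact ⟨(x.2, x.1), by
      rw [Finset.mem_filter, Finset.mem_product]
      exact ⟨⟨hx.1.2, hx.1.1⟩, hx.2.symm⟩, rfl⟩

private theorem EXLa_sgsum {V : Type} [Fintype V] (r : V → ℝ) (w : V → ℝ) :
    ∑ v, |EXLa_sg (r v)| * w v =
      ∑ v ∈ (univ.filter fun v => 0 < r v) ∪ (univ.filter fun v => r v < 0), w v := by
  have h1 : ∀ v, |EXLa_sg (r v)| * w v =
      if v ∈ (univ.filter fun v => 0 < r v) ∪ (univ.filter fun v => r v < 0) then w v else 0 := by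
    intro v
    simp only [Finset.mem_union, Finset.mem_filter, Finset.mem_univ, true_and]
    rcases lt_trichotomy (r v) 0 with h | h | h
    · rw [EXLa_neg h, if_pos (Or.inr h), abs_neg, abs_one, one_mul]
    · rw [EXLa_zero h, abs_zero, zero_mul, if_neg]
      rintro (k | k)
      · exact absurd k (not_lt.mpr h.le)
      · exact absurd k (not_lt.mpr h.ge)
    · rw [EXLa_pos h, if_pos (Or.inl h), abs_one, one_mul]
  rw [Finset.sum_congr rfl (fun v _ => h1 v), ← Finset.sum_filter]
  congr 1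
  ext v
  simp

/-- the layer -/
private theorem EXLa_layer {V : Type} [Fintype V] (F : SimpleGraph V) (g : ℝ) (hg : Lc F g)
    (r : V → ℝ) :
    2 * g * ∑ v, |EXLa_sg (r v)| ≤
      ∑ v, ∑ u, (if F.Adj v u then |EXLa_sg (r v) + EXLa_sg (r u)| else 0) := by
  set P : Finset V := univ.filter fun v => 0 < r v with hP
  set Q : Finset V := univ.filter fun v => r v < 0 with hQ
  have hd : Disjoint P Q := by
    rw [Finset.disjoint_left]
    intro v h1 h2
    rw [hP, Finset.mem_filter] at h1
    rw [hQ, Finset.mem_filter] at h2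
    linarith [h1.2, h2.2]
  have hmain := hg P Q hd
  have hcard : ∑ v, |EXLa_sg (r v)| = (P.card : ℝ) + Q.card := by
    have h := EXLa_sgsum r (fun _ => 1)
    simp only [mul_one] at h
    rw [h, Finset.sum_const, nsmul_eq_mul, mul_one, ← hP, ← hQ, Finset.card_union_of_disjoint hd,
      Nat.cast_add]
  have e0 : ∑ v, ∑ u, (if F.Adj v u then |EXLa_sg (r v) + EXLa_sg (r u)| else 0) =
      ∑ v, ∑ u, (if F.Adj v u then |EXLa_sg (r v)| else 0) +
      ∑ v, ∑ u, (if F.Adj v u then |EXLa_sg (r u)| else 0) -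
      2 * ∑ v, ∑ u, (if F.Adj v u then (if 0 < r v ∧ r u < 0 then (1 : ℝ) else 0) else 0) -
      2 * ∑ v, ∑ u, (if F.Adj v u then (if r v < 0 ∧ 0 < r u then (1 : ℝ) else 0) else 0) := by
    rw [Finset.mul_sum, Finset.mul_sum, ← Finset.sum_add_distrib, ← Finset.sum_sub_distrib,
      ← Finset.sum_sub_distrib]
    refine Finset.sum_congr rfl (fun v _ => ?_)
    rw [Finset.mul_sum, Finset.mul_sum, ← Finset.sum_add_distrib, ← Finset.sum_sub_distrib,
      ← Finset.sum_sub_distrib]
    refine Finset.sum_congr rfl (fun u _ => ?_)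
    by_cases h : F.Adj v u
    · rw [if_pos h, if_pos h, if_pos h, if_pos h, if_pos h]
      exact EXLa_pt (r v) (r u)
    · rw [if_neg h, if_neg h, if_neg h, if_neg h, if_neg h]
      ring
  have e1 : ∑ v, ∑ u, (if F.Adj v u then |EXLa_sg (r v)| else 0) =
      ∑ v ∈ P ∪ Q, (dg F v : ℝ) := by
    rw [← EXLa_sgsum r (fun v => (dg F v : ℝ))]
    exact Finset.sum_congr rfl (fun v _ => EXLa_dg F v _)
  have e2 : ∑ v, ∑ u, (if F.Adj v u then |EXLa_sg (r u)| else 0) =
      ∑ v ∈ P ∪ Q, (dg F v : ℝ) := by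
    rw [← e1, Finset.sum_comm]
    refine Finset.sum_congr rfl (fun v _ => Finset.sum_congr rfl (fun u _ => ?_))
    by_cases h : F.Adj u v
    · rw [if_pos h, if_pos h.symm]
    · rw [if_neg h, if_neg (fun k => h k.symm)]
  have e3 := EXLa_ee F (fun v => 0 < r v) (fun v => r v < 0)
  have e4 := EXLa_ee F (fun v => r v < 0) (fun v => 0 < r v)
  rw [← hP, ← hQ] at e3 e4
  rw [EXLa_eesymm F Q P] at e4
  rw [e0, e1, e2, e3, e4, hcard]
  linarith

theorem la {V : Type} [Fintype V] (F : SimpleGraph V) (g : ℝ) (hg : Lc F g) (r : V → ℝ) :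
    2 * g * ∑ v, |r v| ≤ ∑ v, ∑ u, (if F.Adj v u then |r v + r u| else 0) := by
  classical
  induction hn : (univ.filter fun v => r v ≠ 0).card using Nat.strong_induction_on
    generalizing r with
  | _ n ih =>
    by_cases hne : (univ.filter fun v => r v ≠ 0).Nonempty
    · obtain ⟨v0, hv0, hmin⟩ := Finset.exists_min_image _ (fun v => |r v|) hne
      have hv0' : r v0 ≠ 0 := (Finset.mem_filter.mp hv0).2
      set s : ℝ := |r v0| with hs
      have hs0 : 0 < s := abs_pos.mpr hv0'
      have hall : ∀ v, r v = 0 ∨ s ≤ |r v| := by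
        intro v
        by_cases h : r v = 0
        · exact Or.inl h
        · exact Or.inr (hmin v (Finset.mem_filter.mpr ⟨Finset.mem_univ _, h⟩))
      set r' : V → ℝ := fun v => r v - s * EXLa_sg (r v) with hr'
      have hsub : (univ.filter fun v => r' v ≠ 0) ⊂ (univ.filter fun v => r v ≠ 0) := by
        rw [Finset.ssubset_iff_of_subset]
        · refine ⟨v0, hv0, fun h => ?_⟩
          have h1 : |r' v0| = |r v0| - s * |EXLa_sg (r v0)| := EXLa_abs (hall v0)
          have h2 : |EXLa_sg (r v0)| = 1 := by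
            rcases lt_trichotomy (r v0) 0 with k | k | k
            · rw [EXLa_neg k, abs_neg, abs_one]
            · exact absurd k hv0'
            · rw [EXLa_pos k, abs_one]
          rw [h2, mul_one, ← hs, sub_self] at h1
          exact (Finset.mem_filter.mp h).2 (abs_eq_zero.mp h1)
        · intro v hv
          rw [Finset.mem_filter] at hv ⊢
          refine ⟨Finset.mem_univ _, fun h => hv.2 ?_⟩
          rw [hr']
          simp only
          rw [EXLa_zero h, h]
          ring
      have hIH := ih _ (by rw [← hn]; exact Finset.card_lt_card hsub) r' rfl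
      have hL := EXLa_layer F g hg r
      have s1 : ∑ v, |r v| = ∑ v, |r' v| + s * ∑ v, |EXLa_sg (r v)| := by
        rw [Finset.mul_sum, ← Finset.sum_add_distrib]
        refine Finset.sum_congr rfl (fun v _ => ?_)
        have h1 : |r' v| = |r v| - s * |EXLa_sg (r v)| := EXLa_abs (hall v)
        rw [h1]; ring
      have s2 : ∑ v, ∑ u, (if F.Adj v u then |r v + r u| else 0) =
          ∑ v, ∑ u, (if F.Adj v u then |r' v + r' u| else 0) +
          s * ∑ v, ∑ u, (if F.Adj v u then |EXLa_sg (r v) + EXLa_sg (r u)| else 0) := by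
        rw [Finset.mul_sum, ← Finset.sum_add_distrib]
        refine Finset.sum_congr rfl (fun v _ => ?_)
        rw [Finset.mul_sum, ← Finset.sum_add_distrib]
        refine Finset.sum_congr rfl (fun u _ => ?_)
        by_cases h : F.Adj v u
        · rw [if_pos h, if_pos h, if_pos h]
          exact EXLa_add hs0 (hall v) (hall u)
        · rw [if_neg h, if_neg h, if_neg h]; ring
      rw [s1, s2]
      have hL2 := mul_le_mul_of_nonneg_left hL hs0.le
      nlinarith [hIH, hL2]
    · rw [Finset.not_nonempty_iff_eq_empty] at hne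
      have h0 : ∀ v, r v = 0 := by
        intro v
        by_contra h
        have : v ∈ (univ.filter fun v => r v ≠ 0) := Finset.mem_filter.mpr ⟨Finset.mem_univ _, h⟩
        rw [hne] at this
        exact Finset.notMem_empty _ this
      have h1 : ∑ v, |r v| = 0 := Finset.sum_eq_zero (fun v _ => by rw [h0 v, abs_zero])
      rw [h1, mul_zero]
      refine Finset.sum_nonneg (fun v _ => Finset.sum_nonneg (fun u _ => ?_))
      by_cases h : F.Adj v u
      · rw [if_pos h]; exact abs_nonneg _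
      · rw [if_neg h]

end Pool.Agent.H71.EX
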