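import Mathlib
import Pool.Agent.H71.EX.Defs
import Pool.Agent.H71.EX.La

/-!
LB: the linear system on the reserve graph.

Proof.  Let `K` be the set of the `y : V → V → ℝ` with `y u v = y v u`, `c0 / 2 ≤ y u v ≤ 3 / 2 * c0` if
`F.Adj u v`, and `y u v = 0` otherwise. `K` is compact (closed and bounded in a finite dimensional space;
`isCompact_univ_pi` for the box, intersected with closed conditions) and nonempty (`y u v = c0` on the edges).
The continuous function `Φ y = ∑ v, (∑ u, y v u - b v) ^ 2` has a minimum on `K` at some `y`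
(`IsCompact.exists_isMinOn`). Put `r v = ∑ u, y v u - b v`.
First order conditions: let `F.Adj u v` (so `u ≠ v`). If `r u + r v > 0` then `y u v = c0 / 2`: otherwise
subtract a small `t > 0` from `y u v` and `y v u` (`t ≤ y u v - c0 / 2`); `Φ` changes by
`(r u - t) ^ 2 + (r v - t) ^ 2 - r u ^ 2 - r v ^ 2 = - 2 t (r u + r v) + 2 t ^ 2 < 0` for `t < r u + r v`. In the same
way, if `r u + r v < 0` then `y u v = 3 / 2 * c0`. So for every edge
`y v u * (r v + r u) = c0 * (r v + r u) - c0 / 2 * |r v + r u|` (all three cases), and for non-edges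
`y v u = 0`. Sum over all ordered pairs: by symmetry of `y`
`∑ v, ∑ u, y v u * (r v + r u) = 2 ∑ v, r v * (∑ u, y v u) = 2 ∑ v, r v * (r v + b v)`, and
`∑ v, ∑ u, [F.Adj v u] (r v + r u) = 2 ∑ v, dg F v * r v`. With `la`:
`2 ∑ r v * (r v + b v) ≤ 2 c0 ∑ dg F v * r v - c0 / 2 * (2 g ∑ |r v|)`, so
`2 ∑ r v ^ 2 ≤ 2 ∑ (c0 * dg F v - b v) * r v - c0 g ∑ |r v| ≤ 2 (c0 g / 2) ∑ |r v| - c0 g ∑ |r v| = 0`
by `hb`. Hence `r = 0`.
-/

set_option autoImplicit false

namespace Pool.Agent.H71.EX

open Finset Classical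
open Pool.Agent.H71.DN

private lemma Lb_chi {V : Type} [Fintype V] {u v : V} (huv : u ≠ v) (r : V → ℝ) (t : ℝ) :
    ∑ a, (r a + t * ((if a = u then 1 else 0) + (if a = v then 1 else 0))) ^ 2 =
      ∑ a, r a ^ 2 + 2 * (t * (r u + r v) + t ^ 2) := by
  have h1 : ∀ a, (r a + t * ((if a = u then (1 : ℝ) else 0) + (if a = v then 1 else 0))) ^ 2 =
      r a ^ 2 + ((if a = u then 2 * t * r u + t ^ 2 else 0) +
        (if a = v then 2 * t * r v + t ^ 2 else 0)) := by
    intro a
    by_cases h : a = u
    · subst h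
      rw [if_pos rfl, if_neg huv, if_pos rfl, if_neg huv]
      ring
    · by_cases h' : a = v
      · subst h'
        rw [if_neg h, if_pos rfl, if_neg h, if_pos rfl]
        ring
      · rw [if_neg h, if_neg h', if_neg h, if_neg h']
        ring
  rw [Finset.sum_congr rfl fun a _ => h1 a, Finset.sum_add_distrib, Finset.sum_add_distrib,
    Finset.sum_ite_eq' univ u, Finset.sum_ite_eq' univ v, if_pos (mem_univ u), if_pos (mem_univ v)]
  ring

private lemma Lb_row {V : Type} [Fintype V] (u v : V) (a : V) :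
    ∑ b, ((if a = u ∧ b = v then (1 : ℝ) else 0) + (if a = v ∧ b = u then 1 else 0)) =
      (if a = u then 1 else 0) + (if a = v then 1 else 0) := by
  rw [Finset.sum_add_distrib]
  congr 1
  · by_cases h : a = u
    · simp [h]
    · simp [h]
  · by_cases h : a = v
    · simp [h]
    · simp [h]

theorem lb {V : Type} [Fintype V] (F : SimpleGraph V) (g c0 : ℝ) (hg0 : 0 < g) (hc0 : 0 < c0)
    (hg : Lc F g) (b : V → ℝ) (hb : ∀ v, |b v - c0 * dg F v| ≤ c0 * g / 2) :
    ∃ y : V → V → ℝ, (∀ u v, y u v = y v u) ∧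
      (∀ u v, F.Adj u v → c0 / 2 ≤ y u v ∧ y u v ≤ 3 / 2 * c0) ∧
      (∀ u v, ¬ F.Adj u v → y u v = 0) ∧ ∀ v, ∑ u, y v u = b v := by
  -- the compact set
  let lo : V → V → ℝ := fun u v => if F.Adj u v then c0 / 2 else 0
  let hi : V → V → ℝ := fun u v => if F.Adj u v then 3 / 2 * c0 else 0
  let K : Set (V → V → ℝ) := {y | ∀ u v, y u v = y v u} ∩
    Set.pi Set.univ fun u => Set.pi Set.univ fun v => Set.Icc (lo u v) (hi u v)
  have hcl : IsClosed {y : V → V → ℝ | ∀ u v, y u v = y v u} := by
    simp only [Set.ofPred_forall]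
    exact isClosed_iInter fun u => isClosed_iInter fun v =>
      isClosed_eq (continuous_apply_apply u v) (continuous_apply_apply v u)
  have hK : IsCompact K := (isCompact_univ_pi fun u => isCompact_univ_pi fun v =>
    isCompact_Icc).inter_left hcl
  have hne : K.Nonempty := by
    refine ⟨fun u v => if F.Adj u v then c0 else 0, fun u v => ?_, fun u _ v _ => ?_⟩
    · simp only [F.adj_comm]
    · by_cases h : F.Adj u v
      · simp only [lo, hi, if_pos h]
        constructor <;> linarith
      · simp only [lo, hi, if_neg h]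
        simp
  have hΦ : Continuous fun y : V → V → ℝ => ∑ v, (∑ u, y v u - b v) ^ 2 := by fun_prop
  obtain ⟨y, hyK, hmin⟩ := hK.exists_isMinOn hne hΦ.continuousOn
  have hsym : ∀ u v, y u v = y v u := hyK.1
  have hadj : ∀ u v, F.Adj u v → c0 / 2 ≤ y u v ∧ y u v ≤ 3 / 2 * c0 := by
    intro u v h
    have h1 := hyK.2 u (Set.mem_univ u) v (Set.mem_univ v)
    simp only [lo, hi, if_pos h] at h1
    exact h1
  have hnadj : ∀ u v, ¬ F.Adj u v → y u v = 0 := by
    intro u v h
    have h1 := hyK.2 u (Set.mem_univ u) v (Set.mem_univ v)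
    simp only [lo, hi, if_neg h] at h1
    exact le_antisymm h1.2 h1.1
  obtain ⟨r, hr⟩ : ∃ r : V → ℝ, ∀ v, r v = ∑ u, y v u - b v := ⟨_, fun v => rfl⟩
  -- first order conditions
  have hfo : ∀ u v, F.Adj u v → ∀ t : ℝ, c0 / 2 ≤ y u v + t → y u v + t ≤ 3 / 2 * c0 →
      0 ≤ t * (r u + r v) + t ^ 2 := by
    intro u v huv t ht1 ht2
    have huv' : u ≠ v := huv.ne
    let y' : V → V → ℝ := fun a b => y a b + t *
      ((if a = u ∧ b = v then (1 : ℝ) else 0) + (if a = v ∧ b = u then 1 else 0))
    have hy' : y' ∈ K := by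
      refine ⟨fun a b => ?_, fun a _ b _ => ?_⟩
      · simp only [y', hsym a b]
        rw [add_comm (if a = u ∧ b = v then (1 : ℝ) else 0)]
        simp only [and_comm]
      · by_cases h1 : a = u ∧ b = v
        · obtain ⟨rfl, rfl⟩ := h1
          have h2 : ¬ (a = b ∧ b = a) := fun h => huv' h.1
          simp only [y', lo, hi, if_pos huv, if_neg h2]
          simp only [and_self, if_true, add_zero, mul_one]
          exact ⟨ht1, ht2⟩
        · by_cases h2 : a = v ∧ b = u
          · obtain ⟨rfl, rfl⟩ := h2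
            simp only [y', lo, hi, if_pos huv.symm, if_neg h1]
            simp only [and_self, if_true, zero_add, mul_one]
            rw [hsym a b]
            exact ⟨ht1, ht2⟩
          · have h3 := hyK.2 a (Set.mem_univ a) b (Set.mem_univ b)
            simp only [y', if_neg h1, if_neg h2, add_zero, mul_zero]
            exact h3
    have h1 : ∑ v, (∑ u, y v u - b v) ^ 2 ≤ ∑ v, (∑ u, y' v u - b v) ^ 2 := hmin hy'
    have h2 : ∀ a, ∑ c, y' a c - b a =
        r a + t * ((if a = u then 1 else 0) + (if a = v then 1 else 0)) := by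
      intro a
      simp only [y']
      rw [Finset.sum_add_distrib, ← Finset.mul_sum, Lb_row, hr]
      ring
    simp only [h2, ← hr] at h1
    rw [Lb_chi huv'] at h1
    linarith
  -- the pointwise inequality
  have hpt : ∀ v u, y v u * (r v + r u) ≤ c0 * (if F.Adj v u then r v + r u else 0) -
      c0 / 2 * (if F.Adj v u then |r v + r u| else 0) := by
    intro v u
    by_cases h : F.Adj v u
    · rw [if_pos h, if_pos h]
      obtain ⟨h1, h2⟩ := hadj v u h
      rcases lt_trichotomy (r v + r u) 0 with hS | hS | hS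
      · have h3 : y v u = 3 / 2 * c0 := by
          by_contra hne
          have h4 : y v u < 3 / 2 * c0 := lt_of_le_of_ne h2 hne
          have h5 : 0 < min (3 / 2 * c0 - y v u) (-(r v + r u) / 2) :=
            lt_min (by linarith) (by linarith)
          have h6 := min_le_left (3 / 2 * c0 - y v u) (-(r v + r u) / 2)
          have h7 := min_le_right (3 / 2 * c0 - y v u) (-(r v + r u) / 2)
          have h8 := hfo v u h (min (3 / 2 * c0 - y v u) (-(r v + r u) / 2)) (by linarith)
            (by linarith)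
          nlinarith
        rw [h3, abs_of_neg hS]
        linarith
      · rw [hS]
        simp
      · have h3 : y v u = c0 / 2 := by
          by_contra hne
          have h4 : c0 / 2 < y v u := lt_of_le_of_ne h1 (Ne.symm hne)
          have h5 : 0 < min (y v u - c0 / 2) ((r v + r u) / 2) :=
            lt_min (by linarith) (by linarith)
          have h6 := min_le_left (y v u - c0 / 2) ((r v + r u) / 2)
          have h7 := min_le_right (y v u - c0 / 2) ((r v + r u) / 2)
          have h8 := hfo v u h (-min (y v u - c0 / 2) ((r v + r u) / 2)) (by linarith)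
            (by linarith)
          nlinarith
        rw [h3, abs_of_pos hS]
        linarith
    · rw [if_neg h, if_neg h, hnadj v u h]
      simp
  have hsum := Finset.sum_le_sum fun v (_ : v ∈ univ) =>
    Finset.sum_le_sum fun u (_ : u ∈ univ) => hpt v u
  have hrow : ∀ v, ∑ u, y v u = r v + b v := by
    intro v
    rw [hr]
    ring
  have e1 : ∑ v, ∑ u, y v u * (r v + r u) = 2 * ∑ v, r v * (r v + b v) := by
    have h1 : ∑ v, ∑ u, y v u * r v = ∑ v, r v * (r v + b v) := by
      refine Finset.sum_congr rfl fun v _ => ?_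
      rw [← Finset.sum_mul, hrow, mul_comm]
    have h2 : ∑ v, ∑ u, y v u * r u = ∑ v, r v * (r v + b v) := by
      rw [Finset.sum_comm]
      rw [← h1]
      refine Finset.sum_congr rfl fun v _ => Finset.sum_congr rfl fun u _ => ?_
      rw [hsym]
    simp only [mul_add, Finset.sum_add_distrib] at h1 h2 ⊢
    linarith
  have e2 : ∑ v, ∑ u, (if F.Adj v u then r v + r u else 0) = 2 * ∑ v, dg F v * r v := by
    have h1 : ∑ v, ∑ u, (if F.Adj v u then r v else 0) = ∑ v, dg F v * r v := by
      refine Finset.sum_congr rfl fun v _ => ?_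
      rw [← Finset.sum_filter, Finset.sum_const, nsmul_eq_mul]
      rfl
    have h2 : ∑ v, ∑ u, (if F.Adj v u then r u else 0) = ∑ v, dg F v * r v := by
      rw [Finset.sum_comm, ← h1]
      refine Finset.sum_congr rfl fun v _ => Finset.sum_congr rfl fun u _ => ?_
      simp only [F.adj_comm]
    have h3 : ∀ v u, (if F.Adj v u then r v + r u else 0) =
        (if F.Adj v u then r v else 0) + (if F.Adj v u then r u else 0) := by
      intro v u
      split_ifs <;> simp
    simp only [h3, Finset.sum_add_distrib, h1, h2]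
    ring
  have e3 := la F g hg r
  have e4 : ∑ v, ∑ u, (c0 * (if F.Adj v u then r v + r u else 0) -
      c0 / 2 * (if F.Adj v u then |r v + r u| else 0)) =
      c0 * (2 * ∑ v, dg F v * r v) -
        c0 / 2 * ∑ v, ∑ u, (if F.Adj v u then |r v + r u| else 0) := by
    rw [← e2]
    simp only [Finset.sum_sub_distrib, Finset.mul_sum]
  rw [e1, e4] at hsum
  have e5 : ∑ v, (c0 * (dg F v * r v) - b v * r v) ≤ ∑ v, c0 * g / 2 * |r v| := by
    refine Finset.sum_le_sum fun v _ => ?_
    have h1 : c0 * (dg F v * r v) - b v * r v = -(b v - c0 * dg F v) * r v := by ring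
    rw [h1]
    calc -(b v - c0 * dg F v) * r v ≤ |-(b v - c0 * dg F v) * r v| := le_abs_self _
      _ = |b v - c0 * dg F v| * |r v| := by rw [abs_mul, abs_neg]
      _ ≤ c0 * g / 2 * |r v| := mul_le_mul_of_nonneg_right (hb v) (abs_nonneg _)
  have e6 : c0 / 2 * (2 * g * ∑ v, |r v|) ≤
      c0 / 2 * ∑ v, ∑ u, (if F.Adj v u then |r v + r u| else 0) :=
    mul_le_mul_of_nonneg_left e3 (by linarith)
  have e7 : ∑ v, r v * (r v + b v) = ∑ v, r v ^ 2 + ∑ v, b v * r v := by
    rw [← Finset.sum_add_distrib]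
    refine Finset.sum_congr rfl fun v _ => ?_
    ring
  have e8 : ∑ v, (c0 * (dg F v * r v) - b v * r v) =
      c0 * ∑ v, dg F v * r v - ∑ v, b v * r v := by
    rw [Finset.sum_sub_distrib, Finset.mul_sum]
  have e9 : ∑ v, c0 * g / 2 * |r v| = c0 / 2 * (g * ∑ v, |r v|) := by
    rw [← Finset.mul_sum]
    ring
  have h0 : ∑ v, r v ^ 2 ≤ 0 := by
    rw [e7] at hsum
    rw [e8, e9] at e5
    nlinarith
  have hr0 : ∀ v, r v = 0 := by
    intro v
    have h1 := (Finset.sum_eq_zero_iff_of_nonneg (fun v (_ : v ∈ univ) => sq_nonneg (r v))).1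
      (le_antisymm h0 (Finset.sum_nonneg fun v _ => sq_nonneg (r v))) v (mem_univ v)
    exact pow_eq_zero_iff (two_ne_zero) |>.1 h1
  refine ⟨y, hsym, hadj, hnadj, fun v => ?_⟩
  rw [hrow, hr0, zero_add]

end Pool.Agent.H71.EX
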