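import Mathlib
import Pool.Agent.H71.EX.Defs
import Pool.Agent.H71.EX.Lb
import Pool.Agent.H71.EX.Ed

/-!
ST: one matching: combine the main weights `x` with a correction `y` on the reserve `F`.

Proof.  `lb` with `b v = 1 - ∑ u, x v u` gives `y`. Let `z = x + y`. `FP z`:
symmetric, nonnegative (`0 ≤ x`, `0 < c0 / 2 ≤ y` on the edges of `F`, `y = 0` elsewhere), `z v v = 0`, row sums `1`.
Also `z v u ≤ ζ` always (on an edge of `F`: `x = 0` and `y ≤ 3 / 2 * c0 ≤ ζ`; elsewhere `y = 0` and `x ≤ ζ`).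
Odd sets: for odd `S` the set `univ \ S` is odd too (`hV`) and has the same boundary sum (symmetry), so we may
assume `2 * S.card ≤ Fintype.card V`. If `ζ * S.card ≤ 1`: the boundary sum is
`∑ v ∈ S, (1 - ∑ u ∈ S, z v u) ≥ #S - #S * (#S - 1) * ζ` (`z v v = 0`, so the inner sum has at most `#S - 1`
nonzero terms), and `#S * (#S - 1) * ζ ≤ #S - 1` as `ζ * #S ≤ 1`, `#S ≥ 1`; so it is `≥ 1`. If `1 < ζ * S.card`:
the boundary sum is at least `∑ v ∈ S, ∑ u ∈ univ \ S, y v u ≥ c0 / 2 * ee F S (univ \ S) ≥ 1` by `h4`.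
Now `edm z` with the cost `f v u = if F.Adj v u then q v else 0` gives `π` with `0 < z v (π v)` (so `π v ≠ v`, and
`0 < x v (π v)` or `F.Adj v (π v)`), and the average cost is `∑ v, q v * ∑ u, [F.Adj v u] z v u =
∑ v, q v * ∑ u, y v u = ∑ v, q v * (1 - ∑ u, x v u)`.
-/

set_option autoImplicit false

namespace Pool.Agent.H71.EX

open Finset Classical
open Pool.Agent.H71.DN

private theorem EXSt_bd {V : Type} [Fintype V] (F : SimpleGraph V)
    (x y : V → V → ℝ) (c0 ζ : ℝ) (hc0 : 0 < c0) (hζ : 3 / 2 * c0 ≤ ζ)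
    (hx0 : ∀ u v, 0 ≤ x u v) (hxζ : ∀ u v, x u v ≤ ζ)
    (hxF : ∀ u v, F.Adj u v → x u v = 0) (hxd : ∀ v, x v v = 0)
    (hy2 : ∀ u v, F.Adj u v → c0 / 2 ≤ y u v ∧ y u v ≤ 3 / 2 * c0)
    (hy3 : ∀ u v, ¬ F.Adj u v → y u v = 0)
    (hsum : ∀ v, ∑ u, (x v u + y v u) = 1)
    (S : Finset V) (hS : Odd S.card)
    (h4 : 1 < ζ * S.card → 2 ≤ c0 * ee F S (univ \ S)) :
    1 ≤ ∑ v ∈ S, ∑ u ∈ univ \ S, (x v u + y v u) := by
  have hζ0 : 0 < ζ := by linarith
  have hy0 : ∀ u v, 0 ≤ y u v := by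
    intro u v
    by_cases h : F.Adj u v
    · have := (hy2 u v h).1
      linarith
    · rw [hy3 u v h]
  have hzζ : ∀ u v, x u v + y u v ≤ ζ := by
    intro u v
    by_cases h : F.Adj u v
    · rw [hxF u v h]
      have := (hy2 u v h).2
      linarith
    · rw [hy3 u v h]
      have := hxζ u v
      linarith
  have hcard : 1 ≤ S.card := hS.pos
  have hcr : (1 : ℝ) ≤ (S.card : ℝ) := by exact_mod_cast hcard
  by_cases hle : ζ * S.card ≤ 1
  · have h1 : ∀ v ∈ S, 1 - ((S.card : ℝ) - 1) * ζ ≤ ∑ u ∈ univ \ S, (x v u + y v u) := by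
      intro v hv
      have h2 : ∑ u ∈ univ \ S, (x v u + y v u) + ∑ u ∈ S, (x v u + y v u) = 1 := by
        rw [Finset.sum_sdiff (Finset.subset_univ S), hsum v]
      have h3 : ∑ u ∈ S, (x v u + y v u) ≤ ((S.card : ℝ) - 1) * ζ := by
        rw [← Finset.add_sum_erase S _ hv, hxd v, hy3 v v (F.irrefl), add_zero, zero_add]
        calc ∑ u ∈ S.erase v, (x v u + y v u) ≤ ∑ _u ∈ S.erase v, ζ :=
            Finset.sum_le_sum fun u _ => hzζ v u
          _ = ((S.card : ℝ) - 1) * ζ := by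
            rw [Finset.sum_const, nsmul_eq_mul, Finset.card_erase_of_mem hv,
              Nat.cast_sub hcard, Nat.cast_one]
      linarith
    have h2 : ∑ _v ∈ S, (1 - ((S.card : ℝ) - 1) * ζ) ≤
        ∑ v ∈ S, ∑ u ∈ univ \ S, (x v u + y v u) := Finset.sum_le_sum h1
    rw [Finset.sum_const, nsmul_eq_mul] at h2
    have h3 : ((S.card : ℝ) - 1) * (ζ * S.card) ≤ ((S.card : ℝ) - 1) * 1 :=
      mul_le_mul_of_nonneg_left hle (by linarith)
    nlinarith
  · have h5 := h4 (not_le.1 hle)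
    have h6 : c0 / 2 * (ee F S (univ \ S) : ℝ) ≤ ∑ v ∈ S, ∑ u ∈ univ \ S, (x v u + y v u) := by
      rw [← Finset.sum_product' S (univ \ S) (fun v u => x v u + y v u)]
      unfold ee
      calc c0 / 2 * ((((S ×ˢ (univ \ S)).filter fun p => F.Adj p.1 p.2).card : ℕ) : ℝ) =
          ∑ _p ∈ (S ×ˢ (univ \ S)).filter (fun p => F.Adj p.1 p.2), c0 / 2 := by
            rw [Finset.sum_const, nsmul_eq_mul, mul_comm]
        _ ≤ ∑ p ∈ (S ×ˢ (univ \ S)).filter (fun p => F.Adj p.1 p.2), (x p.1 p.2 + y p.1 p.2) := by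
            apply Finset.sum_le_sum
            intro p hp
            have h7 := (hy2 p.1 p.2 (Finset.mem_filter.1 hp).2).1
            have h8 := hx0 p.1 p.2
            linarith
        _ ≤ ∑ p ∈ S ×ˢ (univ \ S), (x p.1 p.2 + y p.1 p.2) := by
            apply Finset.sum_le_sum_of_subset_of_nonneg (Finset.filter_subset _ _)
            intro p _ _
            exact add_nonneg (hx0 _ _) (hy0 _ _)
    linarith

theorem stp {V : Type} [Fintype V] (hV : Even (Fintype.card V)) (F : SimpleGraph V)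
    (x : V → V → ℝ) (c0 g ζ : ℝ) (hc0 : 0 < c0) (hg0 : 0 < g) (hζ : 3 / 2 * c0 ≤ ζ)
    (hxs : ∀ u v, x u v = x v u) (hx0 : ∀ u v, 0 ≤ x u v) (hxζ : ∀ u v, x u v ≤ ζ)
    (hxF : ∀ u v, F.Adj u v → x u v = 0) (hxd : ∀ v, x v v = 0)
    (h2 : ∀ v, |(1 - ∑ u, x v u) - c0 * dg F v| ≤ c0 * g / 2) (h3 : Lc F g)
    (h4 : ∀ S : Finset V, 2 * S.card ≤ Fintype.card V → 1 < ζ * S.card →
      2 ≤ c0 * ee F S (univ \ S)) (q : V → ℝ) :
    ∃ π : V → V, (∀ v, π (π v) = v) ∧ (∀ v, π v ≠ v) ∧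
      (∀ v, 0 < x v (π v) ∨ F.Adj v (π v)) ∧
      ∑ v, q v * (if F.Adj v (π v) then 1 else 0) ≤ ∑ v, q v * (1 - ∑ u, x v u) := by
  obtain ⟨y, hy1, hy2, hy3, hy4⟩ := lb F g c0 hg0 hc0 h3 (fun v => 1 - ∑ u, x v u) h2
  have hy0 : ∀ u v, 0 ≤ y u v := by
    intro u v
    by_cases h : F.Adj u v
    · have := (hy2 u v h).1
      linarith
    · rw [hy3 u v h]
  have hsum : ∀ v, ∑ u, (x v u + y v u) = 1 := by
    intro v
    rw [Finset.sum_add_distrib, hy4 v]
    ring
  have hsy : ∀ u v, x u v + y u v = x v u + y v u := by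
    intro u v
    rw [hxs u v, hy1 u v]
  have hdiag : ∀ v, x v v + y v v = 0 := by
    intro v
    rw [hxd v, hy3 v v F.irrefl, add_zero]
  have hsmall : ∀ S : Finset V, Odd S.card → 2 * S.card ≤ Fintype.card V →
      1 ≤ ∑ v ∈ S, ∑ u ∈ univ \ S, (x v u + y v u) := by
    intro S hS hS2
    exact EXSt_bd F x y c0 ζ hc0 hζ hx0 hxζ hxF hxd hy2 hy3 hsum S hS (h4 S hS2)
  have hFP : FP (fun v u => x v u + y v u) := by
    refine ⟨hsy, fun u v => add_nonneg (hx0 u v) (hy0 u v), hdiag, hsum, ?_⟩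
    intro S hS
    by_cases hS2 : 2 * S.card ≤ Fintype.card V
    · exact hsmall S hS hS2
    · have hc : (univ \ S).card = Fintype.card V - S.card := by
        rw [Finset.card_sdiff_of_subset (Finset.subset_univ S), Finset.card_univ]
      have hle : S.card ≤ Fintype.card V := Finset.card_le_univ S
      have hodd : Odd (univ \ S).card := by
        rw [hc]
        exact Nat.Even.sub_odd hle hV hS
      have h5 := hsmall (univ \ S) hodd (by omega)
      rw [Finset.sdiff_sdiff_eq_self (Finset.subset_univ S), Finset.sum_comm] at h5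
      refine h5.trans (le_of_eq ?_)
      apply Finset.sum_congr rfl
      intro v _
      apply Finset.sum_congr rfl
      intro u _
      exact hsy u v
  obtain ⟨π, hπ1, hπ2, hπ3⟩ := edm _ hFP (fun v u => if F.Adj v u then q v else 0)
  refine ⟨π, hπ1, ?_, ?_, ?_⟩
  · intro v hv
    have h5 := hπ2 v
    rw [hv] at h5
    have h6 := hdiag v
    simp only at h5
    linarith
  · intro v
    by_cases h : F.Adj v (π v)
    · exact Or.inr h
    · left
      have h5 := hπ2 v
      simp only at h5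
      rw [hy3 v (π v) h, add_zero] at h5
      exact h5
  · have e1 : ∑ v, q v * (if F.Adj v (π v) then (1 : ℝ) else 0) =
        ∑ v, (if F.Adj v (π v) then q v else 0) := by
      apply Finset.sum_congr rfl
      intro v _
      split_ifs
      · rw [mul_one]
      · rw [mul_zero]
    have e2 : ∑ v, ∑ u, (x v u + y v u) * (if F.Adj v u then q v else 0) =
        ∑ v, q v * (1 - ∑ u, x v u) := by
      apply Finset.sum_congr rfl
      intro v _
      rw [← hy4 v, Finset.mul_sum]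
      apply Finset.sum_congr rfl
      intro u _
      split_ifs with h
      · rw [hxF v u h, zero_add, mul_comm]
      · rw [hy3 v u h, mul_zero, mul_zero]
    rw [e1, ← e2]
    exact hπ3

end Pool.Agent.H71.EX
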