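import Mathlib
import Pool.Agent.H71.EX.Defs
import Pool.Agent.H71.EX.Pb
import Pool.Agent.H71.EX.Pq
import Pool.Agent.H71.EX.St

/-!
PS: the matching of step `t`, in terms of `V`.

Let `Q v = 1 / N ^ 10 + θ (dl v + w v)`, `θ = (1 - 1 / N ^ 10) / Db Δ N t`, `w v = dn (U \ R) v (W t)`.

`psq`: `|θ (dl v + w v)| ≤ 2 / N ^ 12`: `0 ≤ θ ≤ 1 / Db ≤ N ^ 8 / (2 Δ)` (`dbl`), `|dl v| ≤ 3 Δ / N ^ 20` (`pb`),
`0 ≤ w v ≤ dn G v (W t) ≤ Δ / N ^ 20` (`wd`).

`ps`: apply `stp` to the type `A = {v // v ∉ W t}` (of even cardinality by `ev`), `F` = the restriction of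
`U ⊓ R`, `x a b = if (U \ R).Adj a b then θ else 0`, `c0 = 1 / (N ^ 2 Δ)`, `g = Δ / N ^ 9 / 2`,
`ζ = N ^ 8 / (2 Δ)`. Row sums: `∑ b, x a b = θ (dg (U \ R) a - w a) = θ (Db - dl a - w a) = 1 - Q a` (so
`1 - ∑ b, x a b = Q a`). `h2`: `|Q a - c0 dg F a| ≤ 2 / N ^ 12 + 3 / N ^ 12 ≤ 1 / (4 N ^ 11) = c0 g / 2` (`psq`, `pq1`,
`N ≥ 20`). `h3` is `pq2`; `h4` is `pq3` (`1 < ζ #S` iff `2 Δ / N ^ 8 < #S`). `3/2 c0 ≤ ζ`: clear.
With the weights `q` restricted to `A` we get an involution `π'` of `A` without fixed points; put `π v = π' v` on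
`A`, `π v = v` on `W t`. Note `F.Adj a (π' a)` iff `R.Adj a (π' a)`, because `U.Adj a (π' a)` in both cases of the
third conclusion of `stp`.
-/

set_option autoImplicit false

namespace Pool.Agent.H71.EX

open Finset Classical
open Pool.Agent.H71.DN

/-- The probability that `v` uses an edge of the reserve in step `t`. -/
noncomputable def Qv {V : Type} [Fintype V] (R : SimpleGraph V) (Δ N t : ℕ) (W : ℕ → Finset V)
    (U : SimpleGraph V) (v : V) : ℝ :=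
  1 / (N : ℝ) ^ 10 +
    (1 - 1 / (N : ℝ) ^ 10) / Db Δ N t * (dl R Δ N t U v + dn (U \ R) v (W t))

theorem EXPs_nd {V : Type} [Fintype V] {G R : SimpleGraph V} {Δ N T w0 : ℕ} {W : ℕ → Finset V}
    (h : Pc G R Δ N T w0 W) : (1000 : ℝ) ≤ N ∧ (0 : ℝ) < Δ := by
  have h1 := h.xp.hN
  have h2 := h.xp.hΔ
  constructor
  · exact_mod_cast h1
  · have h3 : 0 < N ^ 60 := by positivity
    exact_mod_cast lt_of_lt_of_le h3 h2

theorem EXPs_th {V : Type} [Fintype V] {G R : SimpleGraph V} {Δ N T w0 : ℕ} {W : ℕ → Finset V}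
    (h : Pc G R Δ N T w0 W) (t : ℕ) (ht : t < T) :
    0 ≤ (1 - 1 / (N : ℝ) ^ 10) / Db Δ N t ∧
      (1 - 1 / (N : ℝ) ^ 10) / Db Δ N t ≤ (N : ℝ) ^ 8 / (2 * Δ) := by
  obtain ⟨hn, hd⟩ := EXPs_nd h
  have hdb := dbl G R Δ N T w0 W h t ht.le
  have hn0 : (0 : ℝ) < N := by linarith
  have hpos : (0 : ℝ) < 2 * (Δ / (N : ℝ) ^ 8) := by positivity
  have h1 : (0 : ℝ) ≤ 1 / (N : ℝ) ^ 10 := by positivity
  have h2 : 1 / (N : ℝ) ^ 10 ≤ 1 := by
    rw [div_le_one (by positivity)]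
    exact one_le_pow₀ (by linarith)
  constructor
  · apply div_nonneg
    · linarith
    · linarith
  · calc (1 - 1 / (N : ℝ) ^ 10) / Db Δ N t ≤ 1 / (2 * (Δ / (N : ℝ) ^ 8)) :=
        div_le_div₀ zero_le_one (by linarith) hpos hdb
      _ = (N : ℝ) ^ 8 / (2 * Δ) := by
        field_simp

theorem EXPs_dn {V : Type} [Fintype V] {G R : SimpleGraph V} {Δ N T w0 : ℕ} {W : ℕ → Finset V}
    (h : Pc G R Δ N T w0 W) (t : ℕ) (ht : t < T) {U : SimpleGraph V} (hU : Sg G R Δ N t W U)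
    (v : V) : (dn (U \ R) v (W t) : ℝ) ≤ Δ / (N : ℝ) ^ 20 := by
  refine le_trans ?_ (h.wd t ht v)
  unfold dn
  exact_mod_cast Finset.card_le_card (by
    intro u hu
    simp only [Finset.mem_filter, SimpleGraph.sdiff_adj] at hu ⊢
    exact ⟨hu.1, hU.le hu.2.1⟩)

/-- The row sums. -/
theorem EXPs_row {V : Type} [Fintype V] {G R : SimpleGraph V} {Δ N T w0 : ℕ} {W : ℕ → Finset V}
    (h : Pc G R Δ N T w0 W) (t : ℕ) (ht : t < T) (U : SimpleGraph V)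
    (a : {v // v ∉ W t}) :
    1 - ∑ b : {v // v ∉ W t}, (if (U \ R).Adj a.1 b.1 then (1 - 1 / (N : ℝ) ^ 10) / Db Δ N t else 0) =
      Qv R Δ N t W U a.1 := by
  obtain ⟨hn, hd⟩ := EXPs_nd h
  have hdb := dbl G R Δ N T w0 W h t ht.le
  have hn0 : (0 : ℝ) < N := by linarith
  have hpos : (0 : ℝ) < 2 * (Δ / (N : ℝ) ^ 8) := by positivity
  have hdb0 : Db Δ N t ≠ 0 := by linarith
  have h1 : ∑ b : {v // v ∉ W t},
      (if (U \ R).Adj a.1 b.1 then (1 - 1 / (N : ℝ) ^ 10) / Db Δ N t else 0) =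
      ∑ b ∈ univ \ W t,
        (if (U \ R).Adj a.1 b then (1 - 1 / (N : ℝ) ^ 10) / Db Δ N t else 0) := by
    rw [Finset.sum_subtype (univ \ W t) (p := fun v => v ∉ W t) (by intro x; simp)]
  have h2 : ∑ b ∈ univ \ W t,
      (if (U \ R).Adj a.1 b then (1 - 1 / (N : ℝ) ^ 10) / Db Δ N t else 0) =
      (1 - 1 / (N : ℝ) ^ 10) / Db Δ N t * ((dg (U \ R) a.1 : ℝ) - dn (U \ R) a.1 (W t)) := by
    have h3 : ∑ b ∈ univ \ W t,
        (if (U \ R).Adj a.1 b then (1 - 1 / (N : ℝ) ^ 10) / Db Δ N t else 0) +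
        ∑ b ∈ W t,
        (if (U \ R).Adj a.1 b then (1 - 1 / (N : ℝ) ^ 10) / Db Δ N t else 0) =
        ∑ b, (if (U \ R).Adj a.1 b then (1 - 1 / (N : ℝ) ^ 10) / Db Δ N t else 0) :=
      Finset.sum_sdiff (Finset.subset_univ (W t))
    have h4 : ∑ b ∈ W t,
        (if (U \ R).Adj a.1 b then (1 - 1 / (N : ℝ) ^ 10) / Db Δ N t else 0) =
        (dn (U \ R) a.1 (W t) : ℝ) * ((1 - 1 / (N : ℝ) ^ 10) / Db Δ N t) := by
      rw [← Finset.sum_filter, Finset.sum_const, nsmul_eq_mul]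
      have e : ((W t).filter fun b => (U \ R).Adj a.1 b).card = dn (U \ R) a.1 (W t) := by
        unfold dn
        exact congrArg Finset.card (by ext x; simp only [Finset.mem_filter])
      rw [e]
    have h5 : ∑ b, (if (U \ R).Adj a.1 b then (1 - 1 / (N : ℝ) ^ 10) / Db Δ N t else 0) =
        (dg (U \ R) a.1 : ℝ) * ((1 - 1 / (N : ℝ) ^ 10) / Db Δ N t) := by
      rw [← Finset.sum_filter, Finset.sum_const, nsmul_eq_mul]
      have e : (univ.filter fun b => (U \ R).Adj a.1 b).card = dg (U \ R) a.1 := by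
        unfold dg
        exact congrArg Finset.card (by ext x; simp only [Finset.mem_filter])
      rw [e]
    rw [h4, h5] at h3
    linarith
  rw [h1, h2]
  unfold Qv dl
  have h6 : (1 - 1 / (N : ℝ) ^ 10) / Db Δ N t * Db Δ N t = 1 - 1 / (N : ℝ) ^ 10 :=
    div_mul_cancel₀ _ hdb0
  linear_combination (-1 : ℝ) * h6

theorem psq {V : Type} [Fintype V] (G R : SimpleGraph V) (Δ N T w0 : ℕ) (W : ℕ → Finset V)
    (h : Pc G R Δ N T w0 W) (t : ℕ) (ht : t < T) (U : SimpleGraph V) (hU : Sg G R Δ N t W U)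
    (v : V) : |Qv R Δ N t W U v - 1 / (N : ℝ) ^ 10| ≤ 2 / (N : ℝ) ^ 12 := by
  obtain ⟨hn, hd⟩ := EXPs_nd h
  have hth := EXPs_th h t ht
  have hdl := pb G R Δ N T w0 W h t ht.le U hU v
  have hw := EXPs_dn h t ht hU v
  have e : Qv R Δ N t W U v - 1 / (N : ℝ) ^ 10 =
      (1 - 1 / (N : ℝ) ^ 10) / Db Δ N t * (dl R Δ N t U v + dn (U \ R) v (W t)) := by
    unfold Qv
    ring
  rw [e, abs_mul, abs_of_nonneg hth.1]
  have hw0 : (0 : ℝ) ≤ (dn (U \ R) v (W t) : ℝ) := Nat.cast_nonneg _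
  have h1 : |dl R Δ N t U v + dn (U \ R) v (W t)| ≤ 4 * (Δ / (N : ℝ) ^ 20) := by
    have h2 := abs_le.1 hdl
    rw [abs_le]
    constructor
    · have : (0 : ℝ) ≤ Δ / (N : ℝ) ^ 20 := by positivity
      linarith [h2.1]
    · linarith [h2.2]
  calc (1 - 1 / (N : ℝ) ^ 10) / Db Δ N t * |dl R Δ N t U v + dn (U \ R) v (W t)|
      ≤ (N : ℝ) ^ 8 / (2 * Δ) * (4 * (Δ / (N : ℝ) ^ 20)) :=
        mul_le_mul hth.2 h1 (abs_nonneg _) (by positivity)
    _ = 2 / (N : ℝ) ^ 12 := by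
        have hn0 : (N : ℝ) ≠ 0 := by positivity
        have hd0 : (Δ : ℝ) ≠ 0 := by positivity
        field_simp
        norm_num

theorem ps {V : Type} [Fintype V] (G R : SimpleGraph V) (Δ N T w0 : ℕ) (W : ℕ → Finset V)
    (h : Pc G R Δ N T w0 W) (t : ℕ) (ht : t < T) (U : SimpleGraph V) (hU : Sg G R Δ N t W U)
    (q : V → ℝ) :
    ∃ π : V → V, (∀ v, π (π v) = v) ∧ (∀ v ∈ W t, π v = v) ∧
      (∀ v ∉ W t, π v ≠ v ∧ π v ∉ W t ∧ U.Adj v (π v)) ∧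
      ∑ v ∈ univ \ W t, q v * (if R.Adj v (π v) then 1 else 0) ≤
        ∑ v ∈ univ \ W t, q v * Qv R Δ N t W U v := by
  obtain ⟨hn, hd⟩ := EXPs_nd h
  have hth := EXPs_th h t ht
  have hn0 : (0 : ℝ) < N := by linarith
  have hV : Even (Fintype.card {v // v ∉ W t}) := by
    have e : Fintype.card {v // v ∉ W t} = (univ \ W t).card := by
      rw [Fintype.card_subtype]
      exact congrArg Finset.card (by ext v; simp)
    rw [e]
    exact h.ev t ht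
  have hc0 : (0 : ℝ) < 1 / ((N : ℝ) ^ 2 * Δ) := by positivity
  have hg0 : (0 : ℝ) < Δ / (N : ℝ) ^ 9 / 2 := by positivity
  have hN10 : (1 : ℝ) ≤ (N : ℝ) := by linarith
  have hζ : 3 / 2 * (1 / ((N : ℝ) ^ 2 * Δ)) ≤ (N : ℝ) ^ 8 / (2 * Δ) := by
    have h1 : (3 : ℝ) ≤ (N : ℝ) ^ 10 :=
      le_trans (by linarith : (3 : ℝ) ≤ N) (le_self_pow₀ hN10 (by norm_num))
    have e1 : 3 / 2 * (1 / ((N : ℝ) ^ 2 * Δ)) = 3 / (2 * ((N : ℝ) ^ 2 * Δ)) := by
      field_simp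
    rw [e1, div_le_div_iff₀ (by positivity) (by positivity)]
    have h2 : (3 : ℝ) * (2 * Δ) ≤ (N : ℝ) ^ 10 * (2 * Δ) :=
      mul_le_mul_of_nonneg_right h1 (by positivity)
    linarith [show (N : ℝ) ^ 8 * (2 * ((N : ℝ) ^ 2 * Δ)) = (N : ℝ) ^ 10 * (2 * Δ) by ring]
  have hζ0 : (0 : ℝ) ≤ (N : ℝ) ^ 8 / (2 * Δ) := by positivity
  obtain ⟨π, hπ1, hπ2, hπ3, hπ4⟩ := stp hV ((U ⊓ R).comap (Subtype.val : {v // v ∉ W t} → V))
    (fun a b => if (U \ R).Adj a.1 b.1 then (1 - 1 / (N : ℝ) ^ 10) / Db Δ N t else 0)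
    (1 / ((N : ℝ) ^ 2 * Δ)) (Δ / (N : ℝ) ^ 9 / 2) ((N : ℝ) ^ 8 / (2 * Δ)) hc0 hg0 hζ
    (by
      intro u v
      simp only [SimpleGraph.adj_comm])
    (by
      intro u v
      split_ifs
      · exact hth.1
      · exact le_rfl)
    (by
      intro u v
      split_ifs
      · exact hth.2
      · exact hζ0)
    (by
      intro u v huv
      simp only [SimpleGraph.comap_adj, SimpleGraph.inf_adj] at huv
      simp only [SimpleGraph.sdiff_adj]
      rw [if_neg]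
      intro h1
      exact h1.2 huv.2)
    (by
      intro v
      simp)
    (by
      intro a
      have e1 := EXPs_row h t ht U a
      rw [e1]
      have h1 := psq G R Δ N T w0 W h t ht U hU a.1
      have h2 := pq1 G R Δ N T w0 W h t ht U hU a
      have e2 : 1 / ((N : ℝ) ^ 2 * Δ) * (Δ / (N : ℝ) ^ 9 / 2) / 2 = 1 / (4 * (N : ℝ) ^ 11) := by
        field_simp
        norm_num
      rw [e2]
      have h3 : 2 / (N : ℝ) ^ 12 + 3 / (N : ℝ) ^ 12 ≤ 1 / (4 * (N : ℝ) ^ 11) := by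
        rw [← add_div, div_le_div_iff₀ (by positivity) (by positivity)]
        have h4 : (0 : ℝ) < (N : ℝ) ^ 11 := by positivity
        have h5 : (20 : ℝ) * (N : ℝ) ^ 11 ≤ N * (N : ℝ) ^ 11 :=
          mul_le_mul_of_nonneg_right (by linarith) h4.le
        linarith [show (N : ℝ) * (N : ℝ) ^ 11 = 1 * (N : ℝ) ^ 12 by ring]
      refine le_trans ?_ h3
      refine le_trans ?_ (add_le_add h1 h2)
      refine le_trans (le_of_eq ?_) (abs_add_le _ _)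
      congr 1
      ring)
    (pq2 G R Δ N T w0 W h t ht U hU)
    (by
      intro S hS h1
      refine le_of_le_of_eq (pq3 G R Δ N T w0 W h t ht U hU S hS ?_)
        (by congr; exact Subsingleton.elim _ _)
      have h2 : 2 * (Δ / (N : ℝ) ^ 8) * 1 < 2 * (Δ / (N : ℝ) ^ 8) *
          ((N : ℝ) ^ 8 / (2 * Δ) * S.card) := mul_lt_mul_of_pos_left h1 (by positivity)
      have e3 : 2 * (Δ / (N : ℝ) ^ 8) * ((N : ℝ) ^ 8 / (2 * Δ) * S.card) = (S.card : ℝ) := by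
        field_simp
      rw [e3, mul_one] at h2
      exact h2)
    (fun a => q a.1)
  have hadj : ∀ a : {v // v ∉ W t}, U.Adj a.1 (π a).1 := by
    intro a
    rcases hπ3 a with h1 | h1
    · by_contra h2
      rw [if_neg (by
        intro h3
        exact h2 (SimpleGraph.sdiff_adj _ _ _ _ |>.1 h3).1)] at h1
      exact lt_irrefl _ h1
    · simp only [SimpleGraph.comap_adj, SimpleGraph.inf_adj] at h1
      exact h1.1
  obtain ⟨P, hP1, hP2⟩ : ∃ P : V → V, (∀ v (hv : v ∉ W t), P v = (π ⟨v, hv⟩).1) ∧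
      (∀ v, v ∈ W t → P v = v) := by
    refine ⟨fun v => if hv : v ∉ W t then (π ⟨v, hv⟩).1 else v, ?_, ?_⟩
    · intro v hv
      exact dif_pos hv
    · intro v hv
      exact dif_neg (not_not.2 hv)
  refine ⟨P, ?_, hP2, ?_, ?_⟩
  · intro v
    by_cases hv : v ∈ W t
    · rw [hP2 v hv, hP2 v hv]
    · have h1 : (π ⟨v, hv⟩).1 ∉ W t := (π ⟨v, hv⟩).2
      rw [hP1 v hv, hP1 _ h1]
      have h2 : (⟨(π ⟨v, hv⟩).1, h1⟩ : {v // v ∉ W t}) = π ⟨v, hv⟩ := rfl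
      rw [h2, hπ1]
  · intro v hv
    rw [hP1 v hv]
    refine ⟨?_, (π ⟨v, hv⟩).2, hadj ⟨v, hv⟩⟩
    intro h1
    exact hπ2 ⟨v, hv⟩ (Subtype.ext h1)
  · rw [Finset.sum_subtype (univ \ W t) (p := fun v => v ∉ W t) (by intro x; simp),
      Finset.sum_subtype (univ \ W t) (p := fun v => v ∉ W t) (by intro x; simp)]
    refine le_trans (le_of_eq ?_) (le_trans hπ4 (le_of_eq ?_))
    · apply Finset.sum_congr rfl
      intro a _
      rw [hP1 a.1 a.2]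
      have h1 : ((U ⊓ R).comap (Subtype.val : {v // v ∉ W t} → V)).Adj a (π a) ↔
          R.Adj a.1 (π a).1 := by
        simp only [SimpleGraph.comap_adj, SimpleGraph.inf_adj]
        exact ⟨fun h2 => h2.2, fun h2 => ⟨hadj a, h2⟩⟩
      have h5 : (⟨a.1, a.2⟩ : {v // v ∉ W t}) = a := rfl
      rw [h5]
      by_cases h2 : R.Adj a.1 (π a).1
      · rw [if_pos h2, if_pos (h1.2 h2)]
      · rw [if_neg h2, if_neg (fun h3 => h2 (h1.1 h3))]
    · apply Finset.sum_congr rfl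
      intro a _
      rw [EXPs_row h t ht U a]

end Pool.Agent.H71.EX
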