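import Mathlib

/-!
CH: the one-vertex inequalities for the `cosh` potential.

Proof of `ch`.  Let `a = (1 - θ) δ - θ w`. Then `δ + τ = a + q` and `δ + τ - 1 = a + q - 1`. With
`cosh y = (exp y + exp (-y)) / 2` the left side is
`1/2 exp (l a) * M l + 1/2 exp (- l a) * M (-l)`, `M μ = (1 - q) exp (μ q) + q exp (μ (q - 1)) =
exp (μ q) (1 - q + q exp (-μ)) ≤ exp (μ q) exp (q (exp (-μ) - 1)) ≤ exp (q μ ^ 2)` for `|μ| ≤ 1`, since
`exp (-μ) ≤ 1 - μ + μ ^ 2` (`Real.abs_exp_sub_one_sub_id_le`) and `1 + y ≤ exp y`. So the left side is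
`≤ cosh (l a) exp (l ^ 2 q)`. Next `|l a| ≤ l (1 - θ) |δ| + l θ w`, and
`cosh (s + t) ≤ cosh s * exp t` for `s, t ≥ 0`, `cosh` even and monotone in `|.|` (`Real.cosh_le_cosh`), so
`cosh (l a) ≤ cosh (l δ) exp (l θ w)`.

Proof of `ch2`.  `|l (δ - s)| ≤ |l δ| + l` and the same inequality.
-/

set_option autoImplicit false

namespace Pool.Agent.H71.EX

theorem Ch_aux (y s t : ℝ) (ht : 0 ≤ t) (h : |y| ≤ |s| + t) :
    Real.cosh y ≤ Real.cosh s * Real.exp t := by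
  have h1 : Real.cosh y ≤ Real.cosh (|s| + t) := by
    rw [Real.cosh_le_cosh]
    rw [abs_of_nonneg (add_nonneg (abs_nonneg s) ht)]
    exact h
  have h2 : Real.cosh (|s| + t) ≤ Real.cosh |s| * Real.exp t := by
    rw [Real.cosh_eq, Real.cosh_eq, Real.exp_add, neg_add, Real.exp_add]
    have e1 : Real.exp (-t) ≤ Real.exp t := Real.exp_le_exp.mpr (by linarith)
    have e2 : 0 < Real.exp (-|s|) := Real.exp_pos _
    have e3 := mul_le_mul_of_nonneg_left e1 e2.le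
    linarith
  rw [Real.cosh_abs] at h2
  exact h1.trans h2

theorem Ch_M (q μ : ℝ) (hq0 : 0 ≤ q) (hμ : |μ| ≤ 1) :
    (1 - q) * Real.exp (μ * q) + q * Real.exp (μ * (q - 1)) ≤ Real.exp (q * μ ^ 2) := by
  have h0 : |(-μ)| ≤ 1 := by rwa [abs_neg]
  have h1 := Real.abs_exp_sub_one_sub_id_le h0
  have h2 : Real.exp (-μ) ≤ 1 - μ + μ ^ 2 := by
    have := (abs_le.mp h1).2
    have h3 : (-μ) ^ 2 = μ ^ 2 := by ring
    linarith
  have h4 : Real.exp (μ * (q - 1)) = Real.exp (μ * q) * Real.exp (-μ) := by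
    rw [← Real.exp_add]; congr 1; ring
  have h5 : 1 + q * (Real.exp (-μ) - 1) ≤ Real.exp (q * (-μ + μ ^ 2)) := by
    have h6 := Real.add_one_le_exp (q * (-μ + μ ^ 2))
    have h7 : q * (Real.exp (-μ) - 1) ≤ q * (-μ + μ ^ 2) :=
      mul_le_mul_of_nonneg_left (by linarith) hq0
    linarith
  have h8 : Real.exp (q * μ ^ 2) = Real.exp (μ * q) * Real.exp (q * (-μ + μ ^ 2)) := by
    rw [← Real.exp_add]; congr 1; ring
  rw [h4, h8]
  have h9 := mul_le_mul_of_nonneg_left h5 (Real.exp_pos (μ * q)).le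
  calc (1 - q) * Real.exp (μ * q) + q * (Real.exp (μ * q) * Real.exp (-μ))
      = Real.exp (μ * q) * (1 + q * (Real.exp (-μ) - 1)) := by ring
    _ ≤ _ := h9

theorem ch (l δ q θ w τ : ℝ) (hl0 : 0 ≤ l) (hl1 : l ≤ 1) (hq0 : 0 ≤ q) (hq1 : q ≤ 1)
    (hθ0 : 0 ≤ θ) (hθ1 : θ ≤ 1) (hw : 0 ≤ w) (hτ : τ = q - θ * (δ + w)) :
    (1 - q) * Real.cosh (l * (δ + τ)) + q * Real.cosh (l * (δ + τ - 1)) ≤
      Real.cosh (l * δ) * Real.exp (l * (θ * w) + l ^ 2 * q) := by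
  obtain ⟨a, ha⟩ : ∃ a, a = (1 - θ) * δ - θ * w := ⟨_, rfl⟩
  have e1 : δ + τ = a + q := by rw [hτ, ha]; ring
  have hM1 := Ch_M q l hq0 (by rw [abs_of_nonneg hl0]; exact hl1)
  have hM2 := Ch_M q (-l) hq0 (by rw [abs_neg, abs_of_nonneg hl0]; exact hl1)
  have hs : q * (-l) ^ 2 = q * l ^ 2 := by ring
  rw [hs] at hM2
  have h1 := mul_le_mul_of_nonneg_left hM1 (Real.exp_pos (l * a)).le
  have h2 := mul_le_mul_of_nonneg_left hM2 (Real.exp_pos (-(l * a))).le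
  have c1 : Real.cosh (l * (a + q)) =
      (Real.exp (l * a) * Real.exp (l * q) + Real.exp (-(l * a)) * Real.exp (-l * q)) / 2 := by
    rw [Real.cosh_eq, ← Real.exp_add, ← Real.exp_add]
    congr 2
    · congr 1; ring
    · congr 1; ring
  have c2 : Real.cosh (l * (a + q - 1)) =
      (Real.exp (l * a) * Real.exp (l * (q - 1)) +
        Real.exp (-(l * a)) * Real.exp (-l * (q - 1))) / 2 := by
    rw [Real.cosh_eq, ← Real.exp_add, ← Real.exp_add]
    congr 2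
    · congr 1; ring
    · congr 1; ring
  have h3 : (1 - q) * Real.cosh (l * (δ + τ)) + q * Real.cosh (l * (δ + τ - 1)) ≤
      Real.cosh (l * a) * Real.exp (q * l ^ 2) := by
    rw [e1, c1, c2, Real.cosh_eq (l * a)]
    linarith
  have h4 : Real.cosh (l * a) ≤ Real.cosh (l * δ) * Real.exp (l * (θ * w)) := by
    apply Ch_aux
    · exact mul_nonneg hl0 (mul_nonneg hθ0 hw)
    · have h5 : |a| ≤ |δ| + θ * w := by
        rw [ha]
        have h6 : |(1 - θ) * δ - θ * w| ≤ |(1 - θ) * δ| + |θ * w| := abs_sub _ _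
        rw [abs_mul, abs_of_nonneg (by linarith : (0:ℝ) ≤ 1 - θ),
          abs_of_nonneg (mul_nonneg hθ0 hw)] at h6
        have h7 : (1 - θ) * |δ| ≤ 1 * |δ| :=
          mul_le_mul_of_nonneg_right (by linarith) (abs_nonneg δ)
        linarith
      have h8 := mul_le_mul_of_nonneg_left h5 hl0
      rw [abs_mul, abs_mul, abs_of_nonneg hl0]
      linarith
  calc (1 - q) * Real.cosh (l * (δ + τ)) + q * Real.cosh (l * (δ + τ - 1))
      ≤ Real.cosh (l * a) * Real.exp (q * l ^ 2) := h3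
    _ ≤ (Real.cosh (l * δ) * Real.exp (l * (θ * w))) * Real.exp (q * l ^ 2) :=
        mul_le_mul_of_nonneg_right h4 (Real.exp_pos _).le
    _ = Real.cosh (l * δ) * Real.exp (l * (θ * w) + l ^ 2 * q) := by
        rw [mul_assoc, ← Real.exp_add]
        congr 2
        ring

theorem ch2 (l δ s : ℝ) (hl0 : 0 ≤ l) (hs0 : 0 ≤ s) (hs1 : s ≤ 1) :
    Real.cosh (l * (δ - s)) ≤ Real.cosh (l * δ) * Real.exp l := by
  apply Ch_aux _ _ _ hl0
  have h1 : |l * (δ - s)| ≤ |l * δ| + |l * s| := by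
    have h2 : l * (δ - s) = l * δ - l * s := by ring
    rw [h2]
    exact abs_sub _ _
  have h3 : |l * s| ≤ l := by
    rw [abs_of_nonneg (mul_nonneg hl0 hs0)]
    calc l * s ≤ l * 1 := mul_le_mul_of_nonneg_left hs1 hl0
      _ = l := mul_one l
  linarith

end Pool.Agent.H71.EX
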