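import Mathlib
import Pool.Agent.H71.EX.Defs
import Pool.Agent.H71.EX.Pb
import Pool.Agent.H71.EX.Ps
import Pool.Agent.H71.EX.Ch

/-!
PT: one step of the process keeps the invariant.

Notation: `l = 1 / N ^ 11`, `s = 1 / N ^ 10`, `θ = (1 - s) / Db Δ N t`, `δ v = dl R Δ N t U v`,
`w v = dn (U \ R) v (W t)`, `q v = Qv .. v = s + θ (δ v + w v)`, `a v = aa .. t v`, `a' v = aa .. (t + 1) v =
a v + [v ∈ W t] + dn G v (W t) / Db Δ N t` (`Finset.sum_range_succ`).
`C0 v = cosh (l (δ v + s))`, `C1 v = cosh (l (δ v + s - 1))`. Apply `ps` with the weights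
`(C1 v - C0 v) * exp (- l a' v)`: a `π`. It is the identity exactly on `W t`.
Let `U'` be as in the statement. `U' ≤ U ≤ G`. For `v ∉ W t`: `dg U' v = dg U v - 1`; for `v ∈ W t`:
`dg U' v = dg U v`; this gives `deg` for `t + 1`.
`dg (U' \ R) v = dg (U \ R) v - (if v ∉ W t ∧ ¬ R.Adj v (π v) then 1 else 0)`. With
`Db (t + 1) = Db t - (1 - s)` the new deviation is `δ v + s - ξ v` for `v ∉ W t`, where `ξ v = 1` if
`R.Adj v (π v)` and `0` otherwise, and `δ v - (1 - s)` for `v ∈ W t`.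
So the new potential is
`∑ v ∉ W t, (C0 v + ξ v (C1 v - C0 v)) exp (- l a' v) + ∑ v ∈ W t, cosh (l (δ v - (1 - s))) exp (- l a' v)`
`≤ ∑ v ∉ W t, ((1 - q v) C0 v + q v C1 v) exp (- l a' v) + ...` by the last conclusion of `ps`
`≤ ∑ v ∉ W t, cosh (l δ v) exp (l θ w v + l ^ 2 q v - l a' v) + ∑ v ∈ W t, cosh (l δ v) exp (l - l a' v)`
by `ch` (with `τ = s = q v - θ (δ v + w v)`; `0 ≤ q v ≤ 2 s ≤ 1` by `psq`, `0 ≤ θ ≤ 1` by `dbl`) and `ch2`.
Since `a' v ≥ a v + θ w v` (`dn (U \ R) v ≤ dn G v`, `θ ≤ 1 / Db`), `a' v ≥ a v + 1` on `W t`, and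
`l ^ 2 q v ≤ 2 l ^ 2 s = 2 / N ^ 32`, this is at most `exp (2 / N ^ 32)` times the old potential.
(The terms of `Sg.pot` are written `dl / N ^ 11` instead of `l * dl`.)
-/

set_option autoImplicit false

namespace Pool.Agent.H71.EX

open Finset Classical
open Pool.Agent.H71.DN

theorem Pt_dg0 {V : Type} [Fintype V] (H H' : SimpleGraph V) (v x : V)
    (h : ∀ b, H'.Adj v b ↔ H.Adj v b ∧ x ≠ b) (hx : ¬ H.Adj v x) : dg H' v = dg H v := by
  unfold dg
  congr 1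
  apply Finset.filter_congr
  intro b _
  rw [h b]
  constructor
  · exact fun k => k.1
  · intro k
    refine ⟨k, ?_⟩
    rintro rfl
    exact hx k

theorem Pt_dg1 {V : Type} [Fintype V] (H H' : SimpleGraph V) (v x : V)
    (h : ∀ b, H'.Adj v b ↔ H.Adj v b ∧ x ≠ b) (hx : H.Adj v x) : dg H' v + 1 = dg H v := by
  unfold dg
  have e : (univ.filter fun u => H.Adj v u) = insert x (univ.filter fun u => H'.Adj v u) := by
    ext b
    simp only [mem_filter, mem_univ, true_and, mem_insert]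
    rw [h b]
    constructor
    · intro k
      by_cases hb : x = b
      · exact Or.inl hb.symm
      · exact Or.inr ⟨k, hb⟩
    · rintro (rfl | k)
      · exact hx
      · exact k.1
  rw [e, card_insert_of_notMem]
  simp only [mem_filter, mem_univ, true_and]
  rw [h x]
  exact fun k => k.2 rfl

theorem Pt_dn {V : Type} [Fintype V] (G H : SimpleGraph V) (hle : H ≤ G) (v : V)
    (A : Finset V) : dn H v A ≤ dn G v A := by
  unfold dn
  apply card_le_card
  intro u hu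
  rw [mem_filter] at hu ⊢
  exact ⟨hu.1, hle hu.2⟩

theorem Pt_one (l s δ q θ w a a' e2 : ℝ) (hl0 : 0 ≤ l) (hl1 : l ≤ 1) (hq0 : 0 ≤ q)
    (hq1 : q ≤ 1) (hθ0 : 0 ≤ θ) (hθ1 : θ ≤ 1) (hw : 0 ≤ w) (hτ : s = q - θ * (δ + w))
    (ha : a + θ * w ≤ a') (he : l ^ 2 * q ≤ e2) :
    ((1 - q) * Real.cosh (l * (δ + s)) + q * Real.cosh (l * (δ + s - 1))) *
      Real.exp (-(l * a')) ≤ Real.exp e2 * (Real.cosh (l * δ) * Real.exp (-(l * a))) := by
  have h1 := ch l δ q θ w s hl0 hl1 hq0 hq1 hθ0 hθ1 hw hτ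
  have h2 := mul_le_mul_of_nonneg_right h1 (Real.exp_pos (-(l * a'))).le
  refine h2.trans ?_
  rw [mul_assoc, ← Real.exp_add]
  have h3 : Real.exp e2 * (Real.cosh (l * δ) * Real.exp (-(l * a))) =
      Real.cosh (l * δ) * Real.exp (e2 + -(l * a)) := by
    rw [Real.exp_add]; ring
  rw [h3]
  apply mul_le_mul_of_nonneg_left _ (Real.cosh_pos _).le
  apply Real.exp_le_exp.mpr
  have h4 := mul_le_mul_of_nonneg_left ha hl0
  linarith

theorem Pt_two (l s δ a a' e2 : ℝ) (hl0 : 0 ≤ l) (hs0 : 0 ≤ s) (hs1 : s ≤ 1)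
    (ha : a + 1 ≤ a') (he : 0 ≤ e2) :
    Real.cosh (l * (δ + s - 1)) * Real.exp (-(l * a')) ≤
      Real.exp e2 * (Real.cosh (l * δ) * Real.exp (-(l * a))) := by
  have h1 := ch2 l δ (1 - s) hl0 (by linarith) (by linarith)
  have h0 : l * (δ - (1 - s)) = l * (δ + s - 1) := by ring
  rw [h0] at h1
  have h2 := mul_le_mul_of_nonneg_right h1 (Real.exp_pos (-(l * a'))).le
  refine h2.trans ?_
  rw [mul_assoc, ← Real.exp_add]
  have h3 : Real.exp e2 * (Real.cosh (l * δ) * Real.exp (-(l * a))) =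
      Real.cosh (l * δ) * Real.exp (e2 + -(l * a)) := by
    rw [Real.exp_add]; ring
  rw [h3]
  apply mul_le_mul_of_nonneg_left _ (Real.cosh_pos _).le
  apply Real.exp_le_exp.mpr
  have h4 := mul_le_mul_of_nonneg_left ha hl0
  linarith

theorem pt {V : Type} [Fintype V] (G R : SimpleGraph V) (Δ N T w0 : ℕ) (W : ℕ → Finset V)
    (h : Pc G R Δ N T w0 W) (t : ℕ) (ht : t < T) (U : SimpleGraph V) (hU : Sg G R Δ N t W U) :
    ∃ π : V → V, (∀ v, π (π v) = v) ∧ (∀ v, π v = v ↔ v ∈ W t) ∧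
      (∀ v ∉ W t, U.Adj v (π v)) ∧
      ∀ U' : SimpleGraph V, (∀ a b, U'.Adj a b ↔ U.Adj a b ∧ π a ≠ b) →
        Sg G R Δ N (t + 1) W U' := by
  obtain ⟨l, hl⟩ : ∃ l : ℝ, l = 1 / (N : ℝ) ^ 11 := ⟨_, rfl⟩
  obtain ⟨s, hs⟩ : ∃ s : ℝ, s = 1 / (N : ℝ) ^ 10 := ⟨_, rfl⟩
  have hN : (1000 : ℝ) ≤ (N : ℝ) := by exact_mod_cast h.xp.hN
  have hN0 : (0 : ℝ) < N := by linarith
  have hN1 : (1 : ℝ) ≤ N := by linarith
  have hl0 : 0 ≤ l := by rw [hl]; positivity
  have hl1 : l ≤ 1 := by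
    rw [hl, div_le_one (by positivity)]
    exact one_le_pow₀ hN1
  have hs0 : 0 ≤ s := by rw [hs]; positivity
  have hs1 : s ≤ 1 / 2 := by
    rw [hs]
    apply one_div_le_one_div_of_le (by norm_num)
    calc (2 : ℝ) ≤ N := by linarith
      _ = (N : ℝ) ^ 1 := (pow_one _).symm
      _ ≤ (N : ℝ) ^ 10 := pow_le_pow_right₀ hN1 (by norm_num)
  have hΔ : ((N : ℝ)) ^ 60 ≤ Δ := by exact_mod_cast h.xp.hΔ
  have hDb : 2 * (Δ / (N : ℝ) ^ 8) ≤ Db Δ N t := dbl G R Δ N T w0 W h t ht.le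
  have hDb1 : 1 ≤ Db Δ N t := by
    refine le_trans ?_ hDb
    have h1 : (1 : ℝ) ≤ Δ / (N : ℝ) ^ 8 := by
      rw [le_div_iff₀ (by positivity), one_mul]
      exact le_trans (pow_le_pow_right₀ hN1 (by norm_num)) hΔ
    linarith
  obtain ⟨θ, hθ⟩ : ∃ θ : ℝ, θ = (1 - s) / Db Δ N t := ⟨_, rfl⟩
  have hθ0 : 0 ≤ θ := by
    rw [hθ]
    exact div_nonneg (by linarith) (by linarith)
  have hθ2 : θ ≤ 1 / Db Δ N t := by
    rw [hθ]
    exact div_le_div_of_nonneg_right (by linarith) (by linarith)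
  have hθ1 : θ ≤ 1 := by
    refine hθ2.trans ?_
    rw [div_le_one (by linarith)]
    exact hDb1
  -- the data at each vertex
  obtain ⟨a, ha⟩ : ∃ a : V → ℝ, a = fun v => aa G W Δ N t v := ⟨_, rfl⟩
  obtain ⟨a', ha'⟩ : ∃ a' : V → ℝ, a' = fun v => aa G W Δ N (t + 1) v := ⟨_, rfl⟩
  obtain ⟨δ, hδ⟩ : ∃ δ : V → ℝ, δ = fun v => dl R Δ N t U v := ⟨_, rfl⟩
  obtain ⟨Q, hQ⟩ : ∃ Q : V → ℝ, Q = fun v => Qv R Δ N t W U v := ⟨_, rfl⟩
  obtain ⟨w, hw⟩ : ∃ w : V → ℝ, w = fun v => (dn (U \ R) v (W t) : ℝ) := ⟨_, rfl⟩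
  have haa : ∀ v, a' v = a v + ((if v ∈ W t then (1 : ℝ) else 0) +
      (dn G v (W t) : ℝ) / Db Δ N t) := by
    intro v
    rw [ha', ha]
    simp only [aa]
    rw [Finset.sum_range_succ]
  have hw0 : ∀ v, 0 ≤ w v := by
    intro v; rw [hw]; exact Nat.cast_nonneg _
  have hwG : ∀ v, θ * w v ≤ (dn G v (W t) : ℝ) / Db Δ N t := by
    intro v
    have h1 : (w v : ℝ) ≤ dn G v (W t) := by
      have h2 : dn (U \ R) v (W t) ≤ dn G v (W t) :=
        Pt_dn G (U \ R) (sdiff_le.trans hU.le) v (W t)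
      rw [hw]
      exact Nat.cast_le.mpr h2
    calc θ * w v ≤ 1 / Db Δ N t * w v := mul_le_mul_of_nonneg_right hθ2 (hw0 v)
      _ ≤ 1 / Db Δ N t * dn G v (W t) :=
        mul_le_mul_of_nonneg_left h1 (by apply div_nonneg <;> linarith)
      _ = _ := by ring
  have hdG : ∀ v, 0 ≤ (dn G v (W t) : ℝ) / Db Δ N t := fun v =>
    div_nonneg (Nat.cast_nonneg _) (by linarith)
  have hQs : ∀ v, |Q v - s| ≤ 2 / (N : ℝ) ^ 12 := by
    intro v
    rw [hQ, hs]
    exact psq G R Δ N T w0 W h t ht U hU v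
  have h12 : 2 / (N : ℝ) ^ 12 ≤ s := by
    rw [hs, div_le_div_iff₀ (by positivity) (by positivity)]
    have h1 : (N : ℝ) ^ 12 = N ^ 2 * N ^ 10 := by ring
    rw [h1]
    have h2 : (2 : ℝ) ≤ N ^ 2 := by
      calc (2 : ℝ) ≤ N := by linarith
        _ = (N : ℝ) ^ 1 := (pow_one _).symm
        _ ≤ (N : ℝ) ^ 2 := pow_le_pow_right₀ hN1 (by norm_num)
    have h3 := mul_le_mul_of_nonneg_right h2 (by positivity : (0 : ℝ) ≤ (N : ℝ) ^ 10)
    linarith
  have hQ0 : ∀ v, 0 ≤ Q v := fun v => by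
    have := (abs_le.mp (hQs v)).1; linarith
  have hQ2 : ∀ v, Q v ≤ 2 * s := fun v => by
    have := (abs_le.mp (hQs v)).2; linarith
  have hQτ : ∀ v, s = Q v - θ * (δ v + w v) := by
    intro v
    rw [hQ, hδ, hw, hθ, hs]
    simp only [Qv]
    ring
  have hlQ : ∀ v, l ^ 2 * Q v ≤ 2 / (N : ℝ) ^ 32 := by
    intro v
    calc l ^ 2 * Q v ≤ l ^ 2 * (2 * s) := mul_le_mul_of_nonneg_left (hQ2 v) (sq_nonneg l)
      _ = 2 / (N : ℝ) ^ 32 := by
        rw [hl, hs]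
        field_simp
  have hDbs : Db Δ N (t + 1) = Db Δ N t - (1 - s) := by
    rw [hs]
    simp only [Db]
    push_cast
    ring
  obtain ⟨π, hπ, hW1, hW2, hsum⟩ := ps G R Δ N T w0 W h t ht U hU
    (fun v => (Real.cosh (l * (δ v + s - 1)) - Real.cosh (l * (δ v + s))) *
      Real.exp (-(l * a' v)))
  refine ⟨π, hπ, fun v => ⟨fun hv => ?_, fun hv => hW1 v hv⟩, fun v hv => (hW2 v hv).2.2, ?_⟩
  · by_contra hv'
    exact (hW2 v hv').1 hv
  intro U' hU'
  have hle : U' ≤ G := fun x y hxy => hU.le ((hU' x y).mp hxy).1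
  have hUW : ∀ v ∈ W t, ¬ U.Adj v (π v) := by
    intro v hv
    rw [hW1 v hv]
    exact U.loopless.irrefl v
  refine ⟨hle, ?_, ?_⟩
  · intro v
    have h0 := hU.deg v
    by_cases hv : v ∈ W t
    · have h1 := Pt_dg0 U U' v (π v) (fun b => hU' v b) (hUW v hv)
      rw [range_add_one, filter_insert, if_pos hv, card_insert_of_notMem, h1]
      · omega
      · rw [mem_filter, mem_range]
        exact fun k => lt_irrefl _ k.1
    · have h1 := Pt_dg1 U U' v (π v) (fun b => hU' v b) (hW2 v hv).2.2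
      rw [range_add_one, filter_insert, if_neg hv]
      omega
  · -- the new deviations
    have hUR : ∀ v b, (U' \ R).Adj v b ↔ (U \ R).Adj v b ∧ π v ≠ b := by
      intro v b
      rw [SimpleGraph.sdiff_adj, SimpleGraph.sdiff_adj, hU' v b]
      tauto
    have hnew1 : ∀ v, (v ∈ W t ∨ R.Adj v (π v)) →
        dl R Δ N (t + 1) U' v = δ v + s - 1 := by
      intro v hv
      have h1 := Pt_dg0 (U \ R) (U' \ R) v (π v) (fun b => hUR v b) (by
        rw [SimpleGraph.sdiff_adj]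
        rintro ⟨k1, k2⟩
        rcases hv with hv | hv
        · exact hUW v hv k1
        · exact k2 hv)
      rw [hδ]
      simp only [dl]
      rw [hDbs, h1]
      ring
    have hnew0 : ∀ v, v ∉ W t → ¬ R.Adj v (π v) →
        dl R Δ N (t + 1) U' v = δ v + s := by
      intro v hv hr
      have h1 := Pt_dg1 (U \ R) (U' \ R) v (π v) (fun b => hUR v b) (by
        rw [SimpleGraph.sdiff_adj]
        exact ⟨(hW2 v hv).2.2, hr⟩)
      have h2 : (dg (U \ R) v : ℝ) = dg (U' \ R) v + 1 := by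
        rw [← h1]; push_cast; ring
      rw [hδ]
      simp only [dl]
      rw [hDbs, h2]
      ring
    have hA : ∑ v ∈ univ \ W t, Real.cosh (l * dl R Δ N (t + 1) U' v) * Real.exp (-(l * a' v)) ≤
        Real.exp (2 / (N : ℝ) ^ 32) *
          ∑ v ∈ univ \ W t, Real.cosh (l * δ v) * Real.exp (-(l * a v)) := by
      have e1 : ∑ v ∈ univ \ W t,
          Real.cosh (l * dl R Δ N (t + 1) U' v) * Real.exp (-(l * a' v)) =
          ∑ v ∈ univ \ W t, Real.cosh (l * (δ v + s)) * Real.exp (-(l * a' v)) +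
          ∑ v ∈ univ \ W t, ((Real.cosh (l * (δ v + s - 1)) - Real.cosh (l * (δ v + s))) *
            Real.exp (-(l * a' v))) * (if R.Adj v (π v) then 1 else 0) := by
        rw [← sum_add_distrib]
        apply sum_congr rfl
        intro v hv
        rw [mem_sdiff] at hv
        by_cases hr : R.Adj v (π v)
        · rw [if_pos hr, hnew1 v (Or.inr hr)]
          ring
        · rw [if_neg hr, hnew0 v hv.2 hr]
          ring
      rw [e1, mul_sum]
      refine (add_le_add_right hsum _).trans ?_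
      rw [← sum_add_distrib]
      apply sum_le_sum
      intro v hv
      rw [mem_sdiff] at hv
      have h1 := Pt_one l s (δ v) (Q v) θ (w v) (a v) (a' v) (2 / (N : ℝ) ^ 32) hl0 hl1 (hQ0 v)
        (by linarith [hQ2 v]) hθ0 hθ1 (hw0 v) (hQτ v) (by
          rw [haa v, if_neg hv.2]
          linarith [hwG v]) (hlQ v)
      refine le_trans (le_of_eq ?_) h1
      rw [hQ]
      ring
    have hB : ∑ v ∈ W t, Real.cosh (l * dl R Δ N (t + 1) U' v) * Real.exp (-(l * a' v)) ≤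
        Real.exp (2 / (N : ℝ) ^ 32) *
          ∑ v ∈ W t, Real.cosh (l * δ v) * Real.exp (-(l * a v)) := by
      rw [mul_sum]
      apply sum_le_sum
      intro v hv
      rw [hnew1 v (Or.inl hv)]
      apply Pt_two l s (δ v) (a v) (a' v) _ hl0 hs0 (by linarith)
      · rw [haa v, if_pos hv]
        linarith [hdG v]
      · positivity
    have hS : ∑ v, Real.cosh (l * dl R Δ N (t + 1) U' v) * Real.exp (-(l * a' v)) ≤
        Real.exp (2 / (N : ℝ) ^ 32) *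
          ∑ v, Real.cosh (l * δ v) * Real.exp (-(l * a v)) := by
      rw [← sum_sdiff (subset_univ (W t)), ← sum_sdiff (subset_univ (W t)), mul_add]
      exact add_le_add hA hB
    have hold : ∑ v, Real.cosh (l * δ v) * Real.exp (-(l * a v)) ≤
        Fintype.card V * Real.exp (2 * Δ / (N : ℝ) ^ 31 + 2 * t / (N : ℝ) ^ 32) := by
      refine le_trans (le_of_eq ?_) hU.pot
      apply sum_congr rfl
      intro v _
      rw [hδ, ha, hl]
      simp only []
      rw [one_div_mul_eq_div, one_div_mul_eq_div]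
    have e3 : ∑ v, Real.cosh (dl R Δ N (t + 1) U' v / (N : ℝ) ^ 11) *
        Real.exp (-(aa G W Δ N (t + 1) v / (N : ℝ) ^ 11)) =
        ∑ v, Real.cosh (l * dl R Δ N (t + 1) U' v) * Real.exp (-(l * a' v)) := by
      apply sum_congr rfl
      intro v _
      rw [ha', hl]
      simp only []
      rw [one_div_mul_eq_div, one_div_mul_eq_div]
    rw [e3]
    refine hS.trans ?_
    refine (mul_le_mul_of_nonneg_left hold (Real.exp_pos _).le).trans (le_of_eq ?_)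
    have e4 : (2 * Δ / (N : ℝ) ^ 31 + 2 * ((t + 1 : ℕ) : ℝ) / (N : ℝ) ^ 32) =
        2 / (N : ℝ) ^ 32 + (2 * Δ / (N : ℝ) ^ 31 + 2 * t / (N : ℝ) ^ 32) := by
      push_cast
      ring
    rw [e4, Real.exp_add (2 / (N : ℝ) ^ 32)]
    obtain ⟨E1, hE1⟩ : ∃ E1, E1 = Real.exp (2 / (N : ℝ) ^ 32) := ⟨_, rfl⟩
    obtain ⟨E2, hE2⟩ : ∃ E2, E2 = Real.exp (2 * Δ / (N : ℝ) ^ 31 + 2 * t / (N : ℝ) ^ 32) :=
      ⟨_, rfl⟩
    rw [← hE1, ← hE2]
    ring

end Pool.Agent.H71.EX
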