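import Mathlib
import Pool.Agent.H71.EX.Defs
import Pool.Agent.H71.EX.Pa
import Pool.Agent.H71.EX.Pt

/-!
PI: the whole process.

Proof.  By `pa` and `pt` (recursion, or induction on `t ≤ T` for the existence of the sequences up to `t`)
there are graphs `U t`, `t ≤ T`, and maps `mm t`, `t < T`, with `U 0 = G`, `Sg G R Δ N t W (U t)`,
`(U (t + 1)).Adj a b ↔ (U t).Adj a b ∧ mm t a ≠ b` (this defines a graph: if `mm t a = b` then `mm t b = a`), and
`mm t` as in `pt`. (For instance: `∀ t ≤ T, ∃ (U : ℕ → SimpleGraph V) (mm : ℕ → V → V), ...` by induction on `t`,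
changing only the values at `t + 1` resp. `t`.)
`PM`: `inv`, `fix` clear; `adj`: `mm t v ≠ v` gives `v ∉ W t`, `(U t).Adj v (mm t v)` and `U t ≤ G`;
`dis`: for `s < t < T`, `U t ≤ U (s + 1)` (induction), so `(U t).Adj v (mm t v)` implies `mm s v ≠ mm t v`; the
case `t < s` is symmetric, unless `mm s v = v`, where `mm t v ≠ v` gives the claim.
-/

set_option autoImplicit false

namespace Pool.Agent.H71.EX

open Finset Classical
open Pool.Agent.H71.DN

theorem Pi_seq {V : Type} [Fintype V] (G R : SimpleGraph V) (Δ N T w0 : ℕ) (W : ℕ → Finset V)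
    (h : Pc G R Δ N T w0 W) (t : ℕ) (ht : t ≤ T) :
    ∃ (U : ℕ → SimpleGraph V) (mm : ℕ → V → V), U 0 = G ∧ Sg G R Δ N t W (U t) ∧
      ∀ s < t, (∀ v, mm s (mm s v) = v) ∧ (∀ v, mm s v = v ↔ v ∈ W s) ∧
        (∀ v ∉ W s, (U s).Adj v (mm s v)) ∧
        ∀ a b, (U (s + 1)).Adj a b ↔ (U s).Adj a b ∧ mm s a ≠ b := by
  induction t with
  | zero =>
    exact ⟨fun _ => G, fun _ v => v, rfl, pa G R Δ N T w0 W h, fun s hs => absurd hs (Nat.not_lt_zero s)⟩
  | succ t ih =>
    obtain ⟨U, mm, hU0, hS, hst⟩ := ih (Nat.le_of_succ_le ht)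
    obtain ⟨π, h1, h2, h3, h4⟩ := pt G R Δ N T w0 W h t ht (U t) hS
    let U' : SimpleGraph V :=
      { Adj := fun a b => (U t).Adj a b ∧ π a ≠ b
        symm := by
          constructor
          intro a b hab
          refine ⟨hab.1.symm, fun hb => hab.2 ?_⟩
          rw [← hb, h1]
        loopless := by
          constructor
          intro a ha
          exact (U t).loopless.irrefl a ha.1 }
    refine ⟨Function.update U (t + 1) U', Function.update mm t π, ?_, ?_, ?_⟩
    · rw [Function.update_of_ne (Nat.succ_ne_zero t).symm]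
      exact hU0
    · rw [Function.update_self]
      exact h4 U' fun a b => Iff.rfl
    · intro s hs
      rcases Nat.lt_or_eq_of_le (Nat.lt_succ_iff.1 hs) with hs' | hs'
      · have e1 : Function.update mm t π s = mm s := Function.update_of_ne hs'.ne _ _
        have e2 : Function.update U (t + 1) U' s = U s := Function.update_of_ne (by omega) _ _
        have e3 : Function.update U (t + 1) U' (s + 1) = U (s + 1) :=
          Function.update_of_ne (by omega) _ _
        rw [e1, e2, e3]
        exact hst s hs'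
      · subst hs'
        have e1 : Function.update mm s π s = π := Function.update_self _ _ _
        have e2 : Function.update U (s + 1) U' s = U s := Function.update_of_ne (by omega) _ _
        have e3 : Function.update U (s + 1) U' (s + 1) = U' := Function.update_self _ _ _
        rw [e1, e2, e3]
        exact ⟨h1, h2, h3, fun a b => Iff.rfl⟩

theorem pim {V : Type} [Fintype V] (G R : SimpleGraph V) (Δ N T w0 : ℕ) (W : ℕ → Finset V)
    (h : Pc G R Δ N T w0 W) :
    ∃ mm : ℕ → V → V, PM G T W mm ∧ ∀ t < T, ∀ v, mm t v = v → v ∈ W t := by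
  obtain ⟨U, mm, hU0, -, hst⟩ := Pi_seq G R Δ N T w0 W h T le_rfl
  -- monotonicity
  have hmono : ∀ t ≤ T, ∀ s ≤ t, U t ≤ U s := by
    intro t
    induction t with
    | zero =>
      intro _ s hs
      rw [Nat.le_zero.1 hs]
    | succ t ih =>
      intro ht s hs
      rcases Nat.lt_or_eq_of_le hs with hs' | hs'
      · refine le_trans ?_ (ih (Nat.le_of_succ_le ht) s (Nat.lt_succ_iff.1 hs'))
        intro a b hab
        exact (((hst t ht).2.2.2 a b).1 hab).1
      · rw [hs']
  have hadj : ∀ t < T, ∀ v, mm t v ≠ v → (U t).Adj v (mm t v) := by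
    intro t ht v hv
    obtain ⟨h1, h2, h3, h4⟩ := hst t ht
    exact h3 v fun hw => hv ((h2 v).2 hw)
  have key : ∀ s t, s < t → t < T → ∀ v, mm t v ≠ v → mm s v ≠ mm t v := by
    intro s t hs ht v hv
    have h1 := hadj t ht v hv
    have h2 := hmono t ht.le (s + 1) hs h1
    exact (((hst s (hs.trans ht)).2.2.2 v (mm t v)).1 h2).2
  refine ⟨mm, ⟨?_, ?_, ?_, ?_⟩, ?_⟩
  · intro t ht v
    exact (hst t ht).1 v
  · intro t ht v hv
    have h1 := hmono t ht.le 0 (Nat.zero_le _) (hadj t ht v hv)
    rw [hU0] at h1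
    exact h1
  · intro s hs t ht hne v hv
    rcases Nat.lt_or_gt_of_ne hne with hlt | hlt
    · by_cases hv' : mm t v = v
      · rw [hv']
        exact hv
      · exact key s t hlt ht v hv'
    · exact fun he => key t s hlt hs v hv he.symm
  · intro t ht v hv
    exact ((hst t ht).2.1 v).2 hv
  · intro t ht v hv
    exact ((hst t ht).2.1 v).1 hv

end Pool.Agent.H71.EX
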