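import Mathlib
import Pool.Agent.H71.EX.Defs

/-!
PZ: the probability that a random sparse set contains two isolated neighbours of `v`.

Proof.  Let `K = N ^ 3 * Δ`, `n = #V`, `X f = C.filter fun a => (f a : ℕ) = 0`. For an ordered pair
`x = (a, b) ∈ np2 G C v` let `D x` be the set of the `f : V → Fin K` with `f a = 0`, `f b = 0` and `f u ≠ 0` (as a
number) for all `u ∈ Z`, `Z = {u : u ≠ a, u ≠ b, G.Adj a u ∨ G.Adj b u ∨ G.Adj v u}`, `#Z ≤ 3 Δ`. If `f ∈ D x` then
`Ev G (X f) v` (with `a`, `b`; a neighbour `u ∈ X f` of `a` has `f u = 0`, so `u = b`, but `¬ G.Adj a b`, or `u = a`).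
`#(D x) = (K - 1) ^ #Z * K ^ (n - 2 - #Z) ≥ K ^ (n - 2) (1 - #Z / K) ≥ K ^ (n - 2) / 2`, because
`3 Δ / K = 3 / N ^ 3 ≤ 1 / 2` (Bernoulli `one_add_mul_le_pow`; count functions with `Fintype.piFinset` and
`Fintype.card_piFinset`). Every `f` is in `D x` for at most two ordered pairs `x`: if `f ∈ D (a, b)` then the
neighbours `u` of `v` with `f u = 0` are exactly `a`, `b`. Hence
`#{f : Ev G (X f) v} ≥ (1/2) ∑ x, #(D x) ≥ (1/2) (Δ ^ 2 / (4 N)) K ^ (n - 2) / 2 = K ^ n / (16 N ^ 7)`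
(`K ^ 2 = N ^ 6 Δ ^ 2`; `n ≥ 2`, since otherwise `np2 = ∅`, contradicting `hp`).
-/

set_option autoImplicit false

namespace Pool.Agent.H71.EX

open Finset Classical
open Pool.Agent.H71.DN

/-- the maps that vanish at `a`, `b` and at no other neighbour of `a`, `b`, `v` -/
private noncomputable def PzD {V : Type} [Fintype V] (G : SimpleGraph V) (K : ℕ) (hK : 0 < K) (v a b : V) :
    Finset (V → Fin K) :=
  Fintype.piFinset fun u => if u = a ∨ u = b then {(⟨0, hK⟩ : Fin K)}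
    else if G.Adj a u ∨ G.Adj b u ∨ G.Adj v u then univ.erase (⟨0, hK⟩ : Fin K) else univ

private lemma PzD_mem {V : Type} [Fintype V] (G : SimpleGraph V) (K : ℕ) (hK : 0 < K) (v a b : V)
    (f : V → Fin K) (hf : f ∈ PzD G K hK v a b) :
    f a = ⟨0, hK⟩ ∧ f b = ⟨0, hK⟩ ∧
      ∀ u, u ≠ a → u ≠ b → (G.Adj a u ∨ G.Adj b u ∨ G.Adj v u) → f u ≠ ⟨0, hK⟩ := by
  rw [PzD, Fintype.mem_piFinset] at hf
  refine ⟨?_, ?_, ?_⟩
  · have h := hf a
    rw [if_pos (Or.inl rfl), Finset.mem_singleton] at h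
    exact h
  · have h := hf b
    rw [if_pos (Or.inr rfl), Finset.mem_singleton] at h
    exact h
  · intro u hua hub hadj
    have h := hf u
    rw [if_neg (by tauto), if_pos hadj] at h
    exact Finset.ne_of_mem_erase h

private lemma PzD_card {V : Type} [Fintype V] (G : SimpleGraph V) (K : ℕ) (hK : 0 < K) (v a b : V)
    (hab : a ≠ b) (Δ : ℕ) (up : ∀ w, dg G w ≤ Δ) (hΔK : 6 * Δ ≤ K) :
    (K : ℝ) ^ (Fintype.card V) / 2 ≤ (K : ℝ) ^ 2 * ((PzD G K hK v a b).card : ℝ) := by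
  obtain ⟨Z, hZ⟩ : ∃ Z : Finset V, Z = univ.filter fun u => (¬ (u = a ∨ u = b)) ∧ (G.Adj a u ∨ G.Adj b u ∨ G.Adj v u) := ⟨_, rfl⟩
  have hK0 : (0 : ℝ) < K := by exact_mod_cast hK
  have hK1 : (1 : ℝ) ≤ K := by exact_mod_cast hK
  have hcard : ((PzD G K hK v a b).card : ℝ) = ∏ u, (if u = a ∨ u = b then (1 : ℝ) else if u ∈ Z then (K : ℝ) - 1 else K) := by
    rw [PzD, Fintype.card_piFinset]
    push_cast
    apply Finset.prod_congr rfl
    intro u _
    by_cases h1 : u = a ∨ u = b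
    · rw [if_pos h1, if_pos h1, Finset.card_singleton]
      norm_num
    · rw [if_neg h1, if_neg h1]
      by_cases h2 : G.Adj a u ∨ G.Adj b u ∨ G.Adj v u
      · have h3 : u ∈ Z := by
          rw [hZ, Finset.mem_filter]
          exact ⟨Finset.mem_univ _, h1, h2⟩
        rw [if_pos h2, if_pos h3, Finset.card_erase_of_mem (Finset.mem_univ _), Finset.card_univ, Fintype.card_fin,
          Nat.cast_sub (by omega)]
        norm_num
      · have h3 : u ∉ Z := by
          rw [hZ, Finset.mem_filter]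
          intro h4
          exact h2 h4.2.2
        rw [if_neg h2, if_neg h3, Finset.card_univ, Fintype.card_fin]
  have hprod : (K : ℝ) ^ (Fintype.card V) * (1 - 1 / (K : ℝ)) ^ Z.card = (K : ℝ) ^ 2 * ((PzD G K hK v a b).card : ℝ) := by
    have e1 : (K : ℝ) ^ (Fintype.card V) * (1 - 1 / (K : ℝ)) ^ Z.card = ∏ u : V, ((K : ℝ) * (if u ∈ Z then (1 - 1 / (K : ℝ)) else 1)) := by
      rw [Finset.prod_mul_distrib, Finset.prod_const, Finset.card_univ, Finset.prod_ite_mem, Finset.univ_inter,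
        Finset.prod_const]
    have e2 : (K : ℝ) ^ 2 = ∏ u : V, (if u ∈ ({a, b} : Finset V) then (K : ℝ) else 1) := by
      rw [Finset.prod_ite_mem, Finset.univ_inter, Finset.prod_const, Finset.card_pair hab]
    rw [e1, e2, hcard, ← Finset.prod_mul_distrib]
    apply Finset.prod_congr rfl
    intro u _
    by_cases h1 : u = a ∨ u = b
    · have h2 : u ∉ Z := by
        rw [hZ, Finset.mem_filter]
        intro h4
        exact h4.2.1 h1
      have h3 : u ∈ ({a, b} : Finset V) := by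
        rw [Finset.mem_insert, Finset.mem_singleton]
        exact h1
      rw [if_neg h2, if_pos h3, if_pos h1]
    · have h3 : u ∉ ({a, b} : Finset V) := by
        rw [Finset.mem_insert, Finset.mem_singleton]
        exact h1
      rw [if_neg h3, if_neg h1]
      by_cases h4 : u ∈ Z
      · rw [if_pos h4, if_pos h4]
        field_simp
      · rw [if_neg h4, if_neg h4]
        ring
  have hZc : Z.card ≤ 3 * Δ := by
    have hsub : Z ⊆ (univ.filter fun u => G.Adj a u) ∪ ((univ.filter fun u => G.Adj b u) ∪ (univ.filter fun u => G.Adj v u)) := by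
      intro u hu
      rw [hZ, Finset.mem_filter] at hu
      rw [Finset.mem_union, Finset.mem_union, Finset.mem_filter, Finset.mem_filter, Finset.mem_filter]
      rcases hu.2.2 with h | h | h
      · exact Or.inl ⟨Finset.mem_univ _, h⟩
      · exact Or.inr (Or.inl ⟨Finset.mem_univ _, h⟩)
      · exact Or.inr (Or.inr ⟨Finset.mem_univ _, h⟩)
    have h1 := (Finset.card_le_card hsub).trans (Finset.card_union_le _ _)
    have h2 := Finset.card_union_le (univ.filter fun u => G.Adj b u) (univ.filter fun u => G.Adj v u)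
    have ha : (univ.filter fun u => G.Adj a u).card ≤ Δ := up a
    have hb : (univ.filter fun u => G.Adj b u).card ≤ Δ := up b
    have hv : (univ.filter fun u => G.Adj v u).card ≤ Δ := up v
    omega
  have hbern : (1 : ℝ) / 2 ≤ (1 - 1 / (K : ℝ)) ^ Z.card := by
    have h1 : (1 : ℝ) / K ≤ 1 := by
      rw [div_le_one hK0]
      exact hK1
    have h2 := one_add_mul_le_pow (a := -(1 / (K : ℝ))) (by linarith) Z.card
    have h3 : (Z.card : ℝ) * (1 / K) ≤ 1 / 2 := by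
      rw [mul_one_div, div_le_div_iff₀ hK0 two_pos]
      have h4 : ((Z.card * 2 : ℕ) : ℝ) ≤ ((1 * K : ℕ) : ℝ) := by
        exact_mod_cast (by omega : Z.card * 2 ≤ 1 * K)
      push_cast at h4
      exact h4
    calc (1 : ℝ) / 2 ≤ 1 + (Z.card : ℝ) * -(1 / (K : ℝ)) := by linarith
      _ ≤ (1 + -(1 / (K : ℝ))) ^ Z.card := h2
      _ = (1 - 1 / (K : ℝ)) ^ Z.card := by rw [← sub_eq_add_neg]
  rw [← hprod]
  have hKn : (0 : ℝ) < (K : ℝ) ^ (Fintype.card V) := by positivity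
  calc (K : ℝ) ^ (Fintype.card V) / 2 = (K : ℝ) ^ (Fintype.card V) * (1 / 2) := by ring
    _ ≤ (K : ℝ) ^ (Fintype.card V) * (1 - 1 / (K : ℝ)) ^ Z.card := by gcongr

private lemma PzD_ev {V : Type} [Fintype V] (G : SimpleGraph V) (K : ℕ) (hK : 0 < K) (C : Finset V) (v a b : V)
    (hx : (a, b) ∈ np2 G C v) (f : V → Fin K) (hf : f ∈ PzD G K hK v a b) :
    Ev G (C.filter fun a => (f a : ℕ) = 0) v := by
  rw [np2, Finset.mem_filter, Finset.mem_product] at hx
  obtain ⟨⟨haC, hbC⟩, hva, hvb, hab, hnab⟩ := hx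
  simp only at haC hbC hva hvb hab hnab
  obtain ⟨hfa, hfb, hfu⟩ := PzD_mem G K hK v a b f hf
  refine ⟨a, ?_, b, ?_, hab, hva, hvb, ?_, ?_⟩
  · rw [Finset.mem_filter]
    exact ⟨haC, by rw [hfa]⟩
  · rw [Finset.mem_filter]
    exact ⟨hbC, by rw [hfb]⟩
  · intro u hu hau
    rw [Finset.mem_filter] at hu
    have h0 : f u = ⟨0, hK⟩ := Fin.ext hu.2
    by_cases hub : u = b
    · rw [hub] at hau
      exact hnab hau
    · exact hfu u (fun h => G.loopless.irrefl a (h ▸ hau)) hub (Or.inl hau) h0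
  · intro u hu hbu
    rw [Finset.mem_filter] at hu
    have h0 : f u = ⟨0, hK⟩ := Fin.ext hu.2
    by_cases hua : u = a
    · rw [hua] at hbu
      exact hnab hbu.symm
    · exact hfu u hua (fun h => G.loopless.irrefl b (h ▸ hbu)) (Or.inr (Or.inl hbu)) h0

private lemma PzD_two {V : Type} [Fintype V] (G : SimpleGraph V) (K : ℕ) (hK : 0 < K) (C : Finset V) (v : V)
    (f : V → Fin K) : ((np2 G C v).filter fun x => f ∈ PzD G K hK v x.1 x.2).card ≤ 2 := by
  rcases Finset.eq_empty_or_nonempty ((np2 G C v).filter fun x => f ∈ PzD G K hK v x.1 x.2) with h0 | ⟨x, hx⟩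
  · rw [h0, Finset.card_empty]
    omega
  · have hsub : ((np2 G C v).filter fun x => f ∈ PzD G K hK v x.1 x.2) ⊆ {(x.1, x.2), (x.2, x.1)} := by
      intro y hy
      rw [Finset.mem_filter, np2, Finset.mem_filter] at hx hy
      obtain ⟨⟨_, hva, hvb, hab, _⟩, hfx⟩ := hx
      obtain ⟨⟨_, hva', hvb', hab', _⟩, hfy⟩ := hy
      obtain ⟨h1, h2, h3⟩ := PzD_mem G K hK v x.1 x.2 f hfx
      obtain ⟨h4, h5, _⟩ := PzD_mem G K hK v y.1 y.2 f hfy
      have hy1 : y.1 = x.1 ∨ y.1 = x.2 := by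
        by_contra hc
        push Not at hc
        exact h3 y.1 hc.1 hc.2 (Or.inr (Or.inr hva')) h4
      have hy2 : y.2 = x.1 ∨ y.2 = x.2 := by
        by_contra hc
        push Not at hc
        exact h3 y.2 hc.1 hc.2 (Or.inr (Or.inr hvb')) h5
      rw [Finset.mem_insert, Finset.mem_singleton]
      rcases hy1 with e1 | e1 <;> rcases hy2 with e2 | e2
      · exact absurd (e1.trans e2.symm) hab'
      · left
        exact Prod.ext e1 e2
      · right
        exact Prod.ext e1 e2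
      · exact absurd (e1.trans e2.symm) hab'
    exact (Finset.card_le_card hsub).trans Finset.card_le_two

theorem pz {V : Type} [Fintype V] (G : SimpleGraph V) (Δ N : ℕ) (hN : 1000 ≤ N) (hΔ : 1 ≤ Δ)
    (up : ∀ v, dg G v ≤ Δ) (C : Finset V) (v : V)
    (hp : (Δ : ℝ) ^ 2 / (4 * N) ≤ (np2 G C v).card) :
    ((N ^ 3 * Δ : ℕ) : ℝ) ^ (Fintype.card V) / (16 * (N : ℝ) ^ 7) ≤
      ((univ : Finset (V → Fin (N ^ 3 * Δ))).filter fun f =>
        Ev G (C.filter fun a => (f a : ℕ) = 0) v).card := by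
  obtain ⟨K, hKd⟩ : ∃ K : ℕ, K = N ^ 3 * Δ := ⟨_, rfl⟩
  rw [← hKd]
  have hN3 : 6 ≤ N ^ 3 := by
    calc 6 ≤ 1000 ^ 3 := by norm_num
      _ ≤ N ^ 3 := Nat.pow_le_pow_left hN 3
  have hΔK : 6 * Δ ≤ K := by
    rw [hKd]
    exact Nat.mul_le_mul_right Δ hN3
  have hK : 0 < K := by omega
  have hK0 : (0 : ℝ) < K := by exact_mod_cast hK
  have hN0 : (0 : ℝ) < N := by exact_mod_cast (by omega : 0 < N)
  have hΔ0 : (0 : ℝ) < Δ := by exact_mod_cast (by omega : 0 < Δ)
  obtain ⟨E, hE⟩ : ∃ E : Finset (V → Fin K), E = (univ : Finset (V → Fin K)).filter fun f =>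
        Ev G (C.filter fun a => (f a : ℕ) = 0) v := ⟨_, rfl⟩
  rw [← hE]
  have hcount : ∑ x ∈ np2 G C v, ((PzD G K hK v x.1 x.2).card : ℝ) ≤ 2 * (E.card : ℝ) := by
    have e1 : ∀ x ∈ np2 G C v, ((PzD G K hK v x.1 x.2).card : ℝ) = ∑ f ∈ E, if f ∈ PzD G K hK v x.1 x.2 then (1 : ℝ) else 0 := by
      intro x hx
      rw [Finset.sum_boole]
      congr 2
      ext f
      rw [Finset.mem_filter]
      constructor
      · intro hf
        refine ⟨?_, hf⟩
        rw [hE, Finset.mem_filter]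
        exact ⟨Finset.mem_univ _, PzD_ev G K hK C v x.1 x.2 hx f hf⟩
      · exact fun hf => hf.2
    rw [Finset.sum_congr rfl e1, Finset.sum_comm]
    calc ∑ f ∈ E, ∑ x ∈ np2 G C v, (if f ∈ PzD G K hK v x.1 x.2 then (1 : ℝ) else 0) ≤ ∑ _f ∈ E, (2 : ℝ) := by
          apply Finset.sum_le_sum
          intro f _
          rw [Finset.sum_boole]
          exact_mod_cast PzD_two G K hK C v f
      _ = 2 * (E.card : ℝ) := by rw [Finset.sum_const, nsmul_eq_mul, mul_comm]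
  have hlow : ((np2 G C v).card : ℝ) * ((K : ℝ) ^ (Fintype.card V) / (2 * (K : ℝ) ^ 2)) ≤
      ∑ x ∈ np2 G C v, ((PzD G K hK v x.1 x.2).card : ℝ) := by
    rw [← nsmul_eq_mul]
    apply Finset.card_nsmul_le_sum
    intro x hx
    rw [np2, Finset.mem_filter] at hx
    have h1 := PzD_card G K hK v x.1 x.2 hx.2.2.2.1 Δ up hΔK
    rw [div_le_iff₀ (by positivity)]
    linarith
  have hKK : (K : ℝ) ^ 2 = (N : ℝ) ^ 6 * (Δ : ℝ) ^ 2 := by
    rw [hKd]
    push_cast
    ring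
  have hfin : (Δ : ℝ) ^ 2 / (4 * N) * ((K : ℝ) ^ (Fintype.card V) / (2 * (K : ℝ) ^ 2)) ≤ 2 * (E.card : ℝ) := by
    calc (Δ : ℝ) ^ 2 / (4 * N) * ((K : ℝ) ^ (Fintype.card V) / (2 * (K : ℝ) ^ 2))
        ≤ ((np2 G C v).card : ℝ) * ((K : ℝ) ^ (Fintype.card V) / (2 * (K : ℝ) ^ 2)) := by gcongr
      _ ≤ ∑ x ∈ np2 G C v, ((PzD G K hK v x.1 x.2).card : ℝ) := hlow
      _ ≤ 2 * (E.card : ℝ) := hcount
  have e2 : (Δ : ℝ) ^ 2 / (4 * N) * ((K : ℝ) ^ (Fintype.card V) / (2 * (K : ℝ) ^ 2)) = 2 * ((K : ℝ) ^ (Fintype.card V) / (16 * (N : ℝ) ^ 7)) := by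
    rw [hKK]
    field_simp
    ring
  rw [e2] at hfin
  linarith

end Pool.Agent.H71.EX
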