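import Mathlib
import Pool.Agent.H71.EX.Defs
import Pool.Agent.H71.EX.Np
import Pool.Agent.H71.EX.Pz
import Pool.Agent.H71.EX.Mo

/-!
SA: one class of the sparse random classes.

Proof.  `K = N ^ 3 * Δ`, `n = #V`, `C = univ \ U`, `X f = C.filter fun a => (f a : ℕ) = 0` for `f : V → Fin K`.
Write `E v f` for `Ev G (X f) v`, `Ψ f = ∑ v, α v * (if E v f then exp (-1) else 1) * exp (1 / (32 N ^ 7)) +
∑ v, β v * exp (dn G v (X f) - 2 / N ^ 3)`, `Ψ0 = ∑ v, α v + ∑ v, β v > 0`.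

(1) `∑ f, Ψ f ≤ K ^ n * Ψ0`. First part: `#(np2 G C v) ≥ #(np2 G univ v) - 2 Δ dn G v U ≥ Δ ^ 2 / (2 N) - 6 Δ ^ 2 / N ^ 3 ≥
Δ ^ 2 / (4 N)` (a pair of `np2 G univ v` not in `np2 G C v` has a coordinate in `U ∩ N(v)` and the other one in
`N(v)`; `np`, `hU`), so by `pz` at least `K ^ n * P` of the `f` satisfy `E v f`, `P = 1 / (16 N ^ 7)`, and
`∑ f, (if E v f then exp (-1) else 1) ≤ K ^ n (1 - (1 - exp (-1)) P) ≤ K ^ n (1 - P / 2) ≤ K ^ n exp (- P / 2)`
(`exp (-1) ≤ 1 / 2`). Second part: `mo` with `S = C.filter (G.Adj v)`, `#S ≤ Δ`: `exp (2 Δ / K) = exp (2 / N ^ 3)`.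

(2) Call `f` bad if `n < 16 * Δ * #(X f)` or `3 N < dn G v (X f)` for some `v`. The number of bad `f` is at most
`K ^ n / Δ`: by `mo` and Markov the first kind has at most
`K ^ n exp (2 n / K - n / (16 Δ)) ≤ K ^ n exp (- n / (32 Δ)) ≤ K ^ n exp (- 2 N)` (`n / Δ ≥ N ^ 20`), the second kind at
most `n K ^ n exp (2 / N ^ 3 - 3 N) ≤ 2 K ^ n exp (- 2 N)` (`n ≤ exp N`; `mo` with `S = C.filter (G.Adj v)`), and
`3 exp (- 2 N) ≤ exp (- N) ≤ 1 / n ≤ 1 / Δ`.

(3) `∑ f, (Ψ f + 2 Ψ0 [f bad]) ≤ K ^ n Ψ0 (1 + 2 / Δ)`, so some `f` has `Ψ f + 2 Ψ0 [f bad] ≤ Ψ0 (1 + 2 / Δ)`. It is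
not bad (`2 / Δ < 1`, `Ψ f ≥ 0`, `Ψ0 > 0`). Take `X = X f`.
-/

set_option autoImplicit false

namespace Pool.Agent.H71.EX

open Finset Classical
open Pool.Agent.H71.DN

theorem Sa_pairs {V : Type} [Fintype V] (G : SimpleGraph V) (Δ N : ℕ) (h : Xp G Δ N) (U : Finset V)
    (hU : ∀ v, (dn G v U : ℝ) ≤ 3 * Δ / (N : ℝ) ^ 3) (v : V) :
    (Δ : ℝ) ^ 2 / (4 * N) ≤ (np2 G (univ \ U) v).card := by
  have hN := h.hN
  have hNr : (1000:ℝ) ≤ N := by exact_mod_cast hN
  have h1 := np G Δ N h v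
  have hsub : np2 G univ v ⊆ np2 G (univ \ U) v ∪
      ((U.filter fun u => G.Adj v u) ×ˢ (univ.filter fun u => G.Adj v u) ∪
       (univ.filter fun u => G.Adj v u) ×ˢ (U.filter fun u => G.Adj v u)) := by
    intro x hx
    simp only [np2, mem_filter, mem_product, mem_univ, true_and, mem_union, mem_sdiff] at hx ⊢
    by_cases h1 : x.1 ∈ U
    · right; left; exact ⟨⟨h1, hx.1⟩, hx.2.1⟩
    · by_cases h2 : x.2 ∈ U
      · right; right; exact ⟨hx.1, h2, hx.2.1⟩
      · left; exact ⟨⟨h1, h2⟩, hx⟩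
  have hcard := (card_le_card hsub).trans ((card_union_le _ _).trans
    (Nat.add_le_add_left (card_union_le _ _) _))
  rw [card_product, card_product] at hcard
  have e1 : (U.filter fun u => G.Adj v u).card = dn G v U := rfl
  have e2 : (univ.filter fun u => G.Adj v u).card = dg G v := rfl
  rw [e1, e2] at hcard
  have hcr : ((np2 G univ v).card : ℝ) ≤
      (np2 G (univ \ U) v).card + (dn G v U * dg G v + dg G v * dn G v U) := by
    exact_mod_cast hcard
  have hd : (dg G v : ℝ) ≤ Δ := by exact_mod_cast h.up v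
  have hdn := hU v
  have hΔ0 : (0:ℝ) ≤ Δ := by positivity
  have hprod : (dn G v U : ℝ) * dg G v ≤ 3 * Δ / (N:ℝ)^3 * Δ :=
    mul_le_mul hdn hd (by positivity) (by positivity)
  have hkey : (Δ:ℝ)^2 / (4*N) + 2 * (3 * Δ / (N:ℝ)^3 * Δ) ≤ (Δ:ℝ)^2 / (2*N) := by
    have hN0 : (N:ℝ) ≠ 0 := by positivity
    have e3 : (Δ:ℝ)^2 / (2*N) - ((Δ:ℝ)^2 / (4*N) + 2 * (3 * Δ / (N:ℝ)^3 * Δ)) =
        (Δ:ℝ)^2 / (4 * (N:ℝ)^3) * ((N:ℝ)^2 - 24) := by
      field_simp
      ring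
    have h24 : (0:ℝ) ≤ (N:ℝ)^2 - 24 := by nlinarith
    have h25 : 0 ≤ (Δ:ℝ)^2 / (4 * (N:ℝ)^3) * ((N:ℝ)^2 - 24) := mul_nonneg (by positivity) h24
    linarith
  have hcomm : (dg G v : ℝ) * dn G v U = dn G v U * dg G v := mul_comm _ _
  linarith

theorem Sa_markov {F : Type} [Fintype F] (g : F → ℝ) (t : ℝ) (p : F → Prop) [DecidablePred p]
    (hp : ∀ f, p f → t ≤ g f) :
    ((univ.filter p).card : ℝ) * Real.exp t ≤ ∑ f, Real.exp (g f) := by
  calc ((univ.filter p).card : ℝ) * Real.exp t = ∑ f ∈ univ.filter p, Real.exp t := by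
        rw [sum_const, nsmul_eq_mul]
    _ ≤ ∑ f ∈ univ.filter p, Real.exp (g f) :=
        sum_le_sum fun f hf => Real.exp_le_exp.2 (hp f (mem_filter.1 hf).2)
    _ ≤ ∑ f, Real.exp (g f) :=
        sum_le_sum_of_subset_of_nonneg (filter_subset _ _) (fun _ _ _ => (Real.exp_pos _).le)

theorem Sa_dn {V : Type} [Fintype V] (G : SimpleGraph V) (C : Finset V) (K : ℕ) (f : V → Fin K)
    (v : V) : dn G v (C.filter fun a => (f a : ℕ) = 0) =
      ((C.filter fun u => G.Adj v u).filter fun u => (f u : ℕ) = 0).card := by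
  unfold dn
  rw [filter_comm]

theorem Sa_exp {V : Type} [Fintype V] (G : SimpleGraph V) (Δ N : ℕ) (hN : 1000 ≤ N) (hΔ : 1 ≤ Δ)
    (up : ∀ v, dg G v ≤ Δ) (C : Finset V) (v : V) :
    ∑ f : V → Fin (N ^ 3 * Δ), Real.exp (dn G v (C.filter fun a => (f a : ℕ) = 0) : ℝ) ≤
      ((N ^ 3 * Δ : ℕ) : ℝ) ^ (Fintype.card V) * Real.exp (2 / (N : ℝ) ^ 3) := by
  have hK : 1 ≤ N ^ 3 * Δ := Nat.one_le_iff_ne_zero.2 (by positivity)
  have h1 := mo (C.filter fun u => G.Adj v u) (N ^ 3 * Δ) hK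
  have h2 : ∑ f : V → Fin (N ^ 3 * Δ), Real.exp (dn G v (C.filter fun a => (f a : ℕ) = 0) : ℝ) =
      ∑ f : V → Fin (N ^ 3 * Δ),
        Real.exp (((C.filter fun u => G.Adj v u).filter fun u => (f u : ℕ) = 0).card : ℝ) :=
    sum_congr rfl fun f _ => by rw [Sa_dn]
  rw [h2]
  refine h1.trans (mul_le_mul_of_nonneg_left (Real.exp_le_exp.2 ?_) (by positivity))
  have h3 : ((C.filter fun u => G.Adj v u).card : ℝ) ≤ Δ := by
    have : (C.filter fun u => G.Adj v u).card ≤ dg G v :=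
      card_le_card (filter_subset_filter _ (subset_univ _))
    exact_mod_cast this.trans (up v)
  have hN0 : (0:ℝ) < N := by
    have : 0 < N := by omega
    exact_mod_cast this
  have hΔ0 : (0:ℝ) < Δ := by exact_mod_cast hΔ
  push_cast
  rw [div_le_div_iff₀ (by positivity) (by positivity)]
  have h4 : (0:ℝ) ≤ (N:ℝ)^3 := by positivity
  nlinarith [mul_le_mul_of_nonneg_left h3 h4]

theorem Sa_ev {V : Type} [Fintype V] (G : SimpleGraph V) (Δ N : ℕ) (h : Xp G Δ N) (U : Finset V)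
    (hU : ∀ v, (dn G v U : ℝ) ≤ 3 * Δ / (N : ℝ) ^ 3) (v : V) :
    ∑ f : V → Fin (N ^ 3 * Δ),
      (if Ev G ((univ \ U).filter fun a => (f a : ℕ) = 0) v then Real.exp (-1) else 1) *
        Real.exp (1 / (32 * (N : ℝ) ^ 7)) ≤ ((N ^ 3 * Δ : ℕ) : ℝ) ^ (Fintype.card V) := by
  have hN := h.hN
  have hNr : (1000:ℝ) ≤ N := by exact_mod_cast hN
  have hΔ1 : 1 ≤ Δ := le_trans (Nat.one_le_pow _ _ (by omega)) h.hΔ
  have h1 := pz G Δ N hN hΔ1 h.up (univ \ U) v (Sa_pairs G Δ N h U hU v)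
  set M : ℝ := ((N ^ 3 * Δ : ℕ) : ℝ) ^ (Fintype.card V) with hM
  have hM0 : 0 ≤ M := by positivity
  set E : Finset (V → Fin (N ^ 3 * Δ)) := univ.filter fun f =>
    Ev G ((univ \ U).filter fun a => (f a : ℕ) = 0) v with hE
  have hcard : (Fintype.card (V → Fin (N ^ 3 * Δ)) : ℝ) = M := by
    rw [hM, Fintype.card_fun, Fintype.card_fin]
    push_cast
    rfl
  have hsum : ∑ f : V → Fin (N ^ 3 * Δ),
      (if Ev G ((univ \ U).filter fun a => (f a : ℕ) = 0) v then Real.exp (-1) else 1) =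
      M - (1 - Real.exp (-1)) * E.card := by
    have h2 : ∀ f : V → Fin (N ^ 3 * Δ),
        (if Ev G ((univ \ U).filter fun a => (f a : ℕ) = 0) v then Real.exp (-1) else (1:ℝ)) =
        1 - (1 - Real.exp (-1)) *
          (if Ev G ((univ \ U).filter fun a => (f a : ℕ) = 0) v then 1 else 0) := by
      intro f
      split_ifs <;> ring
    rw [sum_congr rfl fun f _ => h2 f, sum_sub_distrib, ← mul_sum, sum_boole, sum_const, card_univ,
      nsmul_eq_mul, mul_one, hcard]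
  have he : Real.exp (-1) ≤ 1 / 2 := by
    have h3 : (2:ℝ) ≤ Real.exp 1 := by have := Real.add_one_le_exp (1:ℝ); linarith
    rw [Real.exp_neg, inv_eq_one_div]
    exact one_div_le_one_div_of_le (by norm_num) h3
  rw [← sum_mul, hsum]
  set y : ℝ := 1 / (32 * (N : ℝ) ^ 7) with hy
  have hP : M / (16 * (N:ℝ)^7) = 2 * (M * y) := by rw [hy]; ring
  rw [hP] at h1
  have hEc : M * y ≤ (1 - Real.exp (-1)) * E.card := by
    have h4 : (0:ℝ) ≤ E.card := by positivity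
    nlinarith
  have h5 : M - (1 - Real.exp (-1)) * E.card ≤ M * Real.exp (-y) := by
    have h6 : 1 - y ≤ Real.exp (-y) := by have := Real.add_one_le_exp (-y); linarith
    nlinarith [mul_le_mul_of_nonneg_left h6 hM0]
  calc (M - (1 - Real.exp (-1)) * E.card) * Real.exp y ≤ M * Real.exp (-y) * Real.exp y :=
        mul_le_mul_of_nonneg_right h5 (Real.exp_pos _).le
    _ = M := by rw [mul_assoc, ← Real.exp_add]; simp

theorem Sa_bad {V : Type} [Fintype V] (G : SimpleGraph V) (Δ N : ℕ) (h : Xp G Δ N)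
    (C : Finset V) :
    (((univ : Finset (V → Fin (N ^ 3 * Δ))).filter fun f =>
      Fintype.card V < 16 * Δ * (C.filter fun a => (f a : ℕ) = 0).card ∨
        ∃ v, 3 * N < dn G v (C.filter fun a => (f a : ℕ) = 0)).card : ℝ) ≤
      ((N ^ 3 * Δ : ℕ) : ℝ) ^ (Fintype.card V) / Δ := by
  have hN := h.hN
  have hNr : (1000:ℝ) ≤ N := by exact_mod_cast hN
  have hΔ1 : 1 ≤ Δ := le_trans (Nat.one_le_pow _ _ (by omega)) h.hΔ
  have hΔr : (1:ℝ) ≤ Δ := by exact_mod_cast hΔ1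
  have hK : 1 ≤ N ^ 3 * Δ := Nat.one_le_iff_ne_zero.2 (by positivity)
  set M : ℝ := ((N ^ 3 * Δ : ℕ) : ℝ) ^ (Fintype.card V) with hM
  have hM0 : 0 ≤ M := by positivity
  set n : ℕ := Fintype.card V with hn
  have hn1 : (N:ℝ) ^ 20 * Δ ≤ n := by exact_mod_cast h.n1
  -- first kind
  have hb1 : (((univ : Finset (V → Fin (N ^ 3 * Δ))).filter fun f =>
      n < 16 * Δ * (C.filter fun a => (f a : ℕ) = 0).card).card : ℝ) ≤ M * Real.exp (-(2 * N)) := by
    have h1 := Sa_markov (F := V → Fin (N ^ 3 * Δ))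
      (fun f => ((C.filter fun a => (f a : ℕ) = 0).card : ℝ)) (n / (16 * Δ))
      (fun f => n < 16 * Δ * (C.filter fun a => (f a : ℕ) = 0).card) (by
        intro f hf
        rw [div_le_iff₀ (by positivity)]
        have : (n:ℝ) < 16 * Δ * (C.filter fun a => (f a : ℕ) = 0).card := by exact_mod_cast hf
        linarith)
    have h2 := h1.trans (mo C (N ^ 3 * Δ) hK)
    rw [← hn, ← hM] at h2
    have h3 : (2 * (C.card:ℝ) / ((N ^ 3 * Δ : ℕ) : ℝ)) ≤ n / (16 * Δ) - 2 * N := by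
      have h4 : (C.card : ℝ) ≤ n := by exact_mod_cast card_le_univ C
      have h5 : (2 * (C.card:ℝ) / ((N ^ 3 * Δ : ℕ) : ℝ)) ≤ n / (32 * Δ) := by
        push_cast
        rw [div_le_div_iff₀ (by positivity) (by positivity)]
        have h6 : (64:ℝ) ≤ (N:ℝ)^3 := by
          calc (64:ℝ) ≤ 1000 ^ 3 := by norm_num
            _ ≤ (N:ℝ)^3 := pow_le_pow_left₀ (by norm_num) hNr 3
        have h7 : (0:ℝ) ≤ (n:ℝ) * Δ := by positivity
        calc 2 * (C.card:ℝ) * (32 * Δ) ≤ 2 * (n:ℝ) * (32 * Δ) := by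
              apply mul_le_mul_of_nonneg_right _ (by positivity)
              linarith
          _ = 64 * ((n:ℝ) * Δ) := by ring
          _ ≤ (N:ℝ)^3 * ((n:ℝ) * Δ) := mul_le_mul_of_nonneg_right h6 h7
          _ = n * ((N:ℝ)^3 * Δ) := by ring
      have h8 : 2 * (N:ℝ) ≤ n / (32 * Δ) := by
        rw [le_div_iff₀ (by positivity)]
        have h9 : (64:ℝ) * N ≤ (N:ℝ)^20 := by
          have h10 : (64:ℝ) ≤ (N:ℝ)^19 := by
            calc (64:ℝ) ≤ 1000 ^ 19 := by norm_num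
              _ ≤ (N:ℝ)^19 := pow_le_pow_left₀ (by norm_num) hNr 19
          calc (64:ℝ) * N ≤ (N:ℝ)^19 * N := mul_le_mul_of_nonneg_right h10 (by positivity)
            _ = (N:ℝ)^20 := by ring
        calc 2 * (N:ℝ) * (32 * Δ) = (64 * N) * Δ := by ring
          _ ≤ (N:ℝ)^20 * Δ := mul_le_mul_of_nonneg_right h9 (by positivity)
          _ ≤ n := hn1
      have h11 : (n:ℝ) / (16 * Δ) = n / (32 * Δ) + n / (32 * Δ) := by
        field_simp
        ring
      rw [h11]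
      linarith
    have h12 : M * Real.exp (2 * (C.card:ℝ) / ((N ^ 3 * Δ : ℕ) : ℝ)) ≤
        (M * Real.exp (-(2 * N))) * Real.exp (n / (16 * Δ)) := by
      rw [mul_assoc, ← Real.exp_add]
      apply mul_le_mul_of_nonneg_left _ hM0
      apply Real.exp_le_exp.2
      linarith
    exact le_of_mul_le_mul_right (h2.trans h12) (Real.exp_pos _)
  -- second kind
  have hb2 : (((univ : Finset (V → Fin (N ^ 3 * Δ))).filter fun f =>
      ∃ v, 3 * N < dn G v (C.filter fun a => (f a : ℕ) = 0)).card : ℝ) ≤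
      M * (2 * Real.exp (-(2 * N))) := by
    have h1 : ∀ v : V, (((univ : Finset (V → Fin (N ^ 3 * Δ))).filter fun f =>
        3 * N < dn G v (C.filter fun a => (f a : ℕ) = 0)).card : ℝ) ≤
        M * (2 * Real.exp (-(3 * N))) := by
      intro v
      have h2 := Sa_markov (F := V → Fin (N ^ 3 * Δ))
        (fun f => (dn G v (C.filter fun a => (f a : ℕ) = 0) : ℝ)) (3 * N)
        (fun f => 3 * N < dn G v (C.filter fun a => (f a : ℕ) = 0)) (by
          intro f hf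
          exact_mod_cast hf.le)
      have h3 := h2.trans (Sa_exp G Δ N hN hΔ1 h.up C v)
      rw [← hn, ← hM] at h3
      have h4 : Real.exp (2 / (N:ℝ)^3) ≤ 2 := by
        have h5 : 2 / (N:ℝ)^3 ≤ 1 / 2 := by
          rw [div_le_div_iff₀ (by positivity) (by norm_num)]
          have h6 : (4:ℝ) ≤ (N:ℝ)^3 := by
            calc (4:ℝ) ≤ 1000 ^ 3 := by norm_num
              _ ≤ (N:ℝ)^3 := pow_le_pow_left₀ (by norm_num) hNr 3
          linarith
        have h7 : Real.exp (2 / (N:ℝ)^3) ≤ Real.exp (1/2) := Real.exp_le_exp.2 h5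
        have h8 : Real.exp (1/2) ≤ 2 := by
          have h9 : Real.exp (1/2) * Real.exp (1/2) = Real.exp 1 := by
            rw [← Real.exp_add]; norm_num
          have h10 := Real.exp_one_lt_d9
          nlinarith [Real.exp_pos (1/2 : ℝ)]
        exact h7.trans h8
      have h12 : M * Real.exp (2 / (N:ℝ)^3) ≤
          (M * (2 * Real.exp (-(3 * N)))) * Real.exp (3 * N) := by
        have h13 : (M * (2 * Real.exp (-(3 * (N:ℝ))))) * Real.exp (3 * N) = M * 2 := by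
          rw [mul_assoc, mul_assoc, ← Real.exp_add]; simp
        rw [h13]
        exact mul_le_mul_of_nonneg_left h4 hM0
      exact le_of_mul_le_mul_right (h3.trans h12) (Real.exp_pos _)
    have h2 : ((univ : Finset (V → Fin (N ^ 3 * Δ))).filter fun f =>
        ∃ v, 3 * N < dn G v (C.filter fun a => (f a : ℕ) = 0)) ⊆
        (univ : Finset V).biUnion fun v => (univ : Finset (V → Fin (N ^ 3 * Δ))).filter fun f =>
          3 * N < dn G v (C.filter fun a => (f a : ℕ) = 0) := by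
      intro f hf
      obtain ⟨v, hv⟩ := (mem_filter.1 hf).2
      exact mem_biUnion.2 ⟨v, mem_univ _, mem_filter.2 ⟨mem_univ _, hv⟩⟩
    have h3 : (((univ : Finset (V → Fin (N ^ 3 * Δ))).filter fun f =>
        ∃ v, 3 * N < dn G v (C.filter fun a => (f a : ℕ) = 0)).card : ℝ) ≤
        ∑ v : V, (((univ : Finset (V → Fin (N ^ 3 * Δ))).filter fun f =>
          3 * N < dn G v (C.filter fun a => (f a : ℕ) = 0)).card : ℝ) := by
      exact_mod_cast (card_le_card h2).trans card_biUnion_le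
    refine h3.trans ((sum_le_sum fun v _ => h1 v).trans ?_)
    rw [sum_const, card_univ, nsmul_eq_mul, ← hn]
    have h4 := h.n2
    rw [← hn] at h4
    have h5 : (n:ℝ) * (M * (2 * Real.exp (-(3 * N)))) ≤
        Real.exp N * (M * (2 * Real.exp (-(3 * N)))) :=
      mul_le_mul_of_nonneg_right h4 (by positivity)
    refine h5.trans (le_of_eq ?_)
    have h6 : Real.exp (-(2 * (N:ℝ))) = Real.exp N * Real.exp (-(3 * N)) := by
      rw [← Real.exp_add]; congr 1; ring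
    rw [h6]; ring
  have hsub : ((univ : Finset (V → Fin (N ^ 3 * Δ))).filter fun f =>
      n < 16 * Δ * (C.filter fun a => (f a : ℕ) = 0).card ∨
        ∃ v, 3 * N < dn G v (C.filter fun a => (f a : ℕ) = 0)) ⊆
      ((univ : Finset (V → Fin (N ^ 3 * Δ))).filter fun f =>
        n < 16 * Δ * (C.filter fun a => (f a : ℕ) = 0).card) ∪
      ((univ : Finset (V → Fin (N ^ 3 * Δ))).filter fun f =>
        ∃ v, 3 * N < dn G v (C.filter fun a => (f a : ℕ) = 0)) := by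
    intro f hf
    rcases (mem_filter.1 hf).2 with h1 | h1
    · exact mem_union_left _ (mem_filter.2 ⟨mem_univ _, h1⟩)
    · exact mem_union_right _ (mem_filter.2 ⟨mem_univ _, h1⟩)
  have hcard : (((univ : Finset (V → Fin (N ^ 3 * Δ))).filter fun f =>
      n < 16 * Δ * (C.filter fun a => (f a : ℕ) = 0).card ∨
        ∃ v, 3 * N < dn G v (C.filter fun a => (f a : ℕ) = 0)).card : ℝ) ≤
      (((univ : Finset (V → Fin (N ^ 3 * Δ))).filter fun f =>
        n < 16 * Δ * (C.filter fun a => (f a : ℕ) = 0).card).card : ℝ) +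
      (((univ : Finset (V → Fin (N ^ 3 * Δ))).filter fun f =>
        ∃ v, 3 * N < dn G v (C.filter fun a => (f a : ℕ) = 0)).card : ℝ) := by
    exact_mod_cast (card_le_card hsub).trans (card_union_le _ _)
  refine hcard.trans ((add_le_add hb1 hb2).trans ?_)
  -- final numeric estimate
  have hn0 : (0:ℝ) < n := lt_of_lt_of_le (by positivity) hn1
  have hexpN : (3:ℝ) ≤ Real.exp N := by
    have := Real.add_one_le_exp (N:ℝ)
    linarith
  have h1 : 3 * Real.exp (-(2 * (N:ℝ))) ≤ Real.exp (-N) := by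
    have h2 : Real.exp (-(N:ℝ)) = Real.exp N * Real.exp (-(2 * N)) := by
      rw [← Real.exp_add]; congr 1; ring
    rw [h2]
    exact mul_le_mul_of_nonneg_right hexpN (Real.exp_pos _).le
  have h2 : Real.exp (-(N:ℝ)) ≤ 1 / Δ := by
    rw [Real.exp_neg, inv_eq_one_div]
    have h3 := h.n2
    rw [← hn] at h3
    apply one_div_le_one_div_of_le (by positivity)
    have h4 : (Δ:ℝ) ≤ n := by
      have h5 : (1:ℝ) ≤ (N:ℝ)^20 := one_le_pow₀ (by linarith)
      calc (Δ:ℝ) = 1 * Δ := by ring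
        _ ≤ (N:ℝ)^20 * Δ := mul_le_mul_of_nonneg_right h5 (by positivity)
        _ ≤ n := hn1
    exact h4.trans h3
  calc M * Real.exp (-(2 * N)) + M * (2 * Real.exp (-(2 * N))) =
      M * (3 * Real.exp (-(2 * (N:ℝ)))) := by ring
    _ ≤ M * (1 / Δ) := mul_le_mul_of_nonneg_left (h1.trans h2) hM0
    _ = M / Δ := by ring

theorem sa {V : Type} [Fintype V] (G : SimpleGraph V) (Δ N : ℕ) (h : Xp G Δ N) (U : Finset V)
    (hU : ∀ v, (dn G v U : ℝ) ≤ 3 * Δ / (N : ℝ) ^ 3) (α β : V → ℝ) (hα : ∀ v, 0 < α v)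
    (hβ : ∀ v, 0 ≤ β v) :
    ∃ X : Finset V, Disjoint X U ∧ 16 * Δ * X.card ≤ Fintype.card V ∧
      (∀ v, dn G v X ≤ 3 * N) ∧
      ∑ v, α v * (if Ev G X v then Real.exp (-1) else 1) * Real.exp (1 / (32 * (N : ℝ) ^ 7)) +
        ∑ v, β v * Real.exp (dn G v X - 2 / (N : ℝ) ^ 3) ≤
      (∑ v, α v + ∑ v, β v) * (1 + 2 / Δ) := by
  have hN := h.hN
  have hNr : (1000:ℝ) ≤ N := by exact_mod_cast hN
  have hΔ1 : 1 ≤ Δ := le_trans (Nat.one_le_pow _ _ (by omega)) h.hΔ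
  have hΔr : (1:ℝ) ≤ Δ := by exact_mod_cast hΔ1
  have hΔ3 : (3:ℝ) ≤ Δ := by
    have h1 : (N:ℝ)^60 ≤ Δ := by exact_mod_cast h.hΔ
    have h2 : (N:ℝ) ≤ (N:ℝ)^60 := by
      calc (N:ℝ) = (N:ℝ)^1 := by ring
        _ ≤ (N:ℝ)^60 := pow_le_pow_right₀ (by linarith) (by norm_num)
    linarith
  have hK : 1 ≤ N ^ 3 * Δ := Nat.one_le_iff_ne_zero.2 (by positivity)
  have hVne : Nonempty V := by
    rw [← Fintype.card_pos_iff]
    exact lt_of_lt_of_le (by positivity) h.n1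
  set M : ℝ := ((N ^ 3 * Δ : ℕ) : ℝ) ^ (Fintype.card V) with hM
  have hM0 : 0 < M := by
    rw [hM]
    apply pow_pos
    exact_mod_cast hK
  set Ψ0 : ℝ := ∑ v, α v + ∑ v, β v with hΨ0
  have hΨ0p : 0 < Ψ0 := by
    have h1 : 0 < ∑ v, α v := sum_pos (fun v _ => hα v) univ_nonempty
    have h2 : 0 ≤ ∑ v, β v := sum_nonneg fun v _ => hβ v
    linarith
  let X : (V → Fin (N ^ 3 * Δ)) → Finset V := fun f => (univ \ U).filter fun a => (f a : ℕ) = 0
  let Ψ : (V → Fin (N ^ 3 * Δ)) → ℝ := fun f =>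
    ∑ v, α v * (if Ev G (X f) v then Real.exp (-1) else 1) * Real.exp (1 / (32 * (N : ℝ) ^ 7)) +
      ∑ v, β v * Real.exp (dn G v (X f) - 2 / (N : ℝ) ^ 3)
  let bad : (V → Fin (N ^ 3 * Δ)) → Prop := fun f =>
    Fintype.card V < 16 * Δ * (X f).card ∨ ∃ v, 3 * N < dn G v (X f)
  have hΨn : ∀ f, 0 ≤ Ψ f := by
    intro f
    refine add_nonneg (sum_nonneg fun v _ => ?_) (sum_nonneg fun v _ => ?_)
    · refine mul_nonneg (mul_nonneg (hα v).le ?_) (Real.exp_pos _).le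
      split_ifs
      · exact (Real.exp_pos _).le
      · norm_num
    · exact mul_nonneg (hβ v) (Real.exp_pos _).le
  have hS1 : ∑ f, Ψ f ≤ M * Ψ0 := by
    simp only [Ψ]
    rw [sum_add_distrib, sum_comm, hΨ0, mul_add]
    refine add_le_add ?_ ?_
    · rw [mul_sum]
      refine sum_le_sum fun v _ => ?_
      have h1 := Sa_ev G Δ N h U hU v
      have h2 : ∑ f : V → Fin (N ^ 3 * Δ),
          α v * (if Ev G (X f) v then Real.exp (-1) else 1) * Real.exp (1 / (32 * (N : ℝ) ^ 7)) =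
          α v * ∑ f : V → Fin (N ^ 3 * Δ), (if Ev G (X f) v then Real.exp (-1) else 1) *
            Real.exp (1 / (32 * (N : ℝ) ^ 7)) := by
        rw [mul_sum]
        exact sum_congr rfl fun f _ => by ring
      rw [h2, mul_comm M]
      exact mul_le_mul_of_nonneg_left h1 (hα v).le
    · rw [sum_comm, mul_sum]
      refine sum_le_sum fun v _ => ?_
      have h1 := Sa_exp G Δ N hN hΔ1 h.up (univ \ U) v
      rw [← mul_sum, mul_comm M]
      refine mul_le_mul_of_nonneg_left ?_ (hβ v)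
      have h2 : ∑ f : V → Fin (N ^ 3 * Δ), Real.exp (dn G v (X f) - 2 / (N : ℝ) ^ 3) =
          (∑ f : V → Fin (N ^ 3 * Δ), Real.exp (dn G v (X f) : ℝ)) *
            Real.exp (-(2 / (N : ℝ) ^ 3)) := by
        rw [sum_mul]
        refine sum_congr rfl fun f _ => ?_
        rw [← Real.exp_add]
        rfl
      rw [h2]
      calc (∑ f : V → Fin (N ^ 3 * Δ), Real.exp (dn G v (X f) : ℝ)) *
            Real.exp (-(2 / (N : ℝ) ^ 3)) ≤
          (M * Real.exp (2 / (N : ℝ) ^ 3)) * Real.exp (-(2 / (N : ℝ) ^ 3)) :=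
            mul_le_mul_of_nonneg_right h1 (Real.exp_pos _).le
        _ = M := by rw [mul_assoc, ← Real.exp_add]; simp
  have hS2 : ∑ f, (if bad f then (1:ℝ) else 0) ≤ M / Δ := by
    rw [sum_boole]
    exact Sa_bad G Δ N h (univ \ U)
  have hS3 : ∑ f, (Ψ f + 2 * Ψ0 * (if bad f then (1:ℝ) else 0)) ≤
      ∑ _f : V → Fin (N ^ 3 * Δ), Ψ0 * (1 + 2 / Δ) := by
    rw [sum_add_distrib, ← mul_sum, sum_const, card_univ, nsmul_eq_mul]
    have hcard : (Fintype.card (V → Fin (N ^ 3 * Δ)) : ℝ) = M := by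
      rw [hM, Fintype.card_fun, Fintype.card_fin]
      push_cast
      rfl
    rw [hcard]
    have h1 : 2 * Ψ0 * ∑ f, (if bad f then (1:ℝ) else 0) ≤ 2 * Ψ0 * (M / Δ) :=
      mul_le_mul_of_nonneg_left hS2 (by positivity)
    calc _ ≤ M * Ψ0 + 2 * Ψ0 * (M / Δ) := add_le_add hS1 h1
      _ = M * (Ψ0 * (1 + 2 / Δ)) := by ring
  have hne : (univ : Finset (V → Fin (N ^ 3 * Δ))).Nonempty := by
    have : Nonempty (Fin (N ^ 3 * Δ)) := ⟨⟨0, hK⟩⟩
    exact univ_nonempty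
  obtain ⟨f, -, hf⟩ := exists_le_of_sum_le hne hS3
  have hnb : ¬ bad f := by
    intro hb
    rw [if_pos hb, mul_one] at hf
    have h1 := hΨn f
    have h2 : 2 * Ψ0 ≤ Ψ0 * (1 + 2 / Δ) := by linarith
    have h3 : (2:ℝ) / Δ < 1 := by rw [div_lt_one (by linarith)]; linarith
    nlinarith
  rw [if_neg hnb, mul_zero, add_zero] at hf
  simp only [bad, not_or, not_exists, not_lt] at hnb
  refine ⟨X f, ?_, hnb.1, hnb.2, hf⟩
  rw [Finset.disjoint_left]
  intro a ha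
  exact (mem_sdiff.1 (mem_filter.1 ha).1).2

end Pool.Agent.H71.EX
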