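import Mathlib
import Pool.Agent.H71.EX.Defs
import Pool.Agent.H71.EX.Gr

/-!
BN: the base colouring.

Proof.  `Y j = {a ∈ X j : a has no neighbour in X j}`, `S = {s j : j < m0 - 1}`, `D0 = (⋃ j < m0, Y j) ∪ S`,
`c1 v = j` if `v ∈ X j`, `j < m0` (unique by `hX.dis`), `c1 (s j) = j` (`hs.inj`, and `s j ∉ X i` by `hs.nX`).
`Fb u = {j + 1 : j < m0 - 1, G.Adj (s j) u}`. Apply `gr` with `φ = Δ / N ^ 8`, `B = 3 N + 1`.

`hfree`: let `u ∉ D0`, `c = c1` on `D0`, `D0 ⊆ D`, `u ∉ D`. Let `P = {w ∈ D : G.Adj u w}`, `#P ≤ Δ`. The number of the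
different colours `#(P.image c)` is at most `#P - Z`, `Z = #{j < m0 : Ev G (X j) u}`: for such a `j` there are two
different `a, b ∈ X j` adjacent to `u` without neighbours in `X j`, so `a, b ∈ Y j ∩ P` and both have the colour
`j` (`#P = ∑ over the colours of the fibre sizes`, fibres are nonempty and those of these `j` have at least `2`
elements). So at least `m0 - (Δ - Z) - #(Fb u)` labels `j < m0` are free, `#(Fb u) ≤ dn G u S ≤ Δ / N ^ 19`
(`hs.fw`), `Z ≥ Δ / (100 N ^ 7) ≥ 10 Δ / N ^ 8` (`hX.ev`, `N ≥ 1000`), `m0 ≥ Δ - 5 Δ / N ^ 8`: together at least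
`- 5 Δ / N ^ 8 + 10 Δ / N ^ 8 - Δ / N ^ 19 ≥ Δ / N ^ 8`.

`hB`: the `u ∈ D0` adjacent to `v` with `c1 u = j` are in `X j` (at most `3 N` by `hX.fr`) or equal to `s j`.

Result: `lt`: for `v ∈ D0` `c v = c1 v < m0`, otherwise by `gr`. `inj`: `hs.inj`. `cs`: `s j ∈ D0`.
`p1`: if `u ∉ D0` or `v ∉ D0`: by `gr`. If `u ∈ Y i`, `v ∈ Y j` are adjacent then `i ≠ j` (`u` has no neighbour in
`X i`). `p2`: let `v` be adjacent to `s j` and no switcher. If `v ∈ Y i ⊆ X i`, `i < m0`: `c v = i` and `i ≠ j`,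
`i ≠ j + 1` by `hs.nj`. Otherwise `v ∉ D0`: `c v ≠ c (s j) = j` by `gr`, and `j + 1 ∈ Fb v`.
`p3`: `i = j` is impossible (`G.Adj` is irreflexive), `j = i + 1` and `i = j + 1` are excluded by `hs.ns`.
`fr`: if `j < m0`: at most `3 N + 1 + 2 N ^ 8 + log (n m0) ≤ 3 N ^ 8` (`log (n m0) ≤ 2 N`, as `m0 ≤ Δ ≤ n ≤ exp N`); if
`j ≥ m0` the set is empty.
-/

set_option autoImplicit false

namespace Pool.Agent.H71.EX

open Finset Classical
open Pool.Agent.H71.DN

private noncomputable def EXBn_Y {V : Type} [Fintype V] (G : SimpleGraph V) (X : ℕ → Finset V)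
    (j : ℕ) : Finset V := (X j).filter fun a => ∀ u ∈ X j, ¬ G.Adj a u

private noncomputable def EXBn_D {V : Type} [Fintype V] (G : SimpleGraph V) (X : ℕ → Finset V)
    (s : ℕ → V) (m0 : ℕ) : Finset V :=
  (range m0).biUnion (EXBn_Y G X) ∪ (range (m0 - 1)).image s

private noncomputable def EXBn_c {V : Type} (X : ℕ → Finset V) (s : ℕ → V) (m0 : ℕ) (v : V) : ℕ :=
  if h : ∃ j, j < m0 ∧ v ∈ X j then h.choose
  else if h : ∃ j, j < m0 - 1 ∧ s j = v then h.choose else 0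

private noncomputable def EXBn_F {V : Type} (G : SimpleGraph V) (s : ℕ → V) (m0 : ℕ) (u : V) :
    Finset ℕ := ((range (m0 - 1)).filter fun j => G.Adj (s j) u).image (fun j => j + 1)

section
variable {V : Type} [Fintype V] {G : SimpleGraph V} {Δ N m0 : ℕ} {X : ℕ → Finset V} {s : ℕ → V}

private theorem EXBn_c1X (hX : Sx G Δ N m0 X) {j : ℕ} (hj : j < m0) {v : V} (hv : v ∈ X j) :
    EXBn_c X s m0 v = j := by
  have h : ∃ j, j < m0 ∧ v ∈ X j := ⟨j, hj, hv⟩
  unfold EXBn_c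
  rw [dif_pos h]
  by_contra hne
  exact (Finset.disjoint_left.mp (hX.dis _ h.choose_spec.1 _ hj hne)) h.choose_spec.2 hv

private theorem EXBn_c1s (hs : Sw G Δ N m0 X s) {j : ℕ} (hj : j < m0 - 1) :
    EXBn_c X s m0 (s j) = j := by
  have h1 : ¬ ∃ i, i < m0 ∧ s j ∈ X i := by
    rintro ⟨i, hi, h2⟩
    exact hs.nX j hj i hi h2
  have h2 : ∃ i, i < m0 - 1 ∧ s i = s j := ⟨j, hj, rfl⟩
  unfold EXBn_c
  rw [dif_neg h1, dif_pos h2]
  exact hs.inj _ h2.choose_spec.1 _ hj h2.choose_spec.2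

private theorem EXBn_mem {v : V} (hv : v ∈ EXBn_D G X s m0) :
    (∃ j, j < m0 ∧ v ∈ X j ∧ ∀ u ∈ X j, ¬ G.Adj v u) ∨ ∃ j, j < m0 - 1 ∧ v = s j := by
  unfold EXBn_D EXBn_Y at hv
  rw [mem_union, mem_biUnion, mem_image] at hv
  rcases hv with ⟨j, hj, h1⟩ | ⟨j, hj, h1⟩
  · left
    rw [mem_filter] at h1
    exact ⟨j, mem_range.mp hj, h1.1, h1.2⟩
  · right
    exact ⟨j, mem_range.mp hj, h1.symm⟩

private theorem EXBn_memY {j : ℕ} (hj : j < m0) {v : V} (hv : v ∈ X j) (h : ∀ u ∈ X j, ¬ G.Adj v u) :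
    v ∈ EXBn_D G X s m0 := by
  unfold EXBn_D EXBn_Y
  rw [mem_union, mem_biUnion]
  left
  refine ⟨j, mem_range.mpr hj, ?_⟩
  rw [mem_filter]
  exact ⟨hv, h⟩

private theorem EXBn_s {j : ℕ} (hj : j < m0 - 1) : s j ∈ EXBn_D G X s m0 := by
  unfold EXBn_D
  rw [mem_union, mem_image]
  right
  exact ⟨j, mem_range.mpr hj, rfl⟩

private theorem EXBn_used (hX : Sx G Δ N m0 X) (u : V) (c : V → ℕ)
    (hc : ∀ v ∈ EXBn_D G X s m0, c v = EXBn_c X s m0 v) (D : Finset V) (hD : EXBn_D G X s m0 ⊆ D) :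
    ((D.filter fun w => G.Adj u w).image c).card +
      ((range m0).filter fun j => Ev G (X j) u).card ≤ (D.filter fun w => G.Adj u w).card := by
  set P := D.filter fun w => G.Adj u w with hP
  set Z := (range m0).filter fun j => Ev G (X j) u with hZ
  have h1 : P.card = ∑ k ∈ P.image c, (P.filter fun w => c w = k).card :=
    card_eq_sum_card_image c P
  have h2 : ∀ j ∈ Z, 2 ≤ (P.filter fun w => c w = j).card := by
    intro j hj
    rw [hZ, mem_filter, mem_range] at hj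
    obtain ⟨hj0, a, ha, b, hb, hab, h3, h4, h5, h6⟩ := hj
    have ha1 : a ∈ EXBn_D G X s m0 := EXBn_memY hj0 ha h5
    have hb1 : b ∈ EXBn_D G X s m0 := EXBn_memY hj0 hb h6
    have h7 : ({a, b} : Finset V) ⊆ P.filter fun w => c w = j := by
      intro w hw
      rw [mem_insert, mem_singleton] at hw
      rw [mem_filter, hP, mem_filter]
      rcases hw with rfl | rfl
      · exact ⟨⟨hD ha1, h3⟩, by rw [hc _ ha1]; exact EXBn_c1X hX hj0 ha⟩
      · exact ⟨⟨hD hb1, h4⟩, by rw [hc _ hb1]; exact EXBn_c1X hX hj0 hb⟩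
    have h8 := card_le_card h7
    rw [card_pair hab] at h8
    exact h8
  have h3 : Z ⊆ P.image c := by
    intro j hj
    have h4 := h2 j hj
    have h5 : (P.filter fun w => c w = j).Nonempty := card_pos.mp (by omega)
    obtain ⟨w, hw⟩ := h5
    rw [mem_filter] at hw
    exact mem_image.mpr ⟨w, hw.1, hw.2⟩
  have h4 : ∑ k ∈ P.image c, (1 + if k ∈ Z then 1 else 0) ≤
      ∑ k ∈ P.image c, (P.filter fun w => c w = k).card := by
    refine sum_le_sum fun k hk => ?_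
    split_ifs with hkZ
    · exact h2 k hkZ
    · obtain ⟨w, hw, hwk⟩ := mem_image.mp hk
      have h5 : (P.filter fun w => c w = k).Nonempty := ⟨w, mem_filter.mpr ⟨hw, hwk⟩⟩
      exact card_pos.mpr h5
  rw [sum_add_distrib, sum_const, smul_eq_mul, mul_one, ← sum_filter, sum_const, smul_eq_mul,
    mul_one] at h4
  have h5 : (P.image c).filter (fun k => k ∈ Z) = Z := by
    ext k
    rw [mem_filter]
    exact ⟨fun h => h.2, fun h => ⟨h3 h, h⟩⟩
  rw [h5, ← h1] at h4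
  exact h4

private theorem EXBn_Fb (hs : Sw G Δ N m0 X s) (u : V) :
    (EXBn_F G s m0 u).card ≤ dn G u ((range (m0 - 1)).image s) := by
  unfold EXBn_F dn
  refine card_image_le.trans ?_
  refine card_le_card_of_injOn s ?_ ?_
  · intro j hj
    rw [mem_coe, mem_filter] at hj
    rw [mem_coe, mem_filter]
    exact ⟨mem_image_of_mem s hj.1, hj.2.symm⟩
  · intro i hi j hj hij
    rw [mem_coe, mem_filter, mem_range] at hi hj
    exact hs.inj i hi.1 j hj.1 hij

private theorem EXBn_free (h : Xp G Δ N) (hm2 : (Δ : ℝ) - 5 * (Δ / (N : ℝ) ^ 8) ≤ m0)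
    (hX : Sx G Δ N m0 X) (hs : Sw G Δ N m0 X s) (u : V) (c : V → ℕ)
    (hc : ∀ v ∈ EXBn_D G X s m0, c v = EXBn_c X s m0 v) (D : Finset V) (hD : EXBn_D G X s m0 ⊆ D) :
    (Δ : ℝ) / (N : ℝ) ^ 8 ≤ ((range m0).filter fun j => j ∉ EXBn_F G s m0 u ∧
      ∀ w ∈ D, G.Adj u w → c w ≠ j).card := by
  have h1 := EXBn_used (s := s) hX u c hc D hD
  have h2 := EXBn_Fb hs u
  have h3 : (D.filter fun w => G.Adj u w).card ≤ Δ := by
    refine le_trans (card_le_card ?_) (h.up u)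
    exact filter_subset_filter _ (subset_univ D)
  have h4 : m0 ≤ ((range m0).filter fun j => j ∉ EXBn_F G s m0 u ∧
      ∀ w ∈ D, G.Adj u w → c w ≠ j).card + ((EXBn_F G s m0 u).card +
        ((D.filter fun w => G.Adj u w).image c).card) := by
    have h5 : range m0 ⊆ ((range m0).filter fun j => j ∉ EXBn_F G s m0 u ∧
        ∀ w ∈ D, G.Adj u w → c w ≠ j) ∪ (EXBn_F G s m0 u ∪ (D.filter fun w => G.Adj u w).image c) := by
      intro j hj
      rw [mem_union, mem_union, mem_filter]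
      by_cases h6 : j ∈ EXBn_F G s m0 u
      · exact Or.inr (Or.inl h6)
      · by_cases h7 : ∀ w ∈ D, G.Adj u w → c w ≠ j
        · exact Or.inl ⟨hj, h6, h7⟩
        · push Not at h7
          obtain ⟨w, hw, hw1, hw2⟩ := h7
          exact Or.inr (Or.inr (mem_image.mpr ⟨w, mem_filter.mpr ⟨hw, hw1⟩, hw2⟩))
    have h6 := card_le_card h5
    rw [card_range] at h6
    exact h6.trans ((card_union_le _ _).trans (Nat.add_le_add_left (card_union_le _ _) _))
  have h5 := hX.ev u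
  have h6 := hs.fw u
  have h7 : (1000 : ℝ) ≤ N := by exact_mod_cast h.hN
  have hN : (0 : ℝ) < N := by linarith
  have hΔ : (0 : ℝ) ≤ Δ := Nat.cast_nonneg _
  have h8 : (Δ : ℝ) / (100 * (N : ℝ) ^ 7) ≥ 10 * (Δ / (N : ℝ) ^ 8) := by
    have e1 : (Δ : ℝ) / (100 * (N : ℝ) ^ 7) = (N / 100) * (Δ / (N : ℝ) ^ 8) := by
      field_simp
    rw [e1]
    have : (0 : ℝ) ≤ Δ / (N : ℝ) ^ 8 := by positivity
    apply mul_le_mul_of_nonneg_right _ this
    linarith
  have h9 : (Δ : ℝ) / (N : ℝ) ^ 19 ≤ Δ / (N : ℝ) ^ 8 := by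
    apply div_le_div_of_nonneg_left hΔ (by positivity)
    exact pow_le_pow_right₀ (by linarith) (by norm_num)
  have h10 : (0 : ℝ) ≤ Δ / (N : ℝ) ^ 8 := by positivity
  have g1 : (((D.filter fun w => G.Adj u w).image c).card : ℝ) +
      ((range m0).filter fun j => Ev G (X j) u).card ≤ Δ := by
    exact_mod_cast h1.trans h3
  have g2 : ((EXBn_F G s m0 u).card : ℝ) ≤ dn G u ((range (m0 - 1)).image s) := by
    exact_mod_cast h2
  have g4 : (m0 : ℝ) ≤ ((range m0).filter fun j => j ∉ EXBn_F G s m0 u ∧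
      ∀ w ∈ D, G.Adj u w → c w ≠ j).card + (((EXBn_F G s m0 u).card : ℝ) +
        ((D.filter fun w => G.Adj u w).image c).card) := by
    exact_mod_cast h4
  linarith

private theorem EXBn_B (hX : Sx G Δ N m0 X) (hs : Sw G Δ N m0 X s) (v : V) (j : ℕ) (hj : j < m0) :
    (((EXBn_D G X s m0).filter fun u => G.Adj v u ∧ EXBn_c X s m0 u = j).card : ℝ) ≤
      3 * (N : ℝ) + 1 := by
  have h1 : ((EXBn_D G X s m0).filter fun u => G.Adj v u ∧ EXBn_c X s m0 u = j) ⊆
      ((X j).filter fun u => G.Adj v u) ∪ {s j} := by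
    intro u hu
    rw [mem_filter] at hu
    rw [mem_union, mem_filter, mem_singleton]
    obtain ⟨hu0, hu1, hu2⟩ := hu
    rcases EXBn_mem hu0 with ⟨i, hi, h2, h3⟩ | ⟨i, hi, rfl⟩
    · rw [EXBn_c1X hX hi h2] at hu2
      subst hu2
      exact Or.inl ⟨h2, hu1⟩
    · rw [EXBn_c1s hs hi] at hu2
      subst hu2
      exact Or.inr rfl
  have h2 := (card_le_card h1).trans (card_union_le _ _)
  rw [card_singleton] at h2
  have h3 := hX.fr j hj v
  unfold dn at h3
  have h4 := h2.trans (Nat.add_le_add_right h3 1)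
  exact_mod_cast h4

private theorem EXBn_log (h : Xp G Δ N) (hm : m0 ≤ Δ) :
    Real.log (Fintype.card V * m0) ≤ 2 * N := by
  have h7 : (1000 : ℝ) ≤ N := by exact_mod_cast h.hN
  rcases Nat.eq_zero_or_pos (Fintype.card V * m0) with h0 | h0
  · have : ((Fintype.card V : ℝ) * m0) = 0 := by exact_mod_cast h0
    rw [this, Real.log_zero]
    linarith
  · have h1 : (0 : ℝ) < (Fintype.card V : ℝ) * m0 := by exact_mod_cast h0
    rw [Real.log_le_iff_le_exp h1, two_mul, Real.exp_add]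
    have h2 := h.n2
    have h3 : (m0 : ℝ) ≤ Real.exp N := by
      refine le_trans ?_ h2
      have h4 : m0 ≤ Fintype.card V := by
        refine hm.trans (le_trans ?_ h.n1)
        exact Nat.le_mul_of_pos_left _ (pow_pos (by have := h.hN; omega) _)
      exact_mod_cast h4
    exact mul_le_mul h2 h3 (Nat.cast_nonneg _) (Real.exp_pos _).le

end

theorem bn {V : Type} [Fintype V] (G : SimpleGraph V) (Δ N m0 : ℕ) (h : Xp G Δ N)
    (hm : m0 ≤ Δ) (hm2 : (Δ : ℝ) - 5 * (Δ / (N : ℝ) ^ 8) ≤ m0) (X : ℕ → Finset V)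
    (hX : Sx G Δ N m0 X) (s : ℕ → V) (hs : Sw G Δ N m0 X s) :
    ∃ c : V → ℕ, Bc G m0 (3 * N ^ 8) s c := by
  have h7 : (1000 : ℝ) ≤ N := by exact_mod_cast h.hN
  have hN0 : (0 : ℝ) < N := by linarith
  have hΔ0 : 0 < Δ := lt_of_lt_of_le (pow_pos (by have := h.hN; omega) _) h.hΔ
  have hΔ : (0 : ℝ) < Δ := by exact_mod_cast hΔ0
  have hφ : (0 : ℝ) < (Δ : ℝ) / (N : ℝ) ^ 8 := by positivity
  obtain ⟨c, hc1, hc2, hc3⟩ := gr G m0 (Δ : ℝ) ((Δ : ℝ) / (N : ℝ) ^ 8) (3 * N + 1) hφ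
    (fun v => by exact_mod_cast h.up v) (EXBn_D G X s m0) (EXBn_c X s m0) (EXBn_F G s m0)
    (fun u _ c hc D hD _ => EXBn_free h hm2 hX hs u c hc D hD)
    (fun v j hj => EXBn_B hX hs v j hj)
  have hlt : ∀ v, c v < m0 := by
    intro v
    by_cases hv : v ∈ EXBn_D G X s m0
    · rw [hc1 v hv]
      rcases EXBn_mem hv with ⟨i, hi, h2, h3⟩ | ⟨i, hi, rfl⟩
      · rw [EXBn_c1X hX hi h2]
        exact hi
      · rw [EXBn_c1s hs hi]
        omega
    · exact (hc2 v hv).1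
  have hcs : ∀ j < m0 - 1, c (s j) = j := by
    intro j hj
    rw [hc1 _ (EXBn_s hj), EXBn_c1s hs hj]
  refine ⟨c, hlt, hs.inj, hcs, ?_, ?_, ?_, ?_⟩
  · intro u v huv hu hv
    by_cases hu1 : u ∈ EXBn_D G X s m0
    · by_cases hv1 : v ∈ EXBn_D G X s m0
      · rcases EXBn_mem hu1 with ⟨i, hi, h2, h3⟩ | ⟨i, hi, rfl⟩
        · rcases EXBn_mem hv1 with ⟨j, hj, h4, h5⟩ | ⟨j, hj, rfl⟩
          · rw [hc1 _ hu1, hc1 _ hv1, EXBn_c1X hX hi h2, EXBn_c1X hX hj h4]
            rintro rfl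
            exact h3 v h4 huv
          · exact absurd rfl (hv j hj)
        · exact absurd rfl (hu i hi)
      · exact (hc2 v hv1).2.2 u huv.symm
    · exact ((hc2 u hu1).2.2 v huv).symm
  · intro j hj v hv hjv
    by_cases hv1 : v ∈ EXBn_D G X s m0
    · rcases EXBn_mem hv1 with ⟨i, hi, h2, h3⟩ | ⟨i, hi, rfl⟩
      · rw [hc1 _ hv1, EXBn_c1X hX hi h2]
        constructor
        · rintro rfl
          exact hs.nj i hj v (Or.inl h2) hjv
        · rintro rfl
          exact hs.nj j hj v (Or.inr h2) hjv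
      · exact absurd rfl (hv i hi)
    · obtain ⟨h2, h3, h4⟩ := hc2 v hv1
      constructor
      · have h5 := h4 (s j) hjv.symm
        rw [hcs j hj] at h5
        exact h5.symm
      · rintro h5
        apply h3
        rw [h5]
        unfold EXBn_F
        exact mem_image.mpr ⟨j, mem_filter.mpr ⟨mem_range.mpr hj, hjv⟩, rfl⟩
  · intro i hi j hj hij
    by_contra hne
    push Not at hne
    have h1 : i = j ∨ j = i + 1 ∨ i = j + 1 := by omega
    rcases h1 with rfl | rfl | rfl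
    · exact G.loopless.irrefl _ hij
    · exact hs.ns i hj hij
    · exact hs.ns j hi hij.symm
  · intro v j
    by_cases hj : j < m0
    · have h1 := hc3 v j hj
      have h2 := EXBn_log (m0 := m0) h hm
      have h3 : 2 * (Δ : ℝ) / ((Δ : ℝ) / (N : ℝ) ^ 8) = 2 * (N : ℝ) ^ 8 := by
        field_simp
      rw [h3] at h1
      have h4 : (5 : ℝ) * N + 1 ≤ (N : ℝ) ^ 8 := by
        have e1 : (N : ℝ) ^ 2 ≤ (N : ℝ) ^ 8 := pow_le_pow_right₀ (by linarith) (by norm_num)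
        nlinarith
      have h5 : (((univ.filter fun u => G.Adj v u ∧ c u = j).card : ℕ) : ℝ) ≤
          ((3 * N ^ 8 : ℕ) : ℝ) := by
        push_cast
        linarith
      exact_mod_cast h5
    · have h1 : (univ.filter fun u => G.Adj v u ∧ c u = j) = ∅ := by
        rw [filter_eq_empty_iff]
        rintro u - ⟨-, h2⟩
        exact hj (h2 ▸ hlt u)
      rw [h1, card_empty]
      exact Nat.zero_le _

end Pool.Agent.H71.EX
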