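import Mathlib
import Pool.Agent.H71.EX.Defs

/-!
SC: the switchers.

Proof.  `n = #V`. Choose `s 0, s 1, ...` (`j < m0 - 1`) one after another. For the choice of `s j` the following
vertices are forbidden: `s i`, `i < j` (at most `Δ`); all `X i`, `i < m0` (at most `m0 n / (16 Δ) ≤ n / 16` by
`hX.sz`); the neighbours of vertices of `X j ∪ X (j + 1)` (at most `2 Δ n / (16 Δ) = n / 8`; `j + 1 < m0`); the
neighbours of `s (j - 1)` (at most `Δ`). Together at most `n / 16 + n / 8 + 2 Δ ≤ n / 2` (`n ≥ N ^ 20 Δ`), so the set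
`A` of the allowed vertices has `#A ≥ n / 2`. Let `S` be the set of the switchers chosen so far,
`Ψ = ∑ v, exp (dn G v S)` (as a real number). For `a ∈ A` (so `a ∉ S`) the new potential is
`Ψ + ∑ v with G.Adj v a, (exp 1 - 1) exp (dn G v S)`; the sum over `a ∈ A` of the increments is at most
`∑ v, dg G v * 2 * exp (dn G v S) ≤ 2 Δ Ψ`, so some `a ∈ A` has an increment of at most
`2 Δ Ψ / #A ≤ (4 Δ / n) Ψ`. Take it. At the end `Ψ ≤ n (1 + 4 Δ / n) ^ m0 ≤ exp (N + 4 Δ ^ 2 / n) ≤
exp (N + 4 Δ / N ^ 20)` (`m0 ≤ Δ`, `n ≥ N ^ 20 Δ`), so `dn G v S ≤ N + 4 Δ / N ^ 20 ≤ Δ / N ^ 19`.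
(`ns`: `s (j + 1)` is not a neighbour of `s j`. The values of `s` from `m0 - 1` on are arbitrary; `V` is nonempty.)
-/

set_option autoImplicit false

namespace Pool.Agent.H71.EX

open Finset Classical
open Pool.Agent.H71.DN

private lemma Sc_dn {V : Type} [Fintype V] (G : SimpleGraph V) (v a : V) {S : Finset V}
    (ha : a ∉ S) : dn G v (insert a S) = dn G v S + if G.Adj v a then 1 else 0 := by
  unfold dn
  rw [Finset.filter_insert]
  split_ifs with h
  · rw [Finset.card_insert_of_notMem]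
    intro h'
    exact ha (Finset.mem_filter.1 h').1
  · rfl

private lemma Sc_exp {V : Type} [Fintype V] (G : SimpleGraph V) (v a : V) {S : Finset V}
    (ha : a ∉ S) : Real.exp (dn G v (insert a S)) = Real.exp (dn G v S) +
      (if G.Adj v a then (Real.exp 1 - 1) * Real.exp (dn G v S) else 0) := by
  rw [Sc_dn G v a ha]
  split_ifs with h
  · push_cast
    rw [Real.exp_add]
    ring
  · simp

/-- choice of a vertex with a small increment of the potential -/
private lemma Sc_pick {V : Type} [Fintype V] (G : SimpleGraph V) {Δ : ℕ} (hΔ : ∀ v, dg G v ≤ Δ)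
    (A S : Finset V) (hA : (Fintype.card V : ℝ) / 2 ≤ A.card) (hn : 0 < Fintype.card V)
    (hAS : Disjoint A S) :
    ∃ a ∈ A, ∑ v, Real.exp (dn G v (insert a S)) ≤
      (1 + 4 * Δ / Fintype.card V) * ∑ v, Real.exp (dn G v S) := by
  have hn' : (0 : ℝ) < Fintype.card V := by exact_mod_cast hn
  obtain ⟨n, hnn⟩ : ∃ n : ℝ, n = Fintype.card V := ⟨_, rfl⟩
  rw [← hnn] at hA hn' ⊢
  have hAne : A.Nonempty := by
    rw [← Finset.card_pos]
    have : (0 : ℝ) < A.card := by linarith
    exact_mod_cast this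
  obtain ⟨Ψ, hΨ⟩ : ∃ Ψ : ℝ, Ψ = ∑ v, Real.exp (dn G v S) := ⟨_, rfl⟩
  have hΨ0 : 0 ≤ Ψ := hΨ ▸ Finset.sum_nonneg fun v _ => (Real.exp_pos _).le
  have he : Real.exp 1 - 1 ≤ 2 := by linarith [Real.exp_one_lt_d9]
  have he0 : 0 ≤ Real.exp 1 - 1 := by linarith [Real.add_one_le_exp (1 : ℝ)]
  have key : ∑ a ∈ A, ∑ v, (if G.Adj v a then (Real.exp 1 - 1) * Real.exp (dn G v S) else 0) ≤
      ∑ a ∈ A, 4 * Δ / n * Ψ := by
    rw [Finset.sum_comm, Finset.sum_const, nsmul_eq_mul]
    have h1 : ∀ v, ∑ a ∈ A, (if G.Adj v a then (Real.exp 1 - 1) * Real.exp (dn G v S) else 0) ≤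
        2 * Δ * Real.exp (dn G v S) := by
      intro v
      rw [← Finset.sum_filter, Finset.sum_const, nsmul_eq_mul]
      have h2 : ((A.filter fun a => G.Adj v a).card : ℝ) ≤ Δ := by
        have h3 : (A.filter fun a => G.Adj v a).card ≤ dg G v :=
          Finset.card_le_card (Finset.filter_subset_filter _ (Finset.subset_univ A))
        exact_mod_cast h3.trans (hΔ v)
      have h4 := Real.exp_pos (dn G v S)
      calc ((A.filter fun a => G.Adj v a).card : ℝ) * ((Real.exp 1 - 1) * Real.exp (dn G v S))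
          ≤ Δ * (2 * Real.exp (dn G v S)) := by
            refine mul_le_mul h2 (mul_le_mul_of_nonneg_right he h4.le) ?_ (Nat.cast_nonneg _)
            exact mul_nonneg he0 h4.le
        _ = 2 * Δ * Real.exp (dn G v S) := by ring
    refine (Finset.sum_le_sum fun v _ => h1 v).trans ?_
    rw [← Finset.mul_sum, ← hΨ]
    have h5 : (2 : ℝ) * Δ * Ψ = n / 2 * (4 * Δ / n * Ψ) := by
      field_simp
      ring
    rw [h5]
    exact mul_le_mul_of_nonneg_right hA (by positivity)
  obtain ⟨a, ha, h⟩ := Finset.exists_le_of_sum_le hAne key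
  refine ⟨a, ha, ?_⟩
  have haS : a ∉ S := Finset.disjoint_left.1 hAS ha
  rw [Finset.sum_congr rfl fun v _ => Sc_exp G v a haS, Finset.sum_add_distrib, ← hΨ]
  linarith

private lemma Sc_step {V : Type} [Fintype V] (G : SimpleGraph V) (Δ N m0 : ℕ) (h : Xp G Δ N)
    (hm : m0 ≤ Δ) (X : ℕ → Finset V) (hX : Sx G Δ N m0 X) (hn : 0 < Fintype.card V) (m : ℕ) :
    m ≤ m0 - 1 → ∃ s : ℕ → V, (∀ i < m, ∀ j < m, s i = s j → i = j) ∧
      (∀ j < m, ∀ i < m0, s j ∉ X i) ∧
      (∀ j < m, ∀ u, u ∈ X j ∨ u ∈ X (j + 1) → ¬ G.Adj (s j) u) ∧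
      (∀ j, j + 1 < m → ¬ G.Adj (s j) (s (j + 1))) ∧
      ∑ v, Real.exp (dn G v ((range m).image s)) ≤
        Fintype.card V * (1 + 4 * Δ / Fintype.card V) ^ m := by
  induction m with
  | zero =>
    intro _
    obtain ⟨v0⟩ : Nonempty V := Fintype.card_pos_iff.1 hn
    refine ⟨fun _ => v0, fun i hi => absurd hi (Nat.not_lt_zero i),
      fun i hi => absurd hi (Nat.not_lt_zero i), fun i hi => absurd hi (Nat.not_lt_zero i),
      fun i hi => absurd hi (Nat.not_lt_zero _), ?_⟩
    simp [dn]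
  | succ m ih =>
    intro hm1
    obtain ⟨s, hinj, hnX, hnj, hns, hpot⟩ := ih (by omega)
    have hn' : (0 : ℝ) < Fintype.card V := by exact_mod_cast hn
    have hΔ0 : 0 < Δ := by omega
    have hΔ0' : (0 : ℝ) < Δ := by exact_mod_cast hΔ0
    let nb : V → Finset V := fun v => univ.filter fun u => G.Adj v u
    have hnb : ∀ v, (nb v).card ≤ Δ := fun v => h.up v
    let F1 : Finset V := (range m).image s
    let F2 : Finset V := (range m0).biUnion X
    let F3 : Finset V := (X m ∪ X (m + 1)).biUnion nb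
    let F4 : Finset V := nb (s (m - 1))
    have c1 : (F1.card : ℝ) ≤ Δ := by
      have : F1.card ≤ Δ := (Finset.card_image_le.trans (by rw [card_range])).trans (by omega : m ≤ Δ)
      exact_mod_cast this
    have c2 : 16 * (F2.card : ℝ) ≤ Fintype.card V := by
      have h1 : F2.card ≤ ∑ i ∈ range m0, (X i).card := Finset.card_biUnion_le
      have h2 : 16 * Δ * ∑ i ∈ range m0, (X i).card ≤ Δ * Fintype.card V := by
        rw [Finset.mul_sum]
        refine (Finset.sum_le_card_nsmul _ _ (Fintype.card V)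
          fun i hi => hX.sz i (Finset.mem_range.1 hi)).trans ?_
        rw [card_range, smul_eq_mul]
        exact Nat.mul_le_mul_right _ hm
      have h3 : Δ * (16 * F2.card) ≤ Δ * Fintype.card V := by
        calc Δ * (16 * F2.card) = 16 * Δ * F2.card := by ring
          _ ≤ 16 * Δ * ∑ i ∈ range m0, (X i).card := Nat.mul_le_mul_left _ h1
          _ ≤ _ := h2
      have h4 := Nat.le_of_mul_le_mul_left h3 hΔ0
      exact_mod_cast h4
    have c3 : 16 * (F3.card : ℝ) ≤ 2 * Fintype.card V := by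
      have h1 : F3.card ≤ (X m ∪ X (m + 1)).card * Δ :=
        Finset.card_biUnion_le_card_mul _ _ _ fun v _ => hnb v
      have h2 := Finset.card_union_le (X m) (X (m + 1))
      have h3 := hX.sz m (by omega)
      have h4 := hX.sz (m + 1) (by omega)
      have h5 : 16 * F3.card ≤ 2 * Fintype.card V := by
        calc 16 * F3.card ≤ 16 * (((X m).card + (X (m + 1)).card) * Δ) :=
              Nat.mul_le_mul_left _ (h1.trans (Nat.mul_le_mul_right _ h2))
          _ = 16 * Δ * (X m).card + 16 * Δ * (X (m + 1)).card := by ring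
          _ ≤ 2 * Fintype.card V := by omega
      exact_mod_cast h5
    have c4 : (F4.card : ℝ) ≤ Δ := by exact_mod_cast hnb _
    have hbig : 32 * (Δ : ℝ) ≤ Fintype.card V := by
      have h1 : 32 * Δ ≤ N ^ 20 * Δ := by
        refine Nat.mul_le_mul_right _ ?_
        calc 32 ≤ N ^ 1 := by have := h.hN; rw [pow_one]; omega
          _ ≤ N ^ 20 := Nat.pow_le_pow_right (by have := h.hN; omega) (by norm_num)
      exact_mod_cast h1.trans h.n1
    let A : Finset V := univ \ (F1 ∪ F2 ∪ F3 ∪ F4)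
    have hA : (Fintype.card V : ℝ) / 2 ≤ A.card := by
      have h1 : (F1 ∪ F2 ∪ F3 ∪ F4).card ≤ F1.card + F2.card + F3.card + F4.card := by
        have a1 := Finset.card_union_le (F1 ∪ F2 ∪ F3) F4
        have a2 := Finset.card_union_le (F1 ∪ F2) F3
        have a3 := Finset.card_union_le F1 F2
        omega
      have h2 : Fintype.card V ≤ A.card + (F1 ∪ F2 ∪ F3 ∪ F4).card := by
        have a4 : (univ : Finset V).card - (F1 ∪ F2 ∪ F3 ∪ F4).card ≤ A.card :=
          Finset.le_card_sdiff (F1 ∪ F2 ∪ F3 ∪ F4) (univ : Finset V)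
        rw [Finset.card_univ] at a4
        omega
      have h3 : (Fintype.card V : ℝ) ≤ A.card + (F1.card + F2.card + F3.card + F4.card) := by
        exact_mod_cast h2.trans (Nat.add_le_add_left h1 _)
      linarith
    have hAS : Disjoint A F1 := by
      rw [Finset.disjoint_left]
      intro a ha h1
      rw [Finset.mem_sdiff] at ha
      exact ha.2 (Finset.mem_union_left _ (Finset.mem_union_left _ (Finset.mem_union_left _ h1)))
    obtain ⟨a, haA, hpa⟩ := Sc_pick G h.up A F1 hA hn hAS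
    have ha1 : a ∉ F1 := Finset.disjoint_left.1 hAS haA
    have haA' := (Finset.mem_sdiff.1 haA).2
    have ha2 : a ∉ F2 := fun h1 => haA'
      (Finset.mem_union_left _ (Finset.mem_union_left _ (Finset.mem_union_right _ h1)))
    have ha3 : a ∉ F3 := fun h1 => haA' (Finset.mem_union_left _ (Finset.mem_union_right _ h1))
    have ha4 : a ∉ F4 := fun h1 => haA' (Finset.mem_union_right _ h1)
    have ha1' : ∀ i < m, s i ≠ a := fun i hi h1 =>
      ha1 (Finset.mem_image.2 ⟨i, Finset.mem_range.2 hi, h1⟩)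
    obtain ⟨s', hs'⟩ : ∃ s' : ℕ → V, ∀ i, s' i = if i = m then a else s i := ⟨_, fun i => rfl⟩
    have hsm : s' m = a := by rw [hs', if_pos rfl]
    have hsi : ∀ i < m, s' i = s i := fun i hi => by rw [hs', if_neg (by omega)]
    refine ⟨s', ?_, ?_, ?_, ?_, ?_⟩
    · intro i hi j hj hij
      rcases Nat.lt_succ_iff_lt_or_eq.1 hi with hi' | rfl
      · rcases Nat.lt_succ_iff_lt_or_eq.1 hj with hj' | rfl
        · rw [hsi i hi', hsi j hj'] at hij
          exact hinj i hi' j hj' hij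
        · rw [hsi i hi', hsm] at hij
          exact absurd hij (ha1' i hi')
      · rcases Nat.lt_succ_iff_lt_or_eq.1 hj with hj' | rfl
        · rw [hsi j hj', hsm] at hij
          exact absurd hij.symm (ha1' j hj')
        · rfl
    · intro j hj i hi
      rcases Nat.lt_succ_iff_lt_or_eq.1 hj with hj' | rfl
      · rw [hsi j hj']
        exact hnX j hj' i hi
      · rw [hsm]
        exact fun h1 => ha2 (Finset.mem_biUnion.2 ⟨i, Finset.mem_range.2 hi, h1⟩)
    · intro j hj u hu
      rcases Nat.lt_succ_iff_lt_or_eq.1 hj with hj' | rfl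
      · rw [hsi j hj']
        exact hnj j hj' u hu
      · rw [hsm]
        intro h1
        refine ha3 (Finset.mem_biUnion.2 ⟨u, Finset.mem_union.2 hu, ?_⟩)
        exact Finset.mem_filter.2 ⟨Finset.mem_univ _, h1.symm⟩
    · intro j hj
      rw [hsi j (by omega)]
      rcases Nat.lt_succ_iff_lt_or_eq.1 hj with hj' | hj'
      · rw [hsi (j + 1) hj']
        exact hns j hj'
      · rw [hj', hsm]
        intro h1
        refine ha4 (Finset.mem_filter.2 ⟨Finset.mem_univ _, ?_⟩)
        rw [← hj']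
        exact h1
    · have e1 : (range (m + 1)).image s' = insert a F1 := by
        ext x
        simp only [Finset.mem_image, Finset.mem_range, Finset.mem_insert, F1]
        constructor
        · rintro ⟨i, hi, rfl⟩
          rcases Nat.lt_succ_iff_lt_or_eq.1 hi with hi' | rfl
          · exact Or.inr ⟨i, hi', (hsi i hi').symm⟩
          · exact Or.inl hsm
        · rintro (rfl | ⟨i, hi, rfl⟩)
          · exact ⟨m, by omega, hsm⟩
          · exact ⟨i, by omega, hsi i hi⟩
      rw [e1, pow_succ]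
      refine hpa.trans ?_
      have h0 : (0 : ℝ) ≤ 1 + 4 * Δ / Fintype.card V := by positivity
      calc (1 + 4 * (Δ : ℝ) / Fintype.card V) * ∑ v, Real.exp (dn G v F1)
          ≤ (1 + 4 * (Δ : ℝ) / Fintype.card V) *
            (Fintype.card V * (1 + 4 * Δ / Fintype.card V) ^ m) :=
            mul_le_mul_of_nonneg_left hpot h0
        _ = _ := by ring

theorem sc {V : Type} [Fintype V] (G : SimpleGraph V) (Δ N m0 : ℕ) (h : Xp G Δ N)
    (hm : m0 ≤ Δ) (X : ℕ → Finset V) (hX : Sx G Δ N m0 X) :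
    ∃ s : ℕ → V, Sw G Δ N m0 X s := by
  have hN : (1000 : ℝ) ≤ N := by exact_mod_cast h.hN
  have hN0 : (0 : ℝ) < N := by linarith
  have hΔ : (N : ℝ) ^ 60 ≤ Δ := by exact_mod_cast h.hΔ
  have hΔ0 : (0 : ℝ) < Δ := lt_of_lt_of_le (by positivity) hΔ
  have hn1 : (N : ℝ) ^ 20 * Δ ≤ Fintype.card V := by exact_mod_cast h.n1
  have hn' : (0 : ℝ) < Fintype.card V := lt_of_lt_of_le (by positivity) hn1
  have hn : 0 < Fintype.card V := by exact_mod_cast hn'
  obtain ⟨s, hinj, hnX, hnj, hns, hpot⟩ := Sc_step G Δ N m0 h hm X hX hn (m0 - 1) le_rfl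
  refine ⟨s, hinj, hnX, hnj, hns, fun v => ?_⟩
  have h1 : Real.exp (dn G v ((range (m0 - 1)).image s)) ≤
      ∑ v, Real.exp (dn G v ((range (m0 - 1)).image s)) :=
    Finset.single_le_sum (f := fun v => Real.exp (dn G v ((range (m0 - 1)).image s)))
      (fun v _ => (Real.exp_pos _).le) (Finset.mem_univ v)
  have h2 : (1 + 4 * (Δ : ℝ) / Fintype.card V) ^ (m0 - 1) ≤ Real.exp (4 * (Δ / (N : ℝ) ^ 20)) := by
    have e1 : (1 + 4 * (Δ : ℝ) / Fintype.card V) ^ (m0 - 1) ≤
        Real.exp (4 * (Δ : ℝ) / Fintype.card V) ^ (m0 - 1) := by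
      refine pow_le_pow_left₀ (by positivity) ?_ _
      linarith [Real.add_one_le_exp (4 * (Δ : ℝ) / Fintype.card V)]
    refine e1.trans ?_
    rw [← Real.exp_nat_mul]
    apply Real.exp_le_exp.2
    have e2 : ((m0 - 1 : ℕ) : ℝ) ≤ Δ := by exact_mod_cast (by omega : m0 - 1 ≤ Δ)
    calc ((m0 - 1 : ℕ) : ℝ) * (4 * (Δ : ℝ) / Fintype.card V)
        ≤ Δ * (4 * (Δ : ℝ) / Fintype.card V) := mul_le_mul_of_nonneg_right e2 (by positivity)
      _ = 4 * (Δ * Δ / Fintype.card V) := by ring
      _ ≤ 4 * (Δ / (N : ℝ) ^ 20) := by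
          refine mul_le_mul_of_nonneg_left ?_ (by norm_num)
          rw [div_le_div_iff₀ hn' (by positivity)]
          nlinarith
  have h3 : Real.exp (dn G v ((range (m0 - 1)).image s)) ≤
      Real.exp (N + 4 * (Δ / (N : ℝ) ^ 20)) := by
    rw [Real.exp_add]
    exact h1.trans (hpot.trans (mul_le_mul h.n2 h2 (by positivity) (Real.exp_pos _).le))
  have h4 := Real.exp_le_exp.1 h3
  refine h4.trans ?_
  have e3 : (Δ : ℝ) / (N : ℝ) ^ 19 = N * (Δ / (N : ℝ) ^ 20) := by
    field_simp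
  have e4 : (N : ℝ) ^ 40 ≤ Δ / (N : ℝ) ^ 20 := by
    rw [le_div_iff₀ (by positivity), ← pow_add]
    exact hΔ
  have e5 : (N : ℝ) ≤ (N : ℝ) ^ 40 := by
    calc (N : ℝ) = (N : ℝ) ^ 1 := (pow_one _).symm
      _ ≤ (N : ℝ) ^ 40 := pow_le_pow_right₀ (by linarith) (by norm_num)
  rw [e3]
  nlinarith

end Pool.Agent.H71.EX
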