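import Mathlib
import Pool.Agent.H71.EX.Defs

/-!
SD: the switchers correct all parities.

Proof.  For `ε : ℕ → ℕ` with values in `{0, 1}` let `c' v = j + ε j` if `v = s j` for a (unique, `inj`) `j < m0 - 1`,
and `c' v = c v` otherwise. `c' v < m0` (`j + 1 < m0`). Properness: two non-switchers: `p1`; a switcher `s j` and a
non-switcher `v`: `c v ≠ j, j + 1` by `p2`; two adjacent switchers `s i`, `s j`: `{i, i + 1}` and `{j, j + 1}` are
disjoint by `p3`. `{u : G.Adj v u, c' u = j} ⊆ {u : G.Adj v u, c u = j} ∪ {s (j - 1)}` (`j ≥ 1`): a vertex with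
`c' u = j ≠ c u` is `s (j - 1)` with `ε (j - 1) = 1`. So the number is at most `fr + 1`.
Parities: for `j < m0`, `#{c' = j} = #{c = j} - (if j < m0 - 1 then ε j else 0) + (if 0 < j then ε (j - 1) else 0)`
(`s j` leaves the class `j`, `s (j - 1)` enters it). Define `ε j` recursively for `j < m0 - 1` by
`ε j ≡ #{c = j} + (if 0 < j then ε (j - 1) else 0) + e j (mod 2)`; then `#{c' = j} ≡ e j` for `j < m0 - 1`. For
`j = m0 - 1`: `∑ j < m0, #{c' = j} = #V ≡ ∑ j < m0, e j`, so the last parity is also right (`m0 ≥ 1`: if `m0 = 0`
there is nothing to prove). (Alternatively, induction on the number of classes already corrected, changing one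
switcher at a time.)
-/

set_option autoImplicit false

namespace Pool.Agent.H71.EX

open Finset Classical
open Pool.Agent.H71.DN

private def EXSd_eps (n e : ℕ → ℕ) : ℕ → ℕ
  | 0 => (n 0 + e 0) % 2
  | j + 1 => (n (j + 1) + EXSd_eps n e j + e (j + 1)) % 2

private lemma EXSd_eps_le (n e : ℕ → ℕ) (j : ℕ) : EXSd_eps n e j ≤ 1 := by
  cases j with
  | zero => unfold EXSd_eps; omega
  | succ j => unfold EXSd_eps; omega

private lemma EXSd_eps_eq (n e : ℕ → ℕ) (j : ℕ) :
    EXSd_eps n e j = (n j + (if 0 < j then EXSd_eps n e (j - 1) else 0) + e j) % 2 := by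
  cases j with
  | zero =>
      rw [EXSd_eps, if_neg (lt_irrefl 0)]
      omega
  | succ j =>
      rw [EXSd_eps, if_pos (Nat.succ_pos j), Nat.add_sub_cancel]

theorem sd {V : Type} [Fintype V] (G : SimpleGraph V) (m0 fr : ℕ) (s : ℕ → V) (c : V → ℕ)
    (h : Bc G m0 fr s c) (e : ℕ → ℕ)
    (he : (∑ j ∈ range m0, e j) % 2 = Fintype.card V % 2) :
    ∃ c' : V → ℕ, (∀ v, c' v < m0) ∧ (∀ u v, G.Adj u v → c' u ≠ c' v) ∧
      (∀ v j, (univ.filter fun u => G.Adj v u ∧ c' u = j).card ≤ fr + 1) ∧
      ∀ j < m0, (univ.filter fun v => c' v = j).card % 2 = e j % 2 := by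
  set n : ℕ → ℕ := fun j => (univ.filter fun v => c v = j).card with hn
  set ε : ℕ → ℕ := EXSd_eps n e with hε
  have hε1 : ∀ j, ε j ≤ 1 := fun j => EXSd_eps_le n e j
  have hεe : ∀ j, ε j = (n j + (if 0 < j then ε (j - 1) else 0) + e j) % 2 :=
    fun j => EXSd_eps_eq n e j
  set P : V → Prop := fun v => ∃ j < m0 - 1, v = s j with hP
  have hPc : ∀ v, P v → c v < m0 - 1 ∧ v = s (c v) := by
    rintro v ⟨j, hj, rfl⟩
    rw [h.cs j hj]
    exact ⟨hj, rfl⟩
  have hPs : ∀ j < m0 - 1, P (s j) := fun j hj => ⟨j, hj, rfl⟩
  set c' : V → ℕ := fun v => if P v then c v + ε (c v) else c v with hc'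
  have hcP : ∀ v, P v → c' v = c v + ε (c v) := fun v hv => by
    simp only [hc', if_pos hv]
  have hcN : ∀ v, ¬ P v → c' v = c v := fun v hv => by
    simp only [hc', if_neg hv]
  have hlt : ∀ v, c' v < m0 := by
    intro v
    by_cases hv : P v
    · rw [hcP v hv]
      have h1 := (hPc v hv).1
      have h2 := hε1 (c v)
      omega
    · rw [hcN v hv]
      exact h.lt v
  have hnP : ∀ v, ¬ P v → ∀ j < m0 - 1, v ≠ s j := by
    intro v hv j hj hvj
    exact hv ⟨j, hj, hvj⟩
  have hmix : ∀ u v, G.Adj u v → P u → ¬ P v → c' u ≠ c' v := by
    intro u v huv hu hv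
    rw [hcP u hu, hcN v hv]
    obtain ⟨h1, h2⟩ := hPc u hu
    have h3 := h.p2 (c u) h1 v (hnP v hv) (by rw [← h2]; exact huv)
    have h4 := hε1 (c u)
    rcases Nat.lt_or_ge (ε (c u)) 1 with h5 | h5
    · have : ε (c u) = 0 := by omega
      rw [this, add_zero]
      exact fun h6 => h3.1 h6.symm
    · have : ε (c u) = 1 := by omega
      rw [this]
      exact fun h6 => h3.2 h6.symm
  refine ⟨c', hlt, ?_, ?_, ?_⟩
  · intro u v huv
    by_cases hu : P u
    · by_cases hv : P v
      · rw [hcP u hu, hcP v hv]
        obtain ⟨h1, h2⟩ := hPc u hu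
        obtain ⟨h3, h4⟩ := hPc v hv
        have h5 := h.p3 (c u) h1 (c v) h3 (by rw [← h2, ← h4]; exact huv)
        have h6 := hε1 (c u)
        have h7 := hε1 (c v)
        omega
      · exact hmix u v huv hu hv
    · by_cases hv : P v
      · exact fun h8 => hmix v u huv.symm hv hu h8.symm
      · rw [hcN u hu, hcN v hv]
        exact h.p1 u v huv (hnP u hu) (hnP v hv)
  · intro v j
    have hsub : (univ.filter fun u => G.Adj v u ∧ c' u = j) ⊆
        insert (s (j - 1)) (univ.filter fun u => G.Adj v u ∧ c u = j) := by
      intro u hu
      rw [mem_filter] at hu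
      rw [mem_insert, mem_filter]
      by_cases hcu : c u = j
      · exact Or.inr ⟨mem_univ _, hu.2.1, hcu⟩
      · left
        by_cases hPu : P u
        · have h1 := hcP u hPu
          have h2 := hε1 (c u)
          have h3 := hu.2.2
          have h4 : c u = j - 1 := by omega
          rw [← h4]
          exact (hPc u hPu).2
        · exact absurd (hcN u hPu ▸ hu.2.2) hcu
    calc (univ.filter fun u => G.Adj v u ∧ c' u = j).card
        ≤ (insert (s (j - 1)) (univ.filter fun u => G.Adj v u ∧ c u = j)).card :=
          card_le_card hsub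
      _ ≤ (univ.filter fun u => G.Adj v u ∧ c u = j).card + 1 := card_insert_le _ _
      _ ≤ fr + 1 := Nat.add_le_add_right (h.fr v j) 1
  · have hid : ∀ j < m0, (univ.filter fun v => c' v = j).card + (if j < m0 - 1 then ε j else 0) =
        n j + (if 0 < j then ε (j - 1) else 0) := by
      intro j hj
      set A := univ.filter fun v => c' v = j with hA
      set B := univ.filter fun v => c v = j with hB
      have e1 : (B \ A).card + A.card = (A \ B).card + B.card := by
        rw [card_sdiff_add_card, card_sdiff_add_card, union_comm]
      have e2 : (B \ A).card = if j < m0 - 1 then ε j else 0 := by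
        by_cases hj1 : j < m0 - 1
        · rw [if_pos hj1]
          rcases Nat.lt_or_ge (ε j) 1 with h5 | h5
          · have h0 : ε j = 0 := by omega
            rw [h0, card_eq_zero, eq_empty_iff_forall_notMem]
            intro v hv
            rw [mem_sdiff, hB, hA, mem_filter, mem_filter] at hv
            apply hv.2
            refine ⟨mem_univ _, ?_⟩
            by_cases hPv : P v
            · rw [hcP v hPv, hv.1.2, h0, add_zero]
            · rw [hcN v hPv, hv.1.2]
          · have h1 : ε j = 1 := by have := hε1 j; omega
            rw [h1, card_eq_one]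
            refine ⟨s j, ?_⟩
            ext v
            rw [mem_sdiff, hB, hA, mem_filter, mem_filter, mem_singleton]
            constructor
            · rintro ⟨⟨_, h2⟩, h3⟩
              by_cases hPv : P v
              · have := (hPc v hPv).2
                rw [h2] at this
                exact this
              · exact absurd ⟨mem_univ _, (hcN v hPv).trans h2⟩ h3
            · rintro rfl
              refine ⟨⟨mem_univ _, h.cs j hj1⟩, ?_⟩
              rintro ⟨_, h3⟩
              rw [hcP _ (hPs j hj1), h.cs j hj1, h1] at h3
              omega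
        · rw [if_neg hj1, card_eq_zero, eq_empty_iff_forall_notMem]
          intro v hv
          rw [mem_sdiff, hB, hA, mem_filter, mem_filter] at hv
          apply hv.2
          refine ⟨mem_univ _, ?_⟩
          by_cases hPv : P v
          · have := (hPc v hPv).1
            rw [hv.1.2] at this
            exact absurd this hj1
          · rw [hcN v hPv, hv.1.2]
      have e3 : (A \ B).card = if 0 < j then ε (j - 1) else 0 := by
        by_cases hj0 : 0 < j
        · rw [if_pos hj0]
          have hj2 : j - 1 < m0 - 1 := by omega
          rcases Nat.lt_or_ge (ε (j - 1)) 1 with h5 | h5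
          · have h0 : ε (j - 1) = 0 := by omega
            rw [h0, card_eq_zero, eq_empty_iff_forall_notMem]
            intro v hv
            rw [mem_sdiff, hB, hA, mem_filter, mem_filter] at hv
            apply hv.2
            refine ⟨mem_univ _, ?_⟩
            have h6 := hv.1.2
            by_cases hPv : P v
            · rw [hcP v hPv] at h6
              have h7 := hε1 (c v)
              rcases Nat.lt_or_ge (ε (c v)) 1 with h8 | h8
              · omega
              · have h9 : c v = j - 1 := by omega
                rw [h9, h0] at h8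
                omega
            · rw [hcN v hPv] at h6
              exact h6
          · have h1 : ε (j - 1) = 1 := by have := hε1 (j - 1); omega
            rw [h1, card_eq_one]
            refine ⟨s (j - 1), ?_⟩
            ext v
            rw [mem_sdiff, hB, hA, mem_filter, mem_filter, mem_singleton]
            constructor
            · rintro ⟨⟨_, h2⟩, h3⟩
              by_cases hPv : P v
              · have h4 := (hPc v hPv).2
                rw [hcP v hPv] at h2
                have h7 := hε1 (c v)
                have h8 : c v ≠ j := fun h9 => h3 ⟨mem_univ _, h9⟩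
                have h9 : c v = j - 1 := by omega
                rw [h9] at h4
                exact h4
              · rw [hcN v hPv] at h2
                exact absurd ⟨mem_univ _, h2⟩ h3
            · rintro rfl
              refine ⟨⟨mem_univ _, ?_⟩, ?_⟩
              · rw [hcP _ (hPs _ hj2), h.cs _ hj2, h1]
                omega
              · rintro ⟨_, h3⟩
                rw [h.cs _ hj2] at h3
                omega
        · rw [if_neg hj0, card_eq_zero, eq_empty_iff_forall_notMem]
          intro v hv
          rw [mem_sdiff, hB, hA, mem_filter, mem_filter] at hv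
          apply hv.2
          refine ⟨mem_univ _, ?_⟩
          have h6 := hv.1.2
          by_cases hPv : P v
          · rw [hcP v hPv] at h6
            omega
          · rw [hcN v hPv] at h6
            exact h6
      have e4 : n j = B.card := rfl
      rw [← e2, ← e3, e4]
      omega
    have hpar : ∀ j < m0 - 1, (univ.filter fun v => c' v = j).card % 2 = e j % 2 := by
      intro j hj
      have h1 := hid j (by omega)
      rw [if_pos hj] at h1
      have h2 := hεe j
      omega
    intro j hj
    by_cases hj1 : j < m0 - 1
    · exact hpar j hj1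
    · obtain ⟨k, rfl⟩ : ∃ k, m0 = k + 1 := ⟨m0 - 1, by omega⟩
      have hjk : j = k := by omega
      subst hjk
      have hsum : ∑ i ∈ range (j + 1), (univ.filter fun v => c' v = i).card = Fintype.card V := by
        rw [← card_univ]
        exact (card_eq_sum_card_fiberwise (fun v _ => by
          simpa using hlt v)).symm
      rw [sum_range_succ] at hsum he
      have h3 : (∑ i ∈ range j, (univ.filter fun v => c' v = i).card) % 2 =
          (∑ i ∈ range j, e i) % 2 := by
        rw [sum_nat_mod, sum_nat_mod (range j) 2 e]
        apply congrArg (· % 2)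
        apply sum_congr rfl
        intro i hi
        exact hpar i (by have := mem_range.mp hi; omega)
      omega

end Pool.Agent.H71.EX
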