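import Mathlib
import Pool.Agent.H71.DN.Defs

/-!
WN: with the right parities of the classes all windows have even complements.

`ep n p j = 1` if `n` is odd and `2 p - 1` divides `j`, and `0` otherwise; `m0 = (4 p - 2) q + 1`.

`wn1`: if `n` is even all terms are `0`. If `n` is odd the sum is the number of multiples of `2 p - 1` in
`[0, m0) = [0, (4 p - 2) q]`, which is `2 q + 1`, odd.

`wn2`: the complement of the window `{v : c v < t + p ∧ t < c v + p}` has `n - ∑ j, #{c = j}` elements, the sum over
the `j < m0` with `j < t + p`, `t < j + p`; modulo `2` it is `n - ∑ ep n p j` over these `j`. If `n` is even this is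
even. If `n` is odd, exactly one `j < m0` with `t - p < j < t + p` is a multiple of `2 p - 1`, for every
`t < m0 + p - 1`: an integer interval of length `2 p - 1` contains exactly one multiple of `2 p - 1`. If
`t + 1 ≤ p` the multiple `0` is in the window and the next one, `2 p - 1`, is not below `t + p`
(`t + p ≤ 2 p - 1`); if `t + p > m0`, i.e. `t + p ≥ m0`, the multiple `m0 - 1` is in the window (`t - p < m0 - 1`
as `t < m0 + p - 1`) and the previous one, `m0 - 1 - (2 p - 1)`, is not (`t ≥ m0 - p`); otherwise
`0 ≤ t - p + 1` and `t + p - 1 < m0` and the unique multiple in the interval `[t - p + 1, t + p - 1]` is in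
`[0, m0)`. So the complement has `n - (odd)` elements modulo `2`, which is even.
-/

set_option autoImplicit false

namespace Pool.Agent.H71.EX

open Finset Classical

/-- The prescribed parities. -/
def ep (n p j : ℕ) : ℕ := if n % 2 = 1 ∧ (2 * p - 1) ∣ j then 1 else 0

private theorem Wn_uniq (p j j' t : ℕ) (hp : 1 ≤ p) (h1 : j < t + p) (h2 : t < j + p)
    (h3 : j' < t + p) (h4 : t < j' + p) (hd : (2 * p - 1) ∣ j) (hd' : (2 * p - 1) ∣ j') :
    j = j' := by
  obtain ⟨a, rfl⟩ := hd
  obtain ⟨b, rfl⟩ := hd'
  rcases lt_trichotomy a b with h | h | h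
  · have := Nat.mul_le_mul_left (2 * p - 1) (Nat.succ_le_of_lt h)
    rw [Nat.mul_succ] at this
    omega
  · rw [h]
  · have := Nat.mul_le_mul_left (2 * p - 1) (Nat.succ_le_of_lt h)
    rw [Nat.mul_succ] at this
    omega

private theorem Wn_sum (n p : ℕ) (hn : n % 2 = 1) (J : Finset ℕ) :
    ∑ j ∈ J, ep n p j = (J.filter (fun j => (2 * p - 1) ∣ j)).card := by
  rw [Finset.card_filter]
  apply Finset.sum_congr rfl
  intro j _
  unfold ep
  by_cases h : (2 * p - 1) ∣ j
  · rw [if_pos ⟨hn, h⟩, if_pos h]
  · rw [if_neg (fun h' => h h'.2), if_neg h]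

private theorem Wn_sum0 (n p : ℕ) (hn : n % 2 = 0) (J : Finset ℕ) :
    ∑ j ∈ J, ep n p j = 0 := by
  apply Finset.sum_eq_zero
  intro j _
  unfold ep
  rw [if_neg]
  rintro ⟨h, _⟩
  omega

theorem wn1 (n p q : ℕ) (hp : 1 ≤ p) :
    (∑ j ∈ range ((4 * p - 2) * q + 1), ep n p j) % 2 = n % 2 := by
  rcases Nat.mod_two_eq_zero_or_one n with hn | hn
  · rw [Wn_sum0 n p hn, hn]
  · rw [Wn_sum n p hn, hn]
    have hd : 0 < 2 * p - 1 := by omega
    have heq : (range ((4 * p - 2) * q + 1)).filter (fun j => (2 * p - 1) ∣ j) =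
        (range (2 * q + 1)).image (fun a => (2 * p - 1) * a) := by
      ext j
      simp only [Finset.mem_filter, Finset.mem_range, Finset.mem_image]
      have h4 : (4 * p - 2) * q = (2 * p - 1) * (2 * q) := by
        have : 4 * p - 2 = (2 * p - 1) * 2 := by omega
        rw [this, mul_assoc]
      constructor
      · rintro ⟨hj, ⟨a, rfl⟩⟩
        refine ⟨a, ?_, rfl⟩
        rw [h4] at hj
        have h5 : (2 * p - 1) * a ≤ (2 * p - 1) * (2 * q) := by omega
        have := Nat.le_of_mul_le_mul_left h5 hd
        omega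
      · rintro ⟨a, ha, rfl⟩
        refine ⟨?_, ⟨a, rfl⟩⟩
        rw [h4]
        have := Nat.mul_le_mul_left (2 * p - 1) (show a ≤ 2 * q by omega)
        omega
    rw [heq, Finset.card_image_of_injective, Finset.card_range]
    · omega
    · intro a b hab
      exact Nat.eq_of_mul_eq_mul_left hd hab

theorem wn2 {V : Type} [Fintype V] (c : V → ℕ) (p q m0 : ℕ) (hp : 1 ≤ p)
    (hm : m0 = (4 * p - 2) * q + 1) (hc : ∀ v, c v < m0)
    (he : ∀ j < m0, (univ.filter fun v => c v = j).card % 2 = ep (Fintype.card V) p j % 2)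
    (t : ℕ) (ht : t < m0 + p - 1) :
    Even (univ \ (univ.filter fun v => c v < t + p ∧ t < c v + p)).card := by
  have hcard : (univ \ (univ.filter fun v => c v < t + p ∧ t < c v + p)).card =
      Fintype.card V - (univ.filter fun v => c v < t + p ∧ t < c v + p).card := by
    rw [Finset.card_sdiff_of_subset (Finset.subset_univ _), Finset.card_univ]
  have hle : (univ.filter fun v => c v < t + p ∧ t < c v + p).card ≤ Fintype.card V :=
    Finset.card_le_univ _
  have hW : (univ.filter fun v => c v < t + p ∧ t < c v + p).card =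
      ∑ j ∈ (range m0).filter (fun j => j < t + p ∧ t < j + p),
        (univ.filter fun v => c v = j).card := by
    rw [Finset.card_eq_sum_card_fiberwise (f := c)
      (t := (range m0).filter (fun j => j < t + p ∧ t < j + p))]
    · apply Finset.sum_congr rfl
      intro j hj
      rw [Finset.mem_filter] at hj
      congr 1
      ext v
      simp only [Finset.mem_filter, Finset.mem_univ, true_and]
      constructor
      · rintro ⟨_, h⟩
        exact h
      · intro h
        refine ⟨?_, h⟩
        rw [h]
        exact hj.2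
    · intro v hv
      simp only [Finset.coe_filter, Finset.mem_univ, true_and, Set.mem_ofPred_eq] at hv
      simp only [Finset.coe_filter, Finset.mem_range, Set.mem_ofPred_eq]
      exact ⟨hc v, hv⟩
  have hpar : (univ.filter fun v => c v < t + p ∧ t < c v + p).card % 2 =
      (∑ j ∈ (range m0).filter (fun j => j < t + p ∧ t < j + p), ep (Fintype.card V) p j) % 2 := by
    rw [hW, Finset.sum_nat_mod]
    rw [Finset.sum_nat_mod (f := fun j => ep (Fintype.card V) p j)]
    congr 1
    apply Finset.sum_congr rfl
    intro j hj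
    rw [Finset.mem_filter, Finset.mem_range] at hj
    exact he j hj.1
  rw [Nat.even_iff, hcard]
  rcases Nat.mod_two_eq_zero_or_one (Fintype.card V) with hn | hn
  · rw [Wn_sum0 _ p hn] at hpar
    omega
  · rw [Wn_sum _ p hn] at hpar
    have hd : 0 < 2 * p - 1 := by omega
    have h4 : (4 * p - 2) * q = (2 * p - 1) * (2 * q) := by
      have : 4 * p - 2 = (2 * p - 1) * 2 := by omega
      rw [this, mul_assoc]
    have hex : ∃ j, j < m0 ∧ j < t + p ∧ t < j + p ∧ (2 * p - 1) ∣ j := by
      by_cases h1 : t + 1 ≤ p
      · exact ⟨0, by omega, by omega, by omega, dvd_zero _⟩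
      · by_cases h2 : m0 ≤ t + p
        · refine ⟨m0 - 1, by omega, by omega, by omega, ?_⟩
          rw [hm, Nat.add_sub_cancel, h4]
          exact dvd_mul_right _ _
        · refine ⟨(2 * p - 1) * ((t + p - 1) / (2 * p - 1)), ?_, ?_, ?_, dvd_mul_right _ _⟩
          · have := Nat.mul_div_le (t + p - 1) (2 * p - 1)
            omega
          · have := Nat.mul_div_le (t + p - 1) (2 * p - 1)
            omega
          · have := Nat.lt_mul_div_succ (t + p - 1) hd
            rw [Nat.mul_add, mul_one] at this
            omega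
    obtain ⟨j0, hj0, hj1, hj2, hj3⟩ := hex
    have hone : (((range m0).filter (fun j => j < t + p ∧ t < j + p)).filter
        (fun j => (2 * p - 1) ∣ j)) = {j0} := by
      ext j
      simp only [Finset.mem_filter, Finset.mem_range, Finset.mem_singleton]
      constructor
      · rintro ⟨⟨_, h2, h3⟩, h4⟩
        exact Wn_uniq p j j0 t hp h2 h3 hj1 hj2 h4 hj3
      · rintro rfl
        exact ⟨⟨hj0, hj1, hj2⟩, hj3⟩
    rw [hone, Finset.card_singleton] at hpar
    omega

end Pool.Agent.H71.EX
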