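import Mathlib
import Pool.Agent.H71.EX.Defs
import Pool.Agent.H71.EX.Sb
import Pool.Agent.H71.EX.Sc
import Pool.Agent.H71.EX.Bn
import Pool.Agent.H71.EX.Sd
import Pool.Agent.H71.EX.Wn

/-!
COL: the vertex labelling.

Proof.  Let `B = Δ - 4 Δ / N ^ 8` (real), `q = ⌊(B - 1) / (4 p - 2)⌋₊`, `m0 = (4 p - 2) q + 1`. Then `m0 ≤ B`, and
`m0 > B - (4 p - 2) ≥ Δ - 5 Δ / N ^ 8`, because `4 p ≤ 4 Δ / N ^ 30 ≤ Δ / N ^ 8`. Also `m0 ≤ Δ ≤ 2 m0`. `sb`, `sc`, `bn`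
give `X`, `s`, `c`; `sd` with `e = ep (#V) p` and `wn1` gives `c'`, and `wn2` the windows. `3 N ^ 8 + 1 ≤ 4 N ^ 8`.
-/

set_option autoImplicit false

namespace Pool.Agent.H71.EX

open Finset Classical
open Pool.Agent.H71.DN

theorem col {V : Type} [Fintype V] (G : SimpleGraph V) (Δ N p : ℕ) (h : Xp G Δ N) (hp : 1 ≤ p)
    (hpN : p * N ^ 30 ≤ Δ) :
    ∃ (m0 : ℕ) (c : V → ℕ), (∀ v, c v < m0) ∧ (∀ u v, G.Adj u v → c u ≠ c v) ∧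
      (m0 : ℝ) ≤ Δ - 4 * (Δ / (N : ℝ) ^ 8) ∧
      (∀ v j, (univ.filter fun u => G.Adj v u ∧ c u = j).card ≤ 4 * N ^ 8) ∧
      ∀ t < m0 + p - 1, Even (univ \ (univ.filter fun v => c v < t + p ∧ t < c v + p)).card := by
  have hN := h.hN
  have hNr : (1000 : ℝ) ≤ N := by exact_mod_cast hN
  have hN1 : (1 : ℝ) ≤ N := by linarith
  have hN8 : (1000 : ℝ) ≤ (N : ℝ) ^ 8 := by
    calc (1000 : ℝ) ≤ N := hNr
      _ = (N : ℝ) ^ 1 := (pow_one _).symm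
      _ ≤ (N : ℝ) ^ 8 := pow_le_pow_right₀ hN1 (by norm_num)
  have hN8p : (0 : ℝ) < (N : ℝ) ^ 8 := by linarith
  have hN22 : (4 : ℝ) ≤ (N : ℝ) ^ 22 := by
    calc (4 : ℝ) ≤ N := by linarith
      _ = (N : ℝ) ^ 1 := (pow_one _).symm
      _ ≤ (N : ℝ) ^ 22 := pow_le_pow_right₀ hN1 (by norm_num)
  have hΔn : 1000 ≤ Δ := by
    calc 1000 ≤ N := hN
      _ = N ^ 1 := (pow_one _).symm
      _ ≤ N ^ 60 := Nat.pow_le_pow_right (by omega) (by norm_num)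
      _ ≤ Δ := h.hΔ
  have hΔr : (1000 : ℝ) ≤ Δ := by exact_mod_cast hΔn
  have hpr : (1 : ℝ) ≤ p := by exact_mod_cast hp
  have hpN' : (p : ℝ) * (N : ℝ) ^ 30 ≤ Δ := by exact_mod_cast hpN
  have h4p : 4 * (p : ℝ) ≤ Δ / (N : ℝ) ^ 8 := by
    rw [le_div_iff₀ hN8p]
    calc 4 * (p : ℝ) * (N : ℝ) ^ 8 = p * (4 * (N : ℝ) ^ 8) := by ring
      _ ≤ p * ((N : ℝ) ^ 22 * (N : ℝ) ^ 8) := by
          apply mul_le_mul_of_nonneg_left _ (by linarith)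
          exact mul_le_mul_of_nonneg_right hN22 hN8p.le
      _ = p * (N : ℝ) ^ 30 := by rw [← pow_add]
      _ ≤ Δ := hpN'
  have hd8 : (Δ : ℝ) / (N : ℝ) ^ 8 ≤ Δ / 1000 :=
    div_le_div_of_nonneg_left (by linarith) (by norm_num) hN8
  have hd0 : (0 : ℝ) ≤ (Δ : ℝ) / (N : ℝ) ^ 8 := by positivity
  obtain ⟨B, hB⟩ : ∃ B : ℝ, B = (Δ : ℝ) - 4 * (Δ / (N : ℝ) ^ 8) := ⟨_, rfl⟩
  have hB1 : (1 : ℝ) ≤ B := by rw [hB]; linarith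
  obtain ⟨M, hM⟩ : ∃ M : ℕ, M = 4 * p - 2 := ⟨_, rfl⟩
  have hMr : (M : ℝ) = 4 * p - 2 := by
    rw [hM, Nat.cast_sub (by omega)]; push_cast; ring
  have hM0 : (0 : ℝ) < M := by rw [hMr]; linarith
  obtain ⟨q, hq⟩ : ∃ q : ℕ, q = ⌊(B - 1) / (M : ℝ)⌋₊ := ⟨_, rfl⟩
  have hq1 : (q : ℝ) ≤ (B - 1) / M := by
    rw [hq]; exact Nat.floor_le (div_nonneg (by linarith) hM0.le)
  have hq2 : (B - 1) / M < (q : ℝ) + 1 := by
    rw [hq]; exact Nat.lt_floor_add_one _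
  rw [le_div_iff₀ hM0] at hq1
  rw [div_lt_iff₀ hM0] at hq2
  obtain ⟨m0, hm0⟩ : ∃ m0 : ℕ, m0 = (4 * p - 2) * q + 1 := ⟨_, rfl⟩
  have hm0r : (m0 : ℝ) = M * q + 1 := by
    rw [hm0, ← hM]; push_cast; ring
  have hm0B : (m0 : ℝ) ≤ B := by rw [hm0r]; linarith
  have hm0L : (Δ : ℝ) - 5 * (Δ / (N : ℝ) ^ 8) ≤ m0 := by
    rw [hm0r]
    have : (q + 1 : ℝ) * M = M * q + M := by ring
    rw [this] at hq2
    rw [hB] at hq2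
    linarith
  have hmΔ : m0 ≤ Δ := by
    have : (m0 : ℝ) ≤ Δ := by rw [hB] at hm0B; linarith
    exact_mod_cast this
  have hmΔ2 : Δ ≤ 2 * m0 := by
    have : (Δ : ℝ) ≤ 2 * m0 := by linarith
    exact_mod_cast this
  obtain ⟨X, hX⟩ := sb G Δ N m0 h hmΔ hmΔ2
  obtain ⟨s, hs⟩ := sc G Δ N m0 h hmΔ X hX
  obtain ⟨c, hc⟩ := bn G Δ N m0 h hmΔ hm0L X hX s hs
  have he : (∑ j ∈ range m0, ep (Fintype.card V) p j) % 2 = Fintype.card V % 2 := by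
    rw [hm0]; exact wn1 (Fintype.card V) p q hp
  obtain ⟨c', h1, h2, h3, h4⟩ := sd G m0 (3 * N ^ 8) s c hc (ep (Fintype.card V) p) he
  refine ⟨m0, c', h1, h2, by rw [← hB]; exact hm0B, ?_, ?_⟩
  · intro v j
    have h8 : 1 ≤ N ^ 8 := Nat.one_le_pow _ _ (by omega)
    have := h3 v j
    omega
  · intro t ht
    exact wn2 c' p q m0 hp hm0 h1 h4 t ht

end Pool.Agent.H71.EX
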