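import Mathlib
import Pool.Agent.H71.EX.Defs
import Pool.Agent.H71.EX.Rg
import Pool.Agent.H71.EX.Pi
import Pool.Agent.H71.EX.Col
import Pool.Agent.H71.DN.Fnl

/-!
MX: the labelling for `p ≤ Δ / N ^ 30`.

Proof.  `col` gives `m0`, `c`; `rg` gives `R`. `T = m0 + p - 1`, `w0 = 2 p - 1`,
`W t = univ.filter fun v => c v < t + p ∧ t < c v + p`. `Pc G R Δ N T w0 W`:
`hT`: `m0 + p - 1 ≤ Δ - 4 Δ / N ^ 8 + Δ / N ^ 30 ≤ Δ - 3 Δ / N ^ 8`; `hw`: `2 p - 1 ≤ 2 Δ / N ^ 30 ≤ Δ / N ^ 29`;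
`wc`: the `t` with `c v < t + p`, `t < c v + p` are in an interval with `2 p - 1` elements;
`wd`: `dn G v (W t) ≤ ∑ j in that interval, #{u : G.Adj v u, c u = j} ≤ (2 p - 1) 4 N ^ 8 ≤ 8 Δ / N ^ 22 ≤ Δ / N ^ 20`;
`ev`: by `col`. `pim` gives `mm`. `DN.final` with `k' = m0`, `U = W`: `hL`: `m0 ≤ Δ`; `hd`: `mm ℓ v = v` only for
`v ∈ W ℓ`, so at most `2 p - 1` labels `ℓ`, and `dg G v ≤ Δ`.
-/

set_option autoImplicit false

namespace Pool.Agent.H71.EX

open Finset Classical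
open Pool.Agent.H71.DN

private theorem Mx_int (a p : ℕ) (hp : 1 ≤ p) : (Finset.Ico (a + 1 - p) (a + p)).card ≤ 2 * p - 1 := by
  rw [Nat.card_Ico]
  omega

theorem mx {V : Type} [Fintype V] (G : SimpleGraph V) (Δ N p : ℕ) (h : Xp G Δ N) (hp : 1 ≤ p)
    (hpN : p * N ^ 30 ≤ Δ) : H70.HY.HYLab G Δ p := by
  obtain ⟨m0, c, hc, hprop, hm0, hfr, hev⟩ := col G Δ N p h hp hpN
  obtain ⟨R, hR, hrd, hrb, hrc⟩ := rg G Δ N h
  have hN : (1000 : ℝ) ≤ N := by exact_mod_cast h.hN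
  have hN0 : (0 : ℝ) < N := by linarith
  have hΔ0 : (0 : ℝ) ≤ Δ := Nat.cast_nonneg _
  have hpN' : (p : ℝ) * (N : ℝ) ^ 30 ≤ Δ := by exact_mod_cast hpN
  have hp0 : (0 : ℝ) ≤ p := Nat.cast_nonneg _
  have hpr : (p : ℝ) ≤ Δ / (N : ℝ) ^ 30 := by
    rw [le_div_iff₀ (by positivity)]
    exact hpN'
  have h8 : (Δ : ℝ) / (N : ℝ) ^ 30 ≤ Δ / (N : ℝ) ^ 8 :=
    div_le_div_of_nonneg_left hΔ0 (by positivity)
      (pow_le_pow_right₀ (by linarith) (by norm_num))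
  have hsub : ((2 * p - 1 : ℕ) : ℝ) ≤ 2 * p := by
    have : 2 * p - 1 ≤ 2 * p := Nat.sub_le _ _
    exact_mod_cast this
  obtain ⟨W, hW⟩ : ∃ W : ℕ → Finset V,
      ∀ t, W t = univ.filter fun v => c v < t + p ∧ t < c v + p := ⟨_, fun _ => rfl⟩
  have hmem : ∀ t v, v ∈ W t ↔ c v < t + p ∧ t < c v + p := by
    intro t v
    rw [hW, Finset.mem_filter]
    exact ⟨fun h => h.2, fun h => ⟨Finset.mem_univ _, h⟩⟩
  have hwc : ∀ v, ((range (m0 + p - 1)).filter fun t => v ∈ W t).card ≤ 2 * p - 1 := by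
    intro v
    refine (Finset.card_le_card fun t ht => ?_).trans (Mx_int (c v) p hp)
    rw [Finset.mem_filter, hmem] at ht
    rw [Finset.mem_Ico]
    omega
  have hP : Pc G R Δ N (m0 + p - 1) (2 * p - 1) W := by
    refine ⟨h, hR, hrd, hrb, hrc, ?_, ?_, hwc, ?_, ?_⟩
    · have h1 : ((m0 + p - 1 : ℕ) : ℝ) ≤ m0 + p := by
        have : m0 + p - 1 ≤ m0 + p := Nat.sub_le _ _
        exact_mod_cast this
      linarith
    · refine hsub.trans ?_
      rw [le_div_iff₀ (by positivity)]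
      have e1 : (2 : ℝ) * p * (N : ℝ) ^ 29 ≤ N * (p * (N : ℝ) ^ 29) := by
        have h2 : (0 : ℝ) ≤ p * (N : ℝ) ^ 29 := by positivity
        nlinarith
      have e2 : (N : ℝ) * (p * (N : ℝ) ^ 29) = p * (N : ℝ) ^ 30 := by ring
      linarith
    · intro t _ v
      have h1 : dn G v (W t) ≤ (2 * p - 1) * (4 * N ^ 8) := by
        unfold dn
        have h2 : (W t).filter (fun u => G.Adj v u) ⊆
            (Finset.Ico (t + 1 - p) (t + p)).biUnion
              fun j => univ.filter fun u => G.Adj v u ∧ c u = j := by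
          intro u hu
          rw [Finset.mem_filter, hmem] at hu
          rw [Finset.mem_biUnion]
          refine ⟨c u, ?_, ?_⟩
          · rw [Finset.mem_Ico]
            omega
          · rw [Finset.mem_filter]
            exact ⟨Finset.mem_univ _, hu.2, rfl⟩
        refine (Finset.card_le_card h2).trans ((Finset.card_biUnion_le_card_mul _ _ _
          fun j _ => hfr v j).trans ?_)
        exact Nat.mul_le_mul_right _ (Mx_int t p hp)
      have h2 : (dn G v (W t) : ℝ) ≤ ((2 * p - 1 : ℕ) : ℝ) * (4 * (N : ℝ) ^ 8) := by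
        exact_mod_cast h1
      refine h2.trans ((mul_le_mul_of_nonneg_right hsub (by positivity)).trans ?_)
      rw [le_div_iff₀ (by positivity)]
      have e1 : (2 : ℝ) * p * (4 * (N : ℝ) ^ 8) * (N : ℝ) ^ 20 = 8 * (p * (N : ℝ) ^ 28) := by ring
      have e2 : (p : ℝ) * (N : ℝ) ^ 30 = N ^ 2 * (p * (N : ℝ) ^ 28) := by ring
      have e3 : (8 : ℝ) ≤ (N : ℝ) ^ 2 := by nlinarith
      have e4 : 8 * ((p : ℝ) * (N : ℝ) ^ 28) ≤ N ^ 2 * (p * (N : ℝ) ^ 28) :=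
        mul_le_mul_of_nonneg_right e3 (by positivity)
      linarith
    · intro t ht
      rw [hW]
      exact hev t ht
  obtain ⟨mm, hPM, hmm⟩ := pim G R Δ N _ _ W hP
  have hm0' : m0 ≤ Δ := by
    have h1 : (0 : ℝ) ≤ Δ / (N : ℝ) ^ 8 := by positivity
    have h2 : (m0 : ℝ) ≤ Δ := by linarith
    exact_mod_cast h2
  refine final G Δ p m0 hp c hc hprop W mm hPM ?_ ?_ ?_
  · intro t _ v h1 h2
    rw [hmem]
    exact ⟨h1, h2⟩
  · omega
  · intro v
    have h1 : ((range (m0 + p - 1)).filter fun t => mm t v = v).card ≤ 2 * p - 1 := by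
      refine (Finset.card_le_card fun t ht => ?_).trans (hwc v)
      rw [Finset.mem_filter] at ht ⊢
      exact ⟨ht.1, hmm t (Finset.mem_range.1 ht.1) v ht.2⟩
    have h2 := h.up v
    have h3 : Δ + 2 * p - 1 = Δ + (2 * p - 1) := by omega
    rw [h3]
    exact Nat.add_le_add h2 h1

end Pool.Agent.H71.EX
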