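import Mathlib
import Pool.Agent.H71.EX.Defs
import Pool.Agent.H71.EX.Mx
import Pool.Agent.H2.HV.FIN

/-!
FIN: all `p ≥ 1`.

Proof.  `C` from `H2.HV.main_hv` (`C > 0`), `N0 = ⌈C ^ 4⌉₊ + 1000`. Let `N ≥ N0`, `Δ = G.maxDegree`, `x = (Δ : ℝ)`,
`L = Real.log x`; `2 ≤ Δ`. `Δ ≤ #V ≤ exp N` (`N ^ 20 * Δ ≤ #V`), so `0 ≤ L ≤ N`. If `C x ^ (3/4) L ^ (1/4) ≤ p`:
`main_hv`. (See `SX/MnS.lean`, `mainS`, for the form of `main_hv` and its use.) Otherwise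
`p < C x ^ (3/4) N ^ (1/4) ≤ N ^ (1/4) x ^ (3/4) N ^ (1/4) = x ^ (3/4) N ^ (1/2)` (`C ^ 4 ≤ N`), so
`p N ^ 30 ≤ x ^ (3/4) N ^ (61/2) ≤ x ^ (3/4) x ^ (1/4) = x`, because `N ^ 122 ≤ x`. So `p * N ^ 30 ≤ Δ` and `mx` applies.
-/

set_option autoImplicit false

namespace Pool.Agent.H71.EX

open Finset Classical
open Pool.Agent.H71.DN

private theorem exf_root (x : ℝ) (hx : 0 ≤ x) : 0 ≤ x ^ (1 / 4 : ℝ) ∧ (x ^ (1 / 4 : ℝ)) ^ 4 = x ∧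
    x ^ (3 / 4 : ℝ) = (x ^ (1 / 4 : ℝ)) ^ 3 := by
  refine ⟨Real.rpow_nonneg hx _, ?_, ?_⟩
  · rw [← Real.rpow_natCast, ← Real.rpow_mul hx]
    norm_num
  · rw [← Real.rpow_natCast, ← Real.rpow_mul hx]
    norm_num

private theorem exf_num (C : ℝ) (hC : 0 < C) (N p D : ℕ) (hCN : C ^ 4 ≤ (N : ℝ))
    (hND : N ^ 122 ≤ D) (L : ℝ) (hL0 : 0 ≤ L) (hLN : L ≤ N)
    (hp : (p : ℝ) < C * (D : ℝ) ^ (3 / 4 : ℝ) * L ^ (1 / 4 : ℝ)) : p * N ^ 30 ≤ D := by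
  obtain ⟨hy0, hy4, hy3⟩ := exf_root (D : ℝ) (Nat.cast_nonneg _)
  obtain ⟨hn0, hn4, -⟩ := exf_root (N : ℝ) (Nat.cast_nonneg _)
  have hl : L ^ (1 / 4 : ℝ) ≤ (N : ℝ) ^ (1 / 4 : ℝ) :=
    Real.rpow_le_rpow hL0 hLN (by norm_num)
  have hl0 : 0 ≤ L ^ (1 / 4 : ℝ) := Real.rpow_nonneg hL0 _
  rw [hy3] at hp
  obtain ⟨y, hy⟩ : ∃ y : ℝ, y = (D : ℝ) ^ (1 / 4 : ℝ) := ⟨_, rfl⟩
  obtain ⟨n, hn⟩ : ∃ n : ℝ, n = (N : ℝ) ^ (1 / 4 : ℝ) := ⟨_, rfl⟩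
  obtain ⟨l, hld⟩ : ∃ l : ℝ, l = L ^ (1 / 4 : ℝ) := ⟨_, rfl⟩
  rw [← hy] at hy0 hy4 hp
  rw [← hn] at hn0 hn4 hl
  rw [← hld] at hl hl0 hp
  have hCn : C ≤ n := by
    have h1 : C ^ 4 ≤ n ^ 4 := by rw [hn4]; exact hCN
    exact (pow_le_pow_iff_left₀ hC.le hn0 (by norm_num)).mp h1
  have hny : n ^ 122 ≤ y := by
    have h1 : (n ^ 122) ^ 4 ≤ y ^ 4 := by
      have h2 : ((N : ℝ)) ^ 122 ≤ (D : ℝ) := by exact_mod_cast hND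
      have h3 : (n ^ 122) ^ 4 = (n ^ 4) ^ 122 := by rw [← pow_mul, ← pow_mul]
      rw [h3, hn4, hy4]
      exact h2
    exact (pow_le_pow_iff_left₀ (pow_nonneg hn0 _) hy0 (by norm_num)).mp h1
  have hy30 : 0 ≤ y ^ 3 := pow_nonneg hy0 3
  have hp1 : (p : ℝ) ≤ n ^ 2 * y ^ 3 := by
    have h1 : C * y ^ 3 * l ≤ n * y ^ 3 * n := by
      apply mul_le_mul _ hl hl0 (mul_nonneg hn0 hy30)
      exact mul_le_mul_of_nonneg_right hCn hy30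
    have h2 : n * y ^ 3 * n = n ^ 2 * y ^ 3 := by ring
    rw [h2] at h1
    exact hp.le.trans h1
  have h3 : (p : ℝ) * (N : ℝ) ^ 30 ≤ (D : ℝ) := by
    have h4 : (N : ℝ) ^ 30 = n ^ 120 := by rw [← hn4, ← pow_mul]
    rw [h4, ← hy4]
    calc (p : ℝ) * n ^ 120 ≤ n ^ 2 * y ^ 3 * n ^ 120 :=
          mul_le_mul_of_nonneg_right hp1 (pow_nonneg hn0 _)
      _ = n ^ 122 * y ^ 3 := by
          have : n ^ 122 = n ^ 2 * n ^ 120 := by rw [← pow_add]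
          rw [this]; ring
      _ ≤ y * y ^ 3 := mul_le_mul_of_nonneg_right hny hy30
      _ = y ^ 4 := by ring
  exact_mod_cast h3

theorem mainX : ∃ N0 : ℕ, 1000 ≤ N0 ∧ ∀ (V : Type) [Fintype V] (G : SimpleGraph V)
    [DecidableRel G.Adj] (N p : ℕ), N0 ≤ N → N ^ 122 ≤ G.maxDegree → 1 ≤ p →
    Xp G G.maxDegree N → H70.HY.HYLab G G.maxDegree p := by
  obtain ⟨C, hC, hCH⟩ := H2.HV.main_hv
  refine ⟨⌈C ^ 4⌉₊ + 1000, by omega, ?_⟩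
  intro V _ G _ N p hN hND hp h
  obtain ⟨D, hD⟩ : ∃ D, D = G.maxDegree := ⟨_, rfl⟩
  have hbig := hCH V G p
  rw [← hD] at hND h hbig ⊢
  have hN1 : 1000 ≤ N := by omega
  have hD2 : 2 ≤ D := by
    have h1 : N ^ 1 ≤ N ^ 122 := Nat.pow_le_pow_right (by omega) (by norm_num)
    rw [pow_one] at h1
    omega
  have hD0 : (0 : ℝ) < D := by
    have : 0 < D := by omega
    exact_mod_cast this
  have hCN : C ^ 4 ≤ (N : ℝ) := by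
    have h1 : C ^ 4 ≤ (⌈C ^ 4⌉₊ : ℝ) := Nat.le_ceil _
    have h2 : ⌈C ^ 4⌉₊ ≤ N := by omega
    exact h1.trans (by exact_mod_cast h2)
  have hDe : (D : ℝ) ≤ Real.exp N := by
    have h1 : 1 * D ≤ N ^ 20 * D := Nat.mul_le_mul_right _ (Nat.one_le_pow _ _ (by omega))
    have h2 : D ≤ Fintype.card V := by
      have h3 := h.n1
      omega
    have h3 : (D : ℝ) ≤ (Fintype.card V : ℝ) := by exact_mod_cast h2
    exact h3.trans h.n2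
  have hL0 : 0 ≤ Real.log D := Real.log_natCast_nonneg _
  have hLN : Real.log D ≤ N := by
    have h1 := Real.log_le_log hD0 hDe
    rwa [Real.log_exp] at h1
  by_cases hc : C * (D : ℝ) ^ (3 / 4 : ℝ) * (Real.log D) ^ (1 / 4 : ℝ) ≤ (p : ℝ)
  · exact hbig hD2 hc
  · push Not at hc
    exact mx G D N p h hp (exf_num C hC N p D hCN hND _ hL0 hLN hc)

end Pool.Agent.H71.EX
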